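import Pool.Agent.Work.MP_7d0410_dl.Interface

/-! # Block BO1: rational approximation from many small values -/

set_option autoImplicit false

namespace Pool.Agent.Work.MP_7d0410_dl

open Finset Filter MeasureTheory ProbabilityTheory
open scoped Classical Topology

/-- two elements at distance at most `2 Λ` -/
theorem BO1_pair (B : Finset ℕ) (u Y : ℕ) (Λ : ℝ) (hB : ∀ z ∈ B, u < z ∧ z ≤ u + Y) (hΛ : 1 ≤ Λ)
    (hc : 3 * (Y : ℝ) ≤ 4 * Λ * B.card) (hY : 64 * Λ ^ 2 ≤ Y) :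
    ∃ z ∈ B, ∃ z' ∈ B, z < z' ∧ ((z' - z : ℕ) : ℝ) ≤ 2 * Λ := by
  by_contra hcon
  push Not at hcon
  have hfl : 2 * Λ < (⌊2 * Λ⌋₊ : ℝ) + 1 := Nat.lt_floor_add_one _
  set D : ℕ := ⌊2 * Λ⌋₊ + 1 with hD
  have hDr : 2 * Λ < (D : ℝ) := by
    rw [hD]
    push_cast
    exact hfl
  have hD1 : 1 ≤ D := by omega
  have hlt : ∀ z ∈ B, ∀ z' ∈ B, z < z' → D ≤ z' - z := by
    intro z hz z' hz' h
    have h1 := hcon z hz z' hz' h
    have h2 : ⌊2 * Λ⌋₊ < z' - z := (Nat.floor_lt (by linarith)).2 h1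
    omega
  have hinj : Set.InjOn (fun z => (z - u - 1) / D) (B : Set ℕ) := by
    intro z hz z' hz' h
    have h0 : (z - u - 1) / D = (z' - u - 1) / D := h
    have hz1 := hB z hz
    have hz2 := hB z' hz'
    have e1 := Nat.div_add_mod (z - u - 1) D
    have e2 := Nat.div_add_mod (z' - u - 1) D
    have m1 := Nat.mod_lt (z - u - 1) (show 0 < D by omega)
    have m2 := Nat.mod_lt (z' - u - 1) (show 0 < D by omega)
    rw [h0] at e1
    rcases lt_trichotomy z z' with h3 | h3 | h3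
    · have := hlt z hz z' hz' h3
      omega
    · exact h3
    · have := hlt z' hz' z hz h3
      omega
  have hY0 : (0 : ℝ) < Y := lt_of_lt_of_le (by positivity) hY
  have hY1 : 1 ≤ Y := by
    have : 0 < Y := by exact_mod_cast hY0
    omega
  have hcard : B.card ≤ Y / D + 1 := by
    rw [← Finset.card_image_of_injOn hinj]
    refine (Finset.card_le_card (t := Finset.range (Y / D + 1)) ?_).trans (by simp)
    intro w hw
    obtain ⟨z, hz, rfl⟩ := Finset.mem_image.1 hw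
    rw [Finset.mem_range]
    have h1 := hB z hz
    have h2 : (z - u - 1) / D ≤ Y / D := Nat.div_le_div_right (by omega)
    omega
  have h1 : (B.card : ℝ) ≤ (Y : ℝ) / (2 * Λ) + 1 := by
    have h2 : (B.card : ℝ) ≤ ((Y / D : ℕ) : ℝ) + 1 := by exact_mod_cast hcard
    have h3 : ((Y / D : ℕ) : ℝ) ≤ (Y : ℝ) / D := Nat.cast_div_le
    have h4 : (Y : ℝ) / D ≤ (Y : ℝ) / (2 * Λ) :=
      div_le_div_of_nonneg_left hY0.le (by linarith) hDr.le
    linarith
  have h2 : 4 * Λ * B.card ≤ 4 * Λ * ((Y : ℝ) / (2 * Λ) + 1) :=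
    mul_le_mul_of_nonneg_left h1 (by linarith)
  have h3 : 4 * Λ * ((Y : ℝ) / (2 * Λ) + 1) = 2 * Y + 4 * Λ := by
    field_simp
    ring
  rw [h3] at h2
  nlinarith

theorem p_BO1 : Stmt_BO1 := by
  intro B u Y Λ s θ α hB hΛ hc hY hs
  obtain ⟨z, hz, z', hz', hlt, hd⟩ := BO1_pair B u Y Λ (fun z hz => ⟨(hB z hz).1, (hB z hz).2.1⟩)
    hΛ hc hY
  obtain ⟨d, rfl⟩ : ∃ d, z' = z + d := ⟨z' - z, by omega⟩
  have hd1 : 1 ≤ d := by omega
  rw [Nat.add_sub_cancel_left] at hd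
  have hdR : (1 : ℝ) ≤ d := by exact_mod_cast hd1
  have h1 : dn (α * d) ≤ 2 * s := by
    have h2 := dn_sub (θ + α * ((z + d : ℕ) : ℝ)) (θ + α * z)
    have h3 : θ + α * ((z + d : ℕ) : ℝ) - (θ + α * z) = α * d := by
      push_cast
      ring
    rw [h3] at h2
    have h4 := (hB _ hz').2.2
    have h5 := (hB _ hz).2.2
    linarith
  obtain ⟨k, hk⟩ := dn_eq (α * d)
  rw [hk] at h1
  set r : ℚ := (k : ℚ) / ((d : ℤ) : ℚ) with hr
  have hqd : r.den ∣ d := by
    have := Rat.den_dvd k (d : ℤ)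
    rw [Rat.divInt_eq_div] at this
    exact Int.natCast_dvd_natCast.1 this
  have hq1 : 1 ≤ r.den := r.pos
  have hqle : r.den ≤ d := Nat.le_of_dvd hd1 hqd
  have hco : IsCoprime r.num (r.den : ℤ) := by
    rw [Int.isCoprime_iff_gcd_eq_one]
    exact r.reduced
  have hmod : r.num % (r.den : ℤ) = r.num + (r.den : ℤ) * (-(r.num / (r.den : ℤ))) := by
    rw [Int.emod_def]
    ring
  have hnn : 0 ≤ r.num % (r.den : ℤ) := Int.emod_nonneg _ (by omega)
  have hlt' : r.num % (r.den : ℤ) < r.den := Int.emod_lt_of_pos _ (by omega)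
  obtain ⟨a, ha⟩ := Int.eq_ofNat_of_zero_le hnn
  have hco2 : IsCoprime (a : ℤ) (r.den : ℤ) := by
    rw [← ha, hmod]
    exact hco.add_mul_left_left _
  have hrR : (k : ℝ) / d = (r.num : ℝ) / r.den := by
    have h2 : ((r : ℚ) : ℝ) = (r.num : ℝ) / r.den := by
      conv_lhs => rw [← Rat.num_div_den r]
      push_cast
      rfl
    rw [← h2, hr]
    push_cast
    rfl
  have hnum : (r.num : ℝ) = a + (r.den : ℝ) * ((r.num / (r.den : ℤ) : ℤ) : ℝ) := by
    have h3 : r.num = (a : ℤ) + (r.den : ℤ) * (r.num / (r.den : ℤ)) := by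
      rw [← ha]
      exact (Int.emod_add_mul_ediv _ _).symm
    have h4 := congrArg (fun t : ℤ => (t : ℝ)) h3
    push_cast at h4
    exact h4
  have hden0 : (0 : ℝ) < r.den := by exact_mod_cast hq1
  refine ⟨r.den, a, (α * d - k) / d, r.num / (r.den : ℤ), hq1, ?_, ?_, ?_, ?_, ?_⟩
  · have : (r.den : ℝ) ≤ d := by exact_mod_cast hqle
    linarith
  · rw [ha] at hlt'
    exact_mod_cast hlt'
  · exact Nat.isCoprime_iff_coprime.1 hco2
  · have h2 : α = k / d + (α * d - k) / d := by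
      field_simp
      ring
    have h3 : (k : ℝ) / d = a / r.den + ((r.num / (r.den : ℤ) : ℤ) : ℝ) := by
      rw [hrR, hnum]
      field_simp
    rw [h3] at h2
    linarith
  · rw [abs_div, abs_of_pos (show (0 : ℝ) < d by linarith), div_mul_eq_mul_div,
      div_le_iff₀ (by linarith)]
    have h2 : (r.den : ℝ) ≤ d := by exact_mod_cast hqle
    exact mul_le_mul h1 h2 hden0.le (by linarith)

end Pool.Agent.Work.MP_7d0410_dl
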