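import Pool.Agent.Work.MP_7d0410_dl.Interface

/-!
# Block BO2: the frequency is very close to a rational number (helper63)
-/

set_option autoImplicit false

namespace Pool.Agent.Work.MP_7d0410_dl

open Finset Filter MeasureTheory ProbabilityTheory
open Pool.Agent.Work.MP_7d0410_cr (seg sm len runs rr good gr cnt DD meet AB PP CountReg NN a0 UU SS
  AA repCount)
open Pool.Agent.Work.MP_7d0410_sp (Prob wt Ex Pb hh gg HH T1 T2 A1 A2 VV G1 R1 LL pin F0 XX)
open scoped Classical Topology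

lemma BO2_dn (z q a : ℕ) (θ β : ℝ) (hq : 1 ≤ q) :
    dn (θ + ((a : ℝ) / q + β) * z) = dn ((θ + (a : ℝ) * (z % q : ℕ) / q) + β * z) := by
  have hq0 : (q : ℝ) ≠ 0 := by
    have : (1 : ℝ) ≤ q := by exact_mod_cast hq
    linarith
  have hz : (z : ℝ) = q * (z / q : ℕ) + (z % q : ℕ) := by
    have := Nat.div_add_mod z q
    exact_mod_cast this.symm
  have h1 : θ + ((a : ℝ) / q + β) * z =
      ((θ + (a : ℝ) * (z % q : ℕ) / q) + β * z) + (((a * (z / q) : ℕ) : ℤ) : ℝ) := by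
    rw [Int.cast_natCast, Nat.cast_mul]
    have h2 : (a : ℝ) / q * z = (a : ℝ) * (z % q : ℕ) / q + a * (z / q : ℕ) := by
      rw [hz]
      field_simp
      have h3 : (q * (z / q : ℕ) + (z % q : ℕ)) % q = z % q := by
        rw [Nat.mul_add_mod, Nat.mod_mod]
      have h4 : (q * (z / q : ℕ) + (z % q : ℕ)) / q = z / q := by
        rw [Nat.div_add_mod]
      ring
    rw [add_mul, h2]
    ring
  rw [h1, dn_add_int]

theorem p_BO2 (hBO3 : Stmt_BO3) : Stmt_BO2 := by
  intro B u Y q a Λ s θ β hB hq hqΛ hΛ hY hYΛ hs hsΛ hβq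
  by_contra hcon
  rw [not_le] at hcon
  have hΛ0 : 0 < Λ := by linarith
  have hqr : (1 : ℝ) ≤ q := by exact_mod_cast hq
  have hq0 : (0 : ℝ) < q := by linarith
  have hY0 : (0 : ℝ) < Y := lt_of_lt_of_le (by positivity) hYΛ
  have hβY : 0 < |β| * Y := lt_of_le_of_lt (by positivity) hcon
  have hβ0 : 0 < |β| := by
    by_contra h
    have : |β| = 0 := le_antisymm (not_lt.1 h) (abs_nonneg _)
    rw [this, zero_mul] at hβY
    exact lt_irrefl _ hβY
  have hβne : β ≠ 0 := abs_pos.1 hβ0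
  have hΛ2 : Λ ≤ Λ ^ 2 := by nlinarith
  have hs4 : s ≤ 1 / 4 := by nlinarith
  -- counting
  have hcard : (B.card : ℝ) ≤ q * ((|β| * Y + 2) * (2 * s / (|β| * q) + 1)) := by
    have h1 : B.card = ∑ ρ ∈ Finset.range q, (B.filter (fun z => z % q = ρ)).card :=
      Finset.card_eq_sum_card_fiberwise (fun z _ => by
        simpa using Nat.mod_lt z (by omega))
    rw [h1]
    push_cast
    have h2 : ∀ ρ ∈ Finset.range q, ((B.filter (fun z => z % q = ρ)).card : ℝ) ≤
        (|β| * Y + 2) * (2 * s / (|β| * q) + 1) := by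
      intro ρ _
      refine le_trans ?_ (hBO3 u Y q ρ (θ + (a : ℝ) * ρ / q) β s hq hβne hs.le hs4)
      have h3 : B.filter (fun z => z % q = ρ) ⊆ (Finset.Ioc u (u + Y)).filter
          (fun z : ℕ => z % q = ρ ∧ dn ((θ + (a : ℝ) * ρ / q) + β * z) ≤ s) := by
        intro z hz
        rw [Finset.mem_filter] at hz
        obtain ⟨b1, b2, b3⟩ := hB z hz.1
        rw [Finset.mem_filter, Finset.mem_Ioc]
        refine ⟨⟨b1, b2⟩, hz.2, ?_⟩
        rw [BO2_dn z q a θ β hq, hz.2] at b3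
        exact b3
      exact_mod_cast Finset.card_le_card h3
    refine (Finset.sum_le_sum h2).trans ?_
    rw [Finset.sum_const, Finset.card_range, nsmul_eq_mul]
  have he : (q : ℝ) * ((|β| * Y + 2) * (2 * s / (|β| * q) + 1)) =
      2 * s * Y + (|β| * q) * Y + 4 * s / |β| + 2 * q := by
    field_simp
    ring
  rw [he] at hcard
  have e1 : (|β| * q) * Y ≤ 2 * s * Y := mul_le_mul_of_nonneg_right hβq hY0.le
  have e2 : 4 * s / |β| ≤ Y / (4 * Λ) := by
    rw [div_le_div_iff₀ hβ0 (by positivity)]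
    nlinarith
  have e3 : 4 * s * Y ≤ Y / (16 * Λ) := by
    rw [le_div_iff₀ (by positivity)]
    have : 64 * Λ * s ≤ 1 := by nlinarith
    nlinarith
  have e4 : 4 * Λ ≤ Y / (16 * Λ) := by
    rw [le_div_iff₀ (by positivity)]
    nlinarith
  have e5 : 3 * (Y : ℝ) / (4 * Λ) ≤ B.card := by
    rw [div_le_iff₀ (by positivity)]
    linarith
  have e6 : (Y : ℝ) / (16 * Λ) = (Y / Λ) / 16 := by
    field_simp
  have e7 : (Y : ℝ) / (4 * Λ) = (Y / Λ) / 4 := by
    field_simp
  have e8 : 3 * (Y : ℝ) / (4 * Λ) = 3 * (Y / Λ) / 4 := by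
    field_simp
  rw [e6] at e3 e4
  rw [e7] at e2
  rw [e8] at e5
  have e9 : (0 : ℝ) < Y / Λ := by positivity
  linarith

end Pool.Agent.Work.MP_7d0410_dl
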