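import Pool.Agent.Work.MP_7d0410_dl.Interface

/-! # MP_7d0410, random subsets of the primes: block BO3, linear phases in a residue class -/

set_option autoImplicit false

namespace Pool.Agent.Work.MP_7d0410_dl

open Finset

/-- a set of integers in a residue class and in a short interval -/
lemma BO3_class (T : Finset ℕ) (q ρ : ℕ) (b s : ℝ) (hq : 1 ≤ q) (hb : 0 < b) (hs : 0 ≤ s)
    (h1 : ∀ z ∈ T, z % q = ρ) (h2 : ∀ z ∈ T, ∀ z' ∈ T, z ≤ z' → b * ((z' : ℝ) - z) ≤ 2 * s) :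
    (T.card : ℝ) ≤ 2 * s / (b * q) + 1 := by
  have hq0 : (0 : ℝ) < q := by exact_mod_cast hq
  rcases T.eq_empty_or_nonempty with hT | hT
  · rw [hT, Finset.card_empty, Nat.cast_zero]
    positivity
  · have hz0 := T.min'_mem hT
    have hz1 := T.max'_mem hT
    obtain ⟨z0, hz0'⟩ : ∃ z0, z0 = T.min' hT := ⟨_, rfl⟩
    obtain ⟨z1, hz1'⟩ : ∃ z1, z1 = T.max' hT := ⟨_, rfl⟩
    rw [← hz0'] at hz0
    rw [← hz1'] at hz1
    have hmin : ∀ z ∈ T, z0 ≤ z := fun z hz => by
      rw [hz0']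
      exact Finset.min'_le _ _ hz
    have hmax : ∀ z ∈ T, z ≤ z1 := fun z hz => by
      rw [hz1']
      exact Finset.le_max' _ _ hz
    have hsub : T ⊆ (Finset.range ((z1 - z0) / q + 1)).image (fun k => z0 + q * k) := by
      intro z hz
      have h3 := hmin z hz
      have h4 := hmax z hz
      have h5 : (z - z0) % q = 0 := by
        have h6 : z ≡ z0 [MOD q] := by
          unfold Nat.ModEq
          rw [h1 z hz, h1 z0 hz0]
        exact (Nat.modEq_iff_dvd' h3).1 h6.symm |> Nat.mod_eq_zero_of_dvd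
      refine Finset.mem_image.2 ⟨(z - z0) / q, Finset.mem_range.2 ?_, ?_⟩
      · have := Nat.div_le_div_right (c := q) (show z - z0 ≤ z1 - z0 by omega)
        omega
      · have := Nat.mul_div_cancel' (Nat.dvd_of_mod_eq_zero h5)
        show z0 + q * ((z - z0) / q) = z
        omega
    have h3 : T.card ≤ (z1 - z0) / q + 1 := by
      have := (Finset.card_le_card hsub).trans Finset.card_image_le
      rwa [Finset.card_range] at this
    have h4 : (((z1 - z0) / q : ℕ) : ℝ) ≤ ((z1 - z0 : ℕ) : ℝ) / q := Nat.cast_div_le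
    have h5 : z0 ≤ z1 := hmin z1 hz1
    have h6 : ((z1 - z0 : ℕ) : ℝ) = (z1 : ℝ) - z0 := Nat.cast_sub h5
    have h7 := h2 z0 hz0 z1 hz1 h5
    have h8 : ((z1 : ℝ) - z0) / q ≤ 2 * s / (b * q) := by
      rw [div_le_div_iff₀ hq0 (by positivity)]
      nlinarith
    have h9 : (T.card : ℝ) ≤ (((z1 - z0) / q : ℕ) : ℝ) + 1 := by exact_mod_cast h3
    rw [h6] at h4
    linarith

/-- the number of integers in an interval -/
lemma BO3_int (I : Finset ℤ) (A B : ℝ) (hAB : A ≤ B + 1)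
    (h : ∀ m ∈ I, A ≤ (m : ℝ) ∧ (m : ℝ) ≤ B) : (I.card : ℝ) ≤ B - A + 1 := by
  have hsub : I ⊆ Finset.Icc ⌈A⌉ ⌊B⌋ := by
    intro m hm
    exact Finset.mem_Icc.2 ⟨Int.ceil_le.2 (h m hm).1, Int.le_floor.2 (h m hm).2⟩
  have h1 := Finset.card_le_card hsub
  rw [Int.card_Icc] at h1
  have h2 : (((⌊B⌋ + 1 - ⌈A⌉).toNat : ℕ) : ℝ) ≤ B - A + 1 := by
    have h3 := Int.floor_le B
    have h4 := Int.le_ceil A
    rcases le_total 0 (⌊B⌋ + 1 - ⌈A⌉) with h5 | h5
    · have h6 : (((⌊B⌋ + 1 - ⌈A⌉).toNat : ℤ) : ℝ) = ((⌊B⌋ + 1 - ⌈A⌉ : ℤ) : ℝ) := by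
        rw [Int.toNat_of_nonneg h5]
      rw [Int.cast_natCast] at h6
      rw [h6]
      push_cast
      linarith
    · rw [Int.toNat_of_nonpos h5]
      push_cast
      linarith
  have h3 : (I.card : ℝ) ≤ (((⌊B⌋ + 1 - ⌈A⌉).toNat : ℕ) : ℝ) := by exact_mod_cast h1
  linarith

/-- BO3 -/
theorem p_BO3 : Stmt_BO3 := by
  intro u Y q ρ θ β s hq hβ hs hs4
  have hb : 0 < |β| := abs_pos.2 hβ
  have hq0 : (0 : ℝ) < q := by exact_mod_cast hq
  obtain ⟨T, hT⟩ : ∃ T : Finset ℕ, T = (Finset.Ioc u (u + Y)).filter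
      (fun z : ℕ => z % q = ρ ∧ dn (θ + β * z) ≤ s) := ⟨_, rfl⟩
  rw [← hT]
  have hmem : ∀ z ∈ T, u < z ∧ z ≤ u + Y ∧ z % q = ρ ∧ dn (θ + β * z) ≤ s := by
    intro z hz
    rw [hT, Finset.mem_filter, Finset.mem_Ioc] at hz
    exact ⟨hz.1.1, hz.1.2, hz.2.1, hz.2.2⟩
  have h1 := Finset.card_eq_sum_card_image (fun z : ℕ => round (θ + β * z)) T
  have h2 : (T.card : ℝ) = ∑ m ∈ T.image (fun z : ℕ => round (θ + β * z)),
      ((T.filter (fun z : ℕ => round (θ + β * z) = m)).card : ℝ) := by exact_mod_cast h1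
  have h3 : ∀ m ∈ T.image (fun z : ℕ => round (θ + β * z)),
      ((T.filter (fun z : ℕ => round (θ + β * z) = m)).card : ℝ) ≤ 2 * s / (|β| * q) + 1 := by
    intro m _
    refine BO3_class _ q ρ |β| s hq hb hs (fun z hz => (hmem z (Finset.mem_filter.1 hz).1).2.2.1) ?_
    intro z hz z' hz' hzz
    obtain ⟨g1, g2⟩ := Finset.mem_filter.1 hz
    obtain ⟨f1, f2⟩ := Finset.mem_filter.1 hz'
    have g3 := (hmem z g1).2.2.2
    have f3 := (hmem z' f1).2.2.2
    unfold dn at g3 f3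
    rw [g2] at g3
    rw [f2] at f3
    have h4 : (z : ℝ) ≤ z' := by exact_mod_cast hzz
    have h5 : |β| * ((z' : ℝ) - z) = |β * (z' - z)| := by
      rw [abs_mul, abs_of_nonneg (sub_nonneg.2 h4)]
    rw [h5]
    have h6 : β * ((z' : ℝ) - z) = (θ + β * z' - m) - (θ + β * z - m) := by ring
    rw [h6]
    have h7 := abs_sub (θ + β * z' - m) (θ + β * z - m)
    linarith
  have h4 : (((T.image (fun z : ℕ => round (θ + β * z))).card : ℕ) : ℝ) ≤ |β| * Y + 2 := by
    have h5 := BO3_int (T.image (fun z : ℕ => round (θ + β * z)))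
      (min (θ + β * u) (θ + β * (u + Y)) - s) (max (θ + β * u) (θ + β * (u + Y)) + s)
      (by
        have := min_le_max (a := θ + β * u) (b := θ + β * ((u : ℝ) + Y))
        linarith)
      (by
        intro m hm
        obtain ⟨z, hz, rfl⟩ := Finset.mem_image.1 hm
        obtain ⟨g1, g2, -, g4⟩ := hmem z hz
        have g1' : (u : ℝ) ≤ z := by exact_mod_cast g1.le
        have g2' : (z : ℝ) ≤ u + Y := by exact_mod_cast g2
        unfold dn at g4
        obtain ⟨k1, k2⟩ := abs_le.1 g4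
        rcases le_total 0 β with h0 | h0
        · have e1 : θ + β * u ≤ θ + β * z := by nlinarith
          have e2 : θ + β * z ≤ θ + β * (u + Y) := by nlinarith
          have e3 := min_le_left (θ + β * u) (θ + β * ((u : ℝ) + Y))
          have e4 := le_max_right (θ + β * u) (θ + β * ((u : ℝ) + Y))
          constructor <;> linarith
        · have e1 : θ + β * z ≤ θ + β * u := by nlinarith
          have e2 : θ + β * (u + Y) ≤ θ + β * z := by nlinarith
          have e3 := min_le_right (θ + β * u) (θ + β * ((u : ℝ) + Y))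
          have e4 := le_max_left (θ + β * u) (θ + β * ((u : ℝ) + Y))
          constructor <;> linarith)
    have h6 : max (θ + β * u) (θ + β * ((u : ℝ) + Y)) - min (θ + β * u) (θ + β * ((u : ℝ) + Y)) =
        |β| * Y := by
      rw [max_sub_min_eq_abs]
      have : θ + β * ((u : ℝ) + Y) - (θ + β * u) = β * Y := by ring
      rw [this, abs_mul, abs_of_nonneg (show (0 : ℝ) ≤ Y from Nat.cast_nonneg Y)]
    linarith
  rw [h2]
  calc ∑ m ∈ T.image (fun z : ℕ => round (θ + β * z)),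
        ((T.filter (fun z : ℕ => round (θ + β * z) = m)).card : ℝ)
      ≤ ∑ _m ∈ T.image (fun z : ℕ => round (θ + β * z)), (2 * s / (|β| * q) + 1) :=
        Finset.sum_le_sum h3
    _ = (((T.image (fun z : ℕ => round (θ + β * z))).card : ℕ) : ℝ) * (2 * s / (|β| * q) + 1) := by
        rw [Finset.sum_const, nsmul_eq_mul]
    _ ≤ (|β| * Y + 2) * (2 * s / (|β| * q) + 1) := by
        refine mul_le_mul_of_nonneg_right h4 ?_
        positivity

end Pool.Agent.Work.MP_7d0410_dl
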