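import Pool.Agent.Work.MP_7d0410_dl.Interface

/-!
# Block BOH: the frequencies where the Fourier transform is not small
-/

set_option autoImplicit false

namespace Pool.Agent.Work.MP_7d0410_dl

open Finset
open scoped Classical

theorem p_BOH (hBO1 : Stmt_BO1) (hBO2 : Stmt_BO2) : Stmt_BOH := by
  intro M u Y Λ s θ α hM hΛ hu hY hY2 hs hsm hsum
  obtain ⟨B, hB⟩ : ∃ B, B = M.filter (fun z : ℕ => dn (θ + α * z) ≤ s) := ⟨_, rfl⟩
  have hBm : ∀ z ∈ B, z ∈ M ∧ dn (θ + α * z) ≤ s := by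
    intro z hz
    rw [hB, Finset.mem_filter] at hz
    exact hz
  have hcard : 3 * (M.card : ℝ) ≤ 4 * B.card := by
    have h1 : (M.filter (fun z : ℕ => dn (θ + α * z) ≤ s)).card +
        (M.filter (fun z : ℕ => ¬ dn (θ + α * z) ≤ s)).card = M.card :=
      Finset.card_filter_add_card_filter_not _
    rw [← hB] at h1
    have h2 : ((M.filter (fun z : ℕ => ¬ dn (θ + α * z) ≤ s)).card : ℝ) * s ^ 2 ≤
        ∑ z ∈ M, dn (θ + α * z) ^ 2 := by
      calc ((M.filter (fun z : ℕ => ¬ dn (θ + α * z) ≤ s)).card : ℝ) * s ^ 2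
          = ∑ z ∈ M.filter (fun z : ℕ => ¬ dn (θ + α * z) ≤ s), s ^ 2 := by
            rw [Finset.sum_const, nsmul_eq_mul]
        _ ≤ ∑ z ∈ M.filter (fun z : ℕ => ¬ dn (θ + α * z) ≤ s), dn (θ + α * z) ^ 2 := by
            refine Finset.sum_le_sum fun z hz => ?_
            have h3 := (Finset.mem_filter.1 hz).2
            push Not at h3
            exact pow_le_pow_left₀ hs.le h3.le 2
        _ ≤ ∑ z ∈ M, dn (θ + α * z) ^ 2 :=
            Finset.sum_le_sum_of_subset_of_nonneg (Finset.filter_subset _ _)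
              (fun _ _ _ => sq_nonneg _)
    have h4 : ((M.filter (fun z : ℕ => ¬ dn (θ + α * z) ≤ s)).card : ℝ) ≤ M.card / 4 := by
      have h5 := h2.trans hsum
      have h6 : s ^ 2 * ((M.filter (fun z : ℕ => ¬ dn (θ + α * z) ≤ s)).card : ℝ) ≤
          s ^ 2 * (M.card / 4) := by linarith
      exact le_of_mul_le_mul_left h6 (by positivity)
    have h7 : (B.card : ℝ) + ((M.filter (fun z : ℕ => ¬ dn (θ + α * z) ≤ s)).card : ℝ) =
        M.card := by exact_mod_cast h1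
    linarith
  have h3Y : 3 * (Y : ℝ) ≤ 4 * Λ * B.card := by nlinarith
  obtain ⟨q, a, β, m, hq1, hq2, haq, hco, hα, hβ⟩ := hBO1 B u Y Λ s θ α
    (fun z hz => ⟨(hM z (hBm z hz).1).2.1, (hM z (hBm z hz).1).2.2, (hBm z hz).2⟩) hΛ h3Y hY2 hs
  have hβY : |β| * Y ≤ 16 * s * Λ := by
    refine hBO2 B u Y q a Λ s θ β (fun z hz => ⟨(hM z (hBm z hz).1).2.1,
      (hM z (hBm z hz).1).2.2, ?_⟩) hq1 hq2 hΛ h3Y hY2 hs hsm hβ
    have h1 := (hBm z hz).2
    have h2 : θ + α * z = (θ + ((a : ℝ) / q + β) * z) + ((m * z : ℤ) : ℝ) := by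
      rw [hα]
      push_cast
      ring
    rw [h2, dn_add_int] at h1
    exact h1
  have hYpos : (0 : ℝ) < Y := by nlinarith
  obtain ⟨z0, hz0⟩ : B.Nonempty := by
    rw [Finset.nonempty_iff_ne_empty]
    intro h
    rw [h, Finset.card_empty, Nat.cast_zero, mul_zero] at h3Y
    linarith
  obtain ⟨hz0M, hz0d⟩ := hBm z0 hz0
  obtain ⟨hp, hz0u, hz0Y⟩ := hM z0 hz0M
  have hqz : q < z0 := by
    have h1 : (q : ℝ) < z0 := by
      have h2 : (u : ℝ) < z0 := by exact_mod_cast hz0u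
      linarith
    exact_mod_cast h1
  have hcop : Nat.Coprime q z0 := by
    rw [Nat.coprime_comm, Nat.Prime.coprime_iff_not_dvd hp]
    intro h
    exact absurd (Nat.le_of_dvd hq1 h) (by omega)
  refine ⟨q, a, z0 % q, β, m, hq1, hq2, haq, Nat.mod_lt _ hq1, hco, ?_, hα, hβY, ?_⟩
  · have h1 : Nat.gcd q z0 = Nat.gcd (z0 % q) q := Nat.gcd_rec q z0
    exact h1.symm.trans hcop
  · have hqr : (q : ℝ) ≠ 0 := by
      have : 0 < q := hq1
      positivity
    obtain ⟨t, ht⟩ : ∃ t, t = z0 / q := ⟨_, rfl⟩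
    have hdiv : ((z0 % q : ℕ) : ℝ) = z0 - q * (t : ℝ) := by
      have h1 : ((z0 % q : ℕ) : ℝ) + q * (t : ℝ) = z0 := by
        rw [ht]
        exact_mod_cast Nat.mod_add_div z0 q
      linarith
    have e : θ + (a : ℝ) * ((z0 % q : ℕ) : ℝ) / q + β * u =
        (θ + α * z0 - β * ((z0 : ℝ) - u)) +
          ((-((a : ℤ) * (t : ℤ)) - m * (z0 : ℤ) : ℤ) : ℝ) := by
      rw [hdiv, hα]
      push_cast
      field_simp
      ring
    rw [e, dn_add_int]
    refine (dn_sub _ _).trans ?_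
    have h1 : dn (β * ((z0 : ℝ) - u)) ≤ 16 * s * Λ := by
      refine (dn_le_abs _).trans ?_
      rw [abs_mul]
      have h2 : |(z0 : ℝ) - u| ≤ Y := by
        have h3 : (u : ℝ) < z0 := by exact_mod_cast hz0u
        have h4 : (z0 : ℝ) ≤ u + Y := by exact_mod_cast hz0Y
        rw [abs_of_nonneg (by linarith)]
        linarith
      exact (mul_le_mul_of_nonneg_left h2 (abs_nonneg β)).trans hβY
    have h5 : s ≤ s * Λ := by nlinarith
    linarith

end Pool.Agent.Work.MP_7d0410_dl
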