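import Pool.Agent.Work.MP_7d0410_dl.Interface

set_option autoImplicit false

namespace Pool.Agent.Work.MP_7d0410_dl

open Finset
open Pool.Agent.Work.MP_7d0410_sp (Prob wt Ex Pb)

open scoped Classical

lemma CHW_prod (p : ℕ → ℝ) (M : Finset ℕ) (G : ℕ → ℝ) :
    Ex p M (fun T => ∏ z ∈ M \ T, G z) = ∏ z ∈ M, (p z + (1 - p z) * G z) := by
  unfold Ex wt
  rw [Finset.prod_add]
  refine Finset.sum_congr rfl fun T _ => ?_
  rw [Finset.prod_mul_distrib]
  ring

lemma CHW_gen (p : ℕ → ℝ) (hp : Prob p) (M : Finset ℕ) (v : ℕ → ℝ)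
    (hv : ∀ z ∈ M, 0 ≤ v z ∧ v z ≤ 1) (lam : ℝ) (hlam : |lam| ≤ 1) :
    Ex p M (fun T => Real.exp (lam * ∑ z ∈ M \ T, v z)) ≤
      Real.exp (lam * ∑ z ∈ M, v z * (1 - p z) + lam ^ 2 * ∑ z ∈ M, (1 - p z)) := by
  have e1 : Ex p M (fun T => Real.exp (lam * ∑ z ∈ M \ T, v z)) =
      Ex p M (fun T => ∏ z ∈ M \ T, Real.exp (lam * v z)) := by
    congr 1
    funext T
    rw [Finset.mul_sum, Real.exp_sum]
  rw [e1, CHW_prod, Finset.mul_sum, Finset.mul_sum, ← Finset.sum_add_distrib, Real.exp_sum]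
  refine Finset.prod_le_prod (fun z hz => ?_) (fun z hz => ?_)
  · have := (hp z).1
    have := (hp z).2
    have := Real.exp_pos (lam * v z)
    nlinarith
  · obtain ⟨h0, h1⟩ := hp z
    obtain ⟨hv0, hv1⟩ := hv z hz
    have hy : |lam * v z| ≤ 1 := by
      rw [abs_mul, abs_of_nonneg hv0]
      calc |lam| * v z ≤ 1 * 1 := mul_le_mul hlam hv1 hv0 (by norm_num)
        _ = 1 := one_mul 1
    have h2 := (abs_le.1 (Real.abs_exp_sub_one_sub_id_le hy)).2
    have h3 : (lam * v z) ^ 2 ≤ lam ^ 2 := by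
      rw [mul_pow]
      have : v z ^ 2 ≤ 1 := by nlinarith
      nlinarith [sq_nonneg lam]
    calc p z + (1 - p z) * Real.exp (lam * v z)
        ≤ p z + (1 - p z) * (1 + lam * v z + lam ^ 2) := by
          have : Real.exp (lam * v z) ≤ 1 + lam * v z + lam ^ 2 := by linarith
          nlinarith
      _ = (lam * (v z * (1 - p z)) + lam ^ 2 * (1 - p z)) + 1 := by ring
      _ ≤ Real.exp (lam * (v z * (1 - p z)) + lam ^ 2 * (1 - p z)) := Real.add_one_le_exp _

theorem p_CHW : Stmt_CHW := by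
  intro p hp M v t hv ht ht2
  set μ := ∑ z ∈ M, (1 - p z) with hμ
  set m := ∑ z ∈ M, v z * (1 - p z) with hm
  have hμ0 : 0 ≤ μ := Finset.sum_nonneg fun z _ => by have := (hp z).2; linarith
  rcases hμ0.eq_or_lt with h0 | h0
  · rw [← h0, mul_zero, div_zero, neg_zero, Real.exp_zero]
    refine (Pool.Agent.Work.MP_7d0410_sp.Pb_le_one hp _ _).trans (by norm_num)
  · set lam := t / (2 * μ) with hlam
    have hl0 : 0 ≤ lam := by positivity
    have hl1 : lam ≤ 1 := by
      rw [hlam, div_le_one (by linarith)]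
      exact ht2
    have g1 := CHW_gen p hp M v hv lam (by rw [abs_of_nonneg hl0]; exact hl1)
    have g2 := CHW_gen p hp M v hv (-lam) (by rw [abs_neg, abs_of_nonneg hl0]; exact hl1)
    rw [← hm, ← hμ] at g1 g2
    have hexp : lam ^ 2 * μ - lam * t = -(t ^ 2 / (4 * μ)) := by
      rw [hlam]
      field_simp
      ring
    calc Pb p M (fun T => t ≤ |∑ z ∈ M \ T, v z - m|)
        ≤ Ex p M (fun T => Real.exp (-lam * m - lam * t) * Real.exp (lam * ∑ z ∈ M \ T, v z) +
            Real.exp (lam * m - lam * t) * Real.exp (-lam * ∑ z ∈ M \ T, v z)) := by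
          refine Pool.Agent.Work.MP_7d0410_sp.Pb_le_Ex hp (fun T _ => by positivity) ?_
          intro T _ hT
          rw [← Real.exp_add, ← Real.exp_add]
          rcases le_abs.1 hT with h | h
          · have : 0 ≤ -lam * m - lam * t + lam * ∑ z ∈ M \ T, v z := by nlinarith
            have := Real.one_le_exp this
            have := Real.exp_pos (lam * m - lam * t + -lam * ∑ z ∈ M \ T, v z)
            linarith
          · have : 0 ≤ lam * m - lam * t + -lam * ∑ z ∈ M \ T, v z := by nlinarith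
            have := Real.one_le_exp this
            have := Real.exp_pos (-lam * m - lam * t + lam * ∑ z ∈ M \ T, v z)
            linarith
      _ = Real.exp (-lam * m - lam * t) * Ex p M (fun T => Real.exp (lam * ∑ z ∈ M \ T, v z)) +
            Real.exp (lam * m - lam * t) *
              Ex p M (fun T => Real.exp (-lam * ∑ z ∈ M \ T, v z)) := by
          rw [Pool.Agent.Work.MP_7d0410_sp.Ex_add, Pool.Agent.Work.MP_7d0410_sp.Ex_const_mul,
            Pool.Agent.Work.MP_7d0410_sp.Ex_const_mul]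
      _ ≤ Real.exp (-lam * m - lam * t) * Real.exp (lam * m + lam ^ 2 * μ) +
            Real.exp (lam * m - lam * t) * Real.exp (-lam * m + (-lam) ^ 2 * μ) := by
          gcongr
      _ = 2 * Real.exp (-(t ^ 2 / (4 * μ))) := by
          rw [← Real.exp_add, ← Real.exp_add, ← hexp]
          have e1 : -lam * m - lam * t + (lam * m + lam ^ 2 * μ) = lam ^ 2 * μ - lam * t := by ring
          have e2 : lam * m - lam * t + (-lam * m + (-lam) ^ 2 * μ) = lam ^ 2 * μ - lam * t := by
            ring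
          rw [e1, e2]
          ring

end Pool.Agent.Work.MP_7d0410_dl
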