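import Pool.Agent.Work.MP_7d0410_dl.Interface

/-!
# Block CNT (helper84): residues near a point
-/

set_option autoImplicit false

namespace Pool.Agent.Work.MP_7d0410_dl

/-- integers in a closed interval -/
lemma CNT_int (a b : ℝ) (h : a ≤ b) : ((Finset.Icc ⌈a⌉ ⌊b⌋).card : ℝ) ≤ b - a + 1 := by
  rw [Int.card_Icc]
  have h1 := Int.floor_le b
  have h2 := Int.le_ceil a
  rcases le_total 0 (⌊b⌋ + 1 - ⌈a⌉) with h3 | h3
  · have h4 : (((⌊b⌋ + 1 - ⌈a⌉).toNat : ℤ) : ℝ) = ((⌊b⌋ + 1 - ⌈a⌉ : ℤ) : ℝ) := by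
      rw [Int.toNat_of_nonneg h3]
    rw [Int.cast_natCast] at h4
    rw [h4]
    push_cast
    linarith
  · rw [Int.toNat_of_nonpos h3]
    push_cast
    linarith

theorem p_CNT : Stmt_CNT := by
  intro N c ρ hN hρ
  have hN0 : (0 : ℝ) < N := by exact_mod_cast hN
  classical
  let f : ℕ → ℤ := fun k => (k : ℤ) - round ((k : ℝ) / N - c) * N
  have hf : ∀ k ∈ (Finset.range N).filter (fun k : ℕ => dn ((k : ℝ) / N - c) ≤ ρ),
      f k ∈ Finset.Icc ⌈(N : ℝ) * c - N * ρ⌉ ⌊(N : ℝ) * c + N * ρ⌋ := by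
    intro k hk
    have h1 : dn ((k : ℝ) / N - c) ≤ ρ := (Finset.mem_filter.1 hk).2
    unfold dn at h1
    rw [abs_le] at h1
    have h2 : ((f k : ℤ) : ℝ) = N * ((k : ℝ) / N - c - round ((k : ℝ) / N - c)) + N * c := by
      show (((k : ℤ) - round ((k : ℝ) / N - c) * N : ℤ) : ℝ) = _
      push_cast
      field_simp
      ring
    rw [Finset.mem_Icc, Int.ceil_le, Int.le_floor, h2]
    constructor <;> nlinarith
  have hinj : Set.InjOn f ((Finset.range N).filter (fun k : ℕ => dn ((k : ℝ) / N - c) ≤ ρ) :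
      Finset ℕ) := by
    intro k hk l hl hkl
    have hk1 := Finset.mem_range.1 (Finset.mem_filter.1 (Finset.mem_coe.1 hk)).1
    have hl1 := Finset.mem_range.1 (Finset.mem_filter.1 (Finset.mem_coe.1 hl)).1
    have h1 : ((k : ℤ) - round ((k : ℝ) / N - c) * N) % N =
        ((l : ℤ) - round ((l : ℝ) / N - c) * N) % N := congrArg (fun z => z % (N : ℤ)) hkl
    rw [Int.sub_mul_emod_self_right, Int.sub_mul_emod_self_right] at h1
    have h2 : (k : ℤ) % N = k := Int.emod_eq_of_lt (by positivity) (by exact_mod_cast hk1)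
    have h3 : (l : ℤ) % N = l := Int.emod_eq_of_lt (by positivity) (by exact_mod_cast hl1)
    rw [h2, h3] at h1
    exact_mod_cast h1
  have h1 := Finset.card_le_card_of_injOn f hf hinj
  have h2 : (((Finset.range N).filter (fun k : ℕ => dn ((k : ℝ) / N - c) ≤ ρ)).card : ℝ) ≤
      ((Finset.Icc ⌈(N : ℝ) * c - N * ρ⌉ ⌊(N : ℝ) * c + N * ρ⌋).card : ℝ) := by
    exact_mod_cast h1
  refine h2.trans ((CNT_int _ _ ?_).trans ?_)
  · nlinarith
  · nlinarith

end Pool.Agent.Work.MP_7d0410_dl
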