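import Pool.Agent.Work.MP_7d0410_dl.Interface

set_option autoImplicit false

namespace Pool.Agent.Work.MP_7d0410_dl

open Finset Filter
open Pool.Agent.Work.MP_7d0410_cr (seg sm len runs rr)
open Pool.Agent.Work.MP_7d0410_sp (A1 A2 LL)
open scoped Classical

/-- the `m`-th largest element of `P` -/
lemma COV_top (P : Finset ℕ) (N m : ℕ) (hN : ∀ z ∈ P, z ≤ N) (hm : 1 ≤ m) (hP : m ≤ P.card) :
    ∃ α ∈ P, m ≤ (P.filter (fun z => α ≤ z)).card ∧ (P.filter (fun z => α < z)).card < m := by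
  have h0 : m ≤ (P.filter (fun z => 0 ≤ z)).card := by
    rw [Finset.filter_true_of_mem (fun z _ => Nat.zero_le z)]
    exact hP
  set α := Nat.findGreatest (fun a => m ≤ (P.filter (fun z => a ≤ z)).card) (N + 1) with hα
  have h1 : m ≤ (P.filter (fun z => α ≤ z)).card :=
    Nat.findGreatest_spec (P := fun a => m ≤ (P.filter (fun z => a ≤ z)).card) (Nat.zero_le _) h0
  have hlt : α ≤ N := by
    by_contra hc
    push Not at hc
    have : P.filter (fun z => α ≤ z) = ∅ := by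
      rw [Finset.filter_eq_empty_iff]
      intro z hz
      have := hN z hz
      omega
    rw [this, Finset.card_empty] at h1
    omega
  have h2 : (P.filter (fun z => α < z)).card < m := by
    by_contra hc
    push Not at hc
    exact Nat.findGreatest_is_greatest (P := fun a => m ≤ (P.filter (fun z => a ≤ z)).card)
      (n := N + 1) (k := α + 1) (by omega) (by omega) hc
  refine ⟨α, ?_, h1, h2⟩
  by_contra hα'
  have : P.filter (fun z => α ≤ z) = P.filter (fun z => α < z) := by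
    apply Finset.filter_congr
    intro z hz
    constructor
    · intro h
      exact lt_of_le_of_ne h (fun e => hα' (e ▸ hz))
    · exact le_of_lt
  rw [this] at h1
  omega

/-- the `m`-th smallest element of `P` -/
lemma COV_bot (P : Finset ℕ) (m : ℕ) (hm : 1 ≤ m) (hP : m ≤ P.card) :
    ∃ β ∈ P, m ≤ (P.filter (fun z => z ≤ β)).card ∧ (P.filter (fun z => z < β)).card < m := by
  obtain ⟨N, hN⟩ := P.exists_le
  have hex : ∃ b, m ≤ (P.filter (fun z => z ≤ b)).card := ⟨N, by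
    rw [Finset.filter_true_of_mem hN]
    exact hP⟩
  set β := Nat.find hex with hβ
  have h1 : m ≤ (P.filter (fun z => z ≤ β)).card := Nat.find_spec hex
  have h2 : (P.filter (fun z => z < β)).card < m := by
    by_contra hc
    push Not at hc
    rcases Nat.eq_zero_or_pos β with h0 | h0
    · rw [h0] at hc
      have : P.filter (fun z => z < 0) = ∅ := by
        rw [Finset.filter_eq_empty_iff]
        intro z _
        omega
      rw [this, Finset.card_empty] at hc
      omega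
    · refine Nat.find_min hex (m := β - 1) (by omega) (hc.trans (Finset.card_le_card ?_))
      intro z hz
      rw [Finset.mem_filter] at hz ⊢
      exact ⟨hz.1, by omega⟩
  refine ⟨β, ?_, h1, h2⟩
  by_contra hβ'
  have : P.filter (fun z => z ≤ β) = P.filter (fun z => z < β) := by
    apply Finset.filter_congr
    intro z hz
    constructor
    · intro h
      exact lt_of_le_of_ne h (fun e => hβ' (e ▸ hz))
    · exact le_of_lt
  rw [this] at h1
  omega

/-- the numerical facts for large `x` -/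
lemma COV_num (C1 θ : ℝ) (hC : 1 ≤ C1) (hθ : 0 < θ) (hθ2 : θ ≤ 1 / 200) :
    ∀ᶠ x : ℕ in atTop, ∀ n r : ℕ, x ≤ 1000 * n → n ≤ x → 1 ≤ r → 2 * A1 θ x * r ≤ n →
      2 * n ≤ A2 θ x * r → 3 ≤ r ∧ LL C1 x r ≤ A1 θ x ∧ 2 * LL C1 x r ≤ A2 θ x := by
  have hcast := tendsto_natCast_atTop_atTop (R := ℝ)
  have e1 : ∀ᶠ x : ℕ in atTop, 2 * C1 * Real.log x ≤ (x : ℝ) ^ (4 * θ) := by
    have h := (isLittleO_log_rpow_atTop (show 0 < 4 * θ by linarith)).def
      (show (0 : ℝ) < 1 / (2 * C1) by positivity)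
    have h2 := hcast.eventually h
    filter_upwards [h2, eventually_ge_atTop 1] with x hx hx1
    have hx1' : (1 : ℝ) ≤ x := by exact_mod_cast hx1
    rw [Real.norm_of_nonneg (Real.log_nonneg hx1'),
      Real.norm_of_nonneg (Real.rpow_nonneg (by linarith) _)] at hx
    calc 2 * C1 * Real.log x ≤ 2 * C1 * (1 / (2 * C1) * (x : ℝ) ^ (4 * θ)) := by gcongr
      _ = (x : ℝ) ^ (4 * θ) := by field_simp
  have e2 : ∀ᶠ x : ℕ in atTop, (1000 : ℝ) < (x : ℝ) ^ ((23 : ℝ) / 50) :=
    hcast.eventually ((tendsto_rpow_atTop (by norm_num)).eventually_gt_atTop 1000)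
  filter_upwards [e1, e2, eventually_ge_atTop 64] with x h1 h2 h64
  intro n r hn1 hn2 hr hA1 hA2
  have hx64 : (64 : ℝ) ≤ x := by exact_mod_cast h64
  have hx0 : (0 : ℝ) < x := by linarith
  have hx1 : (1 : ℝ) ≤ x := by linarith
  have hA2le : (A2 θ x : ℝ) ≤ (x : ℝ) ^ ((27 : ℝ) / 50) := by
    refine (Nat.floor_le (Real.rpow_nonneg hx0.le _)).trans ?_
    exact Real.rpow_le_rpow_of_exponent_le hx1 (by linarith)
  have hprod : (x : ℝ) ^ ((27 : ℝ) / 50) * (x : ℝ) ^ ((23 : ℝ) / 50) = x := by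
    rw [← Real.rpow_add hx0]
    norm_num
  have hr3 : 3 ≤ r := by
    by_contra hc
    push Not at hc
    have hr2 : r ≤ 2 := by omega
    have h3 : n ≤ A2 θ x := by
      have : A2 θ x * r ≤ A2 θ x * 2 := Nat.mul_le_mul_left _ hr2
      omega
    have h4 : (x : ℝ) ≤ 1000 * (n : ℝ) := by exact_mod_cast hn1
    have h5 : (n : ℝ) ≤ (A2 θ x : ℝ) := by exact_mod_cast h3
    have h6 : (0 : ℝ) < (x : ℝ) ^ ((27 : ℝ) / 50) := Real.rpow_pos_of_pos hx0 _
    nlinarith
  have hsq : (x : ℝ) ^ ((1 : ℝ) / 2) = Real.sqrt x := (Real.sqrt_eq_rpow _).symm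
  have hs8 : (8 : ℝ) ≤ (x : ℝ) ^ ((1 : ℝ) / 2) := by
    rw [hsq]
    exact Real.le_sqrt_of_sq_le (by linarith)
  -- the bound for `Λ`
  have hA1ge : (x : ℝ) ^ (1 / 2 + 4 * θ) ≤ (A1 θ x : ℝ) := Nat.le_ceil _
  have hA10 : (0 : ℝ) < (x : ℝ) ^ (1 / 2 + 4 * θ) := Real.rpow_pos_of_pos hx0 _
  have hrle : 2 * (x : ℝ) ^ (1 / 2 + 4 * θ) * r ≤ x := by
    have h3 : (2 * A1 θ x * r : ℝ) ≤ x := by exact_mod_cast hA1.trans hn2
    have hr0 : (0 : ℝ) ≤ r := Nat.cast_nonneg r
    have : 2 * (x : ℝ) ^ (1 / 2 + 4 * θ) * r ≤ 2 * A1 θ x * r := by gcongr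
    linarith
  have hp1 : (x : ℝ) ^ (1 / 2 + 4 * θ) = (x : ℝ) ^ ((1 : ℝ) / 2) * (x : ℝ) ^ (4 * θ) :=
    Real.rpow_add hx0 _ _
  have hp2 : (x : ℝ) ^ ((1 : ℝ) / 2) * (x : ℝ) ^ ((1 : ℝ) / 2) = x := by
    rw [← Real.rpow_add hx0]
    norm_num
  have hr2 : 2 * (x : ℝ) ^ (4 * θ) * r ≤ (x : ℝ) ^ ((1 : ℝ) / 2) := by
    have h3 : (x : ℝ) ^ ((1 : ℝ) / 2) * (2 * (x : ℝ) ^ (4 * θ) * r) ≤
        (x : ℝ) ^ ((1 : ℝ) / 2) * (x : ℝ) ^ ((1 : ℝ) / 2) := by
      rw [hp2]
      rw [hp1] at hrle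
      linarith
    exact le_of_mul_le_mul_left h3 (by linarith)
  have hlog : C1 * r * Real.log x ≤ (x : ℝ) ^ ((1 : ℝ) / 2) / 4 := by
    have hr0 : (0 : ℝ) ≤ r := Nat.cast_nonneg r
    have h3 : 2 * C1 * Real.log x * r ≤ (x : ℝ) ^ (4 * θ) * r := mul_le_mul_of_nonneg_right h1 hr0
    linarith
  have hLL : (LL C1 x r : ℝ) ≤ (x : ℝ) ^ ((1 : ℝ) / 2) / 4 + 1 := by
    have h3 : (LL C1 x r : ℝ) < C1 * r * Real.log x + 1 := Nat.ceil_lt_add_one (by
      have := Real.log_nonneg hx1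
      positivity)
    linarith
  have hge1 : (x : ℝ) ^ ((1 : ℝ) / 2) ≤ (x : ℝ) ^ (1 / 2 + 4 * θ) :=
    Real.rpow_le_rpow_of_exponent_le hx1 (by linarith)
  have hge2 : (x : ℝ) ^ ((1 : ℝ) / 2) ≤ (x : ℝ) ^ (1 / 2 + 8 * θ) :=
    Real.rpow_le_rpow_of_exponent_le hx1 (by linarith)
  have hA2ge : (x : ℝ) ^ (1 / 2 + 8 * θ) - 1 < (A2 θ x : ℝ) := Nat.sub_one_lt_floor _
  refine ⟨hr3, ?_, ?_⟩
  · have : (LL C1 x r : ℝ) ≤ (A1 θ x : ℝ) := by linarith
    exact_mod_cast this
  · have : (2 * LL C1 x r : ℝ) ≤ (A2 θ x : ℝ) := by linarith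
    exact_mod_cast this

theorem p_COV (hCV1 : Stmt_CV1) : Stmt_COV := by
  intro K C1 hK hC
  obtain ⟨c3, hc0, hc8, hCV⟩ := hCV1 C1 hC
  refine ⟨c3, hc0, fun θ hθ hθ2 => ?_⟩
  filter_upwards [hCV θ hθ hθ2, COV_num C1 θ hC hθ hθ2] with x hx hnum
  intro n r hn1 hn2 hr
  unfold RK at hr
  rw [Finset.mem_filter, Finset.mem_Icc] at hr
  obtain ⟨⟨hr1, hrx⟩, ⟨hG1, hG2⟩, hA1, hA2⟩ := hr
  obtain ⟨hr3, hL1, hL2⟩ := hnum n r hn1 hn2 hr1 hA1 hA2
  set Λ := LL C1 x r with hΛ
  have hKr : r ≤ K * r := Nat.le_mul_of_pos_left r (by omega)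
  set m := ⌈c3 * r⌉₊ + 1 with hm
  have hr3' : (3 : ℝ) ≤ r := by exact_mod_cast hr3
  have hceil : (⌈c3 * r⌉₊ : ℝ) < c3 * r + 1 := Nat.ceil_lt_add_one (by positivity)
  have hmr : m ≤ r := by
    have h1 : (m : ℝ) ≤ r := by
      rw [hm]
      push_cast
      nlinarith
    exact_mod_cast h1
  have hm1 : 1 ≤ m := by omega
  -- `α`
  set PL := (Finset.range (n + 1)).filter (fun p => p.Prime ∧ r * p < n) with hPL
  set PR := (Finset.range (2 * n + 1)).filter (fun p => p.Prime ∧ n < r * p) with hPR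
  have hPLc : m ≤ PL.card := by
    refine (hmr.trans (hKr.trans hG1)).trans (Finset.card_le_card ?_)
    intro z hz
    rw [Finset.mem_filter] at hz ⊢
    exact ⟨hz.1, hz.2.1, hz.2.2.1⟩
  have hPRc : m ≤ PR.card := by
    refine (hmr.trans (hKr.trans hG2)).trans (Finset.card_le_card ?_)
    intro z hz
    rw [Finset.mem_filter] at hz ⊢
    exact ⟨hz.1, hz.2.1, hz.2.2.1⟩
  obtain ⟨α, hαP, hα1, hα2⟩ := COV_top PL n m (fun z hz => by
    rw [hPL, Finset.mem_filter, Finset.mem_range] at hz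
    omega) hm1 hPLc
  obtain ⟨β, hβP, hβ1, hβ2⟩ := COV_bot PR m hm1 hPRc
  rw [hPL, Finset.mem_filter, Finset.mem_range] at hαP
  rw [hPR, Finset.mem_filter, Finset.mem_range] at hβP
  obtain ⟨-, hαp, hαn⟩ := hαP
  obtain ⟨hβr, hβp, hβn⟩ := hβP
  have hrpos : 0 < r := by omega
  have hαΛ : n ≤ r * (α + Λ) := by
    by_contra hc
    push Not at hc
    have h1 : (Finset.range (n + 1)).filter (fun p => p.Prime ∧ r * p < n ∧ n ≤ r * (p + Λ)) ⊆
        PL.filter (fun z => α < z) := by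
      intro z hz
      rw [Finset.mem_filter] at hz
      rw [Finset.mem_filter, hPL, Finset.mem_filter]
      refine ⟨⟨hz.1, hz.2.1, hz.2.2.1⟩, ?_⟩
      have h2 : r * (α + Λ) < r * (z + Λ) := lt_of_lt_of_le hc hz.2.2.2
      have h3 := lt_of_mul_lt_mul_left h2 (Nat.zero_le _)
      omega
    have := Finset.card_le_card h1
    omega
  have hβΛ : r * β ≤ n + r * Λ := by
    by_contra hc
    push Not at hc
    have h1 : (Finset.range (2 * n + 1)).filter
        (fun p => p.Prime ∧ n < r * p ∧ r * p ≤ n + r * Λ) ⊆ PR.filter (fun z => z < β) := by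
      intro z hz
      rw [Finset.mem_filter] at hz
      rw [Finset.mem_filter, hPR, Finset.mem_filter]
      refine ⟨⟨hz.1, hz.2.1, hz.2.2.1⟩, ?_⟩
      have h2 : r * z < r * β := lt_of_le_of_lt hz.2.2.2 hc
      exact lt_of_mul_lt_mul_left h2 (Nat.zero_le _)
    have := Finset.card_le_card h1
    omega
  have hαβ : α < β := lt_of_mul_lt_mul_left (hαn.trans hβn) (Nat.zero_le _)
  have hαβ2 : β ≤ α + 2 * Λ := by
    have h1 : r * β ≤ r * (α + 2 * Λ) := by
      calc r * β ≤ n + r * Λ := hβΛ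
        _ ≤ r * (α + Λ) + r * Λ := by omega
        _ = r * (α + 2 * Λ) := by ring
    exact le_of_mul_le_mul_left h1 hrpos
  refine ⟨α, β, ?_, ?_, hαβ, hαβ2, ?_, ?_⟩
  · have h1 : r * (2 * A1 θ x) ≤ r * (α + Λ) := by
      calc r * (2 * A1 θ x) = 2 * A1 θ x * r := by ring
        _ ≤ n := hA1
        _ ≤ r * (α + Λ) := hαΛ
    have := le_of_mul_le_mul_left h1 hrpos
    omega
  · have h1 : r * (2 * β) ≤ r * (A2 θ x + 2 * Λ) := by
      calc r * (2 * β) = 2 * (r * β) := by ring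
        _ ≤ 2 * (n + r * Λ) := by omega
        _ = 2 * n + 2 * (r * Λ) := by ring
        _ ≤ A2 θ x * r + 2 * (r * Λ) := by omega
        _ = r * (A2 θ x + 2 * Λ) := by ring
    have := le_of_mul_le_mul_left h1 hrpos
    omega
  · have hsub1 : (PL.filter (fun z => α < z)) ∪ (PR.filter (fun z => z < β)) ⊆ MM α β := by
      intro z hz
      unfold MM
      rw [Finset.mem_filter, Finset.mem_Ioo]
      rcases Finset.mem_union.1 hz with hz | hz
      · rw [Finset.mem_filter, hPL, Finset.mem_filter] at hz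
        obtain ⟨⟨_, hp, hn⟩, hz⟩ := hz
        exact ⟨⟨hz, lt_of_mul_lt_mul_left (hn.trans hβn) (Nat.zero_le _)⟩, hp⟩
      · rw [Finset.mem_filter, hPR, Finset.mem_filter] at hz
        obtain ⟨⟨_, hp, hn⟩, hz⟩ := hz
        exact ⟨⟨lt_of_mul_lt_mul_left (hαn.trans hn) (Nat.zero_le _), hz⟩, hp⟩
    have hdisj : Disjoint (PL.filter (fun z => α < z)) (PR.filter (fun z => z < β)) := by
      rw [Finset.disjoint_left]
      intro z hz1 hz2
      rw [Finset.mem_filter, hPL, Finset.mem_filter] at hz1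
      rw [Finset.mem_filter, hPR, Finset.mem_filter] at hz2
      have h1 := hz1.1.2.2
      have h2 := hz2.1.2.2
      omega
    have hc := Finset.card_le_card hsub1
    rw [Finset.card_union_of_disjoint hdisj] at hc
    have hL : m ≤ (PL.filter (fun z => α < z)).card + 1 := by
      refine hα1.trans ?_
      have : PL.filter (fun z => α ≤ z) ⊆ insert α (PL.filter (fun z => α < z)) := by
        intro z hz
        rw [Finset.mem_filter] at hz
        rw [Finset.mem_insert, Finset.mem_filter]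
        rcases hz.2.eq_or_lt with h | h
        · exact Or.inl h.symm
        · exact Or.inr ⟨hz.1, h⟩
      exact (Finset.card_le_card this).trans (Finset.card_insert_le _ _)
    have hR : m ≤ (PR.filter (fun z => z < β)).card + 1 := by
      refine hβ1.trans ?_
      have : PR.filter (fun z => z ≤ β) ⊆ insert β (PR.filter (fun z => z < β)) := by
        intro z hz
        rw [Finset.mem_filter] at hz
        rw [Finset.mem_insert, Finset.mem_filter]
        rcases hz.2.eq_or_lt with h | h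
        · exact Or.inl h
        · exact Or.inr ⟨hz.1, h⟩
      exact (Finset.card_le_card this).trans (Finset.card_insert_le _ _)
    have h1 : ⌈c3 * r⌉₊ ≤ (MM α β).card := by omega
    have h2 : c3 * r ≤ (⌈c3 * r⌉₊ : ℝ) := Nat.le_ceil _
    have h3 : (⌈c3 * r⌉₊ : ℝ) ≤ ((MM α β).card : ℝ) := by exact_mod_cast h1
    linarith
  · intro S hS hTY i l hi hl q hq
    obtain ⟨g1, g2, g3, g4⟩ := hx n r hn1 hn2 hr1 hA1 hA2 S hS hTY i l hi hl q hq
    have hm2 : (m : ℝ) < c3 * r + 2 := by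
      rw [hm]
      push_cast
      linarith
    have g3' : m ≤ ((seg S q).filter (fun z => r * z < n)).card := by
      have : (m : ℝ) ≤ (((seg S q).filter (fun z => r * z < n)).card : ℝ) := by linarith
      exact_mod_cast this
    have g4' : m ≤ ((seg S q).filter (fun z => n < r * z)).card := by
      have : (m : ℝ) ≤ (((seg S q).filter (fun z => n < r * z)).card : ℝ) := by linarith
      exact_mod_cast this
    refine ⟨?_, ?_, g1, g2⟩
    · by_contra hc
      push Not at hc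
      have hsub : (seg S q).filter (fun z => r * z < n) ⊆ PL.filter (fun z => α < z) := by
        intro z hz
        rw [Finset.mem_filter] at hz
        obtain ⟨hz1, hz2⟩ := hz
        unfold seg at hz1
        rw [Finset.mem_filter] at hz1
        rw [Finset.mem_filter, hPL, Finset.mem_filter, Finset.mem_range]
        have hzn : z ≤ r * z := Nat.le_mul_of_pos_left z hrpos
        exact ⟨⟨by omega, hS z hz1.1, hz2⟩, by omega⟩
      have := Finset.card_le_card hsub
      omega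
    · by_contra hc
      push Not at hc
      have hsub : (seg S q).filter (fun z => n < r * z) ⊆ PR.filter (fun z => z < β) := by
        intro z hz
        rw [Finset.mem_filter] at hz
        obtain ⟨hz1, hz2⟩ := hz
        unfold seg at hz1
        rw [Finset.mem_filter] at hz1
        rw [Finset.mem_filter, hPR, Finset.mem_filter, Finset.mem_range]
        have hzβ : z < β := by omega
        have hβ2n : β < 2 * n + 1 := by
          exact hβr
        exact ⟨⟨by omega, hS z hz1.1, hz2⟩, hzβ⟩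
      have := Finset.card_le_card hsub
      omega

end Pool.Agent.Work.MP_7d0410_dl
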