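import Pool.Agent.Work.MP_7d0410_dl.Interface
import Pool.Agent.Work.MP_7d0410_cr.B_NRL
import Pool.Agent.Work.MP_7d0410_sp.B_SFT

/-!
# Crossing an interval (block CRS)
-/

set_option autoImplicit false

namespace Pool.Agent.Work.MP_7d0410_dl

open Finset Filter MeasureTheory ProbabilityTheory
open Pool.Agent.Work.MP_7d0410_cr (seg sm len runs rr good gr cnt DD meet AB PP CountReg NN a0 UU SS
  AA repCount mem_runs mem_seg NRL_A NRL_step)
open Pool.Agent.Work.MP_7d0410_sp (Prob wt Ex Pb hh gg HH T1 T2 A1 A2 VV G1 R1 LL pin F0 XX)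
open scoped Classical

/-- A run with a smaller sum and the same length starts before. -/
lemma CRS_lt (S : Finset ℕ) (q q1 : ℕ × ℕ) (hq : q ∈ runs S) (hq1 : q1 ∈ runs S)
    (hl : len S q = len S q1) (hs : sm S q < sm S q1) : q.1 < q1.1 := by
  obtain ⟨g1, g2, g3⟩ := mem_runs.1 hq
  obtain ⟨f1, f2, f3⟩ := mem_runs.1 hq1
  rcases lt_trichotomy q.1 q1.1 with h | h | h
  · exact h
  · exfalso
    rcases le_or_gt q1.2 q.2 with h2 | h2
    · have hsub : seg S q1 ⊆ seg S q := by
        intro m hm
        obtain ⟨e1, e2, e3⟩ := mem_seg.1 hm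
        exact mem_seg.2 ⟨e1, by omega, by omega⟩
      have : sm S q1 ≤ sm S q := Finset.sum_le_sum_of_subset hsub
      omega
    · have hsub : seg S q ⊂ seg S q1 := by
        rw [Finset.ssubset_iff_of_subset]
        · refine ⟨q1.2, mem_seg.2 ⟨f2, f3, le_rfl⟩, fun h' => ?_⟩
          have := (mem_seg.1 h').2.2
          omega
        · intro m hm
          obtain ⟨e1, e2, e3⟩ := mem_seg.1 hm
          exact mem_seg.2 ⟨e1, by omega, by omega⟩
      have := Finset.card_lt_card hsub
      unfold len at hl
      omega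
  · exfalso
    obtain ⟨h1, h2⟩ := Pool.Agent.Work.MP_7d0410_sp.p_SFT S q1 q hq1 hq hl.symm h
    omega

lemma CRS_ind (S : Finset ℕ) (r g n M : ℕ) (q0 q1 : ℕ × ℕ) (hq1 : q1 ∈ runs S)
    (hl1 : len S q1 = r) (hn1 : n ≤ sm S q1) (hg : q1.2 ≤ q0.1 + g) :
    ∀ k : ℕ, ∀ q ∈ runs S, len S q = r → q0.1 ≤ q.1 → sm S q < n →
      (S.filter (fun x => q.1 < x)).card = k →
      min M (n - sm S q) ≤ ((NRL_A S r n M q.1).card + 1) * g := by
  intro k
  induction k using Nat.strong_induction_on with
  | _ k ih =>
    intro q hq hlen h0 hsm hk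
    have hlt1 : q.1 < q1.1 := CRS_lt S q q1 hq hq1 (hlen.trans hl1.symm) (by omega)
    have hc : r ≤ (S ∩ Finset.Ioc q.1 (q.1 + g)).card := by
      rw [← hl1]
      unfold len
      apply Finset.card_le_card
      intro m hm
      obtain ⟨e1, e2, e3⟩ := mem_seg.1 hm
      rw [Finset.mem_inter, Finset.mem_Ioc]
      exact ⟨e1, by omega, by omega⟩
    obtain ⟨q', hq'r, hlen', hlt, hle, hge⟩ := NRL_step S g r q hq hlen hc
    have hsub : NRL_A S r n M q'.1 ⊆ NRL_A S r n M q.1 := by
      intro z hz
      unfold NRL_A at hz ⊢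
      rw [Finset.mem_filter] at hz ⊢
      exact ⟨hz.1, hz.2.1, by omega⟩
    have hcardle := Finset.card_le_card hsub
    by_cases hn : n ≤ sm S q'
    · have : g ≤ ((NRL_A S r n M q.1).card + 1) * g := Nat.le_mul_of_pos_left g (by omega)
      have h5 : min M (n - sm S q) ≤ n - sm S q := min_le_right _ _
      omega
    · have hlt' : (S.filter (fun x => q'.1 < x)).card < k := by
        rw [← hk]
        apply Finset.card_lt_card
        rw [Finset.ssubset_iff_of_subset]
        · refine ⟨q'.1, Finset.mem_filter.2 ⟨(mem_runs.1 hq'r).1, hlt⟩, ?_⟩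
          rw [Finset.mem_filter]
          rintro ⟨_, h⟩
          exact lt_irrefl _ h
        · intro x hx
          rw [Finset.mem_filter] at hx ⊢
          exact ⟨hx.1, by omega⟩
      have hI := ih _ hlt' q' hq'r hlen' (by omega) (by omega) rfl
      by_cases hM : n ≤ sm S q' + M
      · have hmem : q' ∈ NRL_A S r n M q.1 := by
          unfold NRL_A
          rw [Finset.mem_filter]
          exact ⟨hq'r, ⟨hlen', hM, by omega⟩, hlt⟩
        have hnmem : q' ∉ NRL_A S r n M q'.1 := by
          unfold NRL_A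
          rw [Finset.mem_filter]
          rintro ⟨_, _, h⟩
          exact lt_irrefl _ h
        have hcard : (NRL_A S r n M q'.1).card + 1 ≤ (NRL_A S r n M q.1).card := by
          rw [← Finset.card_insert_of_notMem hnmem]
          apply Finset.card_le_card
          intro z hz
          rcases Finset.mem_insert.1 hz with h | h
          · rw [h]; exact hmem
          · exact hsub h
        have h6 : ((NRL_A S r n M q'.1).card + 1) * g + g ≤ ((NRL_A S r n M q.1).card + 1) * g := by
          have := Nat.mul_le_mul_right g (show (NRL_A S r n M q'.1).card + 1 + 1 ≤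
            (NRL_A S r n M q.1).card + 1 by omega)
          calc ((NRL_A S r n M q'.1).card + 1) * g + g
              = ((NRL_A S r n M q'.1).card + 1 + 1) * g := by ring
            _ ≤ _ := this
        have h7 : min M (n - sm S q') = n - sm S q' := min_eq_right (by omega)
        rw [h7] at hI
        have h5 : min M (n - sm S q) ≤ n - sm S q := min_le_right _ _
        omega
      · have h7 : min M (n - sm S q') = M := min_eq_left (by omega)
        rw [h7] at hI
        have h8 : ((NRL_A S r n M q'.1).card + 1) * g ≤ ((NRL_A S r n M q.1).card + 1) * g :=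
          Nat.mul_le_mul_right g (by omega)
        exact (min_le_left _ _).trans (hI.trans h8)

theorem p_CRS : Stmt_CRS := by
  intro S r n L g q0 q1 hq0 hq1 hr hl0 hl1 hs0 hn1 hg
  have hI := CRS_ind S r g n L q0 q1 hq1 hl1 hn1 hg _ q0 hq0 hl0 le_rfl (by omega) rfl
  have hmin : min L (n - sm S q0) = L := min_eq_left (by omega)
  rw [hmin] at hI
  refine hI.trans (Nat.mul_le_mul_right g ?_)
  have : (NRL_A S r n L q0.1).card ≤ NN S r n L := by
    unfold NN NRL_A
    apply Finset.card_le_card
    intro z hz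
    rw [Finset.mem_filter] at hz ⊢
    exact ⟨hz.1, hz.2.1⟩
  omega

end Pool.Agent.Work.MP_7d0410_dl
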