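import Pool.Agent.Work.MP_7d0410_dl.Interface
import Pool.Agent.Work.MP_7d0410_sp.B_BTT

/-!
# Random subsets of the primes, block CV1: both sides of `n / r`
-/

set_option autoImplicit false

namespace Pool.Agent.Work.MP_7d0410_dl

open Finset Filter MeasureTheory ProbabilityTheory
open Pool.Agent.Work.MP_7d0410_cr (seg sm len runs rr good gr cnt DD meet AB PP CountReg NN a0 UU SS
  AA repCount)
open Pool.Agent.Work.MP_7d0410_sp (Prob wt Ex Pb hh gg HH T1 T2 A1 A2 VV G1 R1 LL pin F0 XX)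
open scoped Classical Topology

lemma CV1_sum (T : Finset ℕ) (f : ℕ → ℝ) (P Q : ℕ → Prop) [DecidablePred P] [DecidablePred Q]
    (A B : ℝ)
    (h : ∀ z ∈ T, (if P z then A else 0) - (if Q z then B else 0) ≤ f z) :
    ((T.filter P).card : ℝ) * A - (T.filter Q).card * B ≤ ∑ z ∈ T, f z := by
  have h1 : ∀ (R : ℕ → Prop) [DecidablePred R] (D : ℝ), ∑ z ∈ T, (if R z then D else 0) =
      ((T.filter R).card : ℝ) * D := by
    intro R _ D
    rw [← Finset.sum_filter, Finset.sum_const, nsmul_eq_mul]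
  rw [← h1 P A, ← h1 Q B, ← Finset.sum_sub_distrib]
  exact Finset.sum_le_sum h

/-- few elements on the right: many elements far on the left -/
lemma CV1_left (T : Finset ℕ) (hT : ∀ z ∈ T, z.Prime) (n r h : ℕ) (c : ℝ) (hr : 24 ≤ r)
    (hc : c ≤ r / 8 + 2) (hrT : r ≤ T.card) (hpin : ∀ y, (pin y h : ℝ) ≤ r / 8)
    (h1 : ((T.filter (fun z => n < r * z)).card : ℝ) ≤ c) :
    (r : ℝ) / 4 ≤ ((T.filter (fun z => r * z + r * h ≤ n)).card : ℝ) := by
  have h2 : T ⊆ T.filter (fun z => n < r * z) ∪ T.filter (fun z => r * z + r * h ≤ n) ∪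
      (Finset.Ioc (n / r - h) (n / r - h + h)).filter Nat.Prime := by
    intro z hz
    have hz0 : 0 < z := (hT z hz).pos
    by_cases h3 : n < r * z
    · exact Finset.mem_union_left _ (Finset.mem_union_left _ (Finset.mem_filter.2 ⟨hz, h3⟩))
    by_cases h4 : r * z + r * h ≤ n
    · exact Finset.mem_union_left _ (Finset.mem_union_right _ (Finset.mem_filter.2 ⟨hz, h4⟩))
    refine Finset.mem_union_right _ (Finset.mem_filter.2 ⟨?_, hT z hz⟩)
    push Not at h3 h4
    have h5 : z ≤ n / r := by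
      rw [Nat.le_div_iff_mul_le (by omega)]
      rw [mul_comm]
      exact h3
    have h6 : n / r < z + h := by
      rw [Nat.div_lt_iff_lt_mul (by omega)]
      calc n < r * z + r * h := h4
        _ = (z + h) * r := by ring
    rw [Finset.mem_Ioc]
    omega
  have h3 := Finset.card_le_card h2
  have h4 := (h3.trans (Finset.card_union_le _ _)).trans
    (Nat.add_le_add_right (Finset.card_union_le _ _) _)
  have h5 : (T.card : ℝ) ≤ ((T.filter (fun z => n < r * z)).card : ℝ) +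
      ((T.filter (fun z => r * z + r * h ≤ n)).card : ℝ) + (pin (n / r - h) h : ℝ) := by
    exact_mod_cast h4
  have h6 := hpin (n / r - h)
  have h7 : (r : ℝ) ≤ T.card := by exact_mod_cast hrT
  have h8 : (24 : ℝ) ≤ r := by exact_mod_cast hr
  linarith

/-- few elements on the left: many elements far on the right -/
lemma CV1_right (T : Finset ℕ) (hT : ∀ z ∈ T, z.Prime) (n r h : ℕ) (c : ℝ) (hr : 24 ≤ r)
    (hn : 1 ≤ n) (hc : c ≤ r / 8 + 2) (hrT : r ≤ T.card) (hpin : ∀ y, (pin y h : ℝ) ≤ r / 8)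
    (h1 : ((T.filter (fun z => r * z < n)).card : ℝ) ≤ c) :
    (r : ℝ) / 4 ≤ ((T.filter (fun z => n + r * h ≤ r * z)).card : ℝ) := by
  have h2 : T ⊆ T.filter (fun z => r * z < n) ∪ T.filter (fun z => n + r * h ≤ r * z) ∪
      (Finset.Ioc ((n - 1) / r) ((n - 1) / r + h)).filter Nat.Prime := by
    intro z hz
    have hz0 : 0 < z := (hT z hz).pos
    by_cases h3 : r * z < n
    · exact Finset.mem_union_left _ (Finset.mem_union_left _ (Finset.mem_filter.2 ⟨hz, h3⟩))
    by_cases h4 : n + r * h ≤ r * z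
    · exact Finset.mem_union_left _ (Finset.mem_union_right _ (Finset.mem_filter.2 ⟨hz, h4⟩))
    refine Finset.mem_union_right _ (Finset.mem_filter.2 ⟨?_, hT z hz⟩)
    push Not at h3 h4
    rw [Finset.mem_Ioc]
    constructor
    · rw [Nat.div_lt_iff_lt_mul (by omega)]
      rw [mul_comm]
      omega
    · rw [← Nat.add_mul_div_left _ _ (by omega : 0 < r), Nat.le_div_iff_mul_le (by omega)]
      rw [mul_comm]
      omega
  have h3 := Finset.card_le_card h2
  have h4 := (h3.trans (Finset.card_union_le _ _)).trans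
    (Nat.add_le_add_right (Finset.card_union_le _ _) _)
  have h5 : (T.card : ℝ) ≤ ((T.filter (fun z => r * z < n)).card : ℝ) +
      ((T.filter (fun z => n + r * h ≤ r * z)).card : ℝ) + (pin ((n - 1) / r) h : ℝ) := by
    exact_mod_cast h4
  have h6 := hpin ((n - 1) / r)
  have h7 : (r : ℝ) ≤ T.card := by exact_mod_cast hrT
  have h8 : (24 : ℝ) ≤ r := by exact_mod_cast hr
  linarith

lemma CV1_core (n r h Λ i l : ℕ) (c3 : ℝ) (S : Finset ℕ) (q : ℕ × ℕ)
    (hS : ∀ z ∈ S, z.Prime) (hr : 24 ≤ r) (hn : 1 ≤ n) (hir : i < r) (hln : l ≤ n)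
    (hc : c3 ≤ 1 / 8) (hc0 : 0 < c3) (hpin : ∀ y, (pin y h : ℝ) ≤ r / 8)
    (hN : (i : ℝ) * n + r * l + (c3 * r + 2) * (r * Λ) < r / 4 * (r * h))
    (hTY : TY Λ n r S) (hq : q ∈ rr S (r + i) (n - l)) :
    n ≤ r * (q.1 + Λ) ∧ r * q.2 ≤ n + r * Λ ∧
    c3 * r + 2 ≤ (((seg S q).filter (fun z => r * z < n)).card : ℝ) ∧
    c3 * r + 2 ≤ (((seg S q).filter (fun z => n < r * z)).card : ℝ) := by
  obtain ⟨T, hT⟩ : ∃ T : Finset ℕ, T = seg S q := ⟨_, rfl⟩
  have hr0 : (24 : ℝ) ≤ r := by exact_mod_cast hr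
  have hcr : c3 * r + 2 ≤ r / 8 + 2 := by nlinarith
  have hcr0 : 0 ≤ c3 * r + 2 := by positivity
  have hil : 0 ≤ (i : ℝ) * n + r * l := by positivity
  have hΛ0 : (0 : ℝ) ≤ (c3 * r + 2) * (r * Λ) := by positivity
  have hh0 : (0 : ℝ) ≤ r * h := by positivity
  unfold MP_7d0410_cr.rr at hq
  rw [Finset.mem_filter] at hq
  obtain ⟨-, hcard, hsum⟩ := hq
  unfold MP_7d0410_cr.len at hcard
  unfold MP_7d0410_cr.sm at hsum
  rw [← hT] at hcard hsum ⊢
  have hmem : ∀ z, z ∈ T ↔ z ∈ S ∧ q.1 ≤ z ∧ z ≤ q.2 := by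
    intro z
    rw [hT]
    unfold MP_7d0410_cr.seg
    rw [Finset.mem_filter]
  have hTp : ∀ z ∈ T, z.Prime := fun z hz => hS z ((hmem z).1 hz).1
  have hrT : r ≤ T.card := by omega
  have hs : ∑ z ∈ T, ((r : ℝ) * z - n) = -((i : ℝ) * n + r * l) := by
    rw [Finset.sum_sub_distrib, ← Finset.mul_sum, Finset.sum_const, hcard, nsmul_eq_mul]
    have h1 : ∑ z ∈ T, (z : ℝ) = (n : ℝ) - l := by
      rw [← Nat.cast_sum, hsum, Nat.cast_sub hln]
    rw [h1]
    push_cast
    ring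
  have hs' : ∑ z ∈ T, ((n : ℝ) - r * z) = (i : ℝ) * n + r * l := by
    have h1 : ∑ z ∈ T, ((n : ℝ) - r * z) = -∑ z ∈ T, ((r : ℝ) * z - n) := by
      rw [← Finset.sum_neg_distrib]
      exact Finset.sum_congr rfl fun z _ => by ring
    rw [h1, hs]
    ring
  -- step 1
  have hq2 : n ≤ r * q.2 := by
    by_contra hlt
    push Not at hlt
    have h0 : T.filter (fun z => n < r * z) = ∅ := by
      rw [Finset.filter_eq_empty_iff]
      intro z hz h1
      have h2 := ((hmem z).1 hz).2.2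
      have h3 : r * z ≤ r * q.2 := Nat.mul_le_mul_left r h2
      omega
    have h1 := CV1_left T hTp n r h (c3 * r + 2) hr hcr hrT hpin (by
      rw [h0, Finset.card_empty, Nat.cast_zero]
      exact hcr0)
    have h2 := CV1_sum T (fun z => (n : ℝ) - r * z) (fun z => r * z + r * h ≤ n)
      (fun z => n < r * z) (r * h) 0 (by
        intro z hz
        have h3 : ¬ n < r * z := by
          intro h4
          have h5 : z ∈ T.filter (fun z => n < r * z) := Finset.mem_filter.2 ⟨hz, h4⟩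
          rw [h0] at h5
          exact absurd h5 (Finset.notMem_empty z)
        rw [if_neg h3, sub_zero]
        by_cases h4 : r * z + r * h ≤ n
        · rw [if_pos h4]
          have h5 : (r : ℝ) * z + r * h ≤ n := by exact_mod_cast h4
          linarith
        · rw [if_neg h4]
          have h5 : (r : ℝ) * z ≤ n := by exact_mod_cast not_lt.1 h3
          linarith)
    rw [hs', mul_zero, sub_zero] at h2
    have h3 := mul_le_mul_of_nonneg_right h1 hh0
    linarith
  have hq1 : r * q.1 ≤ n := by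
    by_contra hlt
    push Not at hlt
    have hne : T.Nonempty := by
      rw [← Finset.card_pos]
      omega
    have h1 : 0 < ∑ z ∈ T, ((r : ℝ) * z - n) := by
      refine Finset.sum_pos ?_ hne
      intro z hz
      have h2 := ((hmem z).1 hz).2.1
      have h3 : r * q.1 ≤ r * z := Nat.mul_le_mul_left r h2
      have h4 : n < r * z := by omega
      have h5 : (n : ℝ) < r * z := by exact_mod_cast h4
      linarith
    linarith
  -- step 2
  have hc1 : n ≤ r * (q.1 + Λ) := by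
    by_contra hlt
    push Not at hlt
    have h1 := hTY.1
    have h2 : S.filter (fun z => r * z < n ∧ n ≤ r * (z + Λ)) ⊆ T := by
      intro z hz
      rw [Finset.mem_filter] at hz
      obtain ⟨hz1, hz2, hz3⟩ := hz
      rw [hmem]
      refine ⟨hz1, ?_, ?_⟩
      · have h3 : q.1 + Λ < z + Λ := lt_of_mul_lt_mul_left (hlt.trans_le hz3) (Nat.zero_le r)
        omega
      · have h3 : z < q.2 := lt_of_mul_lt_mul_left (hz2.trans_le hq2) (Nat.zero_le r)
        omega
    have h3 := Finset.card_le_card h2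
    omega
  have hc2 : r * q.2 ≤ n + r * Λ := by
    by_contra hlt
    push Not at hlt
    have h1 := hTY.2
    have h2 : S.filter (fun z => n < r * z ∧ r * z ≤ n + r * Λ) ⊆ T := by
      intro z hz
      rw [Finset.mem_filter] at hz
      obtain ⟨hz1, hz2, hz3⟩ := hz
      rw [hmem]
      refine ⟨hz1, ?_, ?_⟩
      · have h3 : q.1 < z := lt_of_mul_lt_mul_left (hq1.trans_lt hz2) (Nat.zero_le r)
        omega
      · have h3 : z < q.2 := lt_of_mul_lt_mul_left (hz3.trans_lt hlt) (Nat.zero_le r)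
        omega
    have h3 := Finset.card_le_card h2
    omega
  refine ⟨hc1, hc2, ?_, ?_⟩
  · by_contra hlt
    push Not at hlt
    have h1 := CV1_right T hTp n r h (c3 * r + 2) hr hn hcr hrT hpin hlt.le
    have h2 := CV1_sum T (fun z => (r : ℝ) * z - n) (fun z => n + r * h ≤ r * z)
      (fun z => r * z < n) (r * h) (r * Λ) (by
        intro z hz
        have hz1 := ((hmem z).1 hz).2.1
        by_cases h3 : r * z < n
        · have h4 : ¬ (n + r * h ≤ r * z) := by omega
          rw [if_neg h4, if_pos h3]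
          have h5 : n ≤ r * (z + Λ) := hc1.trans (Nat.mul_le_mul_left r (by omega))
          have h6 : (n : ℝ) ≤ r * (z + Λ) := by exact_mod_cast h5
          linarith
        · rw [if_neg h3, sub_zero]
          by_cases h4 : n + r * h ≤ r * z
          · rw [if_pos h4]
            have h5 : (n : ℝ) + r * h ≤ r * z := by exact_mod_cast h4
            linarith
          · rw [if_neg h4]
            have h5 : (n : ℝ) ≤ r * z := by exact_mod_cast not_lt.1 h3
            linarith)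
    rw [hs] at h2
    have h3 := mul_le_mul_of_nonneg_right h1 hh0
    have h4 : ((T.filter (fun z => r * z < n)).card : ℝ) * (r * Λ) ≤
        (c3 * r + 2) * (r * Λ) := mul_le_mul_of_nonneg_right hlt.le (by positivity)
    linarith
  · by_contra hlt
    push Not at hlt
    have h1 := CV1_left T hTp n r h (c3 * r + 2) hr hcr hrT hpin hlt.le
    have h2 := CV1_sum T (fun z => (n : ℝ) - r * z) (fun z => r * z + r * h ≤ n)
      (fun z => n < r * z) (r * h) (r * Λ) (by
        intro z hz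
        have hz1 := ((hmem z).1 hz).2.2
        by_cases h3 : n < r * z
        · have h4 : ¬ (r * z + r * h ≤ n) := by omega
          rw [if_neg h4, if_pos h3]
          have h5 : r * z ≤ n + r * Λ := (Nat.mul_le_mul_left r hz1).trans hc2
          have h6 : (r : ℝ) * z ≤ n + r * Λ := by exact_mod_cast h5
          linarith
        · rw [if_neg h3, sub_zero]
          by_cases h4 : r * z + r * h ≤ n
          · rw [if_pos h4]
            have h5 : (r : ℝ) * z + r * h ≤ n := by exact_mod_cast h4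
            linarith
          · rw [if_neg h4]
            have h5 : (r : ℝ) * z ≤ n := by exact_mod_cast not_lt.1 h3
            linarith)
    rw [hs'] at h2
    have h3 := mul_le_mul_of_nonneg_right h1 hh0
    have h4 : ((T.filter (fun z => n < r * z)).card : ℝ) * (r * Λ) ≤
        (c3 * r + 2) * (r * Λ) := mul_le_mul_of_nonneg_right hlt.le (by positivity)
    linarith

lemma CV1_ev (a D : ℝ) (ha : 0 < a) : ∀ᶠ x : ℕ in atTop, D ≤ (x : ℝ) ^ a :=
  ((tendsto_rpow_atTop ha).comp tendsto_natCast_atTop_atTop).eventually_ge_atTop D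

lemma CV1_ev_log (a D : ℝ) (ha : 0 < a) (hD : 0 < D) :
    ∀ᶠ x : ℕ in atTop, Real.log (x : ℝ) ≤ D * (x : ℝ) ^ a := by
  have h1 : ∀ᶠ y : ℝ in atTop, Real.log y ≤ D * y ^ a := by
    have h2 := (isLittleO_log_rpow_atTop ha).bound hD
    filter_upwards [h2, eventually_ge_atTop 1] with y hy hy1
    rw [Real.norm_eq_abs, Real.norm_eq_abs, abs_of_nonneg (Real.log_nonneg hy1),
      abs_of_nonneg (Real.rpow_nonneg (by linarith) a)] at hy
    exact hy
  exact tendsto_natCast_atTop_atTop.eventually h1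

lemma CV1_num (C1 C3 c4 c3 θ : ℝ) (hC1 : 1 ≤ C1) (hC3 : 1 ≤ C3) (hc4 : c4 = 1 / (24 * C3))
    (hc3 : 0 < c3) (hc3' : c3 * (100 * C1) ≤ c4) (hc38 : c3 ≤ 1 / 8) (hθ : 0 < θ)
    (hθ' : θ ≤ 1 / 200) :
    ∀ᶠ x : ℕ in atTop, ∀ n r : ℕ, x ≤ 1000 * n → n ≤ x → 1 ≤ r → 2 * A1 θ x * r ≤ n →
      2 * n ≤ A2 θ x * r → 24 ≤ r ∧ 1 ≤ n ∧ 2 ≤ ⌊c4 * r * Real.log x⌋₊ ∧
      C3 * ((⌊c4 * r * Real.log x⌋₊ : ℝ) / Real.log (⌊c4 * r * Real.log x⌋₊ : ℝ)) ≤ r / 8 ∧
      ∀ i l : ℕ, i < JJ θ x → l ≤ LN θ x r → i < r ∧ l ≤ n ∧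
        (i : ℝ) * n + r * l + (c3 * r + 2) * (r * LL C1 x r) <
          r / 4 * (r * ⌊c4 * r * Real.log x⌋₊) := by
  have hc40 : 0 < c4 := by
    rw [hc4]
    positivity
  filter_upwards [CV1_ev (3 / 50) 500 (by norm_num), CV1_ev (2 / 5) 24 (by norm_num),
    CV1_ev (1 / 15) (2 / c4) (by norm_num), CV1_ev (1 / 3) 2 (by norm_num),
    CV1_ev (1 / 5) (64 / c4) (by norm_num), CV1_ev (2 / 5) (128 / c4) (by norm_num),
    CV1_ev (9 / 100) 2 (by norm_num), CV1_ev_log (2 / 5) (c4 / (64 * C1)) (by norm_num)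
      (by positivity), CV1_ev 1 3 (by norm_num)] with x e1 e2 e3 e4 e5 e6 e7 e8 e9
  intro n r hxn hnx hr hA1 hA2
  obtain ⟨X, hX⟩ : ∃ X : ℝ, X = (x : ℝ) := ⟨_, rfl⟩
  rw [← hX] at e1 e2 e3 e4 e5 e6 e7 e8 e9 ⊢
  rw [Real.rpow_one] at e9
  have hX0 : 0 < X := by linarith
  have hX1 : 1 ≤ X := by linarith
  have hL1 : 1 ≤ Real.log X := by
    rw [Real.le_log_iff_exp_le hX0]
    have := Real.exp_one_lt_d9
    linarith
  have hP : ∀ a : ℝ, 0 < X ^ a := fun a => Real.rpow_pos_of_pos hX0 a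
  have hle : ∀ a b : ℝ, a ≤ b → X ^ a ≤ X ^ b := fun a b hab =>
    Real.rpow_le_rpow_of_exponent_le hX1 hab
  have hR1 : (1 : ℝ) ≤ r := by exact_mod_cast hr
  have hA1' : 2 * X ^ (1 / 2 + 4 * θ) * r ≤ n := by
    have h1 : X ^ (1 / 2 + 4 * θ) ≤ (A1 θ x : ℝ) := by
      unfold MP_7d0410_sp.A1
      rw [hX]
      exact Nat.le_ceil _
    have h2 : 2 * (A1 θ x : ℝ) * r ≤ n := by exact_mod_cast hA1
    have h3 : 2 * X ^ (1 / 2 + 4 * θ) * r ≤ 2 * (A1 θ x : ℝ) * r := by
      refine mul_le_mul_of_nonneg_right ?_ (by linarith)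
      linarith
    linarith
  have hA2' : 2 * (n : ℝ) ≤ X ^ (1 / 2 + 8 * θ) * r := by
    have h1 : (A2 θ x : ℝ) ≤ X ^ (1 / 2 + 8 * θ) := by
      unfold MP_7d0410_sp.A2
      rw [hX]
      exact Nat.floor_le (by positivity)
    have h2 : 2 * (n : ℝ) ≤ (A2 θ x : ℝ) * r := by exact_mod_cast hA2
    have h3 : (A2 θ x : ℝ) * r ≤ X ^ (1 / 2 + 8 * θ) * r :=
      mul_le_mul_of_nonneg_right h1 (by linarith)
    linarith
  have hxn' : X ≤ 1000 * n := by
    rw [hX]
    exact_mod_cast hxn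
  -- the lower bound for `r`
  have hr25 : X ^ (2 / 5 : ℝ) ≤ r := by
    have h1 : X ^ (1 / 2 + 8 * θ) * X ^ (2 / 5 : ℝ) ≤ X ^ (47 / 50 : ℝ) := by
      rw [← Real.rpow_add hX0]
      exact hle _ _ (by linarith)
    have h2 : X ^ (47 / 50 : ℝ) * X ^ (3 / 50 : ℝ) = X := by
      rw [← Real.rpow_add hX0]
      norm_num
    have h3 : X ^ (47 / 50 : ℝ) * 500 ≤ X := by
      calc X ^ (47 / 50 : ℝ) * 500 ≤ X ^ (47 / 50 : ℝ) * X ^ (3 / 50 : ℝ) :=
            mul_le_mul_of_nonneg_left e1 (hP _).le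
        _ = X := h2
    have h4 : X ^ (1 / 2 + 8 * θ) * X ^ (2 / 5 : ℝ) ≤ X ^ (1 / 2 + 8 * θ) * r := by
      linarith
    exact le_of_mul_le_mul_left h4 (hP _)
  have hr24 : 24 ≤ r := by
    have h1 : (24 : ℝ) ≤ r := e2.trans hr25
    exact_mod_cast h1
  have hn1 : 1 ≤ n := by
    by_contra h0
    have h1 : n = 0 := by omega
    rw [h1] at hxn'
    norm_num at hxn'
    linarith
  have hrL : X ^ (2 / 5 : ℝ) ≤ r * Real.log X := by nlinarith
  obtain ⟨h, hh⟩ : ∃ h : ℕ, h = ⌊c4 * r * Real.log X⌋₊ := ⟨_, rfl⟩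
  rw [← hh]
  have hh1 : (h : ℝ) ≤ c4 * r * Real.log X := by
    rw [hh]
    exact Nat.floor_le (by positivity)
  have hh2 : c4 * r * Real.log X - 1 < h := by
    rw [hh]
    exact Nat.sub_one_lt_floor _
  have hh3 : X ^ (1 / 3 : ℝ) ≤ h := by
    have h1 : X ^ (2 / 5 : ℝ) = X ^ (1 / 3 : ℝ) * X ^ (1 / 15 : ℝ) := by
      rw [← Real.rpow_add hX0]
      norm_num
    have h2 : 2 ≤ c4 * X ^ (1 / 15 : ℝ) := by
      rw [div_le_iff₀ hc40] at e3
      linarith
    have h3 : 2 * X ^ (1 / 3 : ℝ) ≤ c4 * X ^ (2 / 5 : ℝ) := by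
      rw [h1]
      have := mul_le_mul_of_nonneg_right h2 (hP (1 / 3)).le
      linarith
    have h4 : c4 * X ^ (2 / 5 : ℝ) ≤ c4 * (r * Real.log X) :=
      mul_le_mul_of_nonneg_left hrL hc40.le
    linarith
  have hh4 : 2 ≤ h := by
    have h1 : (2 : ℝ) ≤ h := e4.trans hh3
    exact_mod_cast h1
  have hh5 : Real.log X / 3 ≤ Real.log h := by
    have h1 := Real.log_le_log (hP _) hh3
    rw [Real.log_rpow hX0] at h1
    linarith
  refine ⟨hr24, hn1, hh4, ?_, ?_⟩
  · have h1 : (h : ℝ) / Real.log h ≤ c4 * r * Real.log X / (Real.log X / 3) :=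
      div_le_div₀ (by positivity) hh1 (by positivity) hh5
    have h2 : c4 * r * Real.log X / (Real.log X / 3) = 3 * c4 * r := by
      have : Real.log X ≠ 0 := by linarith
      field_simp
    rw [h2] at h1
    have h3 : C3 * (3 * c4 * r) = r / 8 := by
      rw [hc4]
      have : C3 ≠ 0 := by linarith
      field_simp
      norm_num
    rw [← h3]
    exact mul_le_mul_of_nonneg_left h1 (by linarith)
  · intro i l hi hl
    have hi1 : (i : ℝ) ≤ X ^ (1 / 25 : ℝ) := by
      unfold JJ at hi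
      have h1 := Nat.lt_ceil.1 hi
      rw [← hX] at h1
      exact h1.le.trans (hle _ _ (by linarith))
    have hl1 : (l : ℝ) ≤ X ^ (1 / 10 : ℝ) * r := by
      have h1 : (l : ℝ) ≤ (⌈X ^ (2 * θ)⌉₊ : ℝ) * r := by
        unfold LN at hl
        rw [← hX] at hl
        exact_mod_cast hl
      have h2 : (⌈X ^ (2 * θ)⌉₊ : ℝ) ≤ X ^ (1 / 100 : ℝ) + 1 := by
        have h3 := (Nat.ceil_lt_add_one (hP (2 * θ)).le).le
        have h4 := hle (2 * θ) (1 / 100) (by linarith)
        linarith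
      have h3 : X ^ (1 / 100 : ℝ) + 1 ≤ X ^ (1 / 10 : ℝ) := by
        have h4 : X ^ (1 / 10 : ℝ) = X ^ (1 / 100 : ℝ) * X ^ (9 / 100 : ℝ) := by
          rw [← Real.rpow_add hX0]
          norm_num
        have h5 : 1 ≤ X ^ (1 / 100 : ℝ) := Real.one_le_rpow hX1 (by norm_num)
        rw [h4]
        nlinarith
      exact h1.trans (mul_le_mul_of_nonneg_right (h2.trans h3) (by linarith))
    refine ⟨?_, ?_, ?_⟩
    · have h1 : X ^ (1 / 25 : ℝ) < X ^ (2 / 5 : ℝ) :=
        Real.rpow_lt_rpow_of_exponent_lt (by linarith) (by norm_num)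
      have h2 : (i : ℝ) < r := by linarith
      exact_mod_cast h2
    · have h1 : X ^ (1 / 10 : ℝ) * r ≤ X ^ (1 / 2 + 4 * θ) * r :=
        mul_le_mul_of_nonneg_right (hle _ _ (by linarith)) (by linarith)
      have h2 : 0 ≤ X ^ (1 / 2 + 4 * θ) * r := by positivity
      have h3 : (l : ℝ) ≤ n := by linarith
      exact_mod_cast h3
    · have h1 : (i : ℝ) * n ≤ X ^ (1 / 5 : ℝ) * r ^ 2 := by
        have h2 : (n : ℝ) ≤ X ^ (27 / 50 : ℝ) * r := by
          have h3 : X ^ (1 / 2 + 8 * θ) * r ≤ X ^ (27 / 50 : ℝ) * r :=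
            mul_le_mul_of_nonneg_right (hle _ _ (by linarith)) (by linarith)
          have h4 : (0 : ℝ) ≤ n := by positivity
          linarith
        have h3 : X ^ (1 / 25 : ℝ) * (X ^ (27 / 50 : ℝ) * r) ≤
            X ^ (1 / 5 : ℝ) * (X ^ (2 / 5 : ℝ) * r) := by
          rw [← mul_assoc, ← mul_assoc, ← Real.rpow_add hX0, ← Real.rpow_add hX0]
          exact mul_le_mul_of_nonneg_right (hle _ _ (by norm_num)) (by linarith)
        calc (i : ℝ) * n ≤ X ^ (1 / 25 : ℝ) * (X ^ (27 / 50 : ℝ) * r) :=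
              mul_le_mul hi1 h2 (by positivity) (hP _).le
          _ ≤ X ^ (1 / 5 : ℝ) * (X ^ (2 / 5 : ℝ) * r) := h3
          _ ≤ X ^ (1 / 5 : ℝ) * (r * r) := by
              refine mul_le_mul_of_nonneg_left ?_ (hP _).le
              exact mul_le_mul_of_nonneg_right hr25 (by linarith)
          _ = X ^ (1 / 5 : ℝ) * r ^ 2 := by ring
      have h2 : (r : ℝ) * l ≤ X ^ (1 / 5 : ℝ) * r ^ 2 := by
        calc (r : ℝ) * l ≤ r * (X ^ (1 / 10 : ℝ) * r) :=
              mul_le_mul_of_nonneg_left hl1 (by linarith)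
          _ = X ^ (1 / 10 : ℝ) * r ^ 2 := by ring
          _ ≤ X ^ (1 / 5 : ℝ) * r ^ 2 :=
              mul_le_mul_of_nonneg_right (hle _ _ (by norm_num)) (by positivity)
      have h3 : (LL C1 x r : ℝ) ≤ C1 * r * Real.log X + 1 := by
        unfold MP_7d0410_sp.LL
        rw [hX]
        refine (Nat.ceil_lt_add_one ?_).le
        rw [← hX]
        positivity
      have h4 : 2 * X ^ (1 / 5 : ℝ) ≤ c4 / 32 * X ^ (2 / 5 : ℝ) := by
        have h5 : X ^ (2 / 5 : ℝ) = X ^ (1 / 5 : ℝ) * X ^ (1 / 5 : ℝ) := by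
          rw [← Real.rpow_add hX0]
          norm_num
        have h6 : 64 ≤ c4 * X ^ (1 / 5 : ℝ) := by
          rw [div_le_iff₀ hc40] at e5
          linarith
        rw [h5]
        have := mul_le_mul_of_nonneg_right h6 (hP (1 / 5)).le
        linarith
      have h5 : 4 ≤ c4 / 32 * X ^ (2 / 5 : ℝ) := by
        rw [div_le_iff₀ hc40] at e6
        linarith
      have h6 : 2 * C1 * Real.log X ≤ c4 / 32 * X ^ (2 / 5 : ℝ) := by
        have h7 := mul_le_mul_of_nonneg_left e8 (by linarith : 0 ≤ 2 * C1)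
        have h8 : 2 * C1 * (c4 / (64 * C1) * X ^ (2 / 5 : ℝ)) = c4 / 32 * X ^ (2 / 5 : ℝ) := by
          have : C1 ≠ 0 := by linarith
          field_simp
          norm_num
        linarith
      have h7 : c3 * C1 * (r * Real.log X) ≤ c4 / 100 * (r * Real.log X) :=
        mul_le_mul_of_nonneg_right (by linarith) (by positivity)
      have h8 : (c3 * r + 2) * (r * LL C1 x r) ≤
          r ^ 2 * (c3 * C1 * (r * Real.log X) + c3 + 2 * C1 * Real.log X + 2) := by
        calc (c3 * r + 2) * (r * LL C1 x r) ≤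
            (c3 * r + 2) * (r * (C1 * r * Real.log X + 1)) := by
              refine mul_le_mul_of_nonneg_left ?_ (by positivity)
              exact mul_le_mul_of_nonneg_left h3 (by linarith)
          _ = r ^ 2 * (c3 * C1 * (r * Real.log X) + c3 + 2 * C1 * Real.log X) + 2 * r := by
              ring
          _ ≤ _ := by nlinarith
      have h9 : c4 * X ^ (2 / 5 : ℝ) ≤ c4 * (r * Real.log X) :=
        mul_le_mul_of_nonneg_left hrL hc40.le
      have h10 : 2 * X ^ (1 / 5 : ℝ) + (c3 * C1 * (r * Real.log X) + c3 +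
          2 * C1 * Real.log X + 2) < h / 4 := by
        linarith
      have h11 : 0 < (r : ℝ) ^ 2 := by positivity
      have h12 := mul_lt_mul_of_pos_left h10 h11
      calc (i : ℝ) * n + r * l + (c3 * r + 2) * (r * LL C1 x r) ≤
          r ^ 2 * (2 * X ^ (1 / 5 : ℝ) + (c3 * C1 * (r * Real.log X) + c3 +
          2 * C1 * Real.log X + 2)) := by linarith
        _ < r ^ 2 * (h / 4) := h12
        _ = r / 4 * (r * h) := by ring

theorem p_CV1 : Stmt_CV1 := by
  obtain ⟨C3, hC3, hBT⟩ := Pool.Agent.Work.MP_7d0410_sp.p_BTT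
  intro C1 hC1
  obtain ⟨c4, hc4⟩ : ∃ c4 : ℝ, c4 = 1 / (24 * C3) := ⟨_, rfl⟩
  have hc40 : 0 < c4 := by
    rw [hc4]
    positivity
  have h1 : c4 ≤ 1 := by
    rw [hc4, div_le_one (by positivity)]
    linarith
  refine ⟨c4 / (100 * C1), by positivity, ?_, ?_⟩
  · rw [div_le_iff₀ (by positivity)]
    linarith
  intro θ hθ hθ'
  filter_upwards [CV1_num C1 C3 c4 (c4 / (100 * C1)) θ hC1 hC3 hc4 (by positivity)
    (le_of_eq (by field_simp)) (by
      rw [div_le_iff₀ (by positivity)]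
      linarith) hθ hθ'] with x hx
  intro n r hxn hnx hr hA1 hA2 S hS hTY i l hi hl q hq
  obtain ⟨g1, g2, g3, g4, g5⟩ := hx n r hxn hnx hr hA1 hA2
  obtain ⟨g6, g7, g8⟩ := g5 i l hi hl
  exact CV1_core n r _ _ i l _ S q hS g1 g2 g6 g7 (by
      rw [div_le_iff₀ (by positivity)]
      linarith) (by positivity) (fun y => (hBT y _ g3).trans g4) g8 hTY hq

end Pool.Agent.Work.MP_7d0410_dl
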