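import Pool.Agent.Work.MP_7d0410_dl.Interface
import Pool.Agent.Work.MP_7d0410_sp.B_C1S
import Pool.Agent.Work.MP_7d0410_sp.B_C1L

/-! # DC1: pairs in `AB` (helper10; edit of `MP_7d0410_sp/B_C1B.lean`) -/

set_option autoImplicit false

namespace Pool.Agent.Work.MP_7d0410_dl

open Finset Filter MeasureTheory ProbabilityTheory
open Pool.Agent.Work.MP_7d0410_cr (seg sm len runs rr good gr cnt DD meet AB PP CountReg NN a0 UU SS
  AA repCount)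
open Pool.Agent.Work.MP_7d0410_sp (Prob wt Ex Pb hh gg HH T1 T2 A1 A2 VV G1 R1 LL pin F0 XX)
open scoped Classical Topology

theorem DC1_big (K ε : ℝ) (hε : 0 < ε) : ∀ᶠ x : ℕ in atTop, K ≤ (x : ℝ) ^ ε :=
  ((tendsto_rpow_atTop hε).comp (tendsto_natCast_atTop_atTop (R := ℝ))).eventually_ge_atTop K

theorem p_DC1 (hDRB : Stmt_DRB) : Stmt_DC1 := by
  intro w c κ hR
  have ht0 := tt_pos hR
  have ht1 := tt_le hR
  have hc0 := hR.c0
  have hceq := c_eq c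
  filter_upwards [hDRB w c κ hR, DC1_big 32 (90 * tt c) (by linarith),
    DC1_big 16 (3 * tt c) (by linarith), DC1_big 2 (1 / 2) (by norm_num),
    eventually_ge_atTop 1] with x hCRB e1 e2 e3 e4
  have hLD := LD_le hR e4
  generalize tt c = θ at *
  have hx1 : (1 : ℝ) ≤ x := by exact_mod_cast e4
  have hx0 : (0 : ℝ) < x := by linarith
  have hpos : ∀ s : ℝ, 0 < (x : ℝ) ^ s := fun s => Real.rpow_pos_of_pos hx0 s
  set a := A1 θ x with ha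
  set b := A2 θ x with hb
  have haw : (x : ℝ) ^ (1 / 2 + 4 * θ) ≤ a := Nat.le_ceil _
  have ha2' : (2 : ℝ) ≤ a := e3.trans ((Real.rpow_le_rpow_of_exponent_le hx1 (by linarith)).trans haw)
  have ha2 : 2 ≤ a := by exact_mod_cast ha2'
  have ha0 : (0 : ℝ) < a := by linarith
  have hG : (G1 θ x : ℝ) ≤ 2 * (x : ℝ) ^ θ := by
    have h3 : (G1 θ x : ℝ) < (x : ℝ) ^ θ + 1 := Nat.ceil_lt_add_one (hpos _).le
    have h4 : 1 ≤ (x : ℝ) ^ θ := Real.one_le_rpow hx1 ht0.le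
    linarith
  have hmain := Pool.Agent.Work.MP_7d0410_sp.p_C1S Pool.Agent.Work.MP_7d0410_sp.p_C1L (pd w) (prob_pd hR) a b x (G1 θ x) (LD c x)
    ((x : ℝ) ^ (3 * θ)) ha2 (hpos _).le (fun l m hl => hCRB l m hl)
  refine le_trans hmain ?_
  set s : ℝ := 2 * θ + c * (1 / 2 + 8 * θ) + 2 * θ ^ 2 with hs
  have hL2 : (LD c x : ℝ) ^ 2 ≤ 4 * (x : ℝ) ^ (2 * s) := by
    calc (LD c x : ℝ) ^ 2 ≤ (2 * (x : ℝ) ^ s) ^ 2 :=
          pow_le_pow_left₀ (Nat.cast_nonneg _) hLD 2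
      _ = 4 * (x : ℝ) ^ (2 * s) := by
          rw [mul_pow, ← Real.rpow_natCast ((x : ℝ) ^ s), ← Real.rpow_mul hx0.le]
          congr 1
          · norm_num
          · congr 1
            push_cast
            ring
  have hT1 : 2 * (G1 θ x : ℝ) * x * (LD c x : ℝ) ^ 2 / a ≤ 16 * (x : ℝ) ^ (1 - 91 * θ) := by
    rw [div_le_iff₀ ha0]
    have h10 : (x : ℝ) ^ θ * x * (x : ℝ) ^ (2 * s) ≤
        (x : ℝ) ^ (1 - 91 * θ) * (x : ℝ) ^ (1 / 2 + 4 * θ) := by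
      rw [← Real.rpow_add hx0, ← Real.rpow_add_one hx0.ne', ← Real.rpow_add hx0]
      refine Real.rpow_le_rpow_of_exponent_le hx1 ?_
      have h11 : 2 * s = 4 * θ + c + 16 * (c * θ) + 4 * θ ^ 2 := by
        rw [hs]
        ring
      have h12 : c * θ = θ / 2 - 100 * θ ^ 2 := by
        nth_rewrite 1 [hceq]
        ring
      rw [h11, h12]
      nlinarith [sq_nonneg θ]
    calc 2 * (G1 θ x : ℝ) * x * (LD c x : ℝ) ^ 2
        ≤ 2 * (2 * (x : ℝ) ^ θ) * x * (4 * (x : ℝ) ^ (2 * s)) := by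
          have := hpos θ
          gcongr
      _ = 16 * ((x : ℝ) ^ θ * x * (x : ℝ) ^ (2 * s)) := by ring
      _ ≤ 16 * ((x : ℝ) ^ (1 - 91 * θ) * (x : ℝ) ^ (1 / 2 + 4 * θ)) :=
          mul_le_mul_of_nonneg_left h10 (by norm_num)
      _ ≤ 16 * ((x : ℝ) ^ (1 - 91 * θ) * a) := by
          have := hpos (1 - 91 * θ)
          gcongr
      _ = 16 * (x : ℝ) ^ (1 - 91 * θ) * a := by ring
  have hT2 : 4 * (x : ℝ) ^ (3 * θ) * (G1 θ x : ℝ) * (x : ℝ) ^ 2 / (a : ℝ) ^ 2 ≤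
      8 * (x : ℝ) ^ (1 - 4 * θ) := by
    rw [div_le_iff₀ (by positivity)]
    have h10 : (x : ℝ) ^ (1 - 4 * θ) * ((x : ℝ) ^ (1 / 2 + 4 * θ)) ^ 2 =
        (x : ℝ) ^ (3 * θ) * (x : ℝ) ^ θ * (x : ℝ) ^ 2 := by
      rw [← Real.rpow_natCast ((x : ℝ) ^ (1 / 2 + 4 * θ)), ← Real.rpow_mul hx0.le,
        ← Real.rpow_natCast (x : ℝ), ← Real.rpow_add hx0, ← Real.rpow_add hx0,
        ← Real.rpow_add hx0]
      congr 1
      push_cast
      ring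
    calc 4 * (x : ℝ) ^ (3 * θ) * (G1 θ x : ℝ) * (x : ℝ) ^ 2
        ≤ 4 * (x : ℝ) ^ (3 * θ) * (2 * (x : ℝ) ^ θ) * (x : ℝ) ^ 2 := by
          have := hpos (3 * θ)
          gcongr
      _ = 8 * ((x : ℝ) ^ (3 * θ) * (x : ℝ) ^ θ * (x : ℝ) ^ 2) := by ring
      _ = 8 * ((x : ℝ) ^ (1 - 4 * θ) * ((x : ℝ) ^ (1 / 2 + 4 * θ)) ^ 2) := by rw [h10]
      _ ≤ 8 * ((x : ℝ) ^ (1 - 4 * θ) * (a : ℝ) ^ 2) := by
          have := hpos (1 - 4 * θ)
          have := hpos (1 / 2 + 4 * θ)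
          gcongr
      _ = 8 * (x : ℝ) ^ (1 - 4 * θ) * (a : ℝ) ^ 2 := by ring
  have hS1 : 16 * (x : ℝ) ^ (1 - 91 * θ) ≤ (x : ℝ) ^ (1 - θ) / 2 := by
    have h10 : (x : ℝ) ^ (1 - θ) = (x : ℝ) ^ (1 - 91 * θ) * (x : ℝ) ^ (90 * θ) := by
      rw [← Real.rpow_add hx0]
      congr 1
      ring
    rw [h10]
    have := hpos (1 - 91 * θ)
    nlinarith
  have hS2 : 8 * (x : ℝ) ^ (1 - 4 * θ) ≤ (x : ℝ) ^ (1 - θ) / 2 := by
    have h10 : (x : ℝ) ^ (1 - θ) = (x : ℝ) ^ (1 - 4 * θ) * (x : ℝ) ^ (3 * θ) := by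
      rw [← Real.rpow_add hx0]
      congr 1
      ring
    rw [h10]
    have := hpos (1 - 4 * θ)
    nlinarith
  linarith

end Pool.Agent.Work.MP_7d0410_dl
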