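import Pool.Agent.Work.MP_7d0410_dl.B_DCT

set_option autoImplicit false

/-! Block DCG: the number of deleted primes, for all `w` with `Reg`. -/

namespace Pool.Agent.Work.MP_7d0410_dl

open Finset Filter MeasureTheory ProbabilityTheory
open Pool.Agent.Work.MP_7d0410_cr (seg sm len runs rr good gr cnt DD meet AB PP CountReg NN a0 UU SS
  AA repCount)
open Pool.Agent.Work.MP_7d0410_sp (Prob wt Ex Pb hh gg HH T1 T2 A1 A2 VV G1 R1 LL pin F0 XX)
open scoped Classical Topology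

/-- the sum of the deletion probabilities -/
lemma DCG_sum {w : ℕ → ℝ} {c κ : ℝ} (hR : Reg w c κ) {e : ℝ} (he : 0 < e) :
    ∀ᶠ x : ℕ in atTop, ∑ m ∈ Finset.Icc 1 x, w m ≤ 5 * (x : ℝ) ^ (1 - c + e) := by
  obtain ⟨m0, hm0⟩ := eventually_atTop.1 (hR.exp e he)
  have h0 := hR.c0
  have h1 := hR.c1
  have h2 : ∀ᶠ x : ℕ in atTop, (m0 : ℝ) ≤ (x : ℝ) ^ (1 - c + e) :=
    ((tendsto_rpow_atTop (by linarith)).comp
      (tendsto_natCast_atTop_atTop (R := ℝ))).eventually_ge_atTop _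
  filter_upwards [h2, eventually_ge_atTop 1] with x k2 k3
  have hx1 : (1 : ℝ) ≤ x := by exact_mod_cast k3
  have hx0 : (0 : ℝ) < x := by linarith
  have hw1 : ∀ m, w m ≤ 1 := fun m => (hR.le m).trans hR.k1.le
  -- every term
  have hterm : ∀ m ∈ Finset.Icc 1 x, w m ≤ (if m < m0 then 1 else 0) +
      2 * (x : ℝ) ^ e * ((m : ℝ) + 1) ^ (-c) := by
    intro m hm
    rw [Finset.mem_Icc] at hm
    have hm1 : (1 : ℝ) ≤ m := by exact_mod_cast hm.1
    have hmx : (m : ℝ) ≤ x := by exact_mod_cast hm.2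
    have hp : 0 ≤ 2 * (x : ℝ) ^ e * ((m : ℝ) + 1) ^ (-c) := by positivity
    by_cases hlt : m < m0
    · rw [if_pos hlt]
      have := hw1 m
      linarith
    · rw [if_neg hlt, zero_add]
      have k4 := (hm0 m (by omega)).2
      refine k4.trans ?_
      have k5 : (m : ℝ) ^ (-(c - e)) = (m : ℝ) ^ (-c) * (m : ℝ) ^ e := by
        rw [← Real.rpow_add (by linarith)]
        congr 1
        ring
      have k6 : (m : ℝ) ^ e ≤ (x : ℝ) ^ e := Real.rpow_le_rpow (by linarith) hmx he.le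
      have k7 : (m : ℝ) ^ (-c) ≤ 2 * ((m : ℝ) + 1) ^ (-c) := by
        have k8 : ((m : ℝ) + 1) ^ c ≤ (2 * (m : ℝ)) ^ c :=
          Real.rpow_le_rpow (by linarith) (by linarith) h0
        have k9 : (2 * (m : ℝ)) ^ c = (2 : ℝ) ^ c * (m : ℝ) ^ c :=
          Real.mul_rpow (by norm_num) (by linarith)
        have k10 : (2 : ℝ) ^ c ≤ 2 := by
          calc (2 : ℝ) ^ c ≤ (2 : ℝ) ^ (1 : ℝ) :=
                Real.rpow_le_rpow_of_exponent_le (by norm_num) (by linarith)
            _ = 2 := by norm_num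
        have k11 : 0 < (m : ℝ) ^ c := Real.rpow_pos_of_pos (by linarith) _
        have k12 : 0 < ((m : ℝ) + 1) ^ c := Real.rpow_pos_of_pos (by linarith) _
        rw [Real.rpow_neg (by linarith), Real.rpow_neg (by linarith)]
        have k13 : ((m : ℝ) + 1) ^ c ≤ 2 * (m : ℝ) ^ c := by
          rw [k9] at k8
          nlinarith
        rw [inv_eq_one_div, div_le_iff₀ k11, mul_assoc, ← div_eq_inv_mul, mul_div_assoc']
        rw [le_div_iff₀ k12]
        linarith
      rw [k5]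
      calc (m : ℝ) ^ (-c) * (m : ℝ) ^ e ≤ (2 * ((m : ℝ) + 1) ^ (-c)) * (x : ℝ) ^ e :=
            mul_le_mul k7 k6 (by positivity) (by positivity)
        _ = 2 * (x : ℝ) ^ e * ((m : ℝ) + 1) ^ (-c) := by ring
  refine (Finset.sum_le_sum hterm).trans ?_
  rw [Finset.sum_add_distrib, ← Finset.mul_sum]
  have k4 : ∑ m ∈ Finset.Icc 1 x, (if m < m0 then (1 : ℝ) else 0) ≤ m0 := by
    rw [← Finset.sum_filter, Finset.sum_const, nsmul_eq_mul, mul_one]
    have : ((Finset.Icc 1 x).filter (fun m => m < m0)).card ≤ m0 := by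
      calc ((Finset.Icc 1 x).filter (fun m => m < m0)).card ≤ (Finset.range m0).card := by
            refine Finset.card_le_card fun m hm => ?_
            rw [Finset.mem_filter] at hm
            exact Finset.mem_range.2 hm.2
        _ = m0 := Finset.card_range m0
    exact_mod_cast this
  have k5 := DCT_sum h0 h1 x
  have k6 : (x : ℝ) ^ (1 - c + e) = (x : ℝ) ^ (1 - c) * (x : ℝ) ^ e := Real.rpow_add hx0 _ _
  have k7 : 2 * (x : ℝ) ^ e * ∑ m ∈ Finset.Icc 1 x, ((m : ℝ) + 1) ^ (-c) ≤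
      2 * (x : ℝ) ^ e * (2 * (x : ℝ) ^ (1 - c)) := mul_le_mul_of_nonneg_left k5 (by positivity)
  rw [k6] at k2 ⊢
  nlinarith

/-- numerics -/
lemma DCG_num {c e : ℝ} (h1 : c < 1 / 2) (he : 0 < e) : ∀ᶠ x : ℕ in atTop,
    5 * (x : ℝ) ^ (1 - c + e / 2) - (x : ℝ) ^ (1 - c + e) * Real.log 2 ≤ -(2 * Real.log x) := by
  have h2 := tendsto_natCast_atTop_atTop (R := ℝ)
  have h3 := (isLittleO_log_rpow_atTop (by norm_num : (0 : ℝ) < 1 / 2)).bound
    (by norm_num : (0 : ℝ) < 1 / 2)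
  have h4 : ∀ᶠ x : ℕ in atTop, (12 : ℝ) ≤ (x : ℝ) ^ (e / 2) :=
    ((tendsto_rpow_atTop (by positivity)).comp h2).eventually_ge_atTop 12
  filter_upwards [h2.eventually h3, h4, eventually_ge_atTop 3] with x k1 k2 k3
  have hxr : (3 : ℝ) ≤ x := by exact_mod_cast k3
  have hx0 : (0 : ℝ) < x := by linarith
  rw [Real.norm_eq_abs, Real.norm_eq_abs, abs_of_nonneg (Real.rpow_nonneg hx0.le _)] at k1
  have k4 := le_abs_self (Real.log (x : ℝ))
  have k5 : (x : ℝ) ^ ((1 : ℝ) / 2) ≤ (x : ℝ) ^ (1 - c + e / 2) :=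
    Real.rpow_le_rpow_of_exponent_le (by linarith) (by linarith)
  have k6 : (x : ℝ) ^ (1 - c + e) = (x : ℝ) ^ (1 - c + e / 2) * (x : ℝ) ^ (e / 2) := by
    rw [← Real.rpow_add hx0]
    congr 1
    ring
  have k7 : (1 : ℝ) / 2 ≤ Real.log 2 := by
    have := Real.log_two_gt_d9
    linarith
  have k8 : 0 < (x : ℝ) ^ (1 - c + e / 2) := Real.rpow_pos_of_pos hx0 _
  have k9 : (x : ℝ) ^ (1 - c + e / 2) * 6 ≤
      (x : ℝ) ^ (1 - c + e / 2) * (x : ℝ) ^ (e / 2) * Real.log 2 := by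
    rw [mul_assoc]
    refine mul_le_mul_of_nonneg_left ?_ k8.le
    nlinarith
  rw [k6]
  linarith

/-- DCG: the number of deleted primes -/
theorem p_DCG.{u} (hL : Stmt_DLW.{u}) {Ω : Type u} [MeasurableSpace Ω] (μ : Measure Ω)
    [IsProbabilityMeasure μ] (E : ℕ → Set Ω) (w : ℕ → ℝ) (c κ : ℝ) (hr : Reg w c κ)
    (hE : Del μ E w) : ∀ᵐ ω ∂μ, ∀ e : ℝ, 0 < e → ∀ᶠ x : ℕ in atTop,
    (((Finset.Icc 1 x).filter (fun p => p.Prime ∧ ω ∈ E p)).card : ℝ) ≤ (x : ℝ) ^ (1 - c + e) := by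
  have key : ∀ i : ℕ, ∀ᵐ ω ∂μ, ∀ᶠ x : ℕ in atTop,
      (((Finset.Icc 1 x).filter (fun p => p.Prime ∧ ω ∈ E p)).card : ℝ) ≤
        (x : ℝ) ^ (1 - c + 1 / ((i : ℝ) + 1)) := by
    intro i
    have he : (0 : ℝ) < 1 / ((i : ℝ) + 1) := by positivity
    generalize 1 / ((i : ℝ) + 1) = e at he
    have hbc : ∀ᵐ ω ∂μ, ∀ᶠ x : ℕ in atTop, ω ∉ {ω | (x : ℝ) ^ (1 - c + e) <
        ((((Finset.Icc 1 x).filter Nat.Prime) \
          (((Finset.Icc 1 x).filter Nat.Prime).filter (fun m => m ∈ primesMinus E ω))).card : ℝ)} := by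
      refine Pool.Agent.Work.MP_7d0410_cr.BCL_bc μ _ (fun y => 1 / (y : ℝ) ^ 2)
        (Real.summable_one_div_nat_pow.mpr (by norm_num)) ?_
      filter_upwards [DCG_num hr.c1 he, DCG_sum hr (by positivity : 0 < e / 2),
        eventually_ge_atTop 3] with x hx hsum hx3
      have hlaw := (hL μ E w c κ hr hE ((Finset.Icc 1 x).filter Nat.Prime)
        (fun T => (x : ℝ) ^ (1 - c + e) < ((((Finset.Icc 1 x).filter Nat.Prime) \ T).card : ℝ))).2
      refine (le_of_eq hlaw).trans ?_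
      refine (DCT_tail (prob_pd hr) _ _).trans ?_
      have hs : ∑ m ∈ (Finset.Icc 1 x).filter Nat.Prime, (1 - pd w m) ≤
          5 * (x : ℝ) ^ (1 - c + e / 2) := by
        have e1 : ∑ m ∈ (Finset.Icc 1 x).filter Nat.Prime, (1 - pd w m) =
            ∑ m ∈ (Finset.Icc 1 x).filter Nat.Prime, w m := by
          refine Finset.sum_congr rfl fun m hm => ?_
          rw [pd_prime (Finset.mem_filter.1 hm).2]
          ring
        have e2 : ∑ m ∈ (Finset.Icc 1 x).filter Nat.Prime, w m ≤ ∑ m ∈ Finset.Icc 1 x, w m :=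
          Finset.sum_le_sum_of_subset_of_nonneg (Finset.filter_subset _ _)
            (fun m _ _ => (hr.pos m).le)
        rw [e1]
        exact e2.trans hsum
      have hy0 : (0 : ℝ) < x := by
        have : 0 < x := by omega
        exact_mod_cast this
      refine (Real.exp_le_exp.2 (by linarith : _ ≤ -(2 * Real.log x))).trans (le_of_eq ?_)
      rw [Real.exp_neg, two_mul, Real.exp_add, Real.exp_log hy0, one_div, sq]
    filter_upwards [hbc] with ω hω
    filter_upwards [hω] with x hx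
    have hx' := not_lt.1 hx
    refine le_trans ?_ hx'
    have : ((Finset.Icc 1 x).filter (fun p => p.Prime ∧ ω ∈ E p)) ⊆
        (((Finset.Icc 1 x).filter Nat.Prime) \
          (((Finset.Icc 1 x).filter Nat.Prime).filter (fun m => m ∈ primesMinus E ω))) := by
      intro m hm
      rw [Finset.mem_filter] at hm
      rw [Finset.mem_sdiff, Finset.mem_filter, Finset.mem_filter, Finset.mem_filter]
      refine ⟨⟨hm.1, hm.2.1⟩, fun h => ?_⟩
      exact h.2.2 hm.2.2
    exact_mod_cast Finset.card_le_card this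
  filter_upwards [ae_all_iff.2 key] with ω hω e he
  obtain ⟨i, hi⟩ := exists_nat_one_div_lt he
  filter_upwards [hω i, eventually_ge_atTop 1] with x hx hx1
  refine hx.trans (Real.rpow_le_rpow_of_exponent_le (by exact_mod_cast hx1) (by linarith))

end Pool.Agent.Work.MP_7d0410_dl
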