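import Pool.Agent.Work.MP_7d0410_dl.Interface
import Pool.Agent.Work.MP_7d0410_sp.B_MCK

set_option autoImplicit false

namespace Pool.Agent.Work.MP_7d0410_dl

open Finset Filter MeasureTheory ProbabilityTheory
open Pool.Agent.Work.MP_7d0410_cr (seg sm len runs rr good gr cnt DD meet AB PP CountReg NN a0 UU SS
  AA repCount mem_runs mem_seg)
open Pool.Agent.Work.MP_7d0410_sp (Prob wt Ex Pb hh gg HH T1 T2 A1 A2 VV G1 R1 LL pin F0 XX Ex_congr
  Ex_sum MCK_seg)
open scoped Classical Topology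

lemma DCK_FD (S : Finset ℕ) (r n z : ℕ) (hz : z ∈ S) :
    ((rr (S.erase z) r n).filter (fun q => q.1 < z ∧ z < q.2)).card = FD S r n z := by
  unfold FD
  congr 1
  ext q
  rw [Finset.mem_filter, Finset.mem_filter]
  unfold rr
  rw [Finset.mem_filter, mem_runs, mem_runs]
  have key : q.1 < z → z < q.2 → len (S.erase z) q + 1 = len S q ∧
      sm (S.erase z) q + z = sm S q := by
    intro h1 h2
    have hzs : z ∈ seg S q := mem_seg.2 ⟨hz, h1.le, h2.le⟩
    constructor
    · unfold len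
      rw [MCK_seg, Finset.card_erase_add_one hzs]
    · unfold sm
      rw [MCK_seg]
      exact Finset.sum_erase_add _ (fun m => m) hzs
  constructor
  · rintro ⟨⟨⟨h1, h2, h3⟩, h4, h5⟩, h6, h7⟩
    obtain ⟨k1, k2⟩ := key h6 h7
    exact ⟨⟨(Finset.mem_erase.1 h1).2, (Finset.mem_erase.1 h2).2, h3⟩, h6, h7, by omega, by omega⟩
  · rintro ⟨⟨h1, h2, h3⟩, h6, h7, h8, h9⟩
    obtain ⟨k1, k2⟩ := key h6 h7
    exact ⟨⟨⟨Finset.mem_erase.2 ⟨by omega, h1⟩, Finset.mem_erase.2 ⟨by omega, h2⟩, h3⟩, by omega,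
      by omega⟩, h6, h7⟩

theorem p_DCK : Stmt_DCK := by
  intro w c κ hR a b r n
  have h1 : Ex (pd w) (Finset.Icc a b) (fun S => ∑ q ∈ rr S r n, (KD S q : ℝ)) =
      Ex (pd w) (Finset.Icc a b) (fun S => ∑ z ∈ (Finset.Icc a b).filter Nat.Prime,
        (if z ∈ S then 0 else 1) *
          (((rr S r n).filter (fun q => q.1 < z ∧ z < q.2)).card : ℝ)) := by
    refine Ex_congr fun S hS => ?_
    have h2 : ∀ q ∈ rr S r n, (KD S q : ℝ) = ∑ z ∈ (Finset.Icc a b).filter Nat.Prime,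
        (if z ∉ S ∧ q.1 < z ∧ z < q.2 then (1 : ℝ) else 0) := by
      intro q hq
      rw [← Finset.sum_filter, Finset.sum_const, nsmul_eq_mul, mul_one]
      unfold KD
      congr 2
      unfold rr at hq
      rw [Finset.mem_filter, mem_runs] at hq
      obtain ⟨⟨g1, g2, g3⟩, _⟩ := hq
      have g4 := Finset.mem_Icc.1 (hS g1)
      have g5 := Finset.mem_Icc.1 (hS g2)
      ext z
      rw [Finset.mem_filter, Finset.mem_filter, Finset.mem_filter, Finset.mem_Ioo, Finset.mem_Icc]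
      constructor
      · rintro ⟨⟨h3, h4⟩, h5, h6⟩
        exact ⟨⟨⟨by omega, by omega⟩, h5⟩, h6, h3, h4⟩
      · rintro ⟨⟨_, h5⟩, h6, h3, h4⟩
        exact ⟨⟨h3, h4⟩, h5, h6⟩
    rw [Finset.sum_congr rfl h2, Finset.sum_comm]
    refine Finset.sum_congr rfl fun z _ => ?_
    by_cases hz : z ∈ S
    · rw [if_pos hz, zero_mul]
      apply Finset.sum_eq_zero
      intro q _
      rw [if_neg]
      exact fun h => h.1 hz
    · rw [if_neg hz, one_mul, ← Finset.sum_filter, Finset.sum_const, nsmul_eq_mul, mul_one]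
      congr 2
      ext q
      rw [Finset.mem_filter, Finset.mem_filter]
      constructor
      · rintro ⟨h3, _, h5⟩
        exact ⟨h3, h5⟩
      · rintro ⟨h3, h5⟩
        exact ⟨h3, hz, h5⟩
  rw [h1, Ex_sum]
  refine Finset.sum_congr rfl fun z hz => ?_
  rw [Finset.mem_filter] at hz
  have h4 : pd w z = 1 - w z := pd_prime hz.2
  have h5 := hR.pos z
  have h6 := hR.le z
  have h7 := hR.k1
  rw [Ex_delete (p := pd w) (Finset.Icc a b) z hz.1 (by rw [h4]; linarith)
    (by rw [h4]; linarith) (fun S => (((rr S r n).filter (fun q => q.1 < z ∧ z < q.2)).card : ℝ)),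
    h4]
  have h8 : (1 - (1 - w z)) / (1 - w z) = w z / (1 - w z) := by
    congr 1
    ring
  rw [h8]
  congr 1
  refine Ex_congr fun S _ => ?_
  by_cases hS : z ∈ S
  · rw [if_pos hS, if_pos hS, one_mul, DCK_FD S r n z hS]
  · rw [if_neg hS, if_neg hS, zero_mul]

end Pool.Agent.Work.MP_7d0410_dl
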