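import Pool.Agent.Work.MP_7d0410_dl.Interface
import Pool.Agent.Work.MP_7d0410_sp.B_CO
import Pool.Agent.Work.MP_7d0410_sp.B_C2A
import Pool.Agent.Work.MP_7d0410_cr.B_C1A

/-!
# Random subsets of the primes: collisions are rare (block DCO, helper52)
-/

set_option autoImplicit false

namespace Pool.Agent.Work.MP_7d0410_dl

open Finset Filter MeasureTheory ProbabilityTheory
open Pool.Agent.Work.MP_7d0410_cr (seg sm len runs rr good gr cnt DD meet AB PP CountReg NN a0 UU SS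
  AA repCount)
open Pool.Agent.Work.MP_7d0410_sp (Prob wt Ex Pb hh gg HH T1 T2 A1 A2 VV G1 R1 LL pin F0 XX)
open Pool.Agent.Work.MP_7d0410_sp (CO_pow CO_G1 CO_A1 Ex_sum Ex_mono Ex_const_mul)
open Pool.Agent.Work.MP_7d0410_cr (CO_log)
open scoped Classical Topology

/-- `LD ≤ R1` for large `x` -/
lemma DCO_LD {w : ℕ → ℝ} {c κ : ℝ} (h : Reg w c κ) :
    ∀ᶠ x : ℕ in atTop, LD c x ≤ R1 (tt c) x := by
  obtain ⟨θ, hθ⟩ : ∃ θ, θ = tt c := ⟨_, rfl⟩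
  have t0 : 0 < θ := hθ ▸ tt_pos h
  have t1 : θ ≤ 1 / 200 := hθ ▸ tt_le h
  rw [← hθ]
  filter_upwards [CO_pow (1 / 4 - 9 * θ) 2 (by linarith), eventually_ge_atTop 1] with x hx hx1
  have hX1 : (1 : ℝ) ≤ x := by exact_mod_cast hx1
  have hX : (0 : ℝ) < x := by linarith
  have e4 := LD_le_quarter h hx1
  have e6 : (x : ℝ) ^ (1 / 2 - 9 * θ) ≤ R1 θ x := Nat.le_ceil _
  have e7 : 2 * (x : ℝ) ^ (1 / 4 : ℝ) ≤ (x : ℝ) ^ (1 / 2 - 9 * θ) := by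
    have e8 : (x : ℝ) ^ (1 / 2 - 9 * θ) = (x : ℝ) ^ (1 / 4 - 9 * θ) * (x : ℝ) ^ (1 / 4 : ℝ) := by
      rw [← Real.rpow_add hX]
      congr 1
      ring
    rw [e8]
    gcongr
  have e9 : (LD c x : ℝ) ≤ R1 θ x := by linarith
  exact_mod_cast e9

theorem p_DCO (h1 : Stmt_DC1) (h3 : Stmt_DRB) : Stmt_DCO := by
  intro w c κ hP η hη
  have h1' := h1 w c κ hP
  have h3' := h3 w c κ hP
  have h4' := DCO_LD hP
  have h2 := Pool.Agent.Work.MP_7d0410_sp.p_C2A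
  have hprob := prob_pd hP
  have t0 := tt_pos hP
  have t1 := tt_le hP
  obtain ⟨θ, hθ⟩ : ∃ θ, θ = tt c := ⟨_, rfl⟩
  rw [← hθ] at t0 t1 h1' h3' h4' ⊢
  filter_upwards [h1', h3', h4', CO_pow θ (4 / η) t0, CO_pow (7 * θ) 16 (by linarith),
    CO_log (1 / 2 - 12 * θ) (by linarith) (16 / η), CO_pow (4 * θ) (384 / η) (by linarith),
    eventually_ge_atTop 1] with x k1 k3 k4 k5 k6 k7 k8 hx1
  have hX1 : (1 : ℝ) ≤ x := by exact_mod_cast hx1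
  have hX : (0 : ℝ) < x := by linarith
  have hlog : 0 ≤ Real.log x := Real.log_nonneg hX1
  have hA : (x : ℝ) ^ (1 + 8 * θ) ≤ (A1 θ x : ℝ) ^ 2 := CO_A1 hx1
  have hA1 : 1 ≤ A1 θ x := by
    have : (1 : ℝ) ≤ A1 θ x := (Real.one_le_rpow hX1 (by linarith)).trans (Nat.le_ceil _)
    exact_mod_cast this
  have hG := CO_G1 t0 hx1
  have hR : (x : ℝ) ^ (1 / 2 - 9 * θ) ≤ R1 θ x := Nat.le_ceil _
  have hR1 : 1 ≤ R1 θ x := by
    have : (1 : ℝ) ≤ R1 θ x := (Real.one_le_rpow hX1 (by linarith)).trans hR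
    exact_mod_cast this
  rw [Finset.sum_add_distrib]
  -- the first sum
  have s1 : ∑ n ∈ Finset.Icc 1 x, T1 (pd w) (VV θ x) (R1 θ x) (G1 θ x) n ≤ 2 * (x : ℝ) ^ (1 - θ) := by
    have e1 : ∑ n ∈ Finset.Icc 1 x, T1 (pd w) (VV θ x) (R1 θ x) (G1 θ x) n ≤
        Ex (pd w) (VV θ x) (fun S => 2 * ((AB S (G1 θ x) x).card : ℝ)) := by
      unfold T1
      rw [← Ex_sum]
      refine Ex_mono hprob fun S hS => ?_
      have hpos : ∀ m ∈ S, 1 ≤ m := by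
        intro m hm
        have := (Finset.mem_Icc.1 (hS hm)).1
        omega
      exact_mod_cast Pool.Agent.Work.MP_7d0410_cr.p_C1A S (R1 θ x) (G1 θ x) x hpos
    refine e1.trans ?_
    rw [Ex_const_mul]
    linarith
  have s1' : 2 * (x : ℝ) ^ (1 - θ) ≤ η / 2 * x := by
    have e1 : (x : ℝ) ^ (1 - θ) * (x : ℝ) ^ θ = x := by
      rw [← Real.rpow_add hX]
      have : 1 - θ + θ = 1 := by ring
      rw [this, Real.rpow_one]
    have e2 : 0 ≤ (x : ℝ) ^ (1 - θ) := by positivity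
    have e3 : (x : ℝ) ^ (1 - θ) * (4 / η) ≤ x := by
      calc (x : ℝ) ^ (1 - θ) * (4 / η) ≤ (x : ℝ) ^ (1 - θ) * (x : ℝ) ^ θ := by gcongr
        _ = x := e1
    have e4 : η * ((x : ℝ) ^ (1 - θ) * (4 / η)) = 4 * (x : ℝ) ^ (1 - θ) := by field_simp
    have e5 := mul_le_mul_of_nonneg_left e3 hη.le
    rw [e4] at e5
    linarith
  -- the second sum
  have h8 : 8 * G1 θ x * x ≤ A1 θ x ^ 2 := by
    have : (8 : ℝ) * G1 θ x * x ≤ (A1 θ x : ℝ) ^ 2 := by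
      refine le_trans ?_ hA
      have e1 : (x : ℝ) ^ (1 + 8 * θ) = (x : ℝ) ^ (7 * θ) * ((x : ℝ) ^ θ * x) := by
        have : (x : ℝ) ^ (7 * θ) * ((x : ℝ) ^ θ * (x : ℝ) ^ (1 : ℝ)) = (x : ℝ) ^ (1 + 8 * θ) := by
          rw [← Real.rpow_add hX, ← Real.rpow_add hX]
          congr 1
          ring
        rw [Real.rpow_one] at this
        exact this.symm
      rw [e1]
      calc (8 : ℝ) * G1 θ x * x ≤ 8 * (2 * (x : ℝ) ^ θ) * x := by gcongr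
        _ = 16 * ((x : ℝ) ^ θ * x) := by ring
        _ ≤ (x : ℝ) ^ (7 * θ) * ((x : ℝ) ^ θ * x) := by gcongr
    exact_mod_cast this
  have s2 := h2 (pd w) hprob (A1 θ x) (A2 θ x) x (R1 θ x) (G1 θ x) ((x : ℝ) ^ (3 * θ)) hA1 h8 hR1 hx1
    (by positivity) (fun s n hs _ => k3 s n (k4.trans hs))
  have s2a : (x : ℝ) ^ (3 * θ) * (2 * ((x : ℝ) / R1 θ x) * (1 + Real.log x)) ≤ η / 4 * x := by
    have e1 : (x : ℝ) / R1 θ x ≤ (x : ℝ) ^ (1 / 2 + 9 * θ) := by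
      have e2 : (x : ℝ) / R1 θ x ≤ (x : ℝ) / (x : ℝ) ^ (1 / 2 - 9 * θ) :=
        div_le_div_of_nonneg_left hX.le (by positivity) hR
      refine e2.trans (le_of_eq ?_)
      have e3 : (x : ℝ) ^ (1 : ℝ) / (x : ℝ) ^ (1 / 2 - 9 * θ) = (x : ℝ) ^ (1 / 2 + 9 * θ) := by
        rw [← Real.rpow_sub hX]
        congr 1
        ring
      rw [Real.rpow_one] at e3
      exact e3
    have e4 : 1 + Real.log x ≤ 2 * ((Real.log x) ^ 2 + 1) := by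
      nlinarith [sq_nonneg (Real.log x - 1), sq_nonneg (Real.log x)]
    have e5 : (x : ℝ) ^ (3 * θ) * (x : ℝ) ^ (1 / 2 + 9 * θ) * (x : ℝ) ^ (1 / 2 - 12 * θ) = x := by
      rw [← Real.rpow_add hX, ← Real.rpow_add hX]
      have : 3 * θ + (1 / 2 + 9 * θ) + (1 / 2 - 12 * θ) = 1 := by ring
      rw [this, Real.rpow_one]
    have e6 : 4 * ((Real.log x) ^ 2 + 1) ≤ η / 4 * (x : ℝ) ^ (1 / 2 - 12 * θ) := by
      have := mul_le_mul_of_nonneg_left k7 (show 0 ≤ η / 4 by linarith)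
      calc 4 * ((Real.log x) ^ 2 + 1) = η / 4 * (16 / η * ((Real.log x) ^ 2 + 1)) := by
            field_simp
            norm_num
        _ ≤ _ := this
    calc (x : ℝ) ^ (3 * θ) * (2 * ((x : ℝ) / R1 θ x) * (1 + Real.log x))
        ≤ (x : ℝ) ^ (3 * θ) * (2 * ((x : ℝ) ^ (1 / 2 + 9 * θ)) * (2 * ((Real.log x) ^ 2 + 1))) := by
          gcongr
      _ = (x : ℝ) ^ (3 * θ) * (x : ℝ) ^ (1 / 2 + 9 * θ) * (4 * ((Real.log x) ^ 2 + 1)) := by ring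
      _ ≤ (x : ℝ) ^ (3 * θ) * (x : ℝ) ^ (1 / 2 + 9 * θ) * (η / 4 * (x : ℝ) ^ (1 / 2 - 12 * θ)) := by
          gcongr
      _ = η / 4 * ((x : ℝ) ^ (3 * θ) * (x : ℝ) ^ (1 / 2 + 9 * θ) * (x : ℝ) ^ (1 / 2 - 12 * θ)) := by
          ring
      _ = η / 4 * x := by rw [e5]
  have s2b : (x : ℝ) ^ (3 * θ) * (48 * (G1 θ x : ℝ) * (x : ℝ) ^ 2 / (A1 θ x : ℝ) ^ 2) ≤ η / 4 * x := by
    have e0 : (48 * (G1 θ x : ℝ) * (x : ℝ) ^ 2 / (A1 θ x : ℝ) ^ 2) ≤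
        48 * (2 * (x : ℝ) ^ θ) * (x : ℝ) ^ 2 / (x : ℝ) ^ (1 + 8 * θ) := by
      refine div_le_div₀ (by positivity) ?_ (by positivity) hA
      gcongr
    have e1 : (x : ℝ) ^ (3 * θ) * (48 * (2 * (x : ℝ) ^ θ) * (x : ℝ) ^ 2 / (x : ℝ) ^ (1 + 8 * θ)) =
        96 * (x : ℝ) ^ (1 - 4 * θ) := by
      have e2 : (x : ℝ) ^ (3 * θ) * (x : ℝ) ^ θ * (x : ℝ) ^ (2 : ℝ) / (x : ℝ) ^ (1 + 8 * θ) =
          (x : ℝ) ^ (1 - 4 * θ) := by
        rw [← Real.rpow_add hX, ← Real.rpow_add hX, ← Real.rpow_sub hX]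
        congr 1
        ring
      have e3 : (x : ℝ) ^ (2 : ℝ) = (x : ℝ) ^ 2 := by
        rw [← Real.rpow_natCast]
        norm_num
      rw [e3] at e2
      rw [← e2]
      ring
    have e4 : (x : ℝ) ^ (1 - 4 * θ) * (x : ℝ) ^ (4 * θ) = x := by
      rw [← Real.rpow_add hX]
      have : 1 - 4 * θ + 4 * θ = 1 := by ring
      rw [this, Real.rpow_one]
    have e5 : 96 * (x : ℝ) ^ (1 - 4 * θ) ≤ η / 4 * x := by
      have e6 : (x : ℝ) ^ (1 - 4 * θ) * (384 / η) ≤ x := by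
        calc (x : ℝ) ^ (1 - 4 * θ) * (384 / η) ≤ (x : ℝ) ^ (1 - 4 * θ) * (x : ℝ) ^ (4 * θ) := by gcongr
          _ = x := e4
      have e7 : η * ((x : ℝ) ^ (1 - 4 * θ) * (384 / η)) = 384 * (x : ℝ) ^ (1 - 4 * θ) := by field_simp
      have e8 := mul_le_mul_of_nonneg_left e6 hη.le
      rw [e7] at e8
      linarith
    calc (x : ℝ) ^ (3 * θ) * (48 * (G1 θ x : ℝ) * (x : ℝ) ^ 2 / (A1 θ x : ℝ) ^ 2)
        ≤ (x : ℝ) ^ (3 * θ) * (48 * (2 * (x : ℝ) ^ θ) * (x : ℝ) ^ 2 / (x : ℝ) ^ (1 + 8 * θ)) := by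
          gcongr
      _ = 96 * (x : ℝ) ^ (1 - 4 * θ) := e1
      _ ≤ η / 4 * x := e5
  have s2' : ∑ n ∈ Finset.Icc 1 x, T2 (pd w) (VV θ x) (R1 θ x) (G1 θ x) n ≤ η / 2 * x := by
    refine s2.trans ?_
    rw [mul_add]
    linarith
  linarith

end Pool.Agent.Work.MP_7d0410_dl
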