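import Pool.Agent.Work.MP_7d0410_dl.Interface
import Mathlib.NumberTheory.Chebyshev

set_option autoImplicit false

/-! Block DCR: the counting function of a set of primes. -/

namespace Pool.Agent.Work.MP_7d0410_dl

open Finset Filter MeasureTheory ProbabilityTheory
open Pool.Agent.Work.MP_7d0410_cr (seg sm len runs rr good gr cnt DD meet AB PP CountReg NN a0 UU SS
  AA repCount)
open scoped Classical Topology

theorem DCR_pr : ∀ᶠ y : ℕ in atTop, (((Finset.Icc 1 y).filter Nat.Prime).card : ℝ) ≤
    3 * ((y : ℝ) / Real.log y) := by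
  have h1 := Chebyshev.eventually_primeCounting_le (by norm_num : (0 : ℝ) < 1)
  have h2 := tendsto_natCast_atTop_atTop (R := ℝ)
  filter_upwards [h2.eventually h1, eventually_ge_atTop 3] with y hy hy3
  have hyr : (3 : ℝ) ≤ y := by exact_mod_cast hy3
  have hlog : 0 < Real.log y := Real.log_pos (by linarith)
  rw [Nat.floor_natCast] at hy
  have h3 : ((Finset.Icc 1 y).filter Nat.Prime).card ≤ Nat.primeCounting y := by
    rw [Nat.primeCounting, Nat.primeCounting', Nat.count_eq_card_filter_range]
    refine Finset.card_le_card ?_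
    intro m hm
    rw [Finset.mem_filter, Finset.mem_Icc] at hm
    rw [Finset.mem_filter, Finset.mem_range]
    exact ⟨by omega, hm.2⟩
  have h4 : Real.log 4 ≤ 2 := by
    have h5 : Real.log 4 = 2 * Real.log 2 := by
      rw [show (4 : ℝ) = 2 ^ 2 by norm_num, Real.log_pow]
      norm_num
    have := Real.log_two_lt_d9
    linarith
  calc (((Finset.Icc 1 y).filter Nat.Prime).card : ℝ) ≤ (Nat.primeCounting y : ℝ) := by
        exact_mod_cast h3
    _ ≤ (Real.log 4 + 1) * y / Real.log y := hy
    _ = (Real.log 4 + 1) * (y / Real.log y) := by ring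
    _ ≤ 3 * ((y : ℝ) / Real.log y) :=
        mul_le_mul_of_nonneg_right (by linarith) (by positivity)

theorem p_DCR : Stmt_DCR := by
  intro P hP
  unfold CountReg
  filter_upwards [DCR_pr, eventually_ge_atTop 3] with y h1 hy3
  have hyr : (3 : ℝ) ≤ y := by exact_mod_cast hy3
  have hlog : 0 < Real.log y := Real.log_pos (by linarith)
  have h0 : 0 < (y : ℝ) / Real.log y := by positivity
  have h2 : PP P y ⊆ (Finset.Icc 1 y).filter Nat.Prime := by
    intro m hm
    unfold PP at hm
    rw [Finset.mem_filter] at hm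
    rw [Finset.mem_filter]
    exact ⟨hm.1, hP m hm.2⟩
  have h3 : ((PP P y).card : ℝ) ≤ (((Finset.Icc 1 y).filter Nat.Prime).card : ℝ) := by
    exact_mod_cast Finset.card_le_card h2
  linarith

end Pool.Agent.Work.MP_7d0410_dl
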