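import Pool.Agent.Work.MP_7d0410_dl.Interface
import Pool.Agent.Work.MP_7d0410_cr.B_BCL

set_option autoImplicit false

/-! Block DCT (helper29): the number of deleted primes. -/

namespace Pool.Agent.Work.MP_7d0410_dl

open Finset Filter MeasureTheory ProbabilityTheory
open Pool.Agent.Work.MP_7d0410_cr (seg sm len runs rr good gr cnt DD meet AB PP CountReg NN a0 UU SS
  AA repCount)
open Pool.Agent.Work.MP_7d0410_sp (Prob wt Ex Pb hh gg HH T1 T2 A1 A2 VV G1 R1 LL pin F0 XX)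
open scoped Classical Topology

/-- generating function of the number of deleted elements -/
lemma DCT_gen {p : ℕ → ℝ} (M : Finset ℕ) :
    Ex p M (fun T => (2 : ℝ) ^ (M \ T).card) = ∏ m ∈ M, (2 - p m) := by
  unfold Ex wt
  have : ∏ m ∈ M, (2 - p m) = ∏ m ∈ M, (p m + 2 * (1 - p m)) :=
    Finset.prod_congr rfl fun m _ => by ring
  rw [this, Finset.prod_add]
  refine Finset.sum_congr rfl fun S _ => ?_
  rw [Finset.prod_mul_distrib, Finset.prod_const]
  ring

/-- the tail -/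
lemma DCT_tail {p : ℕ → ℝ} (hp : Prob p) (M : Finset ℕ) (t : ℝ) :
    Pb p M (fun T => t < ((M \ T).card : ℝ)) ≤
      Real.exp (∑ m ∈ M, (1 - p m) - t * Real.log 2) := by
  have hl : 0 < Real.log 2 := Real.log_pos (by norm_num)
  have h1 : Pb p M (fun T => t < ((M \ T).card : ℝ)) ≤
      Ex p M (fun T => Real.exp (-(t * Real.log 2)) * (2 : ℝ) ^ (M \ T).card) := by
    refine Pool.Agent.Work.MP_7d0410_sp.Ex_mono hp fun T _ => ?_
    have h2 : (2 : ℝ) ^ (M \ T).card = Real.exp (((M \ T).card : ℝ) * Real.log 2) := by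
      rw [mul_comm, Real.exp_mul, Real.exp_log (by norm_num), Real.rpow_natCast]
    dsimp only
    split_ifs with h
    · rw [h2, ← Real.exp_add]
      refine Real.one_le_exp ?_
      have := mul_le_mul_of_nonneg_right h.le hl.le
      linarith
    · positivity
  refine h1.trans ?_
  rw [Pool.Agent.Work.MP_7d0410_sp.Ex_const_mul, DCT_gen, sub_eq_add_neg, Real.exp_add, mul_comm]
  refine mul_le_mul_of_nonneg_right ?_ (Real.exp_pos _).le
  rw [Real.exp_sum]
  refine Finset.prod_le_prod (fun m _ => ?_) (fun m _ => ?_)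
  · have := (hp m).2
    linarith
  · have := Real.add_one_le_exp (1 - p m)
    linarith

/-- the sum of the deletion probabilities -/
lemma DCT_sum {c : ℝ} (h0 : 0 ≤ c) (h1 : c < 1 / 2) (x : ℕ) :
    ∑ m ∈ Finset.Icc 1 x, ((m : ℝ) + 1) ^ (-c) ≤ 2 * (x : ℝ) ^ (1 - c) := by
  induction x with
  | zero =>
    simp
    positivity
  | succ x ih =>
    rw [Finset.sum_Icc_succ_top (by omega)]
    have hx1 : (0 : ℝ) < (x : ℝ) + 1 := by positivity
    have h2 : (((x + 1 : ℕ) : ℝ) + 1) ^ (-c) ≤ ((x : ℝ) + 1) ^ (-c) := by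
      refine Real.rpow_le_rpow_of_nonpos hx1 ?_ (by linarith)
      push_cast
      linarith
    have h3 : (x : ℝ) ^ (1 - c) ≤ ((x : ℝ) + c) * ((x : ℝ) + 1) ^ (-c) := by
      rcases Nat.eq_zero_or_pos x with h | h
      · subst h
        have : (1 : ℝ) - c ≠ 0 := by linarith
        simp [Real.zero_rpow this, h0]
      · have hx : (0 : ℝ) < x := by exact_mod_cast h
        have h4 : (1 + 1 / (x : ℝ)) ^ c ≤ 1 + c * (1 / (x : ℝ)) :=
          rpow_one_add_le_one_add_mul_self (by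
            have : 0 < 1 / (x : ℝ) := by positivity
            linarith) h0 (by linarith)
        have h5 : (x : ℝ) + 1 = x * (1 + 1 / (x : ℝ)) := by
          field_simp
        have h6 : ((x : ℝ) + 1) ^ c = (x : ℝ) ^ c * (1 + 1 / (x : ℝ)) ^ c := by
          rw [h5, Real.mul_rpow hx.le (by positivity)]
        have h7 : ((x : ℝ) + 1) ^ (-c) = (((x : ℝ) + 1) ^ c)⁻¹ := Real.rpow_neg hx1.le c
        rw [h7, ← div_eq_mul_inv, le_div_iff₀ (Real.rpow_pos_of_pos hx1 _), h6,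
          Real.rpow_sub hx, Real.rpow_one]
        have h8 : 0 < (x : ℝ) ^ c := Real.rpow_pos_of_pos hx _
        have h9 : (x : ℝ) / (x : ℝ) ^ c * ((x : ℝ) ^ c * (1 + 1 / (x : ℝ)) ^ c) =
            x * (1 + 1 / (x : ℝ)) ^ c := by
          field_simp
        rw [h9]
        calc (x : ℝ) * (1 + 1 / (x : ℝ)) ^ c ≤ x * (1 + c * (1 / (x : ℝ))) :=
              mul_le_mul_of_nonneg_left h4 hx.le
          _ = x + c := by field_simp
    have h4 : (((x + 1 : ℕ)) : ℝ) ^ (1 - c) = ((x : ℝ) + 1) * ((x : ℝ) + 1) ^ (-c) := by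
      push_cast
      rw [sub_eq_add_neg, Real.rpow_add hx1, Real.rpow_one]
    have h5 : 0 < ((x : ℝ) + 1) ^ (-c) := Real.rpow_pos_of_pos hx1 _
    rw [h4]
    nlinarith

/-- numerics -/
lemma DCT_num {c e : ℝ} (h1 : c < 1 / 2) (he : 0 < e) : ∀ᶠ x : ℕ in atTop,
    (x : ℝ) ^ (1 - c) - (x : ℝ) ^ (1 - c + e) * Real.log 2 ≤ -(2 * Real.log x) := by
  have h2 := tendsto_natCast_atTop_atTop (R := ℝ)
  have h3 := (isLittleO_log_rpow_atTop (by norm_num : (0 : ℝ) < 1 / 2)).bound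
    (by norm_num : (0 : ℝ) < 1 / 2)
  have h4 : ∀ᶠ x : ℕ in atTop, (4 : ℝ) ≤ (x : ℝ) ^ e :=
    ((tendsto_rpow_atTop he).comp h2).eventually_ge_atTop 4
  filter_upwards [h2.eventually h3, h4, eventually_ge_atTop 3] with x k1 k2 k3
  have hxr : (3 : ℝ) ≤ x := by exact_mod_cast k3
  have hx0 : (0 : ℝ) < x := by linarith
  rw [Real.norm_eq_abs, Real.norm_eq_abs, abs_of_nonneg (Real.rpow_nonneg hx0.le _)] at k1
  have k4 := le_abs_self (Real.log (x : ℝ))
  have k5 : (x : ℝ) ^ ((1 : ℝ) / 2) ≤ (x : ℝ) ^ (1 - c) :=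
    Real.rpow_le_rpow_of_exponent_le (by linarith) (by linarith)
  have k6 : (x : ℝ) ^ (1 - c + e) = (x : ℝ) ^ (1 - c) * (x : ℝ) ^ e := Real.rpow_add hx0 _ _
  have k7 : (1 : ℝ) / 2 ≤ Real.log 2 := by
    have := Real.log_two_gt_d9
    linarith
  have k8 : 0 < (x : ℝ) ^ (1 - c) := Real.rpow_pos_of_pos hx0 _
  have k9 : (x : ℝ) ^ (1 - c) * 2 ≤ (x : ℝ) ^ (1 - c) * (x : ℝ) ^ e * Real.log 2 := by
    rw [mul_assoc]
    refine mul_le_mul_of_nonneg_left ?_ k8.le
    nlinarith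
  rw [k6]
  linarith

theorem p_DCT (hL : Stmt_DLW.{0}) (hR : Stmt_DRG) : Stmt_DCT := by
  intro Ω _ μ _ E c h0 h1 hE e he
  have hr := hR c h0 h1
  set w : ℕ → ℝ := fun m : ℕ => 1 / 2 * ((m : ℝ) + 1) ^ (-c) with hw
  have hbc : ∀ᵐ ω ∂μ, ∀ᶠ x : ℕ in atTop, ω ∉ {ω | (x : ℝ) ^ (1 - c + e) <
      ((((Finset.Icc 1 x).filter Nat.Prime) \
        (((Finset.Icc 1 x).filter Nat.Prime).filter (fun m => m ∈ primesMinus E ω))).card : ℝ)} := by
    refine Pool.Agent.Work.MP_7d0410_cr.BCL_bc μ _ (fun y => 1 / (y : ℝ) ^ 2)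
      (Real.summable_one_div_nat_pow.mpr (by norm_num)) ?_
    filter_upwards [DCT_num h1 he, eventually_ge_atTop 3] with x hx hx3
    have hlaw := (hL μ E w c (1 / 2) hr hE ((Finset.Icc 1 x).filter Nat.Prime)
      (fun T => (x : ℝ) ^ (1 - c + e) < ((((Finset.Icc 1 x).filter Nat.Prime) \ T).card : ℝ))).2
    refine (le_of_eq hlaw).trans ?_
    refine (DCT_tail (prob_pd hr) _ _).trans ?_
    have hs : ∑ m ∈ (Finset.Icc 1 x).filter Nat.Prime, (1 - pd w m) ≤ (x : ℝ) ^ (1 - c) := by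
      have e1 : ∑ m ∈ (Finset.Icc 1 x).filter Nat.Prime, (1 - pd w m) =
          ∑ m ∈ (Finset.Icc 1 x).filter Nat.Prime, w m := by
        refine Finset.sum_congr rfl fun m hm => ?_
        rw [pd_prime (Finset.mem_filter.1 hm).2]
        ring
      have e2 : ∑ m ∈ (Finset.Icc 1 x).filter Nat.Prime, w m ≤ ∑ m ∈ Finset.Icc 1 x, w m :=
        Finset.sum_le_sum_of_subset_of_nonneg (Finset.filter_subset _ _)
          (fun m _ _ => (hr.pos m).le)
      have e3 : ∑ m ∈ Finset.Icc 1 x, w m =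
          1 / 2 * ∑ m ∈ Finset.Icc 1 x, ((m : ℝ) + 1) ^ (-c) := by
        rw [Finset.mul_sum]
      have e4 := DCT_sum h0 h1 x
      rw [e1]
      linarith
    have hy0 : (0 : ℝ) < x := by
      have : 0 < x := by omega
      exact_mod_cast this
    refine (Real.exp_le_exp.2 (by linarith : _ ≤ -(2 * Real.log x))).trans (le_of_eq ?_)
    rw [Real.exp_neg, two_mul, Real.exp_add, Real.exp_log hy0, one_div, sq]
  filter_upwards [hbc] with ω hω
  filter_upwards [hω] with x hx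
  have hx' := not_lt.1 hx
  refine le_trans ?_ hx'
  have : ((Finset.Icc 1 x).filter (fun p => p.Prime ∧ ω ∈ E p)) ⊆
      (((Finset.Icc 1 x).filter Nat.Prime) \
        (((Finset.Icc 1 x).filter Nat.Prime).filter (fun m => m ∈ primesMinus E ω))) := by
    intro m hm
    rw [Finset.mem_filter] at hm
    rw [Finset.mem_sdiff, Finset.mem_filter, Finset.mem_filter, Finset.mem_filter]
    refine ⟨⟨hm.1, hm.2.1⟩, fun h => ?_⟩
    exact h.2.2 hm.2.2
  exact_mod_cast Finset.card_le_card this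

end Pool.Agent.Work.MP_7d0410_dl
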