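import Pool.Agent.Work.MP_7d0410_dl.Interface
import Pool.Agent.Work.MP_7d0410_sp.B_SFT
import Pool.Agent.Work.MP_7d0410_cr.B_UPP

set_option autoImplicit false

namespace Pool.Agent.Work.MP_7d0410_dl

open Finset Filter MeasureTheory ProbabilityTheory
open Pool.Agent.Work.MP_7d0410_cr (seg sm len runs rr good gr cnt DD meet AB PP CountReg NN a0 UU SS
  AA repCount mem_runs mem_seg UPP_end)
open Pool.Agent.Work.MP_7d0410_sp (Prob wt Ex Pb hh gg HH T1 T2 A1 A2 VV G1 R1 LL pin F0 XX Ex_congr
  Ex_sum Ex_nonneg Ex_le_const p_SFT)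
open scoped Classical Topology

lemma DCU_one (S : Finset ℕ) (r n : ℕ) :
    ((runs S).filter (fun q => len S q = r + 1 ∧ n + q.1 < sm S q ∧ sm S q < n + q.2)).card ≤ 1 := by
  rw [Finset.card_le_one]
  have key : ∀ q q' : ℕ × ℕ, q ∈ runs S → q' ∈ runs S → len S q = len S q' →
      n + q.1 < sm S q → sm S q' < n + q'.2 → ¬ q.1 < q'.1 := by
    intro q q' hq hq' hl h1 h2 h3
    obtain ⟨h4, h5⟩ := p_SFT S q q' hq hq' hl h3
    omega
  intro q hq q' hq'
  rw [Finset.mem_filter] at hq hq'
  have hl : len S q = len S q' := by omega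
  have h1 := key q q' hq.1 hq'.1 hl hq.2.2.1 hq'.2.2.2
  have h2 := key q' q hq'.1 hq.1 hl.symm hq'.2.2.1 hq.2.2.2
  exact UPP_end S q q' hq.1 hq'.1 hl (by omega)

lemma DCU_sum (S Z : Finset ℕ) (r n : ℕ) : ∑ z ∈ Z, FD S r n z ≤ 1 := by
  unfold FD
  simp only [Finset.card_filter]
  rw [Finset.sum_comm]
  refine le_trans (Finset.sum_le_sum fun q _ => ?_)
    ((Finset.card_filter _ _).symm.le.trans (DCU_one S r n))
  rw [← Finset.card_filter]
  split_ifs with h
  · rw [Finset.card_le_one]
    intro z hz z' hz'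
    rw [Finset.mem_filter] at hz hz'
    omega
  · rw [Nat.le_zero, Finset.card_eq_zero, Finset.filter_eq_empty_iff]
    intro z _ hz
    apply h
    omega

theorem p_DCU (h1 : Stmt_DCK) : Stmt_DCU := by
  intro w c κ hR a b r n W hW0 hW
  rw [h1 w c κ hR a b r n]
  have hP := prob_pd hR
  have hκ : 0 < 1 - κ := by
    have := hR.k1
    linarith
  have hE : ∀ z, 0 ≤ Ex (pd w) (Finset.Icc a b) (fun S => if z ∈ S then (FD S r n z : ℝ) else 0) :=
    fun z => Ex_nonneg hP fun S _ => by
      split_ifs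
      · exact Nat.cast_nonneg _
      · exact le_rfl
  calc ∑ z ∈ (Finset.Icc a b).filter Nat.Prime, w z / (1 - w z) *
        Ex (pd w) (Finset.Icc a b) (fun S => if z ∈ S then (FD S r n z : ℝ) else 0)
      ≤ ∑ z ∈ (Finset.Icc a b).filter Nat.Prime, W / (1 - κ) *
        Ex (pd w) (Finset.Icc a b) (fun S => if z ∈ S then (FD S r n z : ℝ) else 0) := by
        refine Finset.sum_le_sum fun z hz => ?_
        refine mul_le_mul_of_nonneg_right ?_ (hE z)
        rw [Finset.mem_filter] at hz
        have h3 := hR.pos z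
        have h4 := hR.le z
        exact div_le_div₀ hW0 (hW z hz.1) hκ (by linarith)
    _ = W / (1 - κ) * Ex (pd w) (Finset.Icc a b)
        (fun S => ∑ z ∈ (Finset.Icc a b).filter Nat.Prime,
          if z ∈ S then (FD S r n z : ℝ) else 0) := by
        rw [← Finset.mul_sum, Ex_sum]
    _ ≤ W / (1 - κ) * 1 := by
        refine mul_le_mul_of_nonneg_left ?_ (by positivity)
        refine Ex_le_const hP fun S _ => ?_
        have h5 := DCU_sum S ((Finset.Icc a b).filter Nat.Prime) r n
        calc ∑ z ∈ (Finset.Icc a b).filter Nat.Prime,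
              (if z ∈ S then (FD S r n z : ℝ) else 0)
            ≤ ∑ z ∈ (Finset.Icc a b).filter Nat.Prime, (FD S r n z : ℝ) := by
              refine Finset.sum_le_sum fun z _ => ?_
              split_ifs
              · exact le_rfl
              · exact Nat.cast_nonneg _
          _ ≤ 1 := by exact_mod_cast h5
    _ = W / (1 - κ) := by rw [mul_one]

end Pool.Agent.Work.MP_7d0410_dl
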