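import Pool.Agent.Work.MP_7d0410_dl.Interface
import Pool.Agent.Work.MP_7d0410_sp.B_EAV
import Pool.Agent.Work.MP_7d0410_sp.B_MRT

/-!
# The number of runs on average
-/

set_option autoImplicit false

namespace Pool.Agent.Work.MP_7d0410_dl

open Finset Filter MeasureTheory ProbabilityTheory
open Pool.Agent.Work.MP_7d0410_cr (seg sm len runs rr good gr cnt DD meet AB PP CountReg NN a0 UU SS
  AA repCount)
open Pool.Agent.Work.MP_7d0410_sp (Prob wt Ex Pb hh gg HH T1 T2 A1 A2 VV G1 R1 LL pin F0 XX)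
open scoped Classical

theorem p_DEA : Stmt_DEA := by
  intro w c κ hw
  have hM' : ∀ᶠ x : ℕ in atTop,
    ∑ p ∈ (Finset.Icc (Nat.sqrt x) x).filter Nat.Prime, 1 / (p : ℝ) ≤ 97 / 100 :=
    Pool.Agent.Work.MP_7d0410_sp.p_MRT
  filter_upwards [hM', Filter.eventually_ge_atTop 1] with x hx1 hx3
  intro a d hax
  have ha : 1 ≤ a := by
    rcases Nat.eq_zero_or_pos a with h | h
    · subst h
      simp at hax
      omega
    · exact h
  have hx0 : (0 : ℝ) < x := by exact_mod_cast hx3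
  have hpp := prob_pd hw
  have h1 : Ex (pd w) (Finset.Icc a d)
      (fun S => (((runs S).filter (fun q => sm S q ≤ x)).card : ℝ)) ≤
      Ex (pd w) (Finset.Icc a d) (fun S => ∑ b ∈ S, ((x / b : ℕ) : ℝ)) := by
    refine Pool.Agent.Work.MP_7d0410_sp.Ex_mono hpp fun S hS => ?_
    have := Pool.Agent.Work.MP_7d0410_sp.EAV_count S x (fun m hm => by
      have := (Finset.mem_Icc.1 (hS hm)).1
      omega)
    exact_mod_cast this
  rw [Pool.Agent.Work.MP_7d0410_sp.Ex_sum_mem] at h1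
  refine h1.trans ?_
  set I : Finset ℕ := (Finset.Icc a d).filter (fun b => b ≤ x) with hI
  have hp0 : ∀ b, 0 ≤ pd w b := fun b => (hpp b).1
  have h2 : ∑ b ∈ Finset.Icc a d, pd w b * ((x / b : ℕ) : ℝ) ≤
      ∑ b ∈ I, pd w b * (x * (1 / (b : ℝ))) := by
    rw [hI, Finset.sum_filter]
    refine Finset.sum_le_sum fun b hb => ?_
    have hb1 := (Finset.mem_Icc.1 hb).1
    split_ifs with hbx
    · refine mul_le_mul_of_nonneg_left ?_ (hp0 b)
      have := @Nat.cast_div_le ℝ _ _ _ x b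
      rw [mul_one_div]
      exact this
    · rw [Nat.div_eq_of_lt (by omega)]
      simp
  refine h2.trans ?_
  have hImem : ∀ b ∈ I, x ≤ b ^ 2 ∧ b ≤ x ∧ 1 ≤ b := by
    intro b hb
    obtain ⟨h3, h4⟩ := Finset.mem_filter.1 hb
    have h5 := (Finset.mem_Icc.1 h3).1
    refine ⟨hax.trans (Nat.pow_le_pow_left h5 2), h4, by omega⟩
  rw [← Finset.sum_filter_add_sum_filter_not I Nat.Prime]
  have h3 : ∑ b ∈ I.filter Nat.Prime, pd w b * (x * (1 / (b : ℝ))) ≤ 97 / 100 * x := by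
    have h4 : ∑ b ∈ I.filter Nat.Prime, pd w b * (x * (1 / (b : ℝ))) ≤
        x * ∑ b ∈ I.filter Nat.Prime, 1 / (b : ℝ) := by
      rw [Finset.mul_sum]
      refine Finset.sum_le_sum fun b hb => ?_
      have hb0 : (0 : ℝ) ≤ x * (1 / (b : ℝ)) := by positivity
      have hle : pd w b ≤ 1 := by
        rw [pd_prime (Finset.mem_filter.1 hb).2]
        have := hw.pos b
        linarith
      have := mul_le_mul_of_nonneg_right hle hb0
      linarith
    have h5 : ∑ b ∈ I.filter Nat.Prime, 1 / (b : ℝ) ≤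
        ∑ p ∈ (Finset.Icc (Nat.sqrt x) x).filter Nat.Prime, 1 / (p : ℝ) := by
      refine Finset.sum_le_sum_of_subset_of_nonneg ?_ (fun b _ _ => by positivity)
      intro b hb
      obtain ⟨h6, h7⟩ := Finset.mem_filter.1 hb
      obtain ⟨g1, g2, g3⟩ := hImem b h6
      refine Finset.mem_filter.2 ⟨Finset.mem_Icc.2 ⟨?_, g2⟩, h7⟩
      have := Nat.sqrt_le_sqrt g1
      rwa [Nat.sqrt_eq'] at this
    have := mul_le_mul_of_nonneg_left (h5.trans hx1) hx0.le
    linarith
  have h4 : ∑ b ∈ I.filter (fun b => ¬ b.Prime), pd w b * (x * (1 / (b : ℝ))) = 0 := by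
    refine Finset.sum_eq_zero fun b hb => ?_
    rw [pd_not_prime (Finset.mem_filter.1 hb).2, zero_mul]
  rw [h4, add_zero]
  refine h3.trans ?_
  linarith

end Pool.Agent.Work.MP_7d0410_dl
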