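import Pool.Agent.Work.MP_7d0410_dl.Interface
import Pool.Agent.Work.MP_7d0410_sp.B_EDA
import Pool.Agent.Work.MP_7d0410_sp.B_MEC
import Pool.Agent.Work.MP_7d0410_sp.B_PKL

/-!
# Block DED: the probability of `k` good runs is bounded below for most `n` (helper25)
-/

set_option autoImplicit false

namespace Pool.Agent.Work.MP_7d0410_dl

open Finset Filter MeasureTheory ProbabilityTheory
open Pool.Agent.Work.MP_7d0410_cr (seg sm len runs rr good gr cnt DD meet AB PP CountReg NN a0 UU SS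
  AA repCount)
open Pool.Agent.Work.MP_7d0410_sp (Prob wt Ex Pb hh gg HH T1 T2 A1 A2 VV G1 R1 LL pin F0 XX
  Ex_nonneg Pb_nonneg EDA_markov EDA_A1 EDA_sum_HH EDA_T1_nonneg EDA_T2_nonneg EDA_range)
open scoped Classical Topology

theorem p_DED (h1 : Stmt_HMD) (h2 : Stmt_DCO) (h3 : Stmt_DEA) : Stmt_DED := by
  intro w c κ hReg k
  have hp : Prob (pd w) := prob_pd hReg
  have hθ : 0 < tt c := tt_pos hReg
  obtain ⟨c1, hc1, hHMD⟩ := h1 w c κ hReg
  obtain ⟨ρ, e, hρ, he, hPKL⟩ := Pool.Agent.Work.MP_7d0410_sp.p_PKL c1 (max c1 1000) k hc1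
    (le_max_left _ _)
  refine ⟨ρ, hρ, ?_⟩
  filter_upwards [hHMD, h2 w c κ hReg (e / 1000) (by positivity), h3 w c κ hReg,
    eventually_ge_atTop 1] with x e1 e2 e3 e4
  have hx0 : (0 : ℝ) ≤ x := Nat.cast_nonneg x
  set V := VV (tt c) x with hV
  set R := R1 (tt c) x with hR
  set G := G1 (tt c) x with hG
  have hHH0 : ∀ n, 0 ≤ HH (pd w) V R G n := fun n =>
    Ex_nonneg hp fun _ _ => Nat.cast_nonneg _
  -- the large mean values
  have hB2 : (((Finset.Icc 1 x).filter (fun n => (1000 : ℝ) < HH (pd w) V R G n)).card : ℝ) ≤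
      x / 1000 := by
    refine EDA_markov x _ hHH0 1000 (x / 1000) (by norm_num) ?_
    have h := e3 (A1 (tt c) x) (A2 (tt c) x) (EDA_A1 hθ e4)
    have h' := EDA_sum_HH hp V R G x
    refine h'.trans ?_
    refine h.trans ?_
    linarith
  -- the collisions
  have hB3 : (((Finset.Icc 1 x).filter
      (fun n => e < T1 (pd w) V R G n + T2 (pd w) V R G n)).card : ℝ) ≤ x / 1000 := by
    refine EDA_markov x _ (fun n => add_nonneg (EDA_T1_nonneg hp _ _ _ _)
      (EDA_T2_nonneg hp _ _ _ _)) e (x / 1000) he ?_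
    refine e2.trans (le_of_eq ?_)
    ring
  -- the union
  have hsub : (Finset.Icc 1 x).filter (fun n => x ≤ 1000 * n ∧
      Pb (pd w) V (fun S => cnt R G S n = k) < ρ) ⊆
      (Finset.Icc 1 x).filter (fun n => (1000 : ℝ) < HH (pd w) V R G n) ∪
        (Finset.Icc 1 x).filter (fun n => e < T1 (pd w) V R G n + T2 (pd w) V R G n) := by
    intro n hn
    obtain ⟨hn1, hn2, hn3⟩ := Finset.mem_filter.1 hn
    by_contra hnot
    rw [Finset.mem_union, not_or] at hnot
    obtain ⟨n2, n3⟩ := hnot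
    have m1 : c1 ≤ HH (pd w) V R G n := e1 n hn2 (Finset.mem_Icc.1 hn1).2
    have m2 : HH (pd w) V R G n ≤ 1000 := by
      by_contra hc
      exact n2 (Finset.mem_filter.2 ⟨hn1, not_le.1 hc⟩)
    have m3 : T1 (pd w) V R G n + T2 (pd w) V R G n ≤ e := by
      by_contra hc
      exact n3 (Finset.mem_filter.2 ⟨hn1, not_le.1 hc⟩)
    have hfin := hPKL (fun j => Pb (pd w) V (fun S => cnt R G S n = j)) (HH (pd w) V R G n)
      (fun j => Pb_nonneg hp _ _) m1 (m2.trans (le_max_right _ _))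
      (fun j => (Pool.Agent.Work.MP_7d0410_sp.p_MEC (pd w) hp V R G n j).trans m3)
      (fun K hK => EDA_range hp V R G n K hK)
    exact absurd hn3 (not_lt.2 hfin)
  have hcard2 := (Finset.card_le_card hsub).trans (Finset.card_union_le _ _)
  have hcard3 : (((Finset.Icc 1 x).filter (fun n => x ≤ 1000 * n ∧
      Pb (pd w) V (fun S => cnt R G S n = k) < ρ)).card : ℝ) ≤
      ((Finset.Icc 1 x).filter (fun n => (1000 : ℝ) < HH (pd w) V R G n)).card +
        ((Finset.Icc 1 x).filter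
          (fun n => e < T1 (pd w) V R G n + T2 (pd w) V R G n)).card := by
    exact_mod_cast hcard2
  refine hcard3.trans ?_
  linarith

end Pool.Agent.Work.MP_7d0410_dl
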