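import Pool.Agent.Work.MP_7d0410_dl.Interface
import Pool.Agent.Work.MP_7d0410_sp.B_EDK
import Pool.Agent.Work.MP_7d0410_sp.B_SPL
import Pool.Agent.Work.MP_7d0410_sp.B_XXB
import Pool.Agent.Work.MP_7d0410_sp.B_NCR
import Pool.Agent.Work.MP_7d0410_sp.B_XCR
import Pool.Agent.Work.MP_7d0410_sp.B_SFT

/-!
# DEK: the expected density (edit of `MP_7d0410_sp/B_EDK.lean`)
-/

set_option autoImplicit false

namespace Pool.Agent.Work.MP_7d0410_dl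

open Finset Filter MeasureTheory ProbabilityTheory
open Pool.Agent.Work.MP_7d0410_cr (seg sm len runs rr good gr cnt DD meet AB PP CountReg NN a0 UU SS
  AA repCount)
open Pool.Agent.Work.MP_7d0410_sp (Prob wt Ex Pb hh gg HH T1 T2 A1 A2 VV G1 R1 LL pin F0 XX
  Ex_sum Ex_mono Ex_nonneg Ex_le_const Pb_nonneg EDK_DD EDK_F0 EDK_sum EDK_a0A1 EDK_x EDK_a0
  EDK_G1 EDK_err p_SPL p_XXB p_NCR p_XCR p_SFT)
open scoped Classical Topology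

lemma DEK_A2 {θ : ℝ} (h : θ ≤ 1 / 200) {x : ℕ} (hx : 1 ≤ x) : A2 θ x ≤ 2 * x := by
  unfold A2
  have hx' : (1 : ℝ) ≤ x := by exact_mod_cast hx
  have h1 : (x : ℝ) ^ (1 / 2 + 8 * θ) ≤ (x : ℝ) ^ (1 : ℝ) :=
    Real.rpow_le_rpow_of_exponent_le hx' (by linarith)
  rw [Real.rpow_one] at h1
  have h2 : ⌊(x : ℝ) ^ (1 / 2 + 8 * θ)⌋₊ ≤ x := Nat.floor_le_of_le h1
  omega

lemma DEK_RA {θ : ℝ} (h0 : 0 < θ) (h1 : θ ≤ 1 / 200) :
    ∀ᶠ x : ℕ in atTop, 1000 * R1 θ x * A2 θ x ≤ x := by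
  have ht : Tendsto (fun x : ℕ => (x : ℝ) ^ θ) atTop atTop :=
    (tendsto_rpow_atTop h0).comp tendsto_natCast_atTop_atTop
  filter_upwards [ht.eventually_ge_atTop 2000, eventually_ge_atTop 1] with x hx hx1
  have hx' : (1 : ℝ) ≤ x := by exact_mod_cast hx1
  have hx0 : (0 : ℝ) < x := by linarith
  have hR : (R1 θ x : ℝ) ≤ 2 * (x : ℝ) ^ (1 / 2 - 9 * θ) := by
    unfold R1
    have h2 : (1 : ℝ) ≤ (x : ℝ) ^ (1 / 2 - 9 * θ) := Real.one_le_rpow hx' (by linarith)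
    have := (Nat.ceil_lt_add_one (zero_le_one.trans h2)).le
    linarith
  have hA : (A2 θ x : ℝ) ≤ (x : ℝ) ^ (1 / 2 + 8 * θ) := by
    unfold A2
    exact Nat.floor_le (Real.rpow_nonneg hx0.le _)
  have h3 : (x : ℝ) ^ (1 / 2 - 9 * θ) * (x : ℝ) ^ (1 / 2 + 8 * θ) * (x : ℝ) ^ θ = x := by
    rw [← Real.rpow_add hx0, ← Real.rpow_add hx0]
    have : (1 / 2 - 9 * θ + (1 / 2 + 8 * θ) + θ) = 1 := by ring
    rw [this, Real.rpow_one]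
  have h4 : (R1 θ x : ℝ) * A2 θ x ≤ 2 * ((x : ℝ) ^ (1 / 2 - 9 * θ) * (x : ℝ) ^ (1 / 2 + 8 * θ)) := by
    calc (R1 θ x : ℝ) * A2 θ x ≤ (2 * (x : ℝ) ^ (1 / 2 - 9 * θ)) * (x : ℝ) ^ (1 / 2 + 8 * θ) :=
          mul_le_mul hR hA (Nat.cast_nonneg _) (by positivity)
      _ = _ := by ring
  have h5 : (1000 : ℝ) * R1 θ x * A2 θ x ≤ x := by
    have h6 : 0 ≤ (x : ℝ) ^ (1 / 2 - 9 * θ) * (x : ℝ) ^ (1 / 2 + 8 * θ) := by positivity
    nlinarith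
  exact_mod_cast h5

theorem p_DEK (hDED : Stmt_DED) (hDEA : Stmt_DEA) : Stmt_DEK := by
  intro w c κ hP k
  obtain ⟨ρ, hρ, hE⟩ := hDED w c κ hP k
  have hXXB := p_XXB (p_NCR p_SFT) p_XCR
  refine ⟨ρ / 100, by linarith, fun ε hε hεθ => ?_⟩
  have hp : Prob (pd w) := prob_pd hP
  have t0 := tt_pos hP
  have t1 := tt_le hP
  filter_upwards [hE, hDEA w c κ hP, DEK_RA t0 t1,
    EDK_err hε t0 (show 0 < ρ * (4 / 1000) by positivity), eventually_ge_atTop 1]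
    with x h1 h2 h3 h4 hx
  rw [EDK_DD]
  have hmem : ∀ S ⊆ UU ε x, ∀ m ∈ S, a0 ε x ≤ m := by
    intro S hS m hm
    have := hS hm
    unfold UU at this
    exact (Finset.mem_Icc.1 this).1
  have key := EDK_sum x ρ hρ
    (fun n => Pb (pd w) (UU ε x) (fun S => cnt 0 (2 * x) S n = k))
    (fun n => Pb (pd w) (VV (tt c) x) (fun S => cnt (R1 (tt c) x) (G1 (tt c) x) S n = k))
    (fun n => Ex (pd w) (UU ε x) (fun S => (F0 (A1 (tt c) x) (A2 (tt c) x) S n : ℝ)))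
    (fun n => Ex (pd w) (UU ε x) (fun S => (XX (A1 (tt c) x) (A2 (tt c) x) (R1 (tt c) x)
      (G1 (tt c) x) S n : ℝ)))
    (fun n => Pb_nonneg hp _ _)
    (fun n => Ex_nonneg hp fun S _ => Nat.cast_nonneg _)
    (fun n => Ex_nonneg hp fun S _ => Nat.cast_nonneg _)
    (fun n => p_SPL (pd w) hp (a0 ε x) (2 * x) (A1 (tt c) x) (A2 (tt c) x) (R1 (tt c) x)
      (G1 (tt c) x) (2 * x) n k (EDK_a0A1 hεθ hx) (DEK_A2 t1 hx) le_rfl)
    h1 ?_ (ρ * (4 / 1000) * x) ?_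
  · refine le_trans ?_ key
    have : (0 : ℝ) ≤ x := Nat.cast_nonneg _
    nlinarith
  · rw [← Ex_sum]
    refine le_trans (Ex_mono hp fun S _ => EDK_F0 (A1 (tt c) x) (A2 (tt c) x) S x) ?_
    exact h2 (a0 ε x) (2 * x) (EDK_x hε hx)
  · rw [← Ex_sum]
    refine Ex_le_const hp fun S hS => ?_
    refine (hXXB S (a0 ε x) (A1 (tt c) x) (A2 (tt c) x) (R1 (tt c) x) (G1 (tt c) x) x (hmem S hS)
      (EDK_a0 hx) (EDK_G1 hx) h3 hx).trans h4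

end Pool.Agent.Work.MP_7d0410_dl
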