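import Pool.Agent.Work.MP_7d0410_dl.Interface

/-!
# Random subsets of the primes: a sparse set of deleted primes (block DET)
-/

set_option autoImplicit false

namespace Pool.Agent.Work.MP_7d0410_dl

open Finset Filter MeasureTheory ProbabilityTheory
open Pool.Agent.Work.MP_7d0410_cr (repCount)
open scoped Classical Topology

theorem p_DET (hDFN : Stmt_DFN.{0}) (hDIN : Stmt_DIN) (hDCT : Stmt_DCT) (hDRG : Stmt_DRG) :
    Stmt_DET := by
  intro η hη
  obtain ⟨c, hc⟩ : ∃ c : ℝ, c = max 0 (1 / 2 - η / 2) := ⟨_, rfl⟩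
  have hc0 : 0 ≤ c := by rw [hc]; exact le_max_left _ _
  have hc1 : c < 1 / 2 := by
    rw [hc]
    exact max_lt (by norm_num) (by linarith)
  have hc2 : 1 / 2 - η / 2 ≤ c := by rw [hc]; exact le_max_right _ _
  have hR := hDRG c hc0 hc1
  obtain ⟨Ω, mΩ, μ, hμ, E, hE⟩ := hDIN (fun m : ℕ => 1 / 2 * ((m : ℝ) + 1) ^ (-c))
    (fun m => ⟨(hR.pos m).le, (hR.le m).trans (by norm_num)⟩)
  have h1 := hDFN μ E _ c (1 / 2) hR hE
  have h2 := hDCT Ω μ E c hc0 hc1 hE (η / 2) (by positivity)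
  obtain ⟨ω, hω1, hω2⟩ := (h1.and h2).exists
  have hset : primesMinus E ω = {p : ℕ | p.Prime ∧ p ∉ {p : ℕ | p.Prime ∧ ω ∈ E p}} := by
    ext p
    simp only [primesMinus, Set.mem_ofPred_eq]
    constructor
    · rintro ⟨hp, h⟩
      exact ⟨hp, fun h' => h h'.2⟩
    · rintro ⟨hp, h⟩
      exact ⟨hp, fun h' => h ⟨hp, h'⟩⟩
  refine ⟨{p : ℕ | p.Prime ∧ ω ∈ E p}, fun p hp => hp.1, ?_, ?_⟩
  · filter_upwards [hω2, eventually_ge_atTop 1] with x hx hx1
    have hx1' : (1 : ℝ) ≤ x := by exact_mod_cast hx1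
    refine le_trans (le_of_eq ?_) (hx.trans (Real.rpow_le_rpow_of_exponent_le hx1' (by linarith)))
    refine congrArg Nat.cast (congrArg Finset.card ?_)
    ext n
    simp only [Finset.mem_filter]
  · intro k
    obtain ⟨δ, hδ, h⟩ := hω1 k
    refine ⟨δ, hδ, ?_⟩
    filter_upwards [h] with x hx
    refine hx.trans (le_of_eq ?_)
    have hcard : ((Finset.Icc 1 x).filter (fun n => repCount (primesMinus E ω) n = k)).card =
        ((Finset.Icc 1 x).filter (fun n =>
          repCount {p : ℕ | p.Prime ∧ p ∉ {p : ℕ | p.Prime ∧ ω ∈ E p}} n = k)).card := by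
      apply congrArg Finset.card
      ext n
      simp only [Finset.mem_filter, ← hset]
    exact congrArg Nat.cast hcard

end Pool.Agent.Work.MP_7d0410_dl
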