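import Pool.Agent.Work.MP_7d0410_dl.Interface
import Pool.Agent.Work.MP_7d0410_cr.B_BD3
import Pool.Agent.Work.MP_7d0410_sp.B_BDQ
import Pool.Agent.Work.MP_7d0410_sp.B_FIN

/-!
# Random subsets of the primes: assembly (block DFN, edit of `MP_7d0410_sp/B_FIN.lean`)
-/

set_option autoImplicit false

namespace Pool.Agent.Work.MP_7d0410_dl

open Finset Filter MeasureTheory ProbabilityTheory
open Pool.Agent.Work.MP_7d0410_cr (seg sm len runs rr good gr cnt DD meet AB PP CountReg NN a0 UU SS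
  AA repCount p_BD3)
open Pool.Agent.Work.MP_7d0410_sp (Prob wt Ex Pb hh gg HH T1 T2 A1 A2 VV G1 R1 LL pin F0 XX p_BDQ
  FIN_c FIN_c_mono FIN_diff FIN_mono)
open scoped Classical Topology

theorem p_DFN.{u} (h1 : Stmt_DBC.{u}) (h2 : Stmt_DEK) (h3 : Stmt_DCR) : Stmt_DFN.{u} := by
  intro Ω _ μ _ E w c κ hR hE
  have h4 := p_BDQ
  have hθ0 := tt_pos hR
  have hθ1 := tt_le hR
  choose ρ hρ0 hρ using h2 w c κ hR
  obtain ⟨θ, hθ⟩ : ∃ θ : ℝ, θ = tt c := ⟨_, rfl⟩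
  rw [← hθ] at hρ hθ0 hθ1
  obtain ⟨e, he⟩ : ∃ e : ℕ → ℝ, ∀ k, e k = min θ (ρ k / 1000) := ⟨_, fun _ => rfl⟩
  have he0 : ∀ k, 0 < e k := fun k => by
    rw [he k]
    exact lt_min hθ0 (by have := hρ0 k; positivity)
  have heθ : ∀ k, e k ≤ θ := fun k => (he k).le.trans (min_le_left _ _)
  have heρ : ∀ k, e k ≤ ρ k / 1000 := fun k => (he k).le.trans (min_le_right _ _)
  have he1 : ∀ k, e k < 1 / 4 := fun k => by linarith [heθ k]
  have he2 : ∀ k, e k < 4 * θ := fun k => by linarith [heθ k]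
  have key : ∀ᵐ ω ∂μ, ∀ k : ℕ, Tendsto (fun j : ℕ => ((DD 0 (2 * j ^ AA (e k))
      (SS (e k) (j ^ AA (e k)) (primesMinus E ω)) (j ^ AA (e k)) k : ℝ) -
      Ex (pd w) (UU (e k) (j ^ AA (e k))) (fun S => (DD 0 (2 * j ^ AA (e k)) S (j ^ AA (e k)) k : ℝ))) /
      ((j ^ AA (e k) : ℕ) : ℝ)) atTop (𝓝 0) := by
    rw [ae_all_iff]
    intro k
    exact h1 μ E w c κ hR hE _ (he0 k) (he1 k) k
  filter_upwards [key] with ω hB k
  have hcnt : CountReg (primesMinus E ω) := h3 _ fun m hm => hm.1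
  have hP : ∀ m ∈ primesMinus E ω, 1 ≤ m := fun m hm => hm.1.one_lt.le
  have hρk := hρ0 k
  obtain ⟨ε, hε⟩ : ∃ ε, ε = e k := ⟨_, rfl⟩
  have k0 := he0 k
  have k1 := he1 k
  have k2 := he2 k
  have k3 := heρ k
  have hBk := hB k
  rw [← hε] at k0 k1 k2 k3 hBk
  have hA : 1 ≤ AA ε := by
    unfold AA
    have : 0 < 2 / ε := by positivity
    exact Nat.one_le_iff_ne_zero.2 (Nat.ceil_pos.2 this).ne'
  have hxj : Tendsto (fun j : ℕ => j ^ AA ε) atTop atTop := tendsto_pow_atTop (by omega)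
  have hbad := hxj.eventually (p_BD3 (primesMinus E ω) hcnt ε k0 k1)
  have hex := hxj.eventually (hρ k ε k0 k2)
  have hcon := (Metric.tendsto_nhds.1 hBk) (ρ k / 10) (by linarith)
  have hfin : ∀ᶠ j : ℕ in atTop, 7 / 10 * ρ k * ((j ^ AA ε : ℕ) : ℝ) ≤
      FIN_c (primesMinus E ω) k (j ^ AA ε) := by
    filter_upwards [hbad, hex, hcon, eventually_ge_atTop 1] with j hj1 hj2 hj3 hj4
    rw [Real.dist_eq, sub_zero] at hj3
    have hx1 : 1 ≤ j ^ AA ε := Nat.one_le_pow _ _ hj4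
    generalize j ^ AA ε = x at hj1 hj2 hj3 hx1 ⊢
    have hx0 : (0 : ℝ) < x := by exact_mod_cast hx1
    have e1 := FIN_diff (primesMinus E ω) k x ε
    have e2 : (((Finset.Icc 1 x).filter (fun n => repCount (primesMinus E ω) n ≠
        cnt 0 (2 * x) (SS ε x (primesMinus E ω)) n)).card : ℝ) ≤ 200 * ε * x :=
      (Nat.cast_le.2 (h4 (primesMinus E ω) ε x hP)).trans hj1
    rw [abs_div, abs_of_pos hx0, div_lt_iff₀ hx0] at hj3
    have e3 := (abs_lt.1 hj3).1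
    have e4 : 200 * ε * x ≤ ρ k / 5 * x := by
      refine mul_le_mul_of_nonneg_right ?_ hx0.le
      linarith
    nlinarith
  refine ⟨7 / 10 * ρ k / 2, by positivity, ?_⟩
  exact FIN_mono (FIN_c (primesMinus E ω) k) (FIN_c_mono _ _) (AA ε) hA (7 / 10 * ρ k) (by positivity) hfin

end Pool.Agent.Work.MP_7d0410_dl
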