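import Pool.Agent.Work.MP_7d0410_dl.Interface

set_option autoImplicit false

namespace Pool.Agent.Work.MP_7d0410_dl

open MeasureTheory ProbabilityTheory

theorem p_DIN : Stmt_DIN := by
  intro w hw
  let ν : ℕ → Measure Bool := fun m =>
    ENNReal.ofReal (w m) • Measure.dirac true + ENNReal.ofReal (1 - w m) • Measure.dirac false
  have hν : ∀ m, IsProbabilityMeasure (ν m) := by
    intro m
    constructor
    show (ENNReal.ofReal (w m) • Measure.dirac true +
      ENNReal.ofReal (1 - w m) • Measure.dirac false) Set.univ = 1
    rw [Measure.add_apply, Measure.smul_apply, Measure.smul_apply, measure_univ, measure_univ,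
      smul_eq_mul, smul_eq_mul, mul_one, mul_one,
      ← ENNReal.ofReal_add (hw m).1 (by linarith [(hw m).2])]
    have : w m + (1 - w m) = 1 := by ring
    rw [this, ENNReal.ofReal_one]
  have hνt : ∀ m, ν m {true} = ENNReal.ofReal (w m) := by
    intro m
    show (ENNReal.ofReal (w m) • Measure.dirac true +
      ENNReal.ofReal (1 - w m) • Measure.dirac false) {true} = _
    rw [Measure.add_apply, Measure.smul_apply, Measure.smul_apply,
      Measure.dirac_apply' _ (MeasurableSet.of_discrete),
      Measure.dirac_apply' _ (MeasurableSet.of_discrete)]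
    simp
  let E : ℕ → Set (ℕ → Bool) := fun m => {ω | ω m = true}
  have hE : ∀ m, MeasurableSet (E m) := by
    intro m
    have h := (measurable_pi_apply (X := fun _ : ℕ => Bool) m)
      (MeasurableSet.of_discrete (s := ({true} : Set Bool)))
    exact h
  have key : ∀ s : Finset ℕ, Measure.infinitePi ν (⋂ i ∈ s, E i) =
      ∏ i ∈ s, ENNReal.ofReal (w i) := by
    intro s
    have e : (⋂ i ∈ s, E i) = Set.pi (s : Set ℕ) (fun _ => {true}) := by
      ext ω
      simp [E, Set.mem_pi]
    rw [e, Measure.infinitePi_pi _ (fun i _ => measurableSet_singleton true)]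
    exact Finset.prod_congr rfl fun i _ => hνt i
  have h1 : ∀ m, Measure.infinitePi ν (E m) = ENNReal.ofReal (w m) := by
    intro m
    have := key {m}
    simpa using this
  refine ⟨ℕ → Bool, inferInstance, Measure.infinitePi ν, inferInstance, E, hE, ?_, ?_⟩
  · rw [iIndepSet_iff_meas_biInter hE]
    intro s
    rw [key s]
    exact Finset.prod_congr rfl fun i _ => (h1 i).symm
  · intro p _
    exact h1 p

end Pool.Agent.Work.MP_7d0410_dl
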