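import Pool.Agent.Work.MP_7d0410_dl.Interface

/-! # Block DLW: the law of the random set (edit of MP_7d0410_sp/B_LAW.lean of helper31) -/

set_option autoImplicit false

namespace Pool.Agent.Work.MP_7d0410_dl

open Finset Filter MeasureTheory ProbabilityTheory
open Pool.Agent.Work.MP_7d0410_sp (wt Ex Pb)
open scoped Classical Topology

/-- the event that `m` is an element -/
def DLW_E {Ω : Type*} (E : ℕ → Set Ω) (m : ℕ) : Set Ω :=
  if m.Prime then (E m)ᶜ else ∅

/-- the event or its complement -/
def DLW_ev {Ω : Type*} (E : ℕ → Set Ω) (M : Finset ℕ) (p : ℕ) : Set Ω :=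
  if p ∈ M then DLW_E E p else (DLW_E E p)ᶜ

lemma DLW_inter {Ω : Type*} [MeasurableSpace Ω] (μ : Measure Ω) [IsProbabilityMeasure μ]
    (E : ℕ → Set Ω) (hI : iIndepSet E μ) (M S : Finset ℕ) :
    μ.real (⋂ p ∈ S, DLW_ev E M p) = ∏ p ∈ S, μ.real (DLW_ev E M p) := by
  have h := (iIndepSet_iff_iIndep E μ).1 hI
  have h2 := h.meas_biInter (s := DLW_ev E M) (S := S) (fun p _ => by
    have h : MeasurableSet[MeasurableSpace.generateFrom {E p}] (E p) :=
      MeasurableSpace.measurableSet_generateFrom rfl
    have h' : MeasurableSet[MeasurableSpace.generateFrom {E p}] (DLW_E E p) := by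
      unfold DLW_E
      split_ifs
      · exact h.compl
      · exact @MeasurableSet.empty _ (MeasurableSpace.generateFrom {E p})
    unfold DLW_ev
    split_ifs
    · exact h'
    · exact h'.compl)
  simp only [Measure.real]
  rw [h2, ENNReal.toReal_prod]

theorem p_DLW.{u} : Stmt_DLW.{u} := by
  intro Ω _ μ _ E w c κ hR hE U A
  have hmE : ∀ p, MeasurableSet (DLW_E E p) := by
    intro p
    unfold DLW_E
    split_ifs
    · exact (hE.meas p).compl
    · exact MeasurableSet.empty
  have hfil : ∀ ω, U.filter (fun m => m ∈ primesMinus E ω) =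
      U.filter (fun m => ω ∈ DLW_E E m) := by
    intro ω
    refine Finset.filter_congr fun m hm => ?_
    show (m.Prime ∧ ω ∉ E m) ↔ ω ∈ DLW_E E m
    unfold DLW_E
    split_ifs with hp
    · exact ⟨fun h => h.2, fun h => ⟨hp, h⟩⟩
    · constructor
      · intro h
        exact absurd h.1 hp
      · intro h
        exact absurd h (Set.notMem_empty _)
  -- the atoms
  have hset : ∀ M ⊆ U, {ω | U.filter (fun m => ω ∈ DLW_E E m) = M} =
      ⋂ p ∈ U, DLW_ev E M p := by
    intro M hM
    ext ω
    simp only [Set.mem_ofPred_eq, Set.mem_iInter]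
    constructor
    · intro h p hp
      unfold DLW_ev
      split_ifs with hpM
      · rw [← h] at hpM
        exact (Finset.mem_filter.1 hpM).2
      · intro hω
        exact hpM (h ▸ Finset.mem_filter.2 ⟨hp, hω⟩)
    · intro h
      ext p
      rw [Finset.mem_filter]
      constructor
      · rintro ⟨hp, hω⟩
        by_contra hpM
        have := h p hp
        rw [DLW_ev, if_neg hpM] at this
        exact this hω
      · intro hp
        have := h p (hM hp)
        rw [DLW_ev, if_pos hp] at this
        exact ⟨hM hp, this⟩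
  have hms : ∀ M ⊆ U, MeasurableSet {ω | U.filter (fun m => ω ∈ DLW_E E m) = M} := by
    intro M hM
    rw [hset M hM]
    refine Finset.measurableSet_biInter _ (fun p _ => ?_)
    unfold DLW_ev
    split_ifs
    · exact hmE p
    · exact (hmE p).compl
  have hμ : ∀ M ⊆ U, μ.real {ω | U.filter (fun m => ω ∈ DLW_E E m) = M} = wt (pd w) U M := by
    intro M hM
    rw [hset M hM, DLW_inter μ E hE.indep]
    have hp : ∀ p : ℕ, μ.real (DLW_E E p) = pd w p := by
      intro p
      unfold DLW_E pd
      split_ifs with hpp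
      · rw [probReal_compl_eq_one_sub (hE.meas p), Measure.real, hE.prob p hpp,
          ENNReal.toReal_ofReal (hR.pos p).le]
      · exact measureReal_empty
    unfold wt
    rw [← Finset.prod_sdiff hM, mul_comm]
    congr 1
    · refine Finset.prod_congr rfl fun p hp' => ?_
      rw [DLW_ev, if_pos hp', hp p]
    · refine Finset.prod_congr rfl fun p hp' => ?_
      have hp'' := Finset.mem_sdiff.1 hp'
      rw [DLW_ev, if_neg hp''.2, probReal_compl_eq_one_sub (hmE p), hp p]
  have hdec : {ω | A (U.filter (fun m => m ∈ primesMinus E ω))} =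
      ⋃ M ∈ U.powerset.filter A, {ω | U.filter (fun m => ω ∈ DLW_E E m) = M} := by
    ext ω
    simp only [Set.mem_ofPred_eq, Set.mem_iUnion, hfil]
    constructor
    · intro h
      exact ⟨_, Finset.mem_filter.2 ⟨Finset.mem_powerset.2 (Finset.filter_subset _ _), h⟩, rfl⟩
    · rintro ⟨M, hM, h⟩
      rw [h]
      exact (Finset.mem_filter.1 hM).2
  have hsub : ∀ M ∈ U.powerset.filter A, M ⊆ U := fun M hM =>
    Finset.mem_powerset.1 (Finset.mem_filter.1 hM).1
  rw [hdec]
  refine ⟨Finset.measurableSet_biUnion _ fun M hM => hms M (hsub M hM), ?_⟩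
  rw [measureReal_biUnion_finset]
  · rw [Finset.sum_congr rfl fun M hM => hμ M (hsub M hM)]
    unfold Pb Ex
    rw [Finset.sum_filter]
    exact Finset.sum_congr rfl fun M _ => by
      by_cases h : A M <;> simp [h]
  · intro M _ M' _ hne
    exact Set.disjoint_left.2 fun ω h1 h2 => hne (h1.symm.trans h2)
  · exact fun M hM => hms M (hsub M hM)

end Pool.Agent.Work.MP_7d0410_dl
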