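import Pool.Agent.Work.MP_7d0410_dl.Interface
import Pool.Agent.Work.MP_7d0410_cr.B_ONE

/-! # Block DRB (helper54): the crude bound -/

set_option autoImplicit false

namespace Pool.Agent.Work.MP_7d0410_dl

open Finset Filter MeasureTheory ProbabilityTheory
open Pool.Agent.Work.MP_7d0410_cr (seg sm len runs rr good gr cnt DD meet AB PP CountReg NN a0 UU SS
  AA repCount)
open Pool.Agent.Work.MP_7d0410_sp (Prob wt Ex Pb hh gg HH T1 T2 A1 A2 VV G1 R1 LL pin F0 XX)
open scoped Classical Topology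

/-- the expected number of deleted primes -/
noncomputable def DRB_mu (w : ℕ → ℝ) (q : ℕ × ℕ) : ℝ := ∑ z ∈ MM q.1 q.2, w z

theorem DRB_core (hCHW : Stmt_CHW) (hDCU : Stmt_DCU) {w : ℕ → ℝ} {c κ : ℝ} (hreg : Reg w c κ)
    (A B l m : ℕ) (a b : ℝ) (ha : 0 < a) (hlo : ∀ z ∈ Finset.Icc A B, a ≤ w z)
    (hhi : ∀ z ∈ Finset.Icc A B, w z ≤ b) (hb : 0 ≤ b) (hl4 : 4 ≤ l) (hA : 1 ≤ A) (hB : 1 ≤ B) :
    hh (pd w) (Finset.Icc A B) l m ≤ 4 / (a * l) * (b / (1 - κ)) +
      (B : ℝ) ^ 2 * (2 * Real.exp (-(a * l / 32))) := by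
  have hp := prob_pd hreg
  have hlr : (4 : ℝ) ≤ l := by exact_mod_cast hl4
  have hal : 0 < a * l := by positivity
  have hsub : ∀ q : ℕ × ℕ, A ≤ q.1 → q.2 ≤ B → MM q.1 q.2 ⊆ Finset.Icc A B := by
    intro q h1 h2 z hz
    unfold MM at hz
    rw [Finset.mem_filter, Finset.mem_Ioo] at hz
    rw [Finset.mem_Icc]
    omega
  -- the bad event
  obtain ⟨W, hW⟩ : ∃ W : Finset (ℕ × ℕ), W = (Finset.Icc A B ×ˢ Finset.Icc A B).filter
      (fun q => l ≤ (MM q.1 q.2).card + 2) := ⟨_, rfl⟩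
  have hWmu : ∀ q ∈ W, a * l / 2 ≤ DRB_mu w q := by
    intro q hq
    rw [hW, Finset.mem_filter, Finset.mem_product, Finset.mem_Icc, Finset.mem_Icc] at hq
    obtain ⟨⟨⟨q1, q2⟩, q3, q4⟩, q5⟩ := hq
    have h4 : ∀ z ∈ MM q.1 q.2, a ≤ w z := fun z hz => hlo z (hsub q q1 q4 hz)
    have h5 := Finset.card_nsmul_le_sum _ _ _ h4
    rw [nsmul_eq_mul] at h5
    have h6 : (l : ℝ) ≤ ((MM q.1 q.2).card : ℝ) + 2 := by exact_mod_cast q5
    unfold DRB_mu
    nlinarith
  have hbad : Pb (pd w) (Finset.Icc A B)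
      (fun S => ∃ q ∈ W, ((MM q.1 q.2 \ S).card : ℝ) < DRB_mu w q / 2) ≤
      (B : ℝ) ^ 2 * (2 * Real.exp (-(a * l / 32))) := by
    refine (Pool.Agent.Work.MP_7d0410_sp.Pb_exists_le hp _ W
      (fun q S => ((MM q.1 q.2 \ S).card : ℝ) < DRB_mu w q / 2)).trans ?_
    have h1 : ∀ q ∈ W, Pb (pd w) (Finset.Icc A B)
        (fun S => ((MM q.1 q.2 \ S).card : ℝ) < DRB_mu w q / 2) ≤
        2 * Real.exp (-(a * l / 32)) := by
      intro q hq
      have hmu := hWmu q hq
      rw [hW, Finset.mem_filter, Finset.mem_product, Finset.mem_Icc, Finset.mem_Icc] at hq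
      obtain ⟨⟨⟨q1, q2⟩, q3, q4⟩, q5⟩ := hq
      have hmu0 : 0 < DRB_mu w q := by linarith
      have hsum : ∑ z ∈ MM q.1 q.2, (1 - pd w z) = DRB_mu w q := by
        unfold DRB_mu
        refine Finset.sum_congr rfl fun z hz => ?_
        unfold MM at hz
        rw [Finset.mem_filter] at hz
        rw [pd_prime hz.2]
        ring
      have h2 := hCHW (pd w) hp (MM q.1 q.2) (fun _ => 1) (DRB_mu w q / 2)
        (fun z _ => ⟨zero_le_one, le_rfl⟩) (by linarith) (by rw [hsum]; linarith)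
      have h3 : Pb (pd w) (Finset.Icc A B)
          (fun S => ((MM q.1 q.2 \ S).card : ℝ) < DRB_mu w q / 2) =
          Pb (pd w) (Finset.Icc A B)
            (fun S => ((MM q.1 q.2 \ (S ∩ MM q.1 q.2)).card : ℝ) < DRB_mu w q / 2) := by
        refine Pool.Agent.Work.MP_7d0410_sp.Pb_congr hp fun S _ => ?_
        rw [Finset.inter_comm, Finset.sdiff_inter_self_left]
      rw [h3, Pool.Agent.Work.MP_7d0410_sp.Pb_inter (hsub q q1 q4)
        (fun T => ((MM q.1 q.2 \ T).card : ℝ) < DRB_mu w q / 2)]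
      have h4 : Pb (pd w) (MM q.1 q.2) (fun T => ((MM q.1 q.2 \ T).card : ℝ) < DRB_mu w q / 2) ≤
          Pb (pd w) (MM q.1 q.2) (fun T => DRB_mu w q / 2 ≤
            |∑ z ∈ MM q.1 q.2 \ T, (1 : ℝ) - ∑ z ∈ MM q.1 q.2, 1 * (1 - pd w z)|) := by
        refine Pool.Agent.Work.MP_7d0410_sp.Pb_mono hp fun T _ hT => ?_
        simp only [one_mul, Finset.sum_const, nsmul_eq_mul, mul_one]
        rw [hsum, abs_sub_comm]
        refine le_trans ?_ (le_abs_self _)
        linarith
      refine h4.trans (h2.trans ?_)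
      apply mul_le_mul_of_nonneg_left _ (by norm_num)
      apply Real.exp_le_exp.2
      rw [hsum, neg_le_neg_iff, le_div_iff₀ (by positivity)]
      nlinarith
    refine (Finset.sum_le_sum h1).trans ?_
    rw [Finset.sum_const, nsmul_eq_mul]
    apply mul_le_mul_of_nonneg_right _ (by positivity)
    have h2 : W.card ≤ B * B := by
      calc W.card ≤ (Finset.Icc A B ×ˢ Finset.Icc A B).card := by
            rw [hW]
            exact Finset.card_filter_le _ _
        _ = (Finset.Icc A B).card * (Finset.Icc A B).card := Finset.card_product _ _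
        _ ≤ B * B := by
            have : (Finset.Icc A B).card ≤ B := by
              rw [Nat.card_Icc]
              omega
            exact Nat.mul_le_mul this this
    calc (W.card : ℝ) ≤ ((B * B : ℕ) : ℝ) := by exact_mod_cast h2
      _ = (B : ℝ) ^ 2 := by push_cast; ring
  -- pointwise
  have hpt : ∀ S ⊆ Finset.Icc A B, (∀ z ∈ S, z.Prime) → ((rr S l m).card : ℝ) ≤
      4 / (a * l) * (∑ q ∈ rr S l m, (KD S q : ℝ)) +
        (if ∃ q ∈ W, ((MM q.1 q.2 \ S).card : ℝ) < DRB_mu w q / 2 then 1 else 0) := by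
    intro S hS hSp
    have hsum : 0 ≤ ∑ q ∈ rr S l m, (KD S q : ℝ) := Finset.sum_nonneg fun q _ => Nat.cast_nonneg _
    split_ifs with hb
    · have h1 := Pool.Agent.Work.MP_7d0410_cr.p_ONE S l m (by omega)
      have h2 : (rr S l m).card ≤ 1 := by
        refine le_trans ?_ h1
        have h3 := Finset.single_le_sum (f := fun ℓ => (rr S l (m + ℓ)).card)
          (fun _ _ => Nat.zero_le _) (Finset.mem_range.2 (show 0 < l by omega))
        exact h3
      have h3 : ((rr S l m).card : ℝ) ≤ 1 := by exact_mod_cast h2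
      have h4 : 0 ≤ 4 / (a * l) * (∑ q ∈ rr S l m, (KD S q : ℝ)) := by positivity
      linarith
    · rw [add_zero]
      have h1 : ∀ q ∈ rr S l m, a * l / 4 ≤ (KD S q : ℝ) := by
        intro q hq
        unfold rr runs at hq
        rw [Finset.mem_filter, Finset.mem_filter, Finset.mem_product] at hq
        obtain ⟨⟨⟨q1, q2⟩, q3⟩, q4, q5⟩ := hq
        have h2 : l ≤ (MM q.1 q.2).card + 2 := by
          have h3 : seg S q ⊆ MM q.1 q.2 ∪ {q.1, q.2} := by
            intro z hz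
            unfold seg at hz
            rw [Finset.mem_filter] at hz
            rw [Finset.mem_union, Finset.mem_insert, Finset.mem_singleton]
            unfold MM
            rw [Finset.mem_filter, Finset.mem_Ioo]
            rcases eq_or_ne z q.1 with h | h
            · exact Or.inr (Or.inl h)
            · rcases eq_or_ne z q.2 with h' | h'
              · exact Or.inr (Or.inr h')
              · left
                exact ⟨⟨by omega, by omega⟩, hSp z hz.1⟩
          have h4 := Finset.card_le_card h3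
          have h5 := Finset.card_union_le (MM q.1 q.2) {q.1, q.2}
          have h6 : ({q.1, q.2} : Finset ℕ).card ≤ 2 := Finset.card_le_two
          unfold len at q4
          omega
        have hqW : q ∈ W := by
          rw [hW, Finset.mem_filter, Finset.mem_product]
          exact ⟨⟨hS q1, hS q2⟩, h2⟩
        have h4 : DRB_mu w q / 2 ≤ ((MM q.1 q.2 \ S).card : ℝ) := by
          by_contra hcon
          exact hb ⟨q, hqW, not_le.1 hcon⟩
        have h5 : (MM q.1 q.2 \ S).card ≤ KD S q := by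
          unfold KD MM
          apply Finset.card_le_card
          intro z hz
          rw [Finset.mem_sdiff, Finset.mem_filter] at hz
          rw [Finset.mem_filter]
          exact ⟨hz.1.1, hz.1.2, hz.2⟩
        have h6 : ((MM q.1 q.2 \ S).card : ℝ) ≤ (KD S q : ℝ) := by exact_mod_cast h5
        have h7 := hWmu q hqW
        linarith
      have h2 := Finset.card_nsmul_le_sum _ _ _ h1
      rw [nsmul_eq_mul] at h2
      rw [div_mul_eq_mul_div, le_div_iff₀ hal]
      linarith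
  have hmain : hh (pd w) (Finset.Icc A B) l m ≤
      4 / (a * l) * Ex (pd w) (Finset.Icc A B) (fun S => ∑ q ∈ rr S l m, (KD S q : ℝ)) +
      Pb (pd w) (Finset.Icc A B)
        (fun S => ∃ q ∈ W, ((MM q.1 q.2 \ S).card : ℝ) < DRB_mu w q / 2) := by
    unfold hh
    rw [← Pool.Agent.Work.MP_7d0410_sp.Ex_const_mul, Pool.Agent.Work.MP_7d0410_sp.Pb_eq,
      ← Pool.Agent.Work.MP_7d0410_sp.Ex_add]
    exact Ex_mono_pd hreg hpt
  refine hmain.trans (add_le_add ?_ hbad)
  have h1 := hDCU w c κ hreg A B l m b hb hhi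
  exact mul_le_mul_of_nonneg_left h1 (by positivity)

theorem DRB_exp (θ : ℝ) (hθ : 0 < θ) : ∀ᶠ x : ℕ in atTop,
    (x : ℝ) ^ 3 * Real.exp (-((x : ℝ) ^ (2 * θ) / 32)) ≤ 1 / 2 := by
  have h1 := (tendsto_rpow_mul_exp_neg_mul_atTop_nhds_zero (3 / (2 * θ)) (1 / 32)
    (by norm_num)).comp ((tendsto_rpow_atTop (show 0 < 2 * θ by positivity)).comp
      (tendsto_natCast_atTop_atTop (R := ℝ)))
  filter_upwards [h1.eventually (gt_mem_nhds (show (0 : ℝ) < 1 / 2 by norm_num)),
    eventually_ge_atTop 1] with x hx hx1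
  simp only [Function.comp_apply] at hx
  have hx0 : (0 : ℝ) ≤ x := Nat.cast_nonneg _
  have h2 : ((x : ℝ) ^ (2 * θ)) ^ (3 / (2 * θ)) = (x : ℝ) ^ 3 := by
    rw [← Real.rpow_mul hx0, ← Real.rpow_natCast]
    congr 1
    field_simp
    norm_num
  rw [h2] at hx
  have h3 : -(1 / 32) * (x : ℝ) ^ (2 * θ) = -((x : ℝ) ^ (2 * θ) / 32) := by ring
  rw [h3] at hx
  exact hx.le

theorem p_DRB (hWVB : Stmt_WVB) (hCHW : Stmt_CHW) (hDCU : Stmt_DCU) : Stmt_DRB := by
  intro w c κ hreg
  have hθ := tt_pos hreg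
  have hθ1 := tt_le hreg
  have hc := hreg.c0
  have hκ := hreg.k1
  have tp : ∀ e : ℝ, 0 < e → Tendsto (fun x : ℕ => (x : ℝ) ^ e) atTop atTop := fun e he =>
    (tendsto_rpow_atTop he).comp (tendsto_natCast_atTop_atTop (R := ℝ))
  filter_upwards [DRB_exp (tt c) hθ, hWVB w c κ hreg,
    (tp (2 * tt c) (by positivity)).eventually_ge_atTop 4,
    (tp (tt c) hθ).eventually_ge_atTop (4 / (1 - κ) + 1),
    eventually_ge_atTop 16] with x e1 e2 e3 e4 e5
  intro l m hl
  have hx1 : (1 : ℝ) ≤ x := by exact_mod_cast (show 1 ≤ x by omega)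
  have hx0 : (0 : ℝ) < x := by linarith
  have hxN : 1 ≤ x := by omega
  have hA : (x : ℝ) ^ (1 / 2 + 4 * tt c) ≤ A1 (tt c) x := Nat.le_ceil _
  have hB : (A2 (tt c) x : ℝ) ≤ (x : ℝ) ^ (1 / 2 + 8 * tt c) := Nat.floor_le (by positivity)
  have hBx : (A2 (tt c) x : ℝ) ≤ x := by
    refine hB.trans ?_
    calc (x : ℝ) ^ (1 / 2 + 8 * tt c) ≤ (x : ℝ) ^ (1 : ℝ) :=
          Real.rpow_le_rpow_of_exponent_le hx1 (by linarith)
      _ = x := Real.rpow_one _
  have hBx' : A2 (tt c) x ≤ x := by exact_mod_cast hBx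
  have hApos : (0 : ℝ) < (x : ℝ) ^ (1 / 2 + 4 * tt c) := by positivity
  have hA0 : (0 : ℝ) < A1 (tt c) x := lt_of_lt_of_le hApos hA
  have hA1 : 1 ≤ A1 (tt c) x := by exact_mod_cast hA0
  have hB1 : 1 ≤ A2 (tt c) x := by
    unfold A2
    rw [Nat.one_le_floor_iff]
    exact Real.one_le_rpow hx1 (by linarith)
  have hwlo := wlo_pos c hxN
  have hwhi := whi_pos c hxN
  have hwle := whi_le hreg hxN
  have hwlo1 : wlo c x ≤ 1 := by
    unfold wlo
    refine Real.rpow_le_one_of_one_le_of_nonpos hx1 ?_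
    have : 0 ≤ c * (1 / 2 + 8 * tt c) := by positivity
    nlinarith [sq_nonneg (tt c)]
  have hlr : (x : ℝ) ^ (2 * tt c) ≤ wlo c x * l := by
    have h1 : (x : ℝ) ^ (2 * tt c) / wlo c x ≤ l := by
      refine (Nat.le_ceil _).trans ?_
      exact_mod_cast hl
    rw [div_le_iff₀ hwlo] at h1
    linarith
  have hl4r : (4 : ℝ) ≤ l := by
    have h1 : wlo c x * l ≤ 1 * l := mul_le_mul_of_nonneg_right hwlo1 (Nat.cast_nonneg _)
    linarith
  have hl4 : 4 ≤ l := by exact_mod_cast hl4r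
  have hl0 : (0 : ℝ) < l := by linarith
  rcases lt_or_ge x l with hlx | hlx
  · -- no runs
    have h1 : hh (pd w) (VV (tt c) x) l m = 0 := by
      unfold hh
      rw [← Pool.Agent.Work.MP_7d0410_sp.Ex_const (p := pd w) (VV (tt c) x) 0]
      refine Pool.Agent.Work.MP_7d0410_sp.Ex_congr fun S hS => ?_
      have h2 : rr S l m = ∅ := by
        unfold rr
        rw [Finset.filter_eq_empty_iff]
        rintro q _ ⟨h3, -⟩
        have h4 : len S q ≤ (VV (tt c) x).card := by
          unfold len seg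
          exact (Finset.card_filter_le _ _).trans (Finset.card_le_card hS)
        have h5 : (VV (tt c) x).card ≤ A2 (tt c) x := by
          unfold VV
          rw [Nat.card_Icc]
          omega
        omega
      rw [h2, Finset.card_empty, Nat.cast_zero]
    rw [h1]
    positivity
  · have hcore := DRB_core hCHW hDCU hreg (A1 (tt c) x) (A2 (tt c) x) l m (wlo c x) (whi c x)
      hwlo (fun z hz => (e2 z hz).1) (fun z hz => (e2 z hz).2) hwhi.le hl4 hA1 hB1
    refine hcore.trans ?_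
    have hk : 0 < 1 - κ := by linarith
    have h1 : 4 / (wlo c x * l) * (whi c x / (1 - κ)) ≤
        4 / (1 - κ) * (x : ℝ) ^ (2 * tt c) / l := by
      rw [div_mul_div_comm, div_mul_eq_mul_div, div_div, div_le_div_iff₀ (by positivity)
        (by positivity)]
      have h2 : 4 * whi c x * ((1 - κ) * l) ≤
          4 * ((x : ℝ) ^ (2 * tt c) * wlo c x) * ((1 - κ) * l) :=
        mul_le_mul_of_nonneg_right (by linarith) (by positivity)
      refine h2.trans (le_of_eq ?_)
      ring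
    have h2 : (A2 (tt c) x : ℝ) ^ 2 * (2 * Real.exp (-(wlo c x * l / 32))) ≤ 1 / l := by
      have h3 : Real.exp (-(wlo c x * l / 32)) ≤
          Real.exp (-((x : ℝ) ^ (2 * tt c) / 32)) := by
        apply Real.exp_le_exp.2
        linarith
      have h4 : (A2 (tt c) x : ℝ) ^ 2 ≤ (x : ℝ) ^ 2 := pow_le_pow_left₀ (Nat.cast_nonneg _) hBx 2
      have h5 : (l : ℝ) ≤ x := by exact_mod_cast hlx
      rw [le_div_iff₀ hl0]
      calc (A2 (tt c) x : ℝ) ^ 2 * (2 * Real.exp (-(wlo c x * l / 32))) * l ≤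
          (x : ℝ) ^ 2 * (2 * Real.exp (-((x : ℝ) ^ (2 * tt c) / 32))) * x := by
            apply mul_le_mul _ h5 hl0.le (by positivity)
            exact mul_le_mul h4 (by linarith) (by positivity) (by positivity)
        _ = 2 * ((x : ℝ) ^ 3 * Real.exp (-((x : ℝ) ^ (2 * tt c) / 32))) := by ring
        _ ≤ 1 := by linarith
    have h3 : 4 / (1 - κ) * (x : ℝ) ^ (2 * tt c) / l + 1 / l ≤ (x : ℝ) ^ (3 * tt c) / l := by
      rw [← add_div]
      apply div_le_div_of_nonneg_right _ hl0.le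
      have h4 : (x : ℝ) ^ (3 * tt c) = (x : ℝ) ^ (tt c) * (x : ℝ) ^ (2 * tt c) := by
        rw [← Real.rpow_add hx0]
        congr 1
        ring
      rw [h4]
      have h5 : (4 / (1 - κ) + 1) * (x : ℝ) ^ (2 * tt c) ≤
          (x : ℝ) ^ (tt c) * (x : ℝ) ^ (2 * tt c) :=
        mul_le_mul_of_nonneg_right e4 (by positivity)
      linarith
    linarith

end Pool.Agent.Work.MP_7d0410_dl
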