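import Pool.Agent.Work.MP_7d0410_dl.Interface

/-!
# Block DRG: the powers are regular deletion probabilities
-/

set_option autoImplicit false

namespace Pool.Agent.Work.MP_7d0410_dl

open Filter

theorem p_DRG : Stmt_DRG := by
  intro c hc0 hc1
  refine ⟨?_, ?_, by norm_num, hc0, hc1, ?_⟩
  · intro m
    have h1 : (0 : ℝ) < ((m : ℝ) + 1) ^ (-c) := Real.rpow_pos_of_pos (by positivity) _
    show (0 : ℝ) < 1 / 2 * ((m : ℝ) + 1) ^ (-c)
    linarith
  · intro m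
    have h1 : ((m : ℝ) + 1) ^ (-c) ≤ 1 :=
      Real.rpow_le_one_of_one_le_of_nonpos (by
        have : (0 : ℝ) ≤ (m : ℝ) := Nat.cast_nonneg m
        linarith) (by linarith)
    show 1 / 2 * ((m : ℝ) + 1) ^ (-c) ≤ 1 / 2
    linarith
  · intro e he
    have h4 : ∀ᶠ m : ℕ in atTop, (4 : ℝ) ≤ (m : ℝ) ^ e :=
      ((tendsto_rpow_atTop he).comp tendsto_natCast_atTop_atTop).eventually_ge_atTop 4
    filter_upwards [h4, eventually_ge_atTop 1] with m hm4 hm1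
    have hm : (1 : ℝ) ≤ (m : ℝ) := by exact_mod_cast hm1
    have hm0 : (0 : ℝ) < (m : ℝ) := by linarith
    constructor
    · show (m : ℝ) ^ (-(c + e)) ≤ 1 / 2 * ((m : ℝ) + 1) ^ (-c)
      have e1 : (m : ℝ) ^ (-(c + e)) = (m : ℝ) ^ (-c) * ((m : ℝ) ^ e)⁻¹ := by
        rw [← Real.rpow_neg hm0.le, ← Real.rpow_add hm0]
        congr 1
        ring
      have e2 : (2 * (m : ℝ)) ^ (-c) ≤ ((m : ℝ) + 1) ^ (-c) :=
        Real.rpow_le_rpow_of_nonpos (by linarith) (by linarith) (by linarith)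
      have e3 : (2 * (m : ℝ)) ^ (-c) = (2 : ℝ) ^ (-c) * (m : ℝ) ^ (-c) :=
        Real.mul_rpow (by norm_num) hm0.le
      have e4 : (1 / 2 : ℝ) ≤ (2 : ℝ) ^ (-c) := by
        have h1 : (2 : ℝ) ^ (-(1 : ℝ)) ≤ (2 : ℝ) ^ (-c) :=
          Real.rpow_le_rpow_of_exponent_le (by norm_num) (by linarith)
        have h2 : (2 : ℝ) ^ (-(1 : ℝ)) = 1 / 2 := by
          rw [Real.rpow_neg_one]
          norm_num
        rw [h2] at h1
        exact h1
      have e5 : (0 : ℝ) < (m : ℝ) ^ (-c) := Real.rpow_pos_of_pos hm0 _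
      have e6 : ((m : ℝ) ^ e)⁻¹ ≤ 1 / 4 := by
        rw [inv_le_comm₀ (by linarith) (by norm_num)]
        linarith
      rw [e1]
      nlinarith
    · show 1 / 2 * ((m : ℝ) + 1) ^ (-c) ≤ (m : ℝ) ^ (-(c - e))
      have e1 : ((m : ℝ) + 1) ^ (-c) ≤ (m : ℝ) ^ (-c) :=
        Real.rpow_le_rpow_of_nonpos hm0 (by linarith) (by linarith)
      have e2 : (m : ℝ) ^ (-c) ≤ (m : ℝ) ^ (-(c - e)) :=
        Real.rpow_le_rpow_of_exponent_le hm (by linarith)
      have e3 : (0 : ℝ) < ((m : ℝ) + 1) ^ (-c) := Real.rpow_pos_of_pos (by positivity) _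
      linarith

end Pool.Agent.Work.MP_7d0410_dl
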