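import Pool.Agent.Work.MP_7d0410_dl.Interface

/-!
# Random subsets of the primes: block FLA (helper79), flatness of block sums
-/

set_option autoImplicit false

namespace Pool.Agent.Work.MP_7d0410_dl

open Finset Filter MeasureTheory ProbabilityTheory
open Pool.Agent.Work.MP_7d0410_cr (seg sm len runs rr good gr cnt DD meet AB PP CountReg NN a0 UU SS
  AA repCount)
open Pool.Agent.Work.MP_7d0410_sp (Prob wt Ex Pb hh gg HH T1 T2 A1 A2 VV G1 R1 LL pin F0 XX)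
open scoped Classical Topology

/-- the product of the characteristic functions -/
lemma FLA_prod (hMOD : Stmt_MOD) {p : ℕ → ℝ} (hp : Prob p) (M : Finset ℕ) (t : ℕ → ℝ) (ω : ℝ)
    (h : ∀ z ∈ M, ω ≤ p z * (1 - p z)) :
    (∏ z ∈ M, ‖((1 - p z : ℝ) : ℂ) + ((p z : ℝ) : ℂ) * ee (t z)‖) ≤
      Real.exp (-(8 * ω * ∑ z ∈ M, dn (t z) ^ 2)) := by
  refine (Finset.prod_le_prod (fun z _ => norm_nonneg _)
    (fun z _ => hMOD (p z) (t z) (hp z).1 (hp z).2)).trans ?_
  rw [← Real.exp_sum]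
  refine Real.exp_le_exp.mpr ?_
  rw [Finset.mul_sum, ← Finset.sum_neg_distrib]
  refine Finset.sum_le_sum fun z hz => ?_
  have h1 := h z hz
  have h2 : 0 ≤ dn (t z) ^ 2 := sq_nonneg _
  nlinarith

/-- a fraction in lowest terms is far from the integers -/
lemma FLA_frac (q c : ℕ) (hq : 2 ≤ q) (hc : c.Coprime q) : 1 / (q : ℝ) ≤ dn ((c : ℝ) / q) := by
  obtain ⟨m, hm⟩ := dn_eq ((c : ℝ) / q)
  rw [hm]
  have hq0 : (0 : ℝ) < q := by
    have : 0 < q := by omega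
    exact_mod_cast this
  have h1 : (c : ℝ) / q - m = (((c : ℤ) - m * q : ℤ) : ℝ) / q := by
    push_cast
    field_simp
  rw [h1, abs_div, abs_of_pos hq0]
  refine div_le_div_of_nonneg_right ?_ hq0.le
  have h2 : (c : ℤ) - m * q ≠ 0 := by
    intro h
    have h3 : (q : ℤ) ∣ (c : ℤ) := ⟨m, by linarith [mul_comm m (q : ℤ)]⟩
    have h4 : q ∣ c := by exact_mod_cast h3
    have h5 : q ∣ Nat.gcd c q := Nat.dvd_gcd h4 (dvd_refl q)
    rw [hc] at h5
    have := Nat.le_of_dvd one_pos h5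
    omega
  have h3 : 1 ≤ |(c : ℤ) - m * q| := Int.one_le_abs h2
  have h4 : ((1 : ℤ) : ℝ) ≤ ((|(c : ℤ) - m * q| : ℤ) : ℝ) := by exact_mod_cast h3
  rw [Int.cast_abs] at h4
  simpa using h4

/-- the small frequencies -/
lemma FLA_small (hGEO : Stmt_GEO) (hBOH : Stmt_BOH) (M : Finset ℕ) (u Y J : ℕ) (Λ s L : ℝ)
    (hM : ∀ z ∈ M, z.Prime ∧ u < z ∧ z ≤ u + Y) (h1 : 1 ≤ Λ) (hu : 2 * Λ < u)
    (hY : (Y : ℝ) ≤ Λ * M.card) (h64 : 64 * Λ ^ 2 ≤ Y) (hs : 0 < s) (hs2 : 64 * Λ ^ 2 * s ≤ 1)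
    (h256 : 256 * Λ ^ 2 * s * (u + Y) ≤ Y) (D D' : ℤ) (hL : |((D - D' : ℤ) : ℝ)| ≤ L) (θ α : ℝ)
    (hsm : ∑ z ∈ M, dn (θ + α * z) ^ 2 ≤ s ^ 2 * M.card / 4) :
    ‖∑ i ∈ Finset.range J, ee (-(θ * i))‖ * ‖ee (-(α * D)) - ee (-(α * D'))‖ ≤
      101 * J * L * s * Λ / Y + 4 * Λ ∧
    ∃ q a b : ℕ, 1 ≤ q ∧ (q : ℝ) ≤ 2 * Λ ∧ a < q ∧ b < q ∧
      dn (α - (a : ℝ) / q) ≤ 16 * s * Λ / Y ∧
      dn (θ - (-((a : ℝ) * b / q + (α - (a : ℝ) / q) * u))) ≤ 17 * s * Λ := by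
  obtain ⟨hG1, hG2, hG3, hG4⟩ := hGEO
  obtain ⟨q, a, b, β, m, hq1, hq2, ha, hb, hac, hbc, hα, hβ, hθ⟩ :=
    hBOH M u Y Λ s θ α hM h1 hu hY h64 hs hs2 hsm
  have hYp : (0 : ℝ) < Y := by nlinarith
  have hL0 : 0 ≤ L := (abs_nonneg _).trans hL
  have hΛ : 0 < Λ := by linarith
  have hβ' : |β| ≤ 16 * s * Λ / Y := by rwa [le_div_iff₀ hYp]
  have hJ : (0 : ℝ) ≤ J := Nat.cast_nonneg _
  have hT1 : 0 ≤ 101 * J * L * s * Λ / Y := by positivity
  constructor
  · rcases Nat.lt_or_ge q 2 with hq | hq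
    · -- `q = 1`
      have hq' : q = 1 := by omega
      subst hq'
      have ha' : a = 0 := by omega
      subst ha'
      have hα' : α = β + m := by
        rw [hα]
        push_cast
        ring
      have h2 : ‖ee (-(α * D)) - ee (-(α * D'))‖ ≤ 101 * L * s * Λ / Y := by
        refine (hG4 _ _).trans ?_
        have h3 : -(α * D) - -(α * D') = β * ((D' - D : ℤ) : ℝ) + ((m * (D' - D) : ℤ) : ℝ) := by
          rw [hα']
          push_cast
          ring
        rw [h3, dn_add_int]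
        have h4 : dn (β * ((D' - D : ℤ) : ℝ)) ≤ 16 * s * Λ / Y * L := by
          refine (dn_le_abs _).trans ?_
          rw [abs_mul]
          refine mul_le_mul hβ' ?_ (abs_nonneg _) (by positivity)
          have h5 : ((D' - D : ℤ) : ℝ) = -((D - D' : ℤ) : ℝ) := by
            push_cast
            ring
          rw [h5, abs_neg]
          exact hL
        have h5 := Real.pi_lt_d2
        have h6 : (0 : ℝ) < Real.pi := Real.pi_pos
        have h7 : 0 ≤ s * Λ / Y * L := by positivity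
        calc 2 * Real.pi * dn (β * ((D' - D : ℤ) : ℝ)) ≤ 2 * Real.pi * (16 * s * Λ / Y * L) :=
              mul_le_mul_of_nonneg_left h4 (by positivity)
          _ = (32 * Real.pi) * (s * Λ / Y * L) := by ring
          _ ≤ 101 * (s * Λ / Y * L) := by
              refine mul_le_mul_of_nonneg_right ?_ h7
              linarith
          _ = 101 * L * s * Λ / Y := by ring
      calc ‖∑ i ∈ Finset.range J, ee (-(θ * i))‖ * ‖ee (-(α * D)) - ee (-(α * D'))‖
          ≤ J * (101 * L * s * Λ / Y) := mul_le_mul (hG1 J θ) h2 (norm_nonneg _) hJ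
        _ = 101 * J * L * s * Λ / Y := by ring
        _ ≤ _ := by linarith
    · -- `2 ≤ q`
      have hq0 : (0 : ℝ) < q := by
        have : 0 < q := by omega
        exact_mod_cast this
      have h2 : 1 / (q : ℝ) ≤ dn ((a : ℝ) * b / q) := by
        have h3 := FLA_frac q (a * b) hq (Nat.Coprime.mul_left hac hbc)
        push_cast at h3
        exact h3
      have h3 : 1 / (2 * Λ) ≤ 1 / (q : ℝ) := one_div_le_one_div_of_le hq0 hq2
      have h4 : dn ((a : ℝ) * b / q) ≤ 17 * s * Λ + |β| * u + dn θ := by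
        have h5 : (a : ℝ) * b / q = (θ + (a : ℝ) * b / q + β * u) - β * u - θ := by ring
        rw [h5]
        refine (dn_sub _ _).trans ?_
        have h6 := dn_sub (θ + (a : ℝ) * b / q + β * u) (β * u)
        have h7 := dn_le_abs (β * (u : ℝ))
        rw [abs_mul, abs_of_nonneg (Nat.cast_nonneg u : (0 : ℝ) ≤ (u : ℝ))] at h7
        linarith
      have h5 : |β| * u ≤ 16 * s * Λ / Y * u :=
        mul_le_mul_of_nonneg_right hβ' (Nat.cast_nonneg u)
      have h6 : 17 * s * Λ + 16 * s * Λ / Y * u ≤ 1 / (4 * Λ) := by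
        have h7 : s * Λ * (u + Y) / Y ≤ 1 / (256 * Λ) := by
          rw [div_le_div_iff₀ hYp (by positivity)]
          nlinarith
        have h8 : 17 * s * Λ + 16 * s * Λ / Y * u ≤ 17 * (s * Λ * (u + Y) / Y) := by
          have h9 : 17 * (s * Λ * ((u : ℝ) + Y) / Y) =
              17 * s * Λ + 17 * (s * Λ / Y * u) := by
            field_simp
            ring
          rw [h9]
          have h10 : 0 ≤ s * Λ / Y * u := by positivity
          have h11 : 16 * s * Λ / Y * u = 16 * (s * Λ / Y * u) := by ring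
          rw [h11]
          linarith
        refine h8.trans ?_
        have h12 : 17 * (1 / (256 * Λ)) ≤ 1 / (4 * Λ) := by
          rw [show 17 * (1 / (256 * Λ)) = (17 / 256) * (1 / Λ) by field_simp,
            show 1 / (4 * Λ) = (1 / 4) * (1 / Λ) by field_simp]
          have : 0 < 1 / Λ := by positivity
          nlinarith
        linarith [mul_le_mul_of_nonneg_left h7 (by norm_num : (0 : ℝ) ≤ 17)]
      have h7 : 1 / (2 * Λ) - 1 / (4 * Λ) = 1 / (4 * Λ) := by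
        field_simp
        norm_num
      have h8 : 1 / (4 * Λ) ≤ dn θ := by linarith
      have h9 : 0 < dn θ := lt_of_lt_of_le (by positivity) h8
      have h10 : ‖∑ i ∈ Finset.range J, ee (-(θ * i))‖ ≤ 2 * Λ := by
        refine (hG2 J θ h9).trans ?_
        rw [div_le_iff₀ (by positivity)]
        have h11 : 2 * Λ * (2 * (1 / (4 * Λ))) = 1 := by
          field_simp
          norm_num
        calc (1 : ℝ) = 2 * Λ * (2 * (1 / (4 * Λ))) := h11.symm
          _ ≤ 2 * Λ * (2 * dn θ) := by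
              refine mul_le_mul_of_nonneg_left ?_ (by positivity)
              linarith
      calc ‖∑ i ∈ Finset.range J, ee (-(θ * i))‖ * ‖ee (-(α * D)) - ee (-(α * D'))‖
          ≤ (2 * Λ) * 2 := mul_le_mul h10 (hG3 _ _) (norm_nonneg _) (by positivity)
        _ = 4 * Λ := by ring
        _ ≤ _ := by linarith
  · refine ⟨q, a, b, hq1, hq2, ha, hb, ?_, ?_⟩
    · have h2 : α - (a : ℝ) / q = β + m := by
        rw [hα]
        ring
      rw [h2, dn_add_int]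
      exact (dn_le_abs β).trans hβ'
    · have h2 : θ - (-((a : ℝ) * b / q + (α - (a : ℝ) / q) * u)) =
          (θ + (a : ℝ) * b / q + β * u) + ((m * (u : ℤ) : ℤ) : ℝ) := by
        rw [hα]
        push_cast
        ring
      rw [h2, dn_add_int]
      exact hθ

/-- counting pairs -/
lemma FLA_card (N : ℕ) (A : ℕ → Prop) (B : ℕ → ℕ → Prop) (R1 R2 : ℝ) (hR2 : 0 ≤ R2)
    (hA : (((Finset.range N).filter A).card : ℝ) ≤ R1)
    (hB : ∀ k, (((Finset.range N).filter (fun h => B h k)).card : ℝ) ≤ R2) :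
    (((Finset.range N ×ˢ Finset.range N).filter (fun x => A x.2 ∧ B x.1 x.2)).card : ℝ) ≤
      R1 * R2 := by
  have h1 : (((Finset.range N ×ˢ Finset.range N).filter (fun x => A x.2 ∧ B x.1 x.2)).card : ℝ) =
      ∑ k ∈ Finset.range N, ∑ h ∈ Finset.range N, (if A k ∧ B h k then (1 : ℝ) else 0) := by
    rw [Finset.card_filter]
    push_cast
    rw [Finset.sum_product_right]
  rw [h1]
  have h2 : ∀ k ∈ Finset.range N, ∑ h ∈ Finset.range N, (if A k ∧ B h k then (1 : ℝ) else 0) ≤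
      (if A k then 1 else 0) * R2 := by
    intro k _
    by_cases hk : A k
    · simp only [hk, true_and, if_true, one_mul]
      refine le_trans (le_of_eq ?_) (hB k)
      rw [Finset.card_filter]
      push_cast
      rfl
    · simp only [hk, false_and, if_false, zero_mul, Finset.sum_const_zero, le_refl]
  refine (Finset.sum_le_sum h2).trans ?_
  rw [← Finset.sum_mul]
  refine mul_le_mul_of_nonneg_right ?_ hR2
  refine le_trans (le_of_eq ?_) hA
  rw [Finset.card_filter]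
  push_cast
  rfl

/-- FLA -/
theorem p_FLA (hFOU : Stmt_FOU) (hMOD : Stmt_MOD) (hGEO : Stmt_GEO) (hCNT : Stmt_CNT)
    (hBOH : Stmt_BOH) : Stmt_FLA := by
  intro p hp M u Y J Λ s ω L hM h1 hu hY h64 hs hs2 h256 hω hωp j D D' hL
  have hYp : (0 : ℝ) < Y := by nlinarith
  have hY1 : (64 : ℝ) ≤ Y := by nlinarith
  have hL0 : 0 ≤ L := (abs_nonneg _).trans hL
  have hΛ : 0 < Λ := by linarith
  have hJ : (0 : ℝ) ≤ J := Nat.cast_nonneg _
  obtain ⟨N, hN1, hNj, hND, hND', hNY⟩ : ∃ N : ℕ, 1 ≤ N ∧ (M.card : ℤ) + |j| + J < N ∧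
      ((∑ z ∈ M, z : ℕ) : ℤ) + |D| < N ∧ ((∑ z ∈ M, z : ℕ) : ℤ) + |D'| < N ∧
      (Y : ℝ) / (s * Λ) ≤ N := by
    refine ⟨M.card + j.natAbs + J + (∑ z ∈ M, z) + D.natAbs + D'.natAbs + 1 +
      ⌈(Y : ℝ) / (s * Λ)⌉₊, by omega, ?_, ?_, ?_, ?_⟩
    · push_cast
      have h2 := abs_nonneg D
      have h3 := abs_nonneg D'
      have h4 : (0 : ℤ) ≤ ∑ z ∈ M, (z : ℤ) := Finset.sum_nonneg fun z _ => by positivity
      have h5 : (0 : ℤ) ≤ (⌈(Y : ℝ) / (s * Λ)⌉₊ : ℤ) := Int.natCast_nonneg _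
      linarith
    · push_cast
      have h2 := abs_nonneg j
      have h3 := abs_nonneg D'
      have h4 : (0 : ℤ) ≤ (M.card : ℤ) := Int.natCast_nonneg _
      have h5 : (0 : ℤ) ≤ (⌈(Y : ℝ) / (s * Λ)⌉₊ : ℤ) := Int.natCast_nonneg _
      have h6 : (0 : ℤ) ≤ (J : ℤ) := Int.natCast_nonneg _
      linarith
    · push_cast
      have h2 := abs_nonneg j
      have h3 := abs_nonneg D
      have h4 : (0 : ℤ) ≤ (M.card : ℤ) := Int.natCast_nonneg _
      have h5 : (0 : ℤ) ≤ (⌈(Y : ℝ) / (s * Λ)⌉₊ : ℤ) := Int.natCast_nonneg _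
      have h6 : (0 : ℤ) ≤ (J : ℤ) := Int.natCast_nonneg _
      linarith
    · refine (Nat.le_ceil _).trans ?_
      exact_mod_cast Nat.le_add_left _ _
  have hNp : (0 : ℝ) < N := by exact_mod_cast hN1
  refine (hFOU p hp M J N j D D' hN1 hNj hND hND').trans ?_
  obtain ⟨T, hT⟩ : ∃ T : ℝ, T = 101 * J * L * s * Λ / Y + 4 * Λ := ⟨_, rfl⟩
  obtain ⟨B1, hB1⟩ : ∃ B1 : ℝ, B1 = 2 * J * Real.exp (-(2 * ω * s ^ 2 * M.card)) := ⟨_, rfl⟩
  have hT0 : 0 ≤ T := by
    rw [hT]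
    positivity
  have hB0 : 0 ≤ B1 := by
    rw [hB1]
    positivity
  rw [← hT, ← hB1]
  -- the small pairs
  obtain ⟨P, hP⟩ : ∃ P : Finset (ℕ × ℕ), P = (Finset.range N ×ˢ Finset.range N).filter
    (fun x => ∑ z ∈ M, dn ((x.1 : ℝ) / N + (x.2 : ℝ) / N * z) ^ 2 ≤ s ^ 2 * M.card / 4) := ⟨_, rfl⟩
  have hterm : ∀ h ∈ Finset.range N, ∀ k ∈ Finset.range N,
      (∏ z ∈ M, ‖((1 - p z : ℝ) : ℂ) + ((p z : ℝ) : ℂ) * ee (((h : ℝ) + k * z) / N)‖) *
        ‖∑ i ∈ Finset.range J, ee (-((h : ℝ) / N * i))‖ *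
        ‖ee (-((k : ℝ) / N * D)) - ee (-((k : ℝ) / N * D'))‖ ≤
      B1 + (if (h, k) ∈ P then T else 0) := by
    intro h hh' k hk'
    have h2 : ∀ z : ℕ, ((h : ℝ) + k * z) / N = (h : ℝ) / N + (k : ℝ) / N * z := by
      intro z
      ring
    have h3 := FLA_prod hMOD hp M (fun z => ((h : ℝ) + k * z) / N) ω hωp
    have h4 : ∀ z ∈ M, dn (((h : ℝ) + k * z) / N) ^ 2 = dn ((h : ℝ) / N + (k : ℝ) / N * z) ^ 2 := by
      intro z _
      rw [h2]
    rw [Finset.sum_congr rfl h4] at h3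
    have h5 : 0 ≤ ∑ z ∈ M, dn ((h : ℝ) / N + (k : ℝ) / N * z) ^ 2 :=
      Finset.sum_nonneg fun z _ => sq_nonneg _
    have h6 : (0 : ℝ) ≤ ∏ z ∈ M,
        ‖((1 - p z : ℝ) : ℂ) + ((p z : ℝ) : ℂ) * ee (((h : ℝ) + k * z) / N)‖ :=
      Finset.prod_nonneg fun z _ => norm_nonneg _
    obtain ⟨hG1, hG2, hG3, hG4⟩ := hGEO
    by_cases hs' : (h, k) ∈ P
    · rw [if_pos hs']
      rw [hP, Finset.mem_filter] at hs'
      have h7 := (FLA_small ⟨hG1, hG2, hG3, hG4⟩ hBOH M u Y J Λ s L hM h1 hu hY h64 hs hs2 h256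
        D D' hL ((h : ℝ) / N) ((k : ℝ) / N) hs'.2).1
      rw [← hT] at h7
      have h8 : (∏ z ∈ M,
          ‖((1 - p z : ℝ) : ℂ) + ((p z : ℝ) : ℂ) * ee (((h : ℝ) + k * z) / N)‖) ≤ 1 := by
        refine h3.trans ?_
        rw [Real.exp_le_one_iff]
        have : 0 ≤ 8 * ω * ∑ z ∈ M, dn ((h : ℝ) / N + (k : ℝ) / N * z) ^ 2 := by positivity
        linarith
      rw [mul_assoc]
      have h9 := mul_le_mul h8 h7 (by positivity) zero_le_one
      linarith
    · rw [if_neg hs', add_zero]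
      have h7 : s ^ 2 * M.card / 4 < ∑ z ∈ M, dn ((h : ℝ) / N + (k : ℝ) / N * z) ^ 2 := by
        by_contra hcon
        push Not at hcon
        refine hs' ?_
        rw [hP, Finset.mem_filter]
        exact ⟨Finset.mem_product.mpr ⟨hh', hk'⟩, hcon⟩
      have h8 : (∏ z ∈ M,
          ‖((1 - p z : ℝ) : ℂ) + ((p z : ℝ) : ℂ) * ee (((h : ℝ) + k * z) / N)‖) ≤
          Real.exp (-(2 * ω * s ^ 2 * M.card)) := by
        refine h3.trans (Real.exp_le_exp.mpr ?_)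
        have h9 := mul_le_mul_of_nonneg_left h7.le (by positivity : 0 ≤ 8 * ω)
        have h10 : 8 * ω * (s ^ 2 * M.card / 4) = 2 * ω * s ^ 2 * M.card := by ring
        linarith
      have h9 := mul_le_mul (mul_le_mul h8 (hG1 J ((h : ℝ) / N)) (norm_nonneg _)
        (Real.exp_pos _).le) (hG3 (-((k : ℝ) / N * D)) (-((k : ℝ) / N * D'))) (norm_nonneg _)
        (by positivity)
      refine h9.trans (le_of_eq ?_)
      rw [hB1]
      ring
  have hsum : ∑ h ∈ Finset.range N, ∑ k ∈ Finset.range N,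
      (∏ z ∈ M, ‖((1 - p z : ℝ) : ℂ) + ((p z : ℝ) : ℂ) * ee (((h : ℝ) + k * z) / N)‖) *
        ‖∑ i ∈ Finset.range J, ee (-((h : ℝ) / N * i))‖ *
        ‖ee (-((k : ℝ) / N * D)) - ee (-((k : ℝ) / N * D'))‖ ≤
      (N : ℝ) ^ 2 * B1 + P.card * T := by
    refine (Finset.sum_le_sum fun h hh' => Finset.sum_le_sum fun k hk' =>
      hterm h hh' k hk').trans ?_
    have h2 : ∑ h ∈ Finset.range N, ∑ k ∈ Finset.range N, (B1 + (if (h, k) ∈ P then T else 0)) =
        (N : ℝ) ^ 2 * B1 + ∑ x ∈ Finset.range N ×ˢ Finset.range N, (if x ∈ P then T else 0) := by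
      rw [Finset.sum_product]
      simp only [Finset.sum_add_distrib, Finset.sum_const, Finset.card_range, nsmul_eq_mul]
      ring
    rw [h2]
    have h3 : ∑ x ∈ Finset.range N ×ˢ Finset.range N, (if x ∈ P then T else 0) = P.card * T := by
      rw [← Finset.sum_filter, Finset.sum_const, nsmul_eq_mul]
      congr 2
      have h4 : (Finset.range N ×ˢ Finset.range N).filter (fun x => x ∈ P) = P := by
        ext x
        rw [Finset.mem_filter]
        constructor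
        · exact fun h => h.2
        · intro h
          refine ⟨?_, h⟩
          rw [hP] at h
          exact (Finset.mem_filter.mp h).1
      rw [h4]
    rw [h3]
  -- the number of the small pairs
  have hcard : (P.card : ℝ) ≤ 40000 * Λ ^ 5 * s ^ 2 / Y * (N : ℝ) ^ 2 := by
    obtain ⟨Q, hQ⟩ : ∃ Q : ℕ, Q = ⌊2 * Λ⌋₊ := ⟨_, rfl⟩
    have hQ2 : (Q : ℝ) ≤ 2 * Λ := by
      rw [hQ]
      exact Nat.floor_le (by positivity)
    obtain ⟨I, hI⟩ : ∃ I : Finset (ℕ × ℕ × ℕ), I = Finset.Icc 1 Q ×ˢ Finset.range Q ×ˢ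
      Finset.range Q := ⟨_, rfl⟩
    have hIc : (I.card : ℝ) = (Q : ℝ) ^ 3 := by
      rw [hI, Finset.card_product, Finset.card_product, Nat.card_Icc, Finset.card_range]
      push_cast
      ring
    obtain ⟨R1', hR1'⟩ : ∃ r : ℝ, r = 2 * (16 * s * Λ / Y) * N + 1 := ⟨_, rfl⟩
    obtain ⟨R2', hR2'⟩ : ∃ r : ℝ, r = 2 * (17 * s * Λ) * N + 1 := ⟨_, rfl⟩
    have hR10 : 0 ≤ R1' := by
      rw [hR1']
      positivity
    have hR20 : 0 ≤ R2' := by
      rw [hR2']
      positivity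
    obtain ⟨F, hF⟩ : ∃ F : ℕ × ℕ × ℕ → Finset (ℕ × ℕ), F = fun i =>
      (Finset.range N ×ˢ Finset.range N).filter (fun x =>
        dn ((x.2 : ℝ) / N - (i.2.1 : ℝ) / i.1) ≤ 16 * s * Λ / Y ∧
        dn ((x.1 : ℝ) / N - (-((i.2.1 : ℝ) * i.2.2 / i.1 +
          ((x.2 : ℝ) / N - (i.2.1 : ℝ) / i.1) * u))) ≤ 17 * s * Λ) := ⟨_, rfl⟩
    have hsub : P ⊆ I.biUnion F := by
      intro x hx
      rw [hP, Finset.mem_filter] at hx
      obtain ⟨-, q, a, b, hq1, hq2, ha, hb, h2, h3⟩ := FLA_small hGEO hBOH M u Y J Λ s L hM h1 hu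
        hY h64 hs hs2 h256 D D' hL ((x.1 : ℝ) / N) ((x.2 : ℝ) / N) hx.2
      have hqQ : q ≤ Q := by
        rw [hQ]
        exact Nat.le_floor hq2
      rw [Finset.mem_biUnion]
      refine ⟨(q, a, b), ?_, ?_⟩
      · rw [hI, Finset.mem_product, Finset.mem_product, Finset.mem_Icc, Finset.mem_range,
          Finset.mem_range]
        exact ⟨⟨hq1, hqQ⟩, lt_of_lt_of_le ha hqQ, lt_of_lt_of_le hb hqQ⟩
      · rw [hF]
        exact Finset.mem_filter.mpr ⟨hx.1, h2, h3⟩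
    have hFc : ∀ i ∈ I, ((F i).card : ℝ) ≤ R1' * R2' := by
      intro i _
      rw [hF]
      refine FLA_card N (fun k => dn ((k : ℝ) / N - (i.2.1 : ℝ) / i.1) ≤ 16 * s * Λ / Y)
        (fun h k => dn ((h : ℝ) / N - (-((i.2.1 : ℝ) * i.2.2 / i.1 +
          ((k : ℝ) / N - (i.2.1 : ℝ) / i.1) * u))) ≤ 17 * s * Λ) R1' R2' hR20 ?_ ?_
      · rw [hR1']
        exact hCNT N ((i.2.1 : ℝ) / i.1) (16 * s * Λ / Y) hN1 (by positivity)
      · intro k
        rw [hR2']
        exact hCNT N (-((i.2.1 : ℝ) * i.2.2 / i.1 + ((k : ℝ) / N - (i.2.1 : ℝ) / i.1) * u))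
          (17 * s * Λ) hN1 (by positivity)
    have h2 : (P.card : ℝ) ≤ I.card * (R1' * R2') := by
      calc (P.card : ℝ) ≤ ((I.biUnion F).card : ℝ) := by exact_mod_cast Finset.card_le_card hsub
        _ ≤ ∑ i ∈ I, ((F i).card : ℝ) := by exact_mod_cast Finset.card_biUnion_le
        _ ≤ ∑ _i ∈ I, R1' * R2' := Finset.sum_le_sum hFc
        _ = I.card * (R1' * R2') := by rw [Finset.sum_const, nsmul_eq_mul]
    have h3 : 1 ≤ s * Λ / Y * N := by
      rw [div_le_iff₀ (by positivity)] at hNY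
      rw [div_mul_eq_mul_div, le_div_iff₀ hYp]
      linarith
    have h4 : R1' ≤ 33 * (s * Λ / Y * N) := by
      rw [hR1']
      have : 2 * (16 * s * Λ / Y) * N = 32 * (s * Λ / Y * N) := by ring
      rw [this]
      linarith
    have h5 : R2' ≤ 35 * (s * Λ * N) := by
      rw [hR2']
      have h6 : 2 * (17 * s * Λ) * N = 34 * (s * Λ * N) := by ring
      have h7 : s * Λ / Y * N ≤ s * Λ * N := by
        refine mul_le_mul_of_nonneg_right ?_ hNp.le
        exact div_le_self (by positivity) (by linarith)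
      rw [h6]
      linarith
    have h6 : (I.card : ℝ) ≤ 8 * Λ ^ 3 := by
      rw [hIc]
      calc (Q : ℝ) ^ 3 ≤ (2 * Λ) ^ 3 := pow_le_pow_left₀ (Nat.cast_nonneg _) hQ2 3
        _ = 8 * Λ ^ 3 := by ring
    calc (P.card : ℝ) ≤ I.card * (R1' * R2') := h2
      _ ≤ (8 * Λ ^ 3) * ((33 * (s * Λ / Y * N)) * (35 * (s * Λ * N))) := by
          refine mul_le_mul h6 (mul_le_mul h4 h5 hR20 (by positivity)) (mul_nonneg hR10 hR20)
            (by positivity)
      _ = 9240 * (Λ ^ 5 * s ^ 2 / Y * (N : ℝ) ^ 2) := by ring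
      _ ≤ 40000 * (Λ ^ 5 * s ^ 2 / Y * (N : ℝ) ^ 2) := by
          refine mul_le_mul_of_nonneg_right (by norm_num) (by positivity)
      _ = 40000 * Λ ^ 5 * s ^ 2 / Y * (N : ℝ) ^ 2 := by ring
  have hN2 : (0 : ℝ) < (N : ℝ) ^ 2 := by positivity
  rw [one_div, inv_mul_le_iff₀ hN2]
  refine hsum.trans ?_
  have h2 := mul_le_mul_of_nonneg_right hcard hT0
  have h3 : (N : ℝ) ^ 2 * (B1 + 40000 * Λ ^ 5 * s ^ 2 / Y * T) =
      (N : ℝ) ^ 2 * B1 + 40000 * Λ ^ 5 * s ^ 2 / Y * (N : ℝ) ^ 2 * T := by ring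
  rw [h3]
  linarith

end Pool.Agent.Work.MP_7d0410_dl
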