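import Pool.Agent.Work.MP_7d0410_dl.Interface

/-!
# FLB: flatness for the runs which contain `[α, β]`
-/

set_option autoImplicit false

namespace Pool.Agent.Work.MP_7d0410_dl

open Finset Filter MeasureTheory ProbabilityTheory
open Pool.Agent.Work.MP_7d0410_cr (seg sm len runs rr good gr cnt DD meet AB PP CountReg NN a0 UU SS
  AA repCount)
open Pool.Agent.Work.MP_7d0410_sp (Prob wt Ex Pb hh gg HH T1 T2 A1 A2 VV G1 R1 LL pin F0 XX Ex_union
  Ex_congr Ex_sum Ex_sub Ex_mono Ex_le_const abs_Ex_le Ex_nonneg)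
open scoped Classical

/-- the runs which contain `[α, β]` -/
private noncomputable def FLB_Q (S : Finset ℕ) (α β : ℕ) : Finset (ℕ × ℕ) :=
  (runs S).filter (fun q => q.1 ≤ α ∧ β ≤ q.2)

private lemma FLB_seg (S T : Finset ℕ) (α β : ℕ) (hT : ∀ z ∈ T, α < z ∧ z < β) (q : ℕ × ℕ)
    (h1 : q.1 ≤ α) (h2 : β ≤ q.2) : seg (S ∪ T) q = seg S q ∪ T := by
  unfold seg
  rw [Finset.filter_union]
  congr 1
  refine Finset.filter_true_of_mem fun z hz => ?_
  obtain ⟨h3, h4⟩ := hT z hz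
  exact ⟨by omega, by omega⟩

private lemma FLB_len (S T : Finset ℕ) (α β : ℕ) (hT : ∀ z ∈ T, α < z ∧ z < β)
    (hd : Disjoint S T) (q : ℕ × ℕ) (h1 : q.1 ≤ α) (h2 : β ≤ q.2) :
    len (S ∪ T) q = len S q + T.card := by
  unfold len
  rw [FLB_seg S T α β hT q h1 h2]
  exact Finset.card_union_of_disjoint (Finset.disjoint_of_subset_left (Finset.filter_subset _ _) hd)

private lemma FLB_sm (S T : Finset ℕ) (α β : ℕ) (hT : ∀ z ∈ T, α < z ∧ z < β)
    (hd : Disjoint S T) (q : ℕ × ℕ) (h1 : q.1 ≤ α) (h2 : β ≤ q.2) :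
    sm (S ∪ T) q = sm S q + ∑ z ∈ T, z := by
  unfold sm
  rw [FLB_seg S T α β hT q h1 h2]
  exact Finset.sum_union (Finset.disjoint_of_subset_left (Finset.filter_subset _ _) hd)

private lemma FLB_rr (S T : Finset ℕ) (α β : ℕ) (hT : ∀ z ∈ T, α < z ∧ z < β)
    (hd : Disjoint S T) (k n : ℕ) :
    (rr (S ∪ T) k n).filter (fun q => q.1 ≤ α ∧ β ≤ q.2) =
      (FLB_Q S α β).filter (fun q => len S q + T.card = k ∧ sm S q + ∑ z ∈ T, z = n) := by
  ext q
  simp only [rr, runs, FLB_Q, Finset.mem_filter, Finset.mem_product, Finset.mem_union]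
  constructor
  · rintro ⟨⟨⟨⟨ha, hb⟩, hc⟩, hl, hs⟩, h1, h2⟩
    rw [FLB_len S T α β hT hd q h1 h2] at hl
    rw [FLB_sm S T α β hT hd q h1 h2] at hs
    refine ⟨⟨⟨⟨?_, ?_⟩, hc⟩, h1, h2⟩, hl, hs⟩
    · rcases ha with ha | ha
      · exact ha
      · have := (hT _ ha).1
        omega
    · rcases hb with hb | hb
      · exact hb
      · have := (hT _ hb).2
        omega
  · rintro ⟨⟨⟨⟨ha, hb⟩, hc⟩, h1, h2⟩, hl, hs⟩
    refine ⟨⟨⟨⟨Or.inl ha, Or.inl hb⟩, hc⟩, ?_, ?_⟩, h1, h2⟩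
    · rw [FLB_len S T α β hT hd q h1 h2]
      exact hl
    · rw [FLB_sm S T α β hT hd q h1 h2]
      exact hs

private lemma FLB_hM (p : ℕ → ℝ) (A B α β k n : ℕ) (hA : A ≤ α) (hB : β ≤ B) :
    hM p (Finset.Icc A B) α β k n = Ex p (Finset.Icc A B \ MM α β) (fun S =>
      ∑ q ∈ FLB_Q S α β, Pc p (MM α β) ((k : ℤ) - len S q) ((n : ℤ) - sm S q)) := by
  have hsub : MM α β ⊆ Finset.Icc A B := by
    intro z hz
    have h1 := Finset.mem_Ioo.1 (Finset.mem_filter.1 hz).1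
    exact Finset.mem_Icc.2 ⟨by omega, by omega⟩
  have e1 : ∀ F : Finset ℕ → ℝ, Ex p (Finset.Icc A B) F =
      Ex p ((Finset.Icc A B \ MM α β) ∪ MM α β) F := by
    intro F
    rw [Finset.sdiff_union_of_subset hsub]
  unfold hM
  rw [e1, Ex_union Finset.sdiff_disjoint]
  refine Ex_congr fun S hS => ?_
  have e2 : ∑ q ∈ FLB_Q S α β, Pc p (MM α β) ((k : ℤ) - len S q) ((n : ℤ) - sm S q) =
      Ex p (MM α β) (fun T => ∑ q ∈ FLB_Q S α β,
        if ((T.card : ℤ) = (k : ℤ) - len S q ∧ ((∑ z ∈ T, z : ℕ) : ℤ) = (n : ℤ) - sm S q)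
          then (1 : ℝ) else 0) := by
    rw [Ex_sum]
    refine Finset.sum_congr rfl fun q _ => ?_
    unfold Pc Pb
    refine Ex_congr fun T _ => ?_
    by_cases hc : (T.card : ℤ) = (k : ℤ) - len S q ∧ ((∑ z ∈ T, z : ℕ) : ℤ) = (n : ℤ) - sm S q
    · rw [if_pos hc, if_pos hc]
    · rw [if_neg hc, if_neg hc]
  rw [e2]
  refine Ex_congr fun T hT => ?_
  have hT' : ∀ z ∈ T, α < z ∧ z < β := by
    intro z hz
    exact Finset.mem_Ioo.1 (Finset.mem_filter.1 (hT hz)).1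
  have hd : Disjoint S T := by
    rw [Finset.disjoint_left]
    intro z hz hz'
    exact (Finset.mem_sdiff.1 (hS hz)).2 (hT hz')
  rw [FLB_rr S T α β hT' hd, Finset.card_filter]
  push_cast
  refine Finset.sum_congr rfl fun q _ => ?_
  refine if_congr ?_ rfl rfl
  constructor
  · rintro ⟨h1, h2⟩
    constructor
    · omega
    · rw [← h2]
      push_cast
      ring
  · rintro ⟨h1, h2⟩
    constructor
    · omega
    · have h3 : ((sm S q + ∑ z ∈ T, z : ℕ) : ℤ) = (n : ℤ) := by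
        push_cast
        linarith
      exact_mod_cast h3

private lemma FLB_sum (p : ℕ → ℝ) (A B α β J r n : ℕ) (hA : A ≤ α) (hB : β ≤ B) :
    ∑ i ∈ Finset.range J, hM p (Finset.Icc A B) α β (r + i) n =
      Ex p (Finset.Icc A B \ MM α β) (fun S =>
        ∑ q ∈ FLB_Q S α β, Bk p (MM α β) J ((r : ℤ) - len S q) ((n : ℤ) - sm S q)) := by
  have e1 : ∀ i ∈ Finset.range J, hM p (Finset.Icc A B) α β (r + i) n =
      Ex p (Finset.Icc A B \ MM α β) (fun S =>
      ∑ q ∈ FLB_Q S α β, Pc p (MM α β) (((r + i : ℕ) : ℤ) - len S q) ((n : ℤ) - sm S q)) :=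
    fun i _ => FLB_hM p A B α β (r + i) n hA hB
  rw [Finset.sum_congr rfl e1, ← Ex_sum]
  refine Ex_congr fun S _ => ?_
  rw [Finset.sum_comm]
  refine Finset.sum_congr rfl fun q _ => ?_
  unfold Bk
  refine Finset.sum_congr rfl fun i _ => ?_
  congr 1
  push_cast
  ring

private lemma FLB_Pb_mono {p : ℕ → ℝ} (hp : Prob p) (M : Finset ℕ) (P Q : Finset ℕ → Prop)
    (h : ∀ T ⊆ M, P T → Q T) : Pb p M P ≤ Pb p M Q := by
  unfold Pb
  refine Ex_mono hp fun T hT => ?_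
  by_cases hP : P T
  · rw [if_pos hP, if_pos (h T hT hP)]
  · rw [if_neg hP]
    split_ifs
    · exact zero_le_one
    · exact le_rfl

private lemma FLB_Pc_nonneg {p : ℕ → ℝ} (hp : Prob p) (M : Finset ℕ) (j D : ℤ) :
    0 ≤ Pc p M j D := by
  unfold Pc Pb
  refine Ex_nonneg hp fun T _ => ?_
  split_ifs
  · exact zero_le_one
  · exact le_rfl

/-- the bound for the irrelevant terms -/
private lemma FLB_irr (hCHW : Stmt_CHW) {p : ℕ → ℝ} (hp : Prob p) (α β J : ℕ) (t L : ℝ)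
    (hαβ : α < β) (ht : 0 ≤ t) (ht' : t ≤ 2 * ∑ z ∈ MM α β, (1 - p z)) (r n n'' i : ℕ) (hi : i < J)
    (hn : |(n : ℝ) - n''| ≤ L) (S : Finset ℕ) (q : ℕ × ℕ)
    (hirr : ¬ (|(len S q : ℝ) - ((r : ℝ) + ∑ z ∈ MM α β, (1 - p z) - (MM α β).card)| ≤ t + J ∧
      |(∑ z ∈ seg S q, ((z : ℝ) - α)) - ((n : ℝ) - α * r +
        ∑ z ∈ MM α β, ((z : ℝ) - α) * (1 - p z) - ∑ z ∈ MM α β, ((z : ℝ) - α))| ≤
        t * ((β : ℝ) - α) + α * J + L)) :
    Pc p (MM α β) (((r : ℤ) - len S q) + i) ((n'' : ℤ) - sm S q) ≤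
      2 * Real.exp (-(t ^ 2 / (4 * ∑ z ∈ MM α β, (1 - p z)))) := by
  have hY : (0 : ℝ) < (β : ℝ) - α := by
    have : (α : ℝ) < β := by exact_mod_cast hαβ
    linarith
  have hiJ : (i : ℝ) ≤ J := by exact_mod_cast hi.le
  have hi0 : (0 : ℝ) ≤ i := Nat.cast_nonneg i
  have hα0 : (0 : ℝ) ≤ α := Nat.cast_nonneg α
  rw [not_and_or] at hirr
  rcases hirr with h | h
  · -- the number of elements
    refine le_trans ?_ (hCHW p hp (MM α β) (fun _ => 1) t (fun _ _ => ⟨zero_le_one, le_rfl⟩) ht ht')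
    refine FLB_Pb_mono hp _ _ _ fun T hT hP => ?_
    obtain ⟨h1, -⟩ := hP
    have h1' : (T.card : ℝ) = (r : ℝ) - len S q + i := by exact_mod_cast h1
    have h2 : ((MM α β \ T).card : ℝ) = (MM α β).card - T.card := by
      rw [Finset.card_sdiff_of_subset hT, Nat.cast_sub (Finset.card_le_card hT)]
    have h3 : ∑ _z ∈ MM α β \ T, (1 : ℝ) = (MM α β).card - T.card := by
      rw [← h2]
      simp
    have h4 : ∑ z ∈ MM α β, (1 : ℝ) * (1 - p z) = ∑ z ∈ MM α β, (1 - p z) :=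
      Finset.sum_congr rfl fun z _ => one_mul _
    show t ≤ |∑ _z ∈ MM α β \ T, (1 : ℝ) - ∑ z ∈ MM α β, (1 : ℝ) * (1 - p z)|
    rw [h3, h4, h1']
    push Not at h
    rcases lt_abs.1 h with h5 | h5
    · exact le_abs.2 (Or.inl (by linarith))
    · exact le_abs.2 (Or.inr (by linarith))
  · -- the sum
    refine le_trans ?_ (hCHW p hp (MM α β) (fun z => ((z : ℝ) - α) / ((β : ℝ) - α)) t ?_ ht ht')
    · refine FLB_Pb_mono hp _ _ _ fun T hT hP => ?_
      obtain ⟨h1, h1b⟩ := hP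
      have h1' : (T.card : ℝ) = (r : ℝ) - len S q + i := by exact_mod_cast h1
      have h1c : (((∑ z ∈ T, z : ℕ) : ℤ) : ℝ) = (((n'' : ℤ) - sm S q : ℤ) : ℝ) := by rw [h1b]
      have h1d : ∑ z ∈ T, (z : ℝ) = (n'' : ℝ) - sm S q := by
        push_cast at h1c
        exact h1c
      have h2 : ∑ z ∈ T, ((z : ℝ) - α) = (n'' : ℝ) - sm S q - α * ((r : ℝ) - len S q + i) := by
        rw [Finset.sum_sub_distrib, h1d, Finset.sum_const, nsmul_eq_mul, h1']
        ring
      have h3 : ∑ z ∈ seg S q, ((z : ℝ) - α) = (sm S q : ℝ) - α * len S q := by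
        rw [Finset.sum_sub_distrib, Finset.sum_const, nsmul_eq_mul]
        unfold sm len
        push_cast
        ring
      have h4 : ∑ z ∈ MM α β \ T, ((z : ℝ) - α) = ∑ z ∈ MM α β, ((z : ℝ) - α) -
          ∑ z ∈ T, ((z : ℝ) - α) := by
        rw [← Finset.sum_sdiff hT]
        ring
      show t ≤ |∑ z ∈ MM α β \ T, ((z : ℝ) - α) / ((β : ℝ) - α) -
        ∑ z ∈ MM α β, ((z : ℝ) - α) / ((β : ℝ) - α) * (1 - p z)|
      have h5 : ∑ z ∈ MM α β \ T, ((z : ℝ) - α) / ((β : ℝ) - α) -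
          ∑ z ∈ MM α β, ((z : ℝ) - α) / ((β : ℝ) - α) * (1 - p z) =
          (∑ z ∈ MM α β \ T, ((z : ℝ) - α) - ∑ z ∈ MM α β, ((z : ℝ) - α) * (1 - p z)) /
            ((β : ℝ) - α) := by
        rw [sub_div, Finset.sum_div, Finset.sum_div]
        congr 1
        refine Finset.sum_congr rfl fun z _ => ?_
        ring
      rw [h5, abs_div, abs_of_pos hY, le_div_iff₀ hY, h4, h2]
      push Not at h
      rw [h3] at h
      have h6 : (α : ℝ) * i ≤ α * J := mul_le_mul_of_nonneg_left hiJ hα0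
      have h7 : (0 : ℝ) ≤ α * i := mul_nonneg hα0 hi0
      obtain ⟨h8, h9⟩ := abs_le.1 hn
      rcases lt_abs.1 h with h5 | h5
      · exact le_abs.2 (Or.inl (by nlinarith))
      · exact le_abs.2 (Or.inr (by nlinarith))
    · intro z hz
      obtain ⟨h1, h2⟩ := Finset.mem_Ioo.1 (Finset.mem_filter.1 hz).1
      have h1' : (α : ℝ) < z := by exact_mod_cast h1
      have h2' : (z : ℝ) < β := by exact_mod_cast h2
      constructor
      · exact div_nonneg (by linarith) hY.le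
      · rw [div_le_one hY]
        linarith

theorem p_FLB (hFLA : Stmt_FLA) (hCHW : Stmt_CHW) (hRCT : Stmt_RCT) : Stmt_FLB := by
  intro p hp A B α β J Λ s ω t L hA hB hαβ hΛ1 hΛα hcard h64 hs h64s h256 hω hωp ht ht' hL r n n' hn
  rw [FLB_sum p A B α β J r n hA hB, FLB_sum p A B α β J r n' hA hB, ← Ex_sub]
  refine (abs_Ex_le hp _ _).trans (Ex_le_const hp fun S hS => ?_)
  have hY : (0 : ℝ) < (β : ℝ) - α := by
    have : (α : ℝ) < β := by exact_mod_cast hαβ
    linarith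
  rw [← Finset.sum_sub_distrib]
  refine (Finset.abs_sum_le_sum_abs _ _).trans ?_
  set Xb : ℝ := 2 * J * Real.exp (-(2 * ω * s ^ 2 * (MM α β).card)) +
        40000 * Λ ^ 5 * s ^ 2 / ((β : ℝ) - α) *
          (101 * J * L * s * Λ / ((β : ℝ) - α) + 4 * Λ) with hXb
  set Eb : ℝ := Real.exp (-(t ^ 2 / (4 * ∑ z ∈ MM α β, (1 - p z)))) with hEb
  have hXb0 : 0 ≤ Xb := by
    rw [hXb]
    have h1 : 0 ≤ 101 * J * L * s * Λ / ((β : ℝ) - α) + 4 * Λ := by
      have : 0 ≤ 101 * J * L * s * Λ / ((β : ℝ) - α) := by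
        apply div_nonneg _ hY.le
        have : (0 : ℝ) ≤ J := Nat.cast_nonneg J
        positivity
      linarith
    have h2 : 0 ≤ 40000 * Λ ^ 5 * s ^ 2 / ((β : ℝ) - α) := by
      apply div_nonneg _ hY.le
      positivity
    have h3 : 0 ≤ 2 * J * Real.exp (-(2 * ω * s ^ 2 * (MM α β).card)) := by positivity
    have h4 := mul_nonneg h2 h1
    linarith
  have hEb0 : 0 ≤ Eb := (Real.exp_pos _).le
  set rel : ℕ × ℕ → Prop := fun q =>
    |(len S q : ℝ) - ((r : ℝ) + ∑ z ∈ MM α β, (1 - p z) - (MM α β).card)| ≤ t + J ∧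
      |(∑ z ∈ seg S q, ((z : ℝ) - α)) - ((n : ℝ) - α * r +
        ∑ z ∈ MM α β, ((z : ℝ) - α) * (1 - p z) - ∑ z ∈ MM α β, ((z : ℝ) - α))| ≤
        t * ((β : ℝ) - α) + α * J + L with hrel
  rw [← Finset.sum_filter_add_sum_filter_not (FLB_Q S α β) rel]
  refine add_le_add ?_ ?_
  · -- relevant
    have hb : ∀ q ∈ (FLB_Q S α β).filter rel,
        |Bk p (MM α β) J ((r : ℤ) - len S q) ((n : ℤ) - sm S q) -
          Bk p (MM α β) J ((r : ℤ) - len S q) ((n' : ℤ) - sm S q)| ≤ Xb := by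
      intro q _
      have hYc : ((β - α : ℕ) : ℝ) = (β : ℝ) - α := by
        rw [Nat.cast_sub hαβ.le]
      have h1 := hFLA p hp (MM α β) α (β - α) J Λ s ω L (by
        intro z hz
        obtain ⟨h1, h2⟩ := Finset.mem_Ioo.1 (Finset.mem_filter.1 hz).1
        exact ⟨(Finset.mem_filter.1 hz).2, h1, by omega⟩) hΛ1 hΛα (by rw [hYc]; exact hcard)
        (by rw [hYc]; exact h64) hs h64s (by
          rw [hYc]
          have : (α : ℝ) + ((β : ℝ) - α) = β := by ring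
          rw [this]
          exact h256) hω hωp ((r : ℤ) - len S q) ((n : ℤ) - sm S q) ((n' : ℤ) - sm S q) (by
          have : ((((n : ℤ) - sm S q) - ((n' : ℤ) - sm S q) : ℤ) : ℝ) = (n : ℝ) - n' := by
            push_cast
            ring
          rw [this]
          exact hn)
      rw [hYc] at h1
      exact h1
    refine (Finset.sum_le_card_nsmul _ _ _ hb).trans ?_
    rw [nsmul_eq_mul]
    refine mul_le_mul_of_nonneg_right ?_ hXb0
    have hJ0 : (0 : ℝ) ≤ J := Nat.cast_nonneg J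
    have h1 := hRCT S α β ((r : ℝ) + ∑ z ∈ MM α β, (1 - p z) - (MM α β).card)
      ((n : ℝ) - α * r + ∑ z ∈ MM α β, ((z : ℝ) - α) * (1 - p z) - ∑ z ∈ MM α β, ((z : ℝ) - α))
      (t + J) (t * ((β : ℝ) - α) + α * J + L) hαβ (by positivity) (by
        have : 0 ≤ t * ((β : ℝ) - α) := mul_nonneg ht hY.le
        positivity)
    refine le_trans (le_of_eq ?_) h1
    congr 2
    unfold FLB_Q
    rw [Finset.filter_filter]
    refine Finset.filter_congr fun q _ => ?_
    rw [hrel]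
    constructor
    · rintro ⟨⟨a, b⟩, c, d⟩
      exact ⟨a, b, c, d⟩
    · rintro ⟨a, b, c, d⟩
      exact ⟨⟨a, b⟩, c, d⟩
  · -- not relevant
    have hb : ∀ q ∈ (FLB_Q S α β).filter (fun q => ¬ rel q),
        |Bk p (MM α β) J ((r : ℤ) - len S q) ((n : ℤ) - sm S q) -
          Bk p (MM α β) J ((r : ℤ) - len S q) ((n' : ℤ) - sm S q)| ≤ 8 * J * Eb := by
      intro q hq
      have hq2 := (Finset.mem_filter.1 hq).2
      have h1 : ∀ n'' : ℕ, |(n : ℝ) - n''| ≤ L →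
          Bk p (MM α β) J ((r : ℤ) - len S q) ((n'' : ℤ) - sm S q) ≤ J * (2 * Eb) ∧
          0 ≤ Bk p (MM α β) J ((r : ℤ) - len S q) ((n'' : ℤ) - sm S q) := by
        intro n'' hn''
        unfold Bk
        constructor
        · have h2 : ∀ i ∈ Finset.range J,
              Pc p (MM α β) (((r : ℤ) - len S q) + i) ((n'' : ℤ) - sm S q) ≤ 2 * Eb := by
            intro i hi
            exact FLB_irr hCHW hp α β J t L hαβ ht ht' r n n'' i (Finset.mem_range.1 hi) hn'' S q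
              hq2
          refine (Finset.sum_le_card_nsmul _ _ _ h2).trans (le_of_eq ?_)
          rw [nsmul_eq_mul, Finset.card_range]
        · exact Finset.sum_nonneg fun i _ => FLB_Pc_nonneg hp _ _ _
      obtain ⟨a1, a2⟩ := h1 n (by simpa using hL)
      obtain ⟨b1, b2⟩ := h1 n' hn
      have hJ0 : (0 : ℝ) ≤ J * Eb := mul_nonneg (Nat.cast_nonneg J) hEb0
      rw [abs_le]
      constructor
      · nlinarith
      · nlinarith
    refine (Finset.sum_le_card_nsmul _ _ _ hb).trans ?_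
    rw [nsmul_eq_mul]
    have hc : (((FLB_Q S α β).filter (fun q => ¬ rel q)).card : ℝ) ≤ ((B : ℝ) + 1) ^ 2 := by
      have h1 : (FLB_Q S α β).filter (fun q => ¬ rel q) ⊆
          Finset.range (B + 1) ×ˢ Finset.range (B + 1) := by
        intro q hq
        have h2 := (Finset.mem_filter.1 hq).1
        unfold FLB_Q runs at h2
        have h3 := (Finset.mem_filter.1 (Finset.mem_filter.1 h2).1).1
        obtain ⟨h4, h5⟩ := Finset.mem_product.1 h3
        have h6 := (Finset.mem_Icc.1 (Finset.mem_sdiff.1 (hS h4)).1).2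
        have h7 := (Finset.mem_Icc.1 (Finset.mem_sdiff.1 (hS h5)).1).2
        exact Finset.mem_product.2 ⟨Finset.mem_range.2 (by omega), Finset.mem_range.2 (by omega)⟩
      have h2 := Finset.card_le_card h1
      rw [Finset.card_product, Finset.card_range] at h2
      have h3 : (((FLB_Q S α β).filter (fun q => ¬ rel q)).card : ℝ) ≤
          (((B + 1) * (B + 1) : ℕ) : ℝ) := by exact_mod_cast h2
      refine h3.trans (le_of_eq ?_)
      push_cast
      ring
    have h8 : 0 ≤ 8 * J * Eb := by positivity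
    calc _ ≤ ((B : ℝ) + 1) ^ 2 * (8 * J * Eb) := mul_le_mul_of_nonneg_right hc h8
      _ = 8 * J * ((B : ℝ) + 1) ^ 2 * Eb := by ring

end Pool.Agent.Work.MP_7d0410_dl
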