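import Pool.Agent.Work.MP_7d0410_dl.Interface

/-!
# Block FLN: numerics for FLB (helper53)
-/

set_option autoImplicit false

namespace Pool.Agent.Work.MP_7d0410_dl

open Finset Filter MeasureTheory ProbabilityTheory
open Pool.Agent.Work.MP_7d0410_cr (seg sm len runs rr good gr cnt DD meet AB PP CountReg NN a0 UU SS
  AA repCount)
open Pool.Agent.Work.MP_7d0410_sp (Prob wt Ex Pb hh gg HH T1 T2 A1 A2 VV G1 R1 LL pin F0 XX)
open scoped Classical Topology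

/-- the basic sizes -/
private lemma X_FLN_W (u v c3 N r wl : ℝ) (hu : 1 ≤ u) (hv : 1 ≤ v)
    (hc3 : 0 < c3) (hr : v ^ 4 ≤ u ^ 18 * r) (hN : c3 * r ≤ N) (hwl : u ^ 92 ≤ v ^ 2 * wl) :
    c3 * u ^ 74 * v ^ 2 ≤ wl * N := by
  have hu0 : 0 < u := by linarith
  have hv0 : 0 < v := by linarith
  have h1 : u ^ 92 * (c3 * v ^ 4) ≤ (v ^ 2 * wl) * (u ^ 18 * N) := by
    refine mul_le_mul hwl ?_ (by positivity) ?_
    · calc c3 * v ^ 4 ≤ c3 * (u ^ 18 * r) := mul_le_mul_of_nonneg_left hr hc3.le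
        _ = u ^ 18 * (c3 * r) := by ring
        _ ≤ u ^ 18 * N := mul_le_mul_of_nonneg_left hN (by positivity)
    · exact le_trans (by positivity) hwl
  have h2 : (v ^ 2 * u ^ 18) * (c3 * u ^ 74 * v ^ 2) ≤ (v ^ 2 * u ^ 18) * (wl * N) := by
    calc (v ^ 2 * u ^ 18) * (c3 * u ^ 74 * v ^ 2) = u ^ 92 * (c3 * v ^ 4) := by ring
      _ ≤ (v ^ 2 * wl) * (u ^ 18 * N) := h1
      _ = (v ^ 2 * u ^ 18) * (wl * N) := by ring
  exact le_of_mul_le_mul_left h2 (by positivity)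

private lemma X_FLN_sq {a b : ℝ} (hb : 0 ≤ b) (h : a ^ 2 ≤ b ^ 2) : a ≤ b :=
  le_trans (le_abs_self a) (abs_le_of_sq_le_sq h hb)

/-- the upper bound for `s` -/
private lemma X_FLN_s (u v δ c3 D W s : ℝ) (hu : 1 ≤ u) (hv : 1 ≤ v) (hδ : 0 < δ)
    (hc3 : 0 < c3) (hD : 0 < D) (hD2 : D ^ 2 * (δ * c3) = 1) (hW : c3 * u ^ 74 * v ^ 2 ≤ W)
    (hs : s ^ 2 * (δ * W) = u ^ 2) : s * (u ^ 36 * v) ≤ D := by
  have hu0 : 0 < u := by linarith
  have hv0 : 0 < v := by linarith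
  refine X_FLN_sq hD.le ?_
  have h1 : s ^ 2 * (δ * (c3 * u ^ 74 * v ^ 2)) ≤ u ^ 2 := by
    rw [← hs]
    exact mul_le_mul_of_nonneg_left (mul_le_mul_of_nonneg_left hW hδ.le) (sq_nonneg s)
  have h2 : (u ^ 2 * (δ * c3)) * (s * (u ^ 36 * v)) ^ 2 ≤ (u ^ 2 * (δ * c3)) * D ^ 2 := by
    calc (u ^ 2 * (δ * c3)) * (s * (u ^ 36 * v)) ^ 2
        = s ^ 2 * (δ * (c3 * u ^ 74 * v ^ 2)) := by ring
      _ ≤ u ^ 2 := h1
      _ = (u ^ 2 * (δ * c3)) * D ^ 2 := by linear_combination (-(u ^ 2)) * hD2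
  exact le_of_mul_le_mul_left h2 (by positivity)

private lemma X_FLN_cond (u v δ c3 D Λ N Y r β μ W s t : ℝ) (hu : 1 ≤ u) (hv : 1 ≤ v)
    (huv : u ^ 50 ≤ v) (hδ : 0 < δ) (hc3 : 0 < c3) (hD : 0 < D) (hD2 : D ^ 2 * (δ * c3) = 1)
    (hr : v ^ 4 ≤ u ^ 18 * r) (hN : c3 * r ≤ N) (hNY : N ≤ Y)
    (hβ : β ≤ v ^ 4 * u ^ 16) (hW : c3 * u ^ 74 * v ^ 2 ≤ W) (hμ : W ≤ μ) (hs0 : 0 < s)
    (hs : s ^ 2 * (δ * W) = u ^ 2) (ht : t ^ 2 = u ^ 4 * μ)
    (F1 : 256 * Λ ^ 2 * D ≤ c3 * v) (F2 : 64 * Λ ^ 2 * D ≤ v) (F3 : 64 * Λ ^ 2 ≤ c3 * v)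
    (F4 : 4 ≤ c3 * v) :
    64 * Λ ^ 2 ≤ Y ∧ 64 * Λ ^ 2 * s ≤ 1 ∧ 256 * Λ ^ 2 * s * β ≤ Y ∧ t ≤ 2 * μ := by
  have hu0 : 0 < u := by linarith
  have hv0 : 0 < v := by linarith
  have hsD := X_FLN_s u v δ c3 D W s hu hv hδ hc3 hD hD2 hW hs
  have hu18 : u ^ 18 ≤ v := (pow_le_pow_right₀ hu (by norm_num)).trans huv
  have hcr : c3 * v ≤ Y := by
    refine le_trans ?_ (hN.trans hNY)
    have h1 : u ^ 18 * (c3 * v) ≤ u ^ 18 * (c3 * r) := by
      calc u ^ 18 * (c3 * v) ≤ v * (c3 * v) := mul_le_mul_of_nonneg_right hu18 (by positivity)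
        _ = c3 * v ^ 2 := by ring
        _ ≤ c3 * v ^ 4 := mul_le_mul_of_nonneg_left (pow_le_pow_right₀ hv (by norm_num)) hc3.le
        _ ≤ c3 * (u ^ 18 * r) := mul_le_mul_of_nonneg_left hr hc3.le
        _ = u ^ 18 * (c3 * r) := by ring
    exact le_of_mul_le_mul_left h1 (by positivity)
  refine ⟨F3.trans hcr, ?_, ?_, ?_⟩
  · have h1 : s * v ≤ D := by
      refine le_trans ?_ hsD
      refine mul_le_mul_of_nonneg_left ?_ hs0.le
      calc v = 1 * v := by ring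
        _ ≤ u ^ 36 * v := mul_le_mul_of_nonneg_right (one_le_pow₀ hu) hv0.le
    have h2 : v * (64 * Λ ^ 2 * s) ≤ v * 1 := by
      calc v * (64 * Λ ^ 2 * s) = 64 * Λ ^ 2 * (s * v) := by ring
        _ ≤ 64 * Λ ^ 2 * D := mul_le_mul_of_nonneg_left h1 (by positivity)
        _ ≤ v * 1 := by rw [mul_one]; exact F2
    exact le_of_mul_le_mul_left h2 hv0
  · refine le_trans ?_ (hN.trans hNY)
    have h1 : 256 * Λ ^ 2 * s * β ≤ 256 * Λ ^ 2 * s * (v ^ 4 * u ^ 16) :=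
      mul_le_mul_of_nonneg_left hβ (by positivity)
    refine h1.trans ?_
    have hr0 : 0 ≤ c3 * r := by
      have h3 : 0 ≤ u ^ 18 * r := le_trans (by positivity) hr
      have h4 : 0 ≤ r := nonneg_of_mul_nonneg_right h3 (by positivity)
      positivity
    have h2 : u ^ 20 * (256 * Λ ^ 2 * s * (v ^ 4 * u ^ 16)) ≤ u ^ 20 * (c3 * r) := by
      calc u ^ 20 * (256 * Λ ^ 2 * s * (v ^ 4 * u ^ 16))
          = 256 * Λ ^ 2 * (s * (u ^ 36 * v)) * v ^ 3 := by ring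
        _ ≤ 256 * Λ ^ 2 * D * v ^ 3 := by
            refine mul_le_mul_of_nonneg_right ?_ (by positivity)
            exact mul_le_mul_of_nonneg_left hsD (by positivity)
        _ ≤ (c3 * v) * v ^ 3 := mul_le_mul_of_nonneg_right F1 (by positivity)
        _ = c3 * v ^ 4 := by ring
        _ ≤ c3 * (u ^ 18 * r) := mul_le_mul_of_nonneg_left hr hc3.le
        _ = u ^ 18 * (c3 * r) := by ring
        _ ≤ u ^ 20 * (c3 * r) := mul_le_mul_of_nonneg_right
            (pow_le_pow_right₀ hu (by norm_num)) hr0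
    exact le_of_mul_le_mul_left h2 (by positivity)
  · have hW4 : u ^ 4 ≤ μ := by
      refine le_trans ?_ (hW.trans hμ)
      have h1 : 1 ≤ c3 * v := by linarith
      calc u ^ 4 ≤ u ^ 74 := pow_le_pow_right₀ hu (by norm_num)
        _ = 1 * u ^ 74 * 1 := by ring
        _ ≤ (c3 * v) * u ^ 74 * v := by
            refine mul_le_mul (mul_le_mul_of_nonneg_right h1 (by positivity)) hv zero_le_one
              (by positivity)
        _ = c3 * u ^ 74 * v ^ 2 := by ring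
    have hμ0 : 0 ≤ μ := le_trans (by positivity) hW4
    refine X_FLN_sq (by linarith) ?_
    rw [ht]
    nlinarith

private lemma X_FLN_main (u v δ c3 D Λ N Y r α B J L μ W s t : ℝ) (hu : 1 ≤ u) (hv : 1 ≤ v)
    (huv : u ^ 50 ≤ v) (hδ : 0 < δ) (hc3 : 0 < c3) (hD : 0 < D) (hD2 : D ^ 2 * (δ * c3) = 1)
    (hΛ : 1 ≤ Λ) (hr : v ^ 4 ≤ u ^ 18 * r) (hN : c3 * r ≤ N) (hNY : N ≤ Y)
    (hα0 : 0 ≤ α) (hα : α ≤ v ^ 4 * u ^ 16) (hYB : Y ≤ B) (hB : B ≤ v ^ 4 * u ^ 16)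
    (hJ1 : u ^ 16 ≤ J) (hJ2 : J ≤ 2 * u ^ 16) (hL0 : 0 ≤ L) (hL : L ≤ 2 * u ^ 4 * r)
    (hW : c3 * u ^ 74 * v ^ 2 ≤ W) (hμ : W ≤ μ) (hμ2 : μ ≤ u ^ 4 * W) (hμ3 : μ ≤ N)
    (hs0 : 0 < s) (hs : s ^ 2 * (δ * W) = u ^ 2) (ht0 : 0 ≤ t) (ht : t ^ 2 = u ^ 4 * μ)
    (F4 : 4 ≤ c3 * v) (F5 : 4 ≤ c3 ^ 3 * v) (F6 : 2 * D ≤ c3 * v)
    (F8 : 588000000 * Λ ^ 6 ≤ δ * c3 * u ^ 4)
    (F9 : 280 * (v ^ 8) ^ 4 * Real.exp (-(u ^ 2 / 4)) ≤ c3) :
    (2 * (t + J) + 1) * (2 * (t * Y + α * J + L) / Y + 1) *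
      (2 * J * Real.exp (-(2 * u ^ 2)) +
        40000 * Λ ^ 5 * s ^ 2 / Y * (101 * J * L * s * Λ / Y + 4 * Λ)) +
      8 * J * (B + 1) ^ 2 * Real.exp (-(u ^ 4 / 4)) ≤ J * (1 / u ^ 2) / r := by
  have hu0 : 0 < u := by linarith
  have hv0 : 0 < v := by linarith
  have hsD := X_FLN_s u v δ c3 D W s hu hv hδ hc3 hD hD2 hW hs
  have hr0 : 0 < r := by
    have h3 : 0 < u ^ 18 * r := lt_of_lt_of_le (by positivity) hr
    exact pos_of_mul_pos_right h3 (by positivity)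
  have hN0 : 0 < N := lt_of_lt_of_le (by positivity) hN
  have hY0 : 0 < Y := by linarith
  have hJ0 : 0 < J := lt_of_lt_of_le (by positivity) hJ1
  have hW0 : 0 < W := lt_of_lt_of_le (by positivity) hW
  have hμ0 : 0 < μ := by linarith
  have hcY : c3 * r ≤ Y := hN.trans hNY
  have hv2 : v ≤ v ^ 2 := by nlinarith
  -- lower bounds for `t`
  have ht2 : c3 * u ^ 78 * v ^ 2 ≤ t ^ 2 := by
    rw [ht]
    calc c3 * u ^ 78 * v ^ 2 = u ^ 4 * (c3 * u ^ 74 * v ^ 2) := by ring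
      _ ≤ u ^ 4 * μ := mul_le_mul_of_nonneg_left (hW.trans hμ) (by positivity)
  have htJ : 2 * u ^ 16 ≤ t := by
    refine X_FLN_sq ht0 (le_trans ?_ ht2)
    calc (2 * u ^ 16) ^ 2 = 4 * u ^ 32 * 1 := by ring
      _ ≤ (c3 * v) * u ^ 78 * v := by
          refine mul_le_mul ?_ hv zero_le_one (by positivity)
          exact mul_le_mul F4 (pow_le_pow_right₀ hu (by norm_num)) (by positivity) (by positivity)
      _ = c3 * u ^ 78 * v ^ 2 := by ring
  have ht50 : 2 * u ^ 50 ≤ c3 * t := by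
    refine X_FLN_sq (by positivity) ?_
    calc (2 * u ^ 50) ^ 2 = u ^ 78 * (4 * u ^ 22) := by ring
      _ ≤ u ^ 78 * ((c3 ^ 3 * v) * v) := by
          refine mul_le_mul_of_nonneg_left ?_ (by positivity)
          exact mul_le_mul F5 ((pow_le_pow_right₀ hu (by norm_num)).trans huv) (by positivity)
            (by positivity)
      _ = c3 ^ 2 * (c3 * u ^ 78 * v ^ 2) := by ring
      _ ≤ c3 ^ 2 * t ^ 2 := mul_le_mul_of_nonneg_left ht2 (by positivity)
      _ = (c3 * t) ^ 2 := by ring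
  have h1t : 1 ≤ t := by
    have := one_le_pow₀ hu (n := 16)
    linarith
  have ht0' : 0 < t := by linarith
  have hrt : 2 * u ^ 50 * r ≤ t * Y := by
    calc 2 * u ^ 50 * r ≤ c3 * t * r := mul_le_mul_of_nonneg_right ht50 hr0.le
      _ = t * (c3 * r) := by ring
      _ ≤ t * Y := mul_le_mul_of_nonneg_left hcY ht0
  have hαJ : α * J ≤ t * Y := by
    calc α * J ≤ (v ^ 4 * u ^ 16) * (2 * u ^ 16) :=
          mul_le_mul hα hJ2 hJ0.le (by positivity)
      _ = 2 * u ^ 32 * v ^ 4 := by ring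
      _ ≤ 2 * u ^ 32 * (u ^ 18 * r) := mul_le_mul_of_nonneg_left hr (by positivity)
      _ = 2 * u ^ 50 * r := by ring
      _ ≤ t * Y := hrt
  have hLY : L ≤ t * Y := by
    calc L ≤ 2 * u ^ 4 * r := hL
      _ ≤ 2 * u ^ 50 * r := by
          refine mul_le_mul_of_nonneg_right ?_ hr0.le
          exact mul_le_mul_of_nonneg_left (pow_le_pow_right₀ hu (by norm_num)) (by norm_num)
      _ ≤ t * Y := hrt
  have hP1 : 2 * (t + J) + 1 ≤ 5 * t := by linarith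
  have hP2 : 2 * (t * Y + α * J + L) / Y + 1 ≤ 7 * t := by
    have h1 : 2 * (t * Y + α * J + L) / Y ≤ 6 * t := by
      rw [div_le_iff₀ hY0]
      nlinarith
    linarith
  have hPP : (2 * (t + J) + 1) * (2 * (t * Y + α * J + L) / Y + 1) ≤ 35 * t ^ 2 := by
    calc (2 * (t + J) + 1) * (2 * (t * Y + α * J + L) / Y + 1) ≤ (5 * t) * (7 * t) := by
          refine mul_le_mul hP1 hP2 ?_ (by positivity)
          positivity
      _ = 35 * t ^ 2 := by ring
  -- the second factor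
  have hLs : L * s * u ^ 16 ≤ Y := by
    have h1 : (u ^ 16 * v) * (L * s * u ^ 16) ≤ (u ^ 16 * v) * Y := by
      calc (u ^ 16 * v) * (L * s * u ^ 16) = (u ^ 32 * v * s) * L := by ring
        _ ≤ (u ^ 32 * v * s) * (2 * u ^ 4 * r) := mul_le_mul_of_nonneg_left hL (by positivity)
        _ = 2 * r * (s * (u ^ 36 * v)) := by ring
        _ ≤ 2 * r * D := mul_le_mul_of_nonneg_left hsD (by positivity)
        _ = r * (2 * D) := by ring
        _ ≤ r * (c3 * v) := mul_le_mul_of_nonneg_left F6 hr0.le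
        _ = v * (c3 * r) := by ring
        _ ≤ v * Y := mul_le_mul_of_nonneg_left hcY hv0.le
        _ = 1 * (v * Y) := by ring
        _ ≤ u ^ 16 * (v * Y) := mul_le_mul_of_nonneg_right (one_le_pow₀ hu) (by positivity)
        _ = (u ^ 16 * v) * Y := by ring
    exact le_of_mul_le_mul_left h1 (by positivity)
  have hE3 : 101 * J * L * s * Λ / Y + 4 * Λ ≤ 105 * Λ * J / u ^ 16 := by
    have h1 : 101 * J * L * s * Λ / Y ≤ 101 * Λ * J / u ^ 16 := by
      rw [div_le_div_iff₀ hY0 (by positivity)]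
      calc 101 * J * L * s * Λ * u ^ 16 = (101 * Λ * J) * (L * s * u ^ 16) := by ring
        _ ≤ (101 * Λ * J) * Y := mul_le_mul_of_nonneg_left hLs (by positivity)
    have h2 : 4 * Λ ≤ 4 * Λ * J / u ^ 16 := by
      rw [le_div_iff₀ (by positivity)]
      exact mul_le_mul_of_nonneg_left hJ1 (by positivity)
    calc 101 * J * L * s * Λ / Y + 4 * Λ ≤ 101 * Λ * J / u ^ 16 + 4 * Λ * J / u ^ 16 :=
          add_le_add h1 h2
      _ = 105 * Λ * J / u ^ 16 := by ring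
  have hts : t ^ 2 * s ^ 2 ≤ u ^ 10 / δ := by
    rw [le_div_iff₀ hδ]
    calc t ^ 2 * s ^ 2 * δ = u ^ 4 * μ * (s ^ 2 * δ) := by rw [ht]; ring
      _ ≤ u ^ 4 * (u ^ 4 * W) * (s ^ 2 * δ) := by
          refine mul_le_mul_of_nonneg_right ?_ (by positivity)
          exact mul_le_mul_of_nonneg_left hμ2 (by positivity)
      _ = u ^ 8 * (s ^ 2 * (δ * W)) := by ring
      _ = u ^ 10 := by rw [hs]; ring
  have hM : 35 * t ^ 2 * (40000 * Λ ^ 5 * s ^ 2 / Y * (101 * J * L * s * Λ / Y + 4 * Λ)) ≤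
      J * (1 / u ^ 2) / r / 4 := by
    calc 35 * t ^ 2 * (40000 * Λ ^ 5 * s ^ 2 / Y * (101 * J * L * s * Λ / Y + 4 * Λ))
        ≤ 35 * t ^ 2 * (40000 * Λ ^ 5 * s ^ 2 / Y * (105 * Λ * J / u ^ 16)) := by
          refine mul_le_mul_of_nonneg_left ?_ (by positivity)
          exact mul_le_mul_of_nonneg_left hE3 (by positivity)
      _ = (147000000 * Λ ^ 6 * J / (Y * u ^ 16)) * (t ^ 2 * s ^ 2) := by
          field_simp
          ring
      _ ≤ (147000000 * Λ ^ 6 * J / (Y * u ^ 16)) * (u ^ 10 / δ) :=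
          mul_le_mul_of_nonneg_left hts (by positivity)
      _ = (147000000 * Λ ^ 6 * J) / (Y * u ^ 6 * δ) := by
          field_simp
      _ ≤ J / (4 * u ^ 2 * r) := by
          rw [div_le_div_iff₀ (by positivity) (by positivity)]
          calc 147000000 * Λ ^ 6 * J * (4 * u ^ 2 * r)
              = (588000000 * Λ ^ 6) * (J * u ^ 2 * r) := by ring
            _ ≤ (δ * c3 * u ^ 4) * (J * u ^ 2 * r) :=
                mul_le_mul_of_nonneg_right F8 (by positivity)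
            _ = (J * u ^ 6 * δ) * (c3 * r) := by ring
            _ ≤ (J * u ^ 6 * δ) * Y := mul_le_mul_of_nonneg_left hcY (by positivity)
            _ = J * (Y * u ^ 6 * δ) := by ring
      _ = J * (1 / u ^ 2) / r / 4 := by
          field_simp
  -- the exponential terms
  obtain ⟨E, hE⟩ : ∃ E : ℝ, E = Real.exp (-(u ^ 2 / 4)) := ⟨_, rfl⟩
  rw [← hE] at F9
  have hE0 : 0 < E := by rw [hE]; exact Real.exp_pos _
  have hu16 : u ^ 16 ≤ v := (pow_le_pow_right₀ hu (by norm_num)).trans huv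
  have hBX : B ≤ v ^ 8 := by
    refine hB.trans ?_
    calc v ^ 4 * u ^ 16 ≤ v ^ 4 * v := mul_le_mul_of_nonneg_left hu16 (by positivity)
      _ = v ^ 5 := by ring
      _ ≤ v ^ 8 := pow_le_pow_right₀ hv (by norm_num)
  have hX1 : 1 ≤ v ^ 8 := one_le_pow₀ hv
  have hNX : N ≤ v ^ 8 := by linarith
  have hrX : c3 * r ≤ v ^ 8 := by linarith
  have huX : u ^ 6 ≤ v ^ 8 := by
    calc u ^ 6 ≤ u ^ 50 := pow_le_pow_right₀ hu (by norm_num)
      _ ≤ v := huv
      _ = v ^ 1 := by ring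
      _ ≤ v ^ 8 := pow_le_pow_right₀ hv (by norm_num)
  have hexp1 : Real.exp (-(2 * u ^ 2)) ≤ E := by
    rw [hE]
    apply Real.exp_le_exp.2
    nlinarith [sq_nonneg u]
  have hexp2 : Real.exp (-(u ^ 4 / 4)) ≤ E := by
    rw [hE]
    apply Real.exp_le_exp.2
    have h1 : u ^ 2 ≤ u ^ 4 := pow_le_pow_right₀ hu (by norm_num)
    linarith
  obtain ⟨X, hX⟩ : ∃ X : ℝ, X = v ^ 8 := ⟨_, rfl⟩
  rw [← hX] at F9 hBX hX1 hNX hrX huX
  have hX0 : 0 < X := by linarith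
  have hM1 : 35 * t ^ 2 * (2 * J * Real.exp (-(2 * u ^ 2))) ≤ J * (1 / u ^ 2) / r / 4 := by
    calc 35 * t ^ 2 * (2 * J * Real.exp (-(2 * u ^ 2)))
        ≤ 35 * t ^ 2 * (2 * J * E) := by
          refine mul_le_mul_of_nonneg_left ?_ (by positivity)
          exact mul_le_mul_of_nonneg_left hexp1 (by positivity)
      _ = 70 * (u ^ 4 * μ) * J * E := by rw [ht]; ring
      _ ≤ 70 * (u ^ 4 * X) * J * E := by
          refine mul_le_mul_of_nonneg_right ?_ hE0.le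
          refine mul_le_mul_of_nonneg_right ?_ hJ0.le
          refine mul_le_mul_of_nonneg_left ?_ (by norm_num)
          exact mul_le_mul_of_nonneg_left (by linarith) (by positivity)
      _ ≤ J / (4 * u ^ 2 * r) := by
          rw [le_div_iff₀ (by positivity)]
          calc 70 * (u ^ 4 * X) * J * E * (4 * u ^ 2 * r)
              = (280 * (u ^ 6 * X * r) * E) * J := by ring
            _ ≤ 1 * J := by
                refine mul_le_mul_of_nonneg_right ?_ hJ0.le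
                have h1 : c3 * (280 * (u ^ 6 * X * r) * E) ≤ c3 * 1 := by
                  calc c3 * (280 * (u ^ 6 * X * r) * E)
                      = 280 * (u ^ 6 * X * (c3 * r)) * E := by ring
                    _ ≤ 280 * (X * X * X) * E := by
                        refine mul_le_mul_of_nonneg_right ?_ hE0.le
                        refine mul_le_mul_of_nonneg_left ?_ (by norm_num)
                        exact mul_le_mul (mul_le_mul_of_nonneg_right huX hX0.le) hrX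
                          (by positivity) (by positivity)
                    _ = 280 * X ^ 3 * E := by ring
                    _ ≤ 280 * X ^ 4 * E := by
                        refine mul_le_mul_of_nonneg_right ?_ hE0.le
                        refine mul_le_mul_of_nonneg_left ?_ (by norm_num)
                        exact pow_le_pow_right₀ hX1 (by norm_num)
                    _ ≤ c3 * 1 := by rw [mul_one]; exact F9
                exact le_of_mul_le_mul_left h1 hc3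
            _ = J := one_mul J
      _ = J * (1 / u ^ 2) / r / 4 := by
          field_simp
  have hM2 : 8 * J * (B + 1) ^ 2 * Real.exp (-(u ^ 4 / 4)) ≤ J * (1 / u ^ 2) / r / 4 := by
    have hB0 : 0 ≤ B := by linarith
    calc 8 * J * (B + 1) ^ 2 * Real.exp (-(u ^ 4 / 4))
        ≤ 8 * J * (2 * X) ^ 2 * E := by
          refine mul_le_mul ?_ hexp2 (Real.exp_pos _).le (by positivity)
          refine mul_le_mul_of_nonneg_left ?_ (by positivity)
          exact pow_le_pow_left₀ (by linarith) (by linarith) 2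
      _ ≤ J / (4 * u ^ 2 * r) := by
          rw [le_div_iff₀ (by positivity)]
          calc 8 * J * (2 * X) ^ 2 * E * (4 * u ^ 2 * r)
              = (128 * (u ^ 2 * X ^ 2 * r) * E) * J := by ring
            _ ≤ 1 * J := by
                refine mul_le_mul_of_nonneg_right ?_ hJ0.le
                have hu2 : u ^ 2 ≤ X := (pow_le_pow_right₀ hu (by norm_num)).trans huX
                have h1 : c3 * (128 * (u ^ 2 * X ^ 2 * r) * E) ≤ c3 * 1 := by
                  calc c3 * (128 * (u ^ 2 * X ^ 2 * r) * E)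
                      = 128 * (u ^ 2 * X ^ 2 * (c3 * r)) * E := by ring
                    _ ≤ 280 * (X * X ^ 2 * X) * E := by
                        refine mul_le_mul_of_nonneg_right ?_ hE0.le
                        refine mul_le_mul (by norm_num) ?_ (by positivity) (by norm_num)
                        exact mul_le_mul (mul_le_mul_of_nonneg_right hu2 (by positivity)) hrX
                          (by positivity) (by positivity)
                    _ = 280 * X ^ 4 * E := by ring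
                    _ ≤ c3 * 1 := by rw [mul_one]; exact F9
                exact le_of_mul_le_mul_left h1 hc3
            _ = J := one_mul J
      _ = J * (1 / u ^ 2) / r / 4 := by
          field_simp
  have hR0 : 0 ≤ J * (1 / u ^ 2) / r := by positivity
  have hE10 : 0 ≤ 2 * J * Real.exp (-(2 * u ^ 2)) := by positivity
  have hE20 : 0 ≤ 40000 * Λ ^ 5 * s ^ 2 / Y * (101 * J * L * s * Λ / Y + 4 * Λ) := by positivity
  have hfin : (2 * (t + J) + 1) * (2 * (t * Y + α * J + L) / Y + 1) *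
      (2 * J * Real.exp (-(2 * u ^ 2)) +
        40000 * Λ ^ 5 * s ^ 2 / Y * (101 * J * L * s * Λ / Y + 4 * Λ)) ≤
      35 * t ^ 2 * (2 * J * Real.exp (-(2 * u ^ 2))) +
        35 * t ^ 2 * (40000 * Λ ^ 5 * s ^ 2 / Y * (101 * J * L * s * Λ / Y + 4 * Λ)) := by
    rw [← mul_add]
    exact mul_le_mul_of_nonneg_right hPP (add_nonneg hE10 hE20)
  linarith

/-- powers of the logarithm -/
private lemma X_FLN_log (C a : ℝ) (k : ℕ) (ha : 0 < a) :
    ∀ᶠ x : ℕ in atTop, C * Real.log x ^ k ≤ (x : ℝ) ^ a := by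
  have h := (isLittleO_log_rpow_rpow_atTop (k : ℝ) ha).comp_tendsto
    (tendsto_natCast_atTop_atTop (R := ℝ))
  have h2 := h.bound (c := 1 / (|C| + 1)) (by positivity)
  filter_upwards [h2, eventually_ge_atTop 1] with x hx hx1
  have hx1' : (1 : ℝ) ≤ x := by exact_mod_cast hx1
  have hlog : 0 ≤ Real.log x := Real.log_nonneg hx1'
  simp only [Function.comp_apply, Real.rpow_natCast] at hx
  rw [Real.norm_of_nonneg (pow_nonneg hlog k),
    Real.norm_of_nonneg (Real.rpow_nonneg (by linarith) a)] at hx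
  have h3 : (|C| + 1) * Real.log x ^ k ≤ (x : ℝ) ^ a := by
    have h4 := mul_le_mul_of_nonneg_left hx (show 0 ≤ |C| + 1 by positivity)
    have h5 : (|C| + 1) * (1 / (|C| + 1) * (x : ℝ) ^ a) = (x : ℝ) ^ a := by
      field_simp
    linarith
  have h6 : C * Real.log x ^ k ≤ (|C| + 1) * Real.log x ^ k := by
    refine mul_le_mul_of_nonneg_right ?_ (pow_nonneg hlog k)
    have := le_abs_self C
    linarith
  linarith

/-- exponential decay -/
private lemma X_FLN_exp (C θ : ℝ) (hθ : 0 < θ) :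
    ∀ᶠ x : ℕ in atTop, C * ((x : ℝ) ^ 4 * Real.exp (-((x : ℝ) ^ θ / 4))) ≤ 1 := by
  have h0 : Tendsto (fun x : ℕ => (x : ℝ) ^ θ) atTop atTop :=
    (tendsto_rpow_atTop hθ).comp (tendsto_natCast_atTop_atTop (R := ℝ))
  have h := (isLittleO_exp_neg_mul_rpow_atTop (a := 1 / 4) (by norm_num) (-(4 / θ))).comp_tendsto h0
  have h2 := h.bound (c := 1 / (|C| + 1)) (by positivity)
  filter_upwards [h2, eventually_ge_atTop 1] with x hx hx1
  have hx1' : (1 : ℝ) ≤ x := by exact_mod_cast hx1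
  have hx0 : (0 : ℝ) < x := by linarith
  simp only [Function.comp_apply] at hx
  rw [Real.norm_of_nonneg (Real.exp_pos _).le,
    Real.norm_of_nonneg (Real.rpow_nonneg (Real.rpow_nonneg hx0.le _) _),
    ← Real.rpow_mul hx0.le] at hx
  have h3 : θ * -(4 / θ) = -4 := by
    field_simp
  rw [h3] at hx
  have h4 : (x : ℝ) ^ (4 : ℕ) * (x : ℝ) ^ (-4 : ℝ) = 1 := by
    rw [← Real.rpow_natCast, ← Real.rpow_add hx0]
    norm_num
  have h5 : -(1 / 4) * (x : ℝ) ^ θ = -((x : ℝ) ^ θ / 4) := by ring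
  rw [h5] at hx
  have h6 : (x : ℝ) ^ 4 * Real.exp (-((x : ℝ) ^ θ / 4)) ≤ 1 / (|C| + 1) := by
    calc (x : ℝ) ^ 4 * Real.exp (-((x : ℝ) ^ θ / 4))
        ≤ (x : ℝ) ^ 4 * (1 / (|C| + 1) * (x : ℝ) ^ (-4 : ℝ)) :=
          mul_le_mul_of_nonneg_left hx (by positivity)
      _ = 1 / (|C| + 1) * ((x : ℝ) ^ 4 * (x : ℝ) ^ (-4 : ℝ)) := by ring
      _ = 1 / (|C| + 1) := by rw [h4, mul_one]
  have h7 : 0 ≤ (x : ℝ) ^ 4 * Real.exp (-((x : ℝ) ^ θ / 4)) := by positivity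
  calc C * ((x : ℝ) ^ 4 * Real.exp (-((x : ℝ) ^ θ / 4)))
      ≤ (|C| + 1) * ((x : ℝ) ^ 4 * Real.exp (-((x : ℝ) ^ θ / 4))) := by
        refine mul_le_mul_of_nonneg_right ?_ h7
        have := le_abs_self C
        linarith
    _ ≤ (|C| + 1) * (1 / (|C| + 1)) := mul_le_mul_of_nonneg_left h6 (by positivity)
    _ = 1 := by field_simp

theorem p_FLN (hFLB : Stmt_FLB) (hWVB : Stmt_WVB) : Stmt_FLN := by
  intro w c κ hreg C1 c3 hC1 hc3
  have hθ := tt_pos hreg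
  have hθ1 := tt_le hreg
  obtain ⟨δ, hδ⟩ : ∃ δ : ℝ, δ = 1 - κ := ⟨_, rfl⟩
  have hδ0 : 0 < δ := by
    have := hreg.k1
    linarith
  obtain ⟨C4, hC4⟩ : ∃ C4 : ℝ, C4 = 3 * C1 / c3 + 1 := ⟨_, rfl⟩
  have hC41 : 1 ≤ C4 := by
    have : 0 ≤ 3 * C1 / c3 := by positivity
    linarith
  obtain ⟨D, hD⟩ : ∃ D : ℝ, D = 1 / √(δ * c3) := ⟨_, rfl⟩
  have hD0 : 0 < D := by
    rw [hD]
    positivity
  have hD2 : D ^ 2 * (δ * c3) = 1 := by
    rw [hD, div_pow, Real.sq_sqrt (by positivity)]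
    field_simp
  have h18 : (0 : ℝ) < 1 / 8 := by norm_num
  filter_upwards [hWVB w c κ hreg, eventually_ge_atTop 1,
    X_FLN_log (256 * C4 ^ 2 * D / c3) (1 / 8) 2 h18, X_FLN_log (64 * C4 ^ 2 * D) (1 / 8) 2 h18,
    X_FLN_log (64 * C4 ^ 2 / c3) (1 / 8) 2 h18, X_FLN_log (4 / c3) (1 / 8) 0 h18,
    X_FLN_log (4 / c3 ^ 3) (1 / 8) 0 h18, X_FLN_log (2 * D / c3) (1 / 8) 0 h18,
    X_FLN_log (2 * C4 + 1) (1 / 2) 1 (by norm_num),
    X_FLN_log (588000000 * C4 ^ 6 / (δ * c3)) (2 * tt c) 6 (by linarith),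
    X_FLN_exp (280 / c3) (tt c) hθ,
    (Real.tendsto_log_atTop.comp (tendsto_natCast_atTop_atTop (R := ℝ))).eventually_ge_atTop 2]
    with x hwvb hx1 E1 E2 E3 E4 E5 E6 E7 E8 E9 hlog2
  intro r α β hα hβ hαβ hY hN hr n n' hn1 hn2
  simp only [Function.comp_apply] at hlog2
  rw [pow_zero, mul_one] at E4 E5 E6
  rw [pow_one] at E7
  have hx1' : (1 : ℝ) ≤ x := by exact_mod_cast hx1
  have hx0 : (0 : ℝ) < x := by linarith
  obtain ⟨θ, hθe⟩ : ∃ θ : ℝ, θ = tt c := ⟨_, rfl⟩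
  rw [← hθe] at hθ hθ1 hα hβ hr hn2 E8 E9 hwvb ⊢
  obtain ⟨u, hu⟩ : ∃ u : ℝ, u = (x : ℝ) ^ (θ / 2) := ⟨_, rfl⟩
  obtain ⟨v, hv⟩ : ∃ v : ℝ, v = (x : ℝ) ^ ((1 : ℝ) / 8) := ⟨_, rfl⟩
  have hupow : ∀ k : ℕ, u ^ k = (x : ℝ) ^ (θ / 2 * k) := fun k => by
    rw [hu, Real.rpow_mul_natCast hx0.le]
  have hvpow : ∀ k : ℕ, v ^ k = (x : ℝ) ^ ((1 : ℝ) / 8 * k) := fun k => by
    rw [hv, Real.rpow_mul_natCast hx0.le]
  have hu1 : 1 ≤ u := by
    rw [hu]
    exact Real.one_le_rpow hx1' (by linarith)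
  have hv1 : 1 ≤ v := by
    rw [hv]
    exact Real.one_le_rpow hx1' (by norm_num)
  have hu0 : 0 < u := by linarith
  have hv0 : 0 < v := by linarith
  have huv : u ^ 50 ≤ v := by
    rw [hupow, hv]
    refine Real.rpow_le_rpow_of_exponent_le hx1' ?_
    push_cast
    linarith
  have e2 : u ^ 2 = (x : ℝ) ^ θ := by
    rw [hupow]
    congr 1
    push_cast
    ring
  have e4 : u ^ 4 = (x : ℝ) ^ (2 * θ) := by
    rw [hupow]
    congr 1
    push_cast
    ring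
  have e16 : u ^ 16 = (x : ℝ) ^ (8 * θ) := by
    rw [hupow]
    congr 1
    push_cast
    ring
  have evu : v ^ 4 * u ^ 16 = (x : ℝ) ^ (1 / 2 + 8 * θ) := by
    rw [hvpow, hupow, ← Real.rpow_add hx0]
    congr 1
    push_cast
    ring
  have e18 : v ^ 4 = u ^ 18 * (x : ℝ) ^ (1 / 2 - 9 * θ) := by
    rw [hvpow, hupow, ← Real.rpow_add hx0]
    congr 1
    push_cast
    ring
  have e92 : u ^ 92 = v ^ 2 * (x : ℝ) ^ (-(1 / 4) + 46 * θ) := by
    rw [hvpow, hupow, ← Real.rpow_add hx0]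
    congr 1
    push_cast
    ring
  have e8 : v ^ 8 = x := by
    rw [hvpow]
    norm_num
  rw [← hv] at E1 E2 E3 E4 E5 E6
  rw [← e4] at E8
  rw [← e2] at E9
  have hr' : v ^ 4 ≤ u ^ 18 * r := by
    rw [e18]
    exact mul_le_mul_of_nonneg_left hr (by positivity)
  have hr1 : (1 : ℝ) ≤ r := by
    refine le_trans ?_ hr
    exact Real.one_le_rpow hx1' (by linarith)
  obtain ⟨N, hNe⟩ : ∃ N : ℝ, N = ((MM α β).card : ℝ) := ⟨_, rfl⟩
  obtain ⟨Y, hYe⟩ : ∃ Y : ℝ, Y = (β : ℝ) - α := ⟨_, rfl⟩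
  obtain ⟨Λ, hΛe⟩ : ∃ Λ : ℝ, Λ = C4 * Real.log x := ⟨_, rfl⟩
  rw [← hNe] at hN
  have hNY : N ≤ Y := by
    rw [hNe, hYe]
    have h1 : (MM α β).card ≤ β - α - 1 := by
      unfold MM
      refine (Finset.card_filter_le _ _).trans ?_
      rw [Nat.card_Ioo]
    have h2 : (MM α β).card + α ≤ β := by omega
    have h3 : ((MM α β).card : ℝ) + α ≤ β := by exact_mod_cast h2
    linarith
  have hN0 : 0 < N := lt_of_lt_of_le (by positivity) hN
  have hY0 : 0 < Y := by linarith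
  have hΛ1 : 1 ≤ Λ := by
    rw [hΛe]
    nlinarith
  have hYΛ : Y ≤ Λ * N := by
    have h1 : (β : ℝ) ≤ α + 2 * (LL C1 x r : ℝ) := by exact_mod_cast hY
    have h0 : 0 ≤ C1 * r * Real.log x := by positivity
    have h2 : (LL C1 x r : ℝ) ≤ C1 * r * Real.log x + 1 := by
      unfold LL
      exact (Nat.ceil_lt_add_one h0).le
    have h3 : 2 ≤ C1 * r * Real.log x := by
      have h4 : 1 ≤ C1 * r := by nlinarith
      nlinarith
    have h5 : Y ≤ 3 * (C1 * r * Real.log x) := by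
      rw [hYe]
      linarith
    have h6 : 3 * (C1 * r * Real.log x) = 3 * C1 / c3 * Real.log x * (c3 * r) := by
      field_simp
    have h7 : 3 * C1 / c3 * Real.log x * (c3 * r) ≤ Λ * N := by
      refine mul_le_mul ?_ hN (by positivity) (by linarith)
      rw [hΛe, hC4]
      nlinarith
    linarith
  have hB : ((A2 θ x : ℕ) : ℝ) ≤ v ^ 4 * u ^ 16 := by
    rw [evu]
    unfold A2
    exact Nat.floor_le (by positivity)
  have hβB : (β : ℝ) ≤ (A2 θ x : ℕ) := by exact_mod_cast hβ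
  have hαβ' : (α : ℝ) ≤ β := by exact_mod_cast hαβ.le
  have hα0 : (0 : ℝ) ≤ α := Nat.cast_nonneg _
  have hJ1 : u ^ 16 ≤ ((JJ θ x : ℕ) : ℝ) := by
    rw [e16]
    unfold JJ
    exact Nat.le_ceil _
  have hJ2 : ((JJ θ x : ℕ) : ℝ) ≤ 2 * u ^ 16 := by
    have h1 : (1 : ℝ) ≤ (x : ℝ) ^ (8 * θ) := Real.one_le_rpow hx1' (by linarith)
    rw [e16]
    unfold JJ
    have := (Nat.ceil_lt_add_one (a := (x : ℝ) ^ (8 * θ)) (by linarith)).le
    linarith
  obtain ⟨L, hLe⟩ : ∃ L : ℝ, L = ((LN θ x r : ℕ) : ℝ) := ⟨_, rfl⟩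
  have hL0 : 0 ≤ L := by rw [hLe]; exact Nat.cast_nonneg _
  have hL : L ≤ 2 * u ^ 4 * r := by
    have h1 : (1 : ℝ) ≤ (x : ℝ) ^ (2 * θ) := Real.one_le_rpow hx1' (by linarith)
    rw [hLe, e4]
    unfold LN
    push_cast
    have := (Nat.ceil_lt_add_one (a := (x : ℝ) ^ (2 * θ)) (by linarith)).le
    refine mul_le_mul_of_nonneg_right ?_ (by linarith)
    linarith
  obtain ⟨wl, hwle⟩ : ∃ wl : ℝ, wl = wlo c x := ⟨_, rfl⟩
  have hwl : u ^ 92 ≤ v ^ 2 * wl := by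
    rw [e92, hwle]
    refine mul_le_mul_of_nonneg_left ?_ (by positivity)
    rw [hθe]
    exact wlo_ge hreg hx1
  have hwl0 : 0 < wl := by
    rw [hwle]
    exact wlo_pos c hx1
  have hMM : ∀ z ∈ MM α β, z.Prime ∧ wl ≤ w z ∧ w z ≤ u ^ 4 * wl := by
    intro z hz
    unfold MM at hz
    rw [Finset.mem_filter, Finset.mem_Ioo] at hz
    obtain ⟨⟨h1, h2⟩, h3⟩ := hz
    have h4 : z ∈ VV θ x := by
      unfold VV
      rw [Finset.mem_Icc]
      constructor <;> omega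
    obtain ⟨h5, h6⟩ := hwvb z h4
    refine ⟨h3, ?_, ?_⟩
    · rw [hwle]
      exact h5
    · rw [hwle, e4, hθe]
      exact h6.trans (whi_le hreg hx1)
  obtain ⟨μ, hμe⟩ : ∃ μ : ℝ, μ = ∑ z ∈ MM α β, (1 - pd w z) := ⟨_, rfl⟩
  have hμs : μ = ∑ z ∈ MM α β, w z := by
    rw [hμe]
    refine Finset.sum_congr rfl fun z hz => ?_
    rw [pd_prime (hMM z hz).1]
    ring
  have hμ1 : wl * N ≤ μ := by
    rw [hμs, hNe]
    have h1 := Finset.card_nsmul_le_sum (MM α β) w wl (fun z hz => (hMM z hz).2.1)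
    rw [nsmul_eq_mul] at h1
    linarith
  have hμ2 : μ ≤ u ^ 4 * (wl * N) := by
    rw [hμs, hNe]
    have h1 := Finset.sum_le_card_nsmul (MM α β) w (u ^ 4 * wl) (fun z hz => (hMM z hz).2.2)
    rw [nsmul_eq_mul] at h1
    linarith
  have hμ3 : μ ≤ N := by
    rw [hμs, hNe]
    have h1 := Finset.sum_le_card_nsmul (MM α β) w 1 (fun z _ => by
      have := hreg.le z
      have := hreg.k1
      linarith)
    rw [nsmul_eq_mul, mul_one] at h1
    exact h1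
  obtain ⟨W, hWe⟩ : ∃ W : ℝ, W = wl * N := ⟨_, rfl⟩
  have hW0 : 0 < W := by rw [hWe]; positivity
  have hW : c3 * u ^ 74 * v ^ 2 ≤ W := by
    rw [hWe]
    exact X_FLN_W u v c3 N r wl hu1 hv1 hc3 hr' hN hwl
  rw [← hWe] at hμ1 hμ2
  have hμ0 : 0 < μ := by linarith
  obtain ⟨s, hse⟩ : ∃ s : ℝ, s = u / √(δ * W) := ⟨_, rfl⟩
  have hs0 : 0 < s := by rw [hse]; positivity
  have hs : s ^ 2 * (δ * W) = u ^ 2 := by
    rw [hse, div_pow, Real.sq_sqrt (by positivity)]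
    field_simp
  obtain ⟨t, hte⟩ : ∃ t : ℝ, t = u ^ 2 * √μ := ⟨_, rfl⟩
  have ht0 : 0 ≤ t := by rw [hte]; positivity
  have ht : t ^ 2 = u ^ 4 * μ := by
    rw [hte, mul_pow, Real.sq_sqrt hμ0.le]
    ring
  have F1 : 256 * Λ ^ 2 * D ≤ c3 * v := by
    have h1 := mul_le_mul_of_nonneg_left E1 hc3.le
    have h2 : c3 * (256 * C4 ^ 2 * D / c3 * Real.log x ^ 2) = 256 * Λ ^ 2 * D := by
      rw [hΛe]
      field_simp
    linarith
  have F2 : 64 * Λ ^ 2 * D ≤ v := by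
    have h2 : 64 * C4 ^ 2 * D * Real.log x ^ 2 = 64 * Λ ^ 2 * D := by
      rw [hΛe]
      ring
    linarith
  have F3 : 64 * Λ ^ 2 ≤ c3 * v := by
    have h1 := mul_le_mul_of_nonneg_left E3 hc3.le
    have h2 : c3 * (64 * C4 ^ 2 / c3 * Real.log x ^ 2) = 64 * Λ ^ 2 := by
      rw [hΛe]
      field_simp
    linarith
  have F4 : 4 ≤ c3 * v := by
    have h1 := mul_le_mul_of_nonneg_left E4 hc3.le
    have h2 : c3 * (4 / c3) = 4 := by field_simp
    linarith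
  have F5 : 4 ≤ c3 ^ 3 * v := by
    have h1 := mul_le_mul_of_nonneg_left E5 (show 0 ≤ c3 ^ 3 by positivity)
    have h2 : c3 ^ 3 * (4 / c3 ^ 3) = 4 := by field_simp
    linarith
  have F6 : 2 * D ≤ c3 * v := by
    have h1 := mul_le_mul_of_nonneg_left E6 hc3.le
    have h2 : c3 * (2 * D / c3) = 2 * D := by field_simp
    linarith
  have F8 : 588000000 * Λ ^ 6 ≤ δ * c3 * u ^ 4 := by
    have h1 := mul_le_mul_of_nonneg_left E8 (show 0 ≤ δ * c3 by positivity)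
    have h2 : δ * c3 * (588000000 * C4 ^ 6 / (δ * c3) * Real.log x ^ 6) =
        588000000 * Λ ^ 6 := by
      rw [hΛe]
      field_simp
    linarith
  have F9 : 280 * (v ^ 8) ^ 4 * Real.exp (-(u ^ 2 / 4)) ≤ c3 := by
    rw [e8]
    have h1 := mul_le_mul_of_nonneg_left E9 hc3.le
    have h2 : c3 * (280 / c3 * ((x : ℝ) ^ 4 * Real.exp (-(u ^ 2 / 4)))) =
        280 * (x : ℝ) ^ 4 * Real.exp (-(u ^ 2 / 4)) := by
      field_simp
    linarith
  obtain ⟨G1', G2, G3, G4⟩ := X_FLN_cond u v δ c3 D Λ N Y r β μ W s t hu1 hv1 huv hδ0 hc3 hD0 hD2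
    hr' hN hNY (hβB.trans hB) hW hμ1 hs0 hs ht F1 F2 F3 F4
  have h2Λ : 2 * Λ < α := by
    have h1 : (x : ℝ) ^ (1 / 2 + 4 * θ) ≤ ((A1 θ x : ℕ) : ℝ) := by
      unfold A1
      exact Nat.le_ceil _
    have h2 : ((A1 θ x : ℕ) : ℝ) ≤ α := by exact_mod_cast hα
    have h3 : (x : ℝ) ^ ((1 : ℝ) / 2) ≤ (x : ℝ) ^ (1 / 2 + 4 * θ) :=
      Real.rpow_le_rpow_of_exponent_le hx1' (by linarith)
    have h4 : 2 * Λ < (2 * C4 + 1) * Real.log x := by
      rw [hΛe]
      nlinarith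
    linarith
  have hfl := hFLB (pd w) (prob_pd hreg) (A1 θ x) (A2 θ x) α β (JJ θ x) Λ s (δ * wl) t L hα hβ hαβ
    hΛ1 h2Λ (by rw [← hYe, ← hNe]; exact hYΛ) (by rw [← hYe]; exact G1') hs0 G2
    (by rw [← hYe]; exact G3) (by positivity) (by
      intro z hz
      obtain ⟨h1, h2, h3⟩ := hMM z hz
      rw [pd_prime h1]
      have h4 := hreg.le z
      have h5 : 1 - (1 - w z) = w z := by ring
      rw [h5]
      exact mul_le_mul (by linarith) h2 hwl0.le (by linarith)) ht0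
    (by rw [← hμe]; exact G4) hL0 r n n' (by
      have h1 : (n : ℝ) ≤ n' + L := by rw [hLe]; exact_mod_cast hn2
      have h2 : (n' : ℝ) ≤ n := by exact_mod_cast hn1
      rw [abs_of_nonneg (by linarith)]
      linarith)
  have hmain := X_FLN_main u v δ c3 D Λ N Y r α (A2 θ x : ℕ) (JJ θ x : ℕ) L μ W s t hu1 hv1 huv hδ0
    hc3 hD0 hD2 hΛ1 hr' hN hNY hα0 (by linarith) (by rw [hYe]; linarith) hB hJ1 hJ2 hL0 hL hW hμ1
    hμ2 hμ3 hs0 hs ht0 ht F4 F5 F6 F8 F9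
  have hx1 : (x : ℝ) ^ (-θ) = 1 / u ^ 2 := by
    rw [e2, Real.rpow_neg hx0.le, one_div]
  have hx2 : 2 * (δ * wl) * s ^ 2 * ((MM α β).card : ℝ) = 2 * u ^ 2 := by
    rw [← hNe, ← hs, hWe]
    ring
  have hx3 : t ^ 2 / (4 * ∑ z ∈ MM α β, (1 - pd w z)) = u ^ 4 / 4 := by
    rw [← hμe, ht]
    field_simp
  rw [hx1]
  rw [hx2, hx3, ← hYe] at hfl
  exact hfl.trans hmain

end Pool.Agent.Work.MP_7d0410_dl
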