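import Pool.Agent.Work.MP_7d0410_dl.Interface

/-!
# Block FOU (helper6): Fourier inversion
-/

set_option autoImplicit false

namespace Pool.Agent.Work.MP_7d0410_dl

open Finset Filter MeasureTheory ProbabilityTheory
open Pool.Agent.Work.MP_7d0410_cr (seg sm len runs rr good gr cnt DD meet AB PP CountReg NN a0 UU SS
  AA repCount)
open Pool.Agent.Work.MP_7d0410_sp (Prob wt Ex Pb hh gg HH T1 T2 A1 A2 VV G1 R1 LL pin F0 XX)
open scoped Classical

lemma FOU_ee_sum {ι : Type*} (s : Finset ι) (f : ι → ℝ) :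
    ee (∑ i ∈ s, f i) = ∏ i ∈ s, ee (f i) := by
  induction s using Finset.induction_on with
  | empty => simp [ee_zero]
  | insert a s ha ih => rw [Finset.sum_insert ha, Finset.prod_insert ha, ee_add, ih]

lemma FOU_ee_nat (n : ℕ) (a : ℝ) : ee (n * a) = ee a ^ n := by
  have := FOU_ee_sum (Finset.range n) (fun _ => a)
  simpa using this

lemma FOU_geom (N : ℕ) (m : ℤ) (hm : |m| < N) :
    ∑ h ∈ Finset.range N, ee ((h : ℝ) * ((m : ℝ) / N)) = if m = 0 then (N : ℂ) else 0 := by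
  have hN : (0 : ℝ) < N := by
    have : (0 : ℤ) < N := lt_of_le_of_lt (abs_nonneg m) hm
    exact_mod_cast this
  split_ifs with h0
  · subst h0
    simp [ee_zero]
  · have hz : ee ((m : ℝ) / N) ≠ 1 := by
      intro h
      unfold ee at h
      rw [Complex.exp_eq_one_iff] at h
      obtain ⟨n, hn⟩ := h
      have h2 : ((m : ℝ) / N : ℝ) = n := by
        have hpi : (2 * (Real.pi : ℂ) * Complex.I) ≠ 0 := Complex.two_pi_I_ne_zero
        have h3 : ((((m : ℝ) / N : ℝ)) : ℂ) * (2 * Real.pi * Complex.I) =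
            (n : ℂ) * (2 * Real.pi * Complex.I) := by
          rw [← hn]
          ring
        have h4 := mul_right_cancel₀ hpi h3
        exact_mod_cast h4
      have h3 : (m : ℝ) = n * N := by
        field_simp at h2
        linarith
      have h4 : m = n * N := by exact_mod_cast h3
      have h5 : n = 0 := by
        by_contra hn0
        have h7 : (1 : ℤ) ≤ |n| := Int.one_le_abs hn0
        rw [h4, abs_mul] at hm
        have h6 : |(N : ℤ)| = N := abs_of_nonneg (by positivity)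
        rw [h6] at hm
        have h8 : (0 : ℤ) < N := by exact_mod_cast hN
        nlinarith
      exact h0 (by rw [h4, h5, zero_mul])
    have e1 : ∀ h ∈ Finset.range N, ee ((h : ℝ) * ((m : ℝ) / N)) = ee ((m : ℝ) / N) ^ h :=
      fun h _ => FOU_ee_nat h _
    rw [Finset.sum_congr rfl e1]
    have e2 : ee ((m : ℝ) / N) ^ N = 1 := by
      rw [← FOU_ee_nat, mul_div_cancel₀ _ hN.ne']
      exact ee_int m
    have e3 := geom_sum_mul (ee ((m : ℝ) / N)) N
    rw [e2, sub_self] at e3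
    exact (mul_eq_zero.1 e3).resolve_right (sub_ne_zero.2 hz)

lemma FOU_prod (p : ℕ → ℝ) (M : Finset ℕ) (N h k : ℕ) :
    ∏ z ∈ M, (((1 - p z : ℝ) : ℂ) + ((p z : ℝ) : ℂ) * ee (((h : ℝ) + k * z) / N)) =
      ∑ T ∈ M.powerset, ((wt p M T : ℝ) : ℂ) *
        ee (((h : ℝ) * T.card + k * ((∑ z ∈ T, z : ℕ) : ℝ)) / N) := by
  have e1 : ∏ z ∈ M, (((1 - p z : ℝ) : ℂ) + ((p z : ℝ) : ℂ) * ee (((h : ℝ) + k * z) / N)) =
      ∏ z ∈ M, (((p z : ℝ) : ℂ) * ee (((h : ℝ) + k * z) / N) + ((1 - p z : ℝ) : ℂ)) :=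
    Finset.prod_congr rfl fun z _ => add_comm _ _
  rw [e1, Finset.prod_add]
  refine Finset.sum_congr rfl fun T _ => ?_
  rw [Finset.prod_mul_distrib, ← FOU_ee_sum]
  have e2 : ∑ z ∈ T, ((h : ℝ) + k * z) / N =
      ((h : ℝ) * T.card + k * ((∑ z ∈ T, z : ℕ) : ℝ)) / N := by
    rw [← Finset.sum_div, Finset.sum_add_distrib, ← Finset.mul_sum, Finset.sum_const,
      nsmul_eq_mul]
    push_cast
    ring
  rw [e2]
  unfold wt
  push_cast
  ring

lemma FOU_term (N h k i c s : ℕ) (j D : ℤ) :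
    ee (((h : ℝ) * c + k * (s : ℝ)) / N) * (ee (-((h : ℝ) / N * i)) *
      (ee (-((h : ℝ) / N * j)) * ee (-((k : ℝ) / N * D)))) =
      ee ((h : ℝ) * ((((c : ℤ) - (j + i) : ℤ) : ℝ) / N)) *
        ee ((k : ℝ) * ((((s : ℤ) - D : ℤ) : ℝ) / N)) := by
  rw [← ee_add, ← ee_add, ← ee_add, ← ee_add]
  congr 1
  push_cast
  ring

lemma FOU_formula (p : ℕ → ℝ) (M : Finset ℕ) (J N : ℕ) (j D : ℤ) (hN : 1 ≤ N)
    (h1 : (M.card : ℤ) + |j| + J < N) (h2 : ((∑ z ∈ M, z : ℕ) : ℤ) + |D| < N) :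
    ((Bk p M J j D : ℝ) : ℂ) = 1 / (N : ℂ) ^ 2 * ∑ h ∈ Finset.range N, ∑ k ∈ Finset.range N,
      (∏ z ∈ M, (((1 - p z : ℝ) : ℂ) + ((p z : ℝ) : ℂ) * ee (((h : ℝ) + k * z) / N))) *
        ((∑ i ∈ Finset.range J, ee (-((h : ℝ) / N * i))) *
          (ee (-((h : ℝ) / N * j)) * ee (-((k : ℝ) / N * D)))) := by
  have hNC : (N : ℂ) ≠ 0 := by
    have : N ≠ 0 := by omega
    exact_mod_cast this
  have e1 : ∀ h ∈ Finset.range N, ∀ k ∈ Finset.range N,
      (∏ z ∈ M, (((1 - p z : ℝ) : ℂ) + ((p z : ℝ) : ℂ) * ee (((h : ℝ) + k * z) / N))) *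
        ((∑ i ∈ Finset.range J, ee (-((h : ℝ) / N * i))) *
          (ee (-((h : ℝ) / N * j)) * ee (-((k : ℝ) / N * D)))) =
      ∑ T ∈ M.powerset, ∑ i ∈ Finset.range J, ((wt p M T : ℝ) : ℂ) *
        (ee ((h : ℝ) * ((((T.card : ℤ) - (j + i) : ℤ) : ℝ) / N)) *
          ee ((k : ℝ) * (((((∑ z ∈ T, z : ℕ) : ℤ) - D : ℤ) : ℝ) / N))) := by
    intro h _ k _
    rw [FOU_prod, Finset.sum_mul]
    refine Finset.sum_congr rfl fun T _ => ?_
    rw [Finset.sum_mul, Finset.mul_sum]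
    refine Finset.sum_congr rfl fun i _ => ?_
    rw [← FOU_term N h k i T.card (∑ z ∈ T, z) j D]
    ring
  have e2 : ∑ h ∈ Finset.range N, ∑ k ∈ Finset.range N,
      (∏ z ∈ M, (((1 - p z : ℝ) : ℂ) + ((p z : ℝ) : ℂ) * ee (((h : ℝ) + k * z) / N))) *
        ((∑ i ∈ Finset.range J, ee (-((h : ℝ) / N * i))) *
          (ee (-((h : ℝ) / N * j)) * ee (-((k : ℝ) / N * D)))) =
      ∑ T ∈ M.powerset, ∑ i ∈ Finset.range J, ((wt p M T : ℝ) : ℂ) *
        ((if ((T.card : ℤ) - (j + i) : ℤ) = 0 then (N : ℂ) else 0) *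
          (if (((∑ z ∈ T, z : ℕ) : ℤ) - D : ℤ) = 0 then (N : ℂ) else 0)) := by
    rw [Finset.sum_congr rfl fun h hh => Finset.sum_congr rfl fun k hk => e1 h hh k hk]
    rw [Finset.sum_congr rfl fun h _ => Finset.sum_comm]
    rw [Finset.sum_comm]
    refine Finset.sum_congr rfl fun T hT => ?_
    rw [Finset.sum_congr rfl fun h _ => Finset.sum_comm]
    rw [Finset.sum_comm]
    refine Finset.sum_congr rfl fun i hi => ?_
    have hTM := Finset.mem_powerset.1 hT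
    have hc : T.card ≤ M.card := Finset.card_le_card hTM
    have hs : ∑ z ∈ T, z ≤ ∑ z ∈ M, z := Finset.sum_le_sum_of_subset hTM
    have hi := Finset.mem_range.1 hi
    rw [← FOU_geom N ((T.card : ℤ) - (j + i)) ?_, ← FOU_geom N (((∑ z ∈ T, z : ℕ) : ℤ) - D) ?_]
    · rw [Finset.sum_mul_sum, Finset.mul_sum]
      refine Finset.sum_congr rfl fun h _ => ?_
      rw [Finset.mul_sum]
    · have a1 := neg_abs_le D
      have a2 := le_abs_self D
      have a3 : ((∑ z ∈ T, z : ℕ) : ℤ) ≤ ((∑ z ∈ M, z : ℕ) : ℤ) := by exact_mod_cast hs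
      have a4 : (0 : ℤ) ≤ ((∑ z ∈ T, z : ℕ) : ℤ) := Int.natCast_nonneg _
      rw [abs_lt]
      constructor <;> linarith
    · have a1 := neg_abs_le j
      have a2 := le_abs_self j
      rw [abs_lt]
      constructor <;> omega
  rw [e2]
  unfold Bk Pc Pb Ex
  simp only [Complex.ofReal_sum, Complex.ofReal_mul]
  rw [Finset.sum_comm, Finset.mul_sum]
  refine Finset.sum_congr rfl fun T _ => ?_
  rw [Finset.mul_sum]
  refine Finset.sum_congr rfl fun i _ => ?_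
  have c1 : ((T.card : ℤ) - (j + i) = 0) ↔ (T.card : ℤ) = j + i := sub_eq_zero
  have c2 : (((∑ z ∈ T, z : ℕ) : ℤ) - D = 0) ↔ ((∑ z ∈ T, z : ℕ) : ℤ) = D := sub_eq_zero
  by_cases b1 : (T.card : ℤ) = j + i
  · by_cases b2 : ((∑ z ∈ T, z : ℕ) : ℤ) = D
    · rw [if_pos (c1.2 b1), if_pos (c2.2 b2), if_pos ⟨b1, b2⟩]
      push_cast
      field_simp
    · rw [if_pos (c1.2 b1), if_neg (fun h => b2 (c2.1 h)), if_neg (fun h => b2 h.2)]
      simp
  · rw [if_neg (fun h => b1 (c1.1 h)), if_neg (fun h => b1 h.1)]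
    simp

/-- FOU (helper6) -/
theorem p_FOU : Stmt_FOU := by
  intro p hp M J N j D D' hN h1 h2 h3
  have e1 := FOU_formula p M J N j D hN h1 h2
  have e2 := FOU_formula p M J N j D' hN h1 h3
  have e3 : (((Bk p M J j D - Bk p M J j D' : ℝ)) : ℂ) = 1 / (N : ℂ) ^ 2 *
      ∑ h ∈ Finset.range N, ∑ k ∈ Finset.range N,
      (∏ z ∈ M, (((1 - p z : ℝ) : ℂ) + ((p z : ℝ) : ℂ) * ee (((h : ℝ) + k * z) / N))) *
        ((∑ i ∈ Finset.range J, ee (-((h : ℝ) / N * i))) *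
          (ee (-((h : ℝ) / N * j)) * (ee (-((k : ℝ) / N * D)) - ee (-((k : ℝ) / N * D'))))) := by
    rw [Complex.ofReal_sub, e1, e2, ← mul_sub, ← Finset.sum_sub_distrib]
    congr 1
    refine Finset.sum_congr rfl fun h _ => ?_
    rw [← Finset.sum_sub_distrib]
    refine Finset.sum_congr rfl fun k _ => ?_
    ring
  have e4 : |Bk p M J j D - Bk p M J j D'| = ‖(((Bk p M J j D - Bk p M J j D' : ℝ)) : ℂ)‖ := by
    rw [Complex.norm_real, Real.norm_eq_abs]
  rw [e4, e3, norm_mul]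
  have e5 : ‖(1 / (N : ℂ) ^ 2)‖ = 1 / (N : ℝ) ^ 2 := by
    rw [norm_div, norm_one, norm_pow, Complex.norm_natCast]
  rw [e5]
  refine mul_le_mul_of_nonneg_left ?_ (by positivity)
  refine (norm_sum_le _ _).trans (Finset.sum_le_sum fun h _ => ?_)
  refine (norm_sum_le _ _).trans (Finset.sum_le_sum fun k _ => ?_)
  rw [norm_mul, norm_mul, norm_mul, norm_ee, one_mul, norm_prod, mul_assoc]

end Pool.Agent.Work.MP_7d0410_dl
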