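import Pool.Agent.Work.MP_7d0410_dl.Interface

/-!
# Block GEO (helper84): geometric sums
-/

set_option autoImplicit false

namespace Pool.Agent.Work.MP_7d0410_dl

lemma GEO_norm (s : ℝ) : ‖ee s - 1‖ = 2 * |Real.sin (Real.pi * s)| := by
  have h1 : ee s = Complex.exp (Complex.I * ((2 * Real.pi * s : ℝ) : ℂ)) := by
    unfold ee
    congr 1
    push_cast
    ring
  rw [h1, Complex.norm_exp_I_mul_ofReal_sub_one, Real.norm_eq_abs, abs_mul, abs_two]
  congr 3
  ring

lemma GEO_red (s : ℝ) (m : ℤ) : ee (s - m) = ee s := by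
  have h := ee_add_int (s - m) m
  rw [sub_add_cancel] at h
  exact h.symm

lemma GEO_upper (s : ℝ) : ‖ee s - 1‖ ≤ 2 * Real.pi * dn s := by
  obtain ⟨m, hm⟩ := dn_eq s
  rw [← GEO_red s m, hm, GEO_norm]
  have h1 : |Real.sin (Real.pi * (s - m))| ≤ |Real.pi * (s - m)| := Real.abs_sin_le_abs
  rw [abs_mul, abs_of_pos Real.pi_pos] at h1
  linarith

lemma GEO_lower (s : ℝ) : 4 * dn s ≤ ‖ee s - 1‖ := by
  obtain ⟨m, hm⟩ := dn_eq s
  rw [← GEO_red s m, GEO_norm]
  have h0 := dn_le_half s
  have h1 : |Real.sin (Real.pi * (s - m))| = Real.sin (Real.pi * |s - m|) := by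
    rcases le_total 0 (s - m) with h | h
    · rw [abs_of_nonneg h, abs_of_nonneg]
      refine Real.sin_nonneg_of_nonneg_of_le_pi (mul_nonneg Real.pi_pos.le h) ?_
      rw [hm, abs_of_nonneg h] at h0
      nlinarith [Real.pi_pos]
    · have h2 : Real.pi * (s - m) = -(Real.pi * |s - m|) := by
        rw [abs_of_nonpos h]
        ring
      rw [h2, Real.sin_neg, abs_neg, abs_of_nonneg]
      refine Real.sin_nonneg_of_nonneg_of_le_pi (mul_nonneg Real.pi_pos.le (abs_nonneg _)) ?_
      rw [hm] at h0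
      nlinarith [Real.pi_pos]
  have h2 : 2 / Real.pi * (Real.pi * |s - m|) ≤ Real.sin (Real.pi * |s - m|) := by
    refine Real.mul_le_sin (mul_nonneg Real.pi_pos.le (abs_nonneg _)) ?_
    rw [hm] at h0
    nlinarith [Real.pi_pos]
  have h3 : 2 / Real.pi * (Real.pi * |s - m|) = 2 * |s - m| := by
    field_simp
  rw [h1, hm]
  linarith

lemma GEO_pow (t : ℝ) (i : ℕ) : ee (-(t * i)) = ee (-t) ^ i := by
  induction i with
  | zero => simp [ee_zero]
  | succ i ih =>
    rw [pow_succ, ← ih, ← ee_add]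
    congr 1
    push_cast
    ring

theorem p_GEO : Stmt_GEO := by
  refine ⟨?_, ?_, ?_, ?_⟩
  · intro J t
    refine (norm_sum_le _ _).trans ?_
    simp [norm_ee]
  · intro J t ht
    have h1 := GEO_lower (-t)
    rw [dn_neg] at h1
    have hne : ee (-t) ≠ 1 := by
      intro h
      rw [h, sub_self, norm_zero] at h1
      linarith
    have h2 : ∑ i ∈ Finset.range J, ee (-(t * i)) = (ee (-t) ^ J - 1) / (ee (-t) - 1) := by
      rw [← geom_sum_eq hne]
      exact Finset.sum_congr rfl fun i _ => GEO_pow t i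
    rw [h2, norm_div]
    have h3 : ‖ee (-t) ^ J - 1‖ ≤ 2 := by
      refine (norm_sub_le _ _).trans ?_
      rw [norm_pow, norm_ee, one_pow, norm_one]
      norm_num
    rw [div_le_div_iff₀ (by linarith) (by linarith)]
    nlinarith [dn_nonneg t]
  · intro a b
    refine (norm_sub_le _ _).trans ?_
    rw [norm_ee, norm_ee]
    norm_num
  · intro a b
    have h1 : ee a - ee b = ee b * (ee (a - b) - 1) := by
      rw [mul_sub, mul_one, ← ee_add]
      congr 2
      ring
    rw [h1, norm_mul, norm_ee, one_mul]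
    exact GEO_upper (a - b)

end Pool.Agent.Work.MP_7d0410_dl
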