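import Pool.Agent.Work.MP_7d0410_dl.Interface
import Pool.Agent.Work.MP_7d0410_cr.B_ONE

/-! # MP_7d0410, random subsets of the primes: block HLD, many good runs in a block of lengths -/

set_option autoImplicit false

namespace Pool.Agent.Work.MP_7d0410_dl

open Finset Filter MeasureTheory ProbabilityTheory
open Pool.Agent.Work.MP_7d0410_cr (seg sm len runs rr good gr cnt DD meet AB PP CountReg NN a0 UU SS
  AA repCount mem_runs mem_seg mem_rr mem_good mem_gr)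
open Pool.Agent.Work.MP_7d0410_sp (Prob wt Ex Pb hh gg HH T1 T2 A1 A2 VV G1 R1 LL pin F0 XX
  Ex_sum Ex_mul_const Ex_add Ex_mono Ex_nonneg Ex_congr Pb_compl Pb_nonneg)
open scoped Classical Topology

/-- the first `k + 1` elements of `S` with the property `P` -/
lemma HLD_first (S : Finset ℕ) (P : ℕ → Prop) [DecidablePred P]
    (hP : ∀ a b z : ℕ, P a → P b → a ≤ z → z ≤ b → P z) :
    ∀ k : ℕ, k + 1 ≤ (S.filter P).card → ∃ q ∈ runs S, len S q = k + 1 ∧ (∀ y ∈ seg S q, P y) ∧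
      ∀ z ∈ S.filter P, z ∉ seg S q → q.2 < z := by
  intro k
  induction k with
  | zero =>
    intro h
    have hne : (S.filter P).Nonempty := Finset.card_pos.1 (by omega)
    obtain ⟨b, hb⟩ : ∃ b, b = (S.filter P).min' hne := ⟨_, rfl⟩
    have h1 := Finset.min'_mem _ hne
    rw [← hb, Finset.mem_filter] at h1
    have hseg : seg S (b, b) = {b} := by
      ext m
      rw [mem_seg, Finset.mem_singleton]
      constructor
      · rintro ⟨_, h2, h3⟩
        simp only at h2 h3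
        omega
      · rintro rfl
        exact ⟨h1.1, le_rfl, le_rfl⟩
    refine ⟨(b, b), mem_runs.2 ⟨h1.1, h1.1, le_rfl⟩, ?_, ?_, ?_⟩
    · unfold len
      rw [hseg, Finset.card_singleton]
    · intro y hy
      rw [hseg, Finset.mem_singleton] at hy
      rw [hy]
      exact h1.2
    · intro z hz hz'
      rw [hseg, Finset.mem_singleton] at hz'
      have := Finset.min'_le _ _ hz
      rw [← hb] at this
      show b < z
      omega
  | succ k ih =>
    intro h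
    obtain ⟨q, hq, hlen, hqP, hqz⟩ := ih (by omega)
    obtain ⟨g1, g2, g3⟩ := mem_runs.1 hq
    have hq1 : P q.1 := hqP _ (mem_seg.2 ⟨g1, le_rfl, g3⟩)
    have hne : ((S.filter P).filter (fun z => z ∉ seg S q)).Nonempty := by
      obtain ⟨m, hm1, hm2⟩ := Finset.exists_mem_notMem_of_card_lt_card
        (show (seg S q).card < (S.filter P).card by
          unfold len at hlen
          omega)
      exact ⟨m, Finset.mem_filter.2 ⟨hm1, hm2⟩⟩
    obtain ⟨b, hb⟩ : ∃ b, b = ((S.filter P).filter (fun z => z ∉ seg S q)).min' hne := ⟨_, rfl⟩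
    have h1 := Finset.min'_mem _ hne
    rw [← hb, Finset.mem_filter, Finset.mem_filter] at h1
    obtain ⟨⟨hbS, hbP⟩, hbseg⟩ := h1
    have hqb : q.2 < b := hqz b (Finset.mem_filter.2 ⟨hbS, hbP⟩) hbseg
    have hbmin : ∀ z ∈ S.filter P, z ∉ seg S q → b ≤ z := by
      intro z hz hz'
      rw [hb]
      exact Finset.min'_le _ _ (Finset.mem_filter.2 ⟨hz, hz'⟩)
    have hseg : seg S (q.1, b) = insert b (seg S q) := by
      ext m
      rw [mem_seg, Finset.mem_insert]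
      constructor
      · rintro ⟨h2, h3, h4⟩
        simp only at h3 h4
        by_cases hm : m ∈ seg S q
        · exact Or.inr hm
        · have hPm : P m := hP q.1 b m hq1 hbP h3 h4
          have := hbmin m (Finset.mem_filter.2 ⟨h2, hPm⟩) hm
          exact Or.inl (by omega)
      · rintro (rfl | hm)
        · exact ⟨hbS, by show q.1 ≤ m; omega, le_rfl⟩
        · obtain ⟨h2, h3, h4⟩ := mem_seg.1 hm
          exact ⟨h2, h3, by show m ≤ b; omega⟩
    refine ⟨(q.1, b), mem_runs.2 ⟨g1, hbS, by show q.1 ≤ b; omega⟩, ?_, ?_, ?_⟩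
    · unfold len at hlen ⊢
      rw [hseg, Finset.card_insert_of_notMem hbseg, hlen]
    · intro y hy
      rw [hseg, Finset.mem_insert] at hy
      rcases hy with rfl | hy
      · exact hbP
      · exact hqP y hy
    · intro z hz hz'
      rw [hseg, Finset.mem_insert, not_or] at hz'
      have := hbmin z hz hz'.2
      have h3 := hz'.1
      show b < z
      omega

/-- a run of length `r + i` with small sum -/
lemma HLD_left (S : Finset ℕ) (Λ n r i L : ℕ) (hi : i < r)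
    (hT : 2 * r ≤ (S.filter (fun z => r * z < n ∧ n ≤ r * (z + Λ))).card)
    (hnum : i * n + r * L < r * ((r + i) * (r - i))) :
    ∃ q ∈ runs S, len S q = r + i ∧ sm S q + L < n ∧ n ≤ r * (q.1 + Λ) := by
  have hr : 1 ≤ r := by omega
  obtain ⟨q, hq, hlen, hqP, hqz⟩ := HLD_first S (fun z => r * z < n ∧ n ≤ r * (z + Λ))
    (by
      rintro a b z ⟨_, h2⟩ ⟨h3, _⟩ h5 h6
      refine ⟨(Nat.mul_le_mul_left r h6).trans_lt h3, h2.trans (Nat.mul_le_mul_left r (by omega))⟩)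
    (r + i - 1) (by omega)
  have hlen' : len S q = r + i := by omega
  obtain ⟨g1, g2, g3⟩ := mem_runs.1 hq
  -- the other elements
  have h1 : r * (q.2 + (r - i)) < n := by
    by_contra hcon
    push Not at hcon
    have hsub : (S.filter (fun z => r * z < n ∧ n ≤ r * (z + Λ))) \ seg S q ⊆
        Finset.Ioo q.2 (q.2 + (r - i)) := by
      intro z hz
      rw [Finset.mem_sdiff] at hz
      rw [Finset.mem_Ioo]
      refine ⟨hqz z hz.1 hz.2, ?_⟩
      have h2 := (Finset.mem_filter.1 hz.1).2.1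
      have h3 : r * z < r * (q.2 + (r - i)) := lt_of_lt_of_le h2 hcon
      exact Nat.lt_of_mul_lt_mul_left h3
    have h4 := Finset.card_le_card hsub
    rw [Nat.card_Ioo] at h4
    have h5 := Finset.le_card_sdiff (seg S q) (S.filter (fun z => r * z < n ∧ n ≤ r * (z + Λ)))
    unfold len at hlen'
    rw [hlen'] at h5
    omega
  have h2 : sm S q ≤ (r + i) * q.2 := by
    have := Finset.sum_le_card_nsmul (seg S q) (fun m => m) q.2
      (fun m hm => (mem_seg.1 hm).2.2)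
    rw [smul_eq_mul] at this
    have e : (seg S q).card = r + i := hlen'
    rw [e] at this
    exact this
  refine ⟨q, hq, hlen', ?_, (hqP _ (mem_seg.2 ⟨g1, le_rfl, g3⟩)).2⟩
  obtain ⟨d, hd⟩ : ∃ d, d = r - i := ⟨_, rfl⟩
  rw [← hd] at h1 hnum
  have h3 : (r + i) * (r * (q.2 + d) + 1) ≤ (r + i) * n := Nat.mul_le_mul_left _ h1
  have h4 : r * sm S q ≤ r * ((r + i) * q.2) := Nat.mul_le_mul_left _ h2
  have h5 : r * (sm S q + L) < r * n := by nlinarith
  exact Nat.lt_of_mul_lt_mul_left h5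

/-- a run of length `r + i` with large sum -/
lemma HLD_right (S : Finset ℕ) (Λ n r i : ℕ) (hi : i < r)
    (hT : 2 * r ≤ (S.filter (fun z => n < r * z ∧ r * z ≤ n + r * Λ)).card) :
    ∃ q ∈ runs S, len S q = r + i ∧ n ≤ sm S q ∧ r * q.2 ≤ n + r * Λ := by
  have hr : 1 ≤ r := by omega
  obtain ⟨q, hq, hlen, hqP, -⟩ := HLD_first S (fun z => n < r * z ∧ r * z ≤ n + r * Λ)
    (by
      rintro a b z ⟨h2, _⟩ ⟨_, h3⟩ h5 h6
      exact ⟨lt_of_lt_of_le h2 (Nat.mul_le_mul_left r h5), (Nat.mul_le_mul_left r h6).trans h3⟩)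
    (r + i - 1) (by omega)
  have hlen' : len S q = r + i := by omega
  obtain ⟨g1, g2, g3⟩ := mem_runs.1 hq
  refine ⟨q, hq, hlen', ?_, (hqP _ (mem_seg.2 ⟨g2, g3, le_rfl⟩)).2⟩
  have h1 : (r + i) * n ≤ r * sm S q := by
    unfold sm
    rw [Finset.mul_sum]
    have := Finset.card_nsmul_le_sum (seg S q) (fun m => r * m) n (fun m hm => (hqP m hm).1.le)
    rw [smul_eq_mul] at this
    have e : (seg S q).card = r + i := hlen'
    rw [e] at this
    exact this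
  have h2 : r * n ≤ r * sm S q := by nlinarith
  exact Nat.le_of_mul_le_mul_left h2 (by omega)

/-- the runs counted by `NN` all contain `[α, β]` -/
lemma HLD_count (S : Finset ℕ) (m n L α β : ℕ)
    (h : ∀ l ≤ L, ∀ q ∈ rr S m (n - l), q.1 ≤ α ∧ β ≤ q.2) :
    NN S m n L ≤
      ∑ l ∈ Finset.Icc 1 L, ((rr S m (n - l)).filter (fun q => q.1 ≤ α ∧ β ≤ q.2)).card := by
  unfold NN
  refine (Finset.card_le_card ?_).trans Finset.card_biUnion_le
  intro q hq
  rw [Finset.mem_filter] at hq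
  obtain ⟨h1, h2, h3, h4⟩ := hq
  rw [Finset.mem_biUnion]
  refine ⟨n - sm S q, Finset.mem_Icc.2 ⟨by omega, by omega⟩, ?_⟩
  have h5 : n - (n - sm S q) = sm S q := by omega
  have hq' : q ∈ rr S m (n - (n - sm S q)) := by
    rw [h5]
    exact mem_rr.2 ⟨h1, h2, rfl⟩
  exact Finset.mem_filter.2 ⟨hq', h _ (by omega) q hq'⟩

/-- numerics for the small sum -/
lemma HLD_num (Z r i n L : ℝ) (hZ : 96 ≤ Z) (hr : Z ^ 45 ≤ r) (hi0 : 0 ≤ i)
    (hi : i ≤ 2 * Z ^ 4) (hn0 : 0 ≤ n) (hn : n ≤ Z ^ 100) (hL : L ≤ 2 * Z * r) :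
    i * n + r * L < r * ((r + i) * (r - i)) := by
  have hZ0 : 0 < Z := by linarith
  have hZ1 : 1 ≤ Z := by linarith
  have hr0 : 0 < r := lt_of_lt_of_le (by positivity) hr
  have hpow : ∀ m : ℕ, 1 ≤ m → 96 ≤ Z ^ m := by
    intro m hm
    calc (96 : ℝ) ≤ Z := hZ
      _ = Z ^ 1 := (pow_one Z).symm
      _ ≤ Z ^ m := pow_le_pow_right₀ hZ1 hm
  have h1 : 8 * Z ^ 104 ≤ r ^ 3 := by
    calc 8 * Z ^ 104 ≤ Z ^ 31 * Z ^ 104 :=
          mul_le_mul_of_nonneg_right (by linarith [hpow 31 (by norm_num)]) (by positivity)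
      _ = (Z ^ 45) ^ 3 := by ring
      _ ≤ r ^ 3 := pow_le_pow_left₀ (by positivity) hr 3
  have h2 : 8 * Z ≤ r := by
    calc 8 * Z ≤ Z ^ 44 * Z :=
          mul_le_mul_of_nonneg_right (by linarith [hpow 44 (by norm_num)]) hZ0.le
      _ = Z ^ 45 := by ring
      _ ≤ r := hr
  have h3 : 16 * Z ^ 8 ≤ r ^ 2 := by
    calc 16 * Z ^ 8 ≤ Z ^ 82 * Z ^ 8 :=
          mul_le_mul_of_nonneg_right (by linarith [hpow 82 (by norm_num)]) (by positivity)
      _ = (Z ^ 45) ^ 2 := by ring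
      _ ≤ r ^ 2 := pow_le_pow_left₀ (by positivity) hr 2
  have h4 : i * n ≤ r ^ 3 / 4 := by
    calc i * n ≤ (2 * Z ^ 4) * Z ^ 100 := mul_le_mul hi hn hn0 (by positivity)
      _ = 2 * Z ^ 104 := by ring
      _ ≤ r ^ 3 / 4 := by linarith
  have h5 : r * L ≤ r ^ 3 / 4 := by
    have h6 : r * L ≤ r * (2 * Z * r) := mul_le_mul_of_nonneg_left hL hr0.le
    have h7 : r ^ 2 * (8 * Z) ≤ r ^ 2 * r := mul_le_mul_of_nonneg_left h2 (by positivity)
    nlinarith
  have h6 : i ^ 2 ≤ r ^ 2 / 4 := by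
    have h7 : i ^ 2 ≤ (2 * Z ^ 4) ^ 2 := pow_le_pow_left₀ hi0 hi 2
    have h8 : (2 * Z ^ 4) ^ 2 = 4 * Z ^ 8 := by ring
    linarith
  have h7 : r * i ^ 2 ≤ r ^ 3 / 4 := by
    have := mul_le_mul_of_nonneg_left h6 hr0.le
    nlinarith
  have h8 : 0 < r ^ 3 := by positivity
  have h9 : r * ((r + i) * (r - i)) = r ^ 3 - r * i ^ 2 := by ring
  rw [h9]
  linarith

/-- `2 r ^ 2 ≤ exp (r / 2)` -/
lemma HLD_exp (r : ℝ) (hr : 96 ≤ r) : 2 * r ^ 2 ≤ Real.exp (r / 2) := by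
  have h1 := Real.pow_div_factorial_le_exp (r / 2) (by linarith) 3
  have h2 : ((Nat.factorial 3 : ℕ) : ℝ) = 6 := by norm_num [Nat.factorial]
  rw [h2] at h1
  refine le_trans ?_ h1
  have h3 : (r / 2) ^ 3 / 6 = r ^ 2 * r / 48 := by ring
  rw [h3]
  nlinarith [sq_nonneg r]

/-- the final computation -/
lemma HLD_fin (J Λ L P0 E H G a : ℝ) (hJ : 0 ≤ J) (hΛ : 0 < Λ) (hL : 8 * Λ ≤ L) (hP0 : 0 ≤ P0)
    (hP1 : 16 * Λ * P0 ≤ 1) (hΛ1 : 1 ≤ Λ) (hE : 16 * Λ * E ≤ J)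
    (ha : a = (1 - P0) * (L / (2 * Λ) - 1)) (hH : J * a ≤ L * (H + E)) (hG : H ≤ G + J * P0) :
    J / (16 * Λ) ≤ G := by
  have hL0 : 0 < L := by linarith
  have hP2 : P0 ≤ 1 / 16 := by nlinarith
  have h1 : 3 * L / 8 ≤ Λ * (L / (2 * Λ) - 1) := by
    have : Λ * (L / (2 * Λ) - 1) = L / 2 - Λ := by
      field_simp
    rw [this]
    linarith
  have h2 : 45 / 128 * L ≤ Λ * a := by
    rw [ha]
    have h3 : Λ * ((1 - P0) * (L / (2 * Λ) - 1)) = (1 - P0) * (Λ * (L / (2 * Λ) - 1)) := by ring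
    rw [h3]
    calc 45 / 128 * L = 15 / 16 * (3 * L / 8) := by ring
      _ ≤ (1 - P0) * (Λ * (L / (2 * Λ) - 1)) :=
        mul_le_mul (by linarith) h1 (by positivity) (by linarith)
  have h3 : 45 / 128 * J ≤ Λ * (H + E) := by
    have h4 : J * (45 / 128 * L) ≤ J * (Λ * a) := mul_le_mul_of_nonneg_left h2 hJ
    have h5 : Λ * (J * a) ≤ Λ * (L * (H + E)) := mul_le_mul_of_nonneg_left hH hΛ.le
    have h6 : (45 / 128 * J) * L ≤ (Λ * (H + E)) * L := by nlinarith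
    exact le_of_mul_le_mul_right h6 hL0
  have h4 : Λ * H ≤ Λ * G + J * (Λ * P0) := by
    have := mul_le_mul_of_nonneg_left hG hΛ.le
    nlinarith
  have h5 : J * (Λ * P0) ≤ J * (1 / 16) := mul_le_mul_of_nonneg_left (by linarith) hJ
  rw [div_le_iff₀ (by positivity)]
  nlinarith

/-- HLD -/
theorem p_HLD (hFLN : Stmt_FLN) (hCOV : Stmt_COV) (hCRS : Stmt_CRS) (hTYP : Stmt_TYP) :
    Stmt_HLD := by
  intro w c κ hR K C1 hK hK4 hC1
  obtain ⟨c3, hc3, hcov⟩ := hCOV K C1 hK hC1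
  have hFL := hFLN w c κ hR C1 c3 hC1 hc3
  have hθ := tt_pos hR
  have hθ1 := tt_le hR
  obtain ⟨θ, hθdef⟩ : ∃ θ, θ = tt c := ⟨_, rfl⟩
  rw [← hθdef] at hθ hθ1 hFL ⊢
  refine ⟨1 / (32 * C1), by positivity, ?_⟩
  have e0 : ∀ᶠ x : ℕ in atTop, (3 : ℝ) ≤ x :=
    tendsto_natCast_atTop_atTop.eventually_ge_atTop 3
  have e1 : ∀ᶠ x : ℕ in atTop, (96 : ℝ) ≤ (x : ℝ) ^ (1 / 100 : ℝ) :=
    ((tendsto_rpow_atTop (by norm_num)).comp tendsto_natCast_atTop_atTop).eventually_ge_atTop 96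
  have e2 : ∀ᶠ x : ℕ in atTop, 32 * C1 * Real.log x ≤ (x : ℝ) ^ θ := by
    have h3 := isLittleO_log_rpow_atTop hθ
    have h4 := h3.comp_tendsto tendsto_natCast_atTop_atTop
    have h5 := h4.bound (show 0 < 1 / (32 * C1) by positivity)
    filter_upwards [h5, e0] with x hx hx3
    simp only [Function.comp_apply, Real.norm_eq_abs] at hx
    have h6 : 0 ≤ Real.log x := Real.log_nonneg (by linarith)
    rw [abs_of_nonneg h6, abs_of_nonneg (by positivity)] at hx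
    have h7 := mul_le_mul_of_nonneg_left hx (show 0 ≤ 32 * C1 by positivity)
    have h8 : 32 * C1 * (1 / (32 * C1) * (x : ℝ) ^ θ) = (x : ℝ) ^ θ := by
      field_simp
    rw [h8] at h7
    exact h7
  have e3 : ∀ᶠ x : ℕ in atTop, (500 : ℝ) ≤ (x : ℝ) ^ θ :=
    ((tendsto_rpow_atTop hθ).comp tendsto_natCast_atTop_atTop).eventually_ge_atTop 500
  filter_upwards [e0, e1, e2, e3, hcov θ hθ hθ1, hFL] with x hx3 hZ hxl hx5 hcovx hFx
  intro n r hn hn' hr
  obtain ⟨hr1, hGK, hA1, hA2⟩ := Finset.mem_filter.1 hr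
  obtain ⟨hr1, -⟩ := Finset.mem_Icc.1 hr1
  obtain ⟨α, β, hα, hβ, hαβ, hβα, hMM, hcv⟩ := hcovx n r hn hn' hr
  -- numbers
  have hX0 : (0 : ℝ) < x := by linarith
  have hX1 : (1 : ℝ) ≤ x := by linarith
  have hlog : 1 ≤ Real.log x := by
    rw [Real.le_log_iff_exp_le hX0]
    exact (Real.exp_one_lt_d9.le.trans (by norm_num)).trans hx3
  obtain ⟨Z, hZdef⟩ : ∃ Z : ℝ, Z = (x : ℝ) ^ (1 / 100 : ℝ) := ⟨_, rfl⟩
  rw [← hZdef] at hZ
  have hZpow : ∀ m : ℕ, Z ^ m = (x : ℝ) ^ ((m : ℝ) / 100) := by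
    intro m
    rw [hZdef, ← Real.rpow_natCast, ← Real.rpow_mul hX0.le]
    congr 1
    ring
  have hr1' : (1 : ℝ) ≤ r := by exact_mod_cast hr1
  have hr0 : (0 : ℝ) < r := by linarith
  have hnx : (x : ℝ) ≤ 1000 * n := by exact_mod_cast hn
  have hnx' : (n : ℝ) ≤ x := by exact_mod_cast hn'
  have hA1' : (x : ℝ) ^ (1 / 2 + 4 * θ) ≤ A1 θ x := Nat.le_ceil _
  have hA2' : (A2 θ x : ℝ) ≤ (x : ℝ) ^ (1 / 2 + 8 * θ) := Nat.floor_le (by positivity)
  have hA1r : 2 * (A1 θ x : ℝ) * r ≤ n := by exact_mod_cast hA1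
  have hA2r : 2 * (n : ℝ) ≤ A2 θ x * r := by exact_mod_cast hA2
  have hxθ0 : 0 < (x : ℝ) ^ θ := by positivity
  have hxθ1 : 1 ≤ (x : ℝ) ^ θ := by linarith
  -- lower bound for `r`
  have hrlow : (x : ℝ) ^ (1 / 2 - 9 * θ) ≤ r := by
    have h1 : (x : ℝ) ≤ 500 * ((x : ℝ) ^ (1 / 2 + 8 * θ) * r) := by
      have := mul_le_mul_of_nonneg_right hA2' hr0.le
      linarith
    have h2 : (x : ℝ) ^ θ * ((x : ℝ) ^ (1 / 2 + 8 * θ) * (x : ℝ) ^ (1 / 2 - 9 * θ)) = x := by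
      rw [← Real.rpow_add hX0, ← Real.rpow_add hX0]
      have : θ + (1 / 2 + 8 * θ + (1 / 2 - 9 * θ)) = 1 := by ring
      rw [this, Real.rpow_one]
    have h3 : 500 * ((x : ℝ) ^ (1 / 2 + 8 * θ) * (x : ℝ) ^ (1 / 2 - 9 * θ)) ≤ x := by
      calc 500 * ((x : ℝ) ^ (1 / 2 + 8 * θ) * (x : ℝ) ^ (1 / 2 - 9 * θ))
          ≤ (x : ℝ) ^ θ * ((x : ℝ) ^ (1 / 2 + 8 * θ) * (x : ℝ) ^ (1 / 2 - 9 * θ)) :=
            mul_le_mul_of_nonneg_right hx5 (by positivity)
        _ = x := h2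
    have h4 : (x : ℝ) ^ (1 / 2 + 8 * θ) * (x : ℝ) ^ (1 / 2 - 9 * θ) ≤
        (x : ℝ) ^ (1 / 2 + 8 * θ) * r := by linarith
    exact le_of_mul_le_mul_left h4 (by positivity)
  have hrZ : Z ^ 45 ≤ r := by
    rw [hZpow]
    refine le_trans (Real.rpow_le_rpow_of_exponent_le hX1 ?_) hrlow
    push_cast
    linarith
  have hZ1 : 1 ≤ Z := by linarith
  have hxθZ : (x : ℝ) ^ θ ≤ Z := by
    rw [hZdef]
    exact Real.rpow_le_rpow_of_exponent_le hX1 (by linarith)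
  have hx2θZ : (x : ℝ) ^ (2 * θ) ≤ Z := by
    rw [hZdef]
    exact Real.rpow_le_rpow_of_exponent_le hX1 (by linarith)
  have hx8θZ : (x : ℝ) ^ (8 * θ) ≤ Z ^ 4 := by
    rw [hZpow]
    refine Real.rpow_le_rpow_of_exponent_le hX1 ?_
    push_cast
    linarith
  have hZr : Z ≤ r := by
    refine le_trans ?_ hrZ
    calc Z = Z ^ 1 := (pow_one Z).symm
      _ ≤ Z ^ 45 := pow_le_pow_right₀ hZ1 (by norm_num)
  -- `J`, `L`, `Λ`
  obtain ⟨J, hJ⟩ : ∃ J, J = JJ θ x := ⟨_, rfl⟩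
  obtain ⟨L, hL⟩ : ∃ L, L = LN θ x r := ⟨_, rfl⟩
  obtain ⟨Λ, hΛ⟩ : ∃ Λ, Λ = LL C1 x r := ⟨_, rfl⟩
  rw [← hJ] at hFx
  rw [← hJ, ← hL, ← hΛ] at hcv
  rw [← hΛ] at hGK
  rw [← hJ]
  have hJ1 : (J : ℝ) ≤ 2 * Z ^ 4 := by
    have h1 : (J : ℝ) ≤ (x : ℝ) ^ (8 * θ) + 1 := by
      rw [hJ]
      exact (Nat.ceil_lt_add_one (by positivity)).le
    have h2 : 1 ≤ Z ^ 4 := one_le_pow₀ hZ1
    linarith
  have hL1 : (L : ℝ) ≤ 2 * Z * r := by
    have h1 : (⌈(x : ℝ) ^ (2 * θ)⌉₊ : ℝ) ≤ (x : ℝ) ^ (2 * θ) + 1 :=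
      (Nat.ceil_lt_add_one (by positivity)).le
    rw [hL, LN]
    push_cast
    exact mul_le_mul_of_nonneg_right (by linarith) hr0.le
  have hL2 : (x : ℝ) ^ θ * r ≤ L := by
    have h1 : (x : ℝ) ^ (2 * θ) ≤ (⌈(x : ℝ) ^ (2 * θ)⌉₊ : ℝ) := Nat.le_ceil _
    have h2 : (x : ℝ) ^ θ ≤ (x : ℝ) ^ (2 * θ) :=
      Real.rpow_le_rpow_of_exponent_le hX1 (by linarith)
    rw [hL, LN]
    push_cast
    exact mul_le_mul_of_nonneg_right (by linarith) hr0.le
  have hC1r : 1 ≤ C1 * r * Real.log x := by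
    have h1 : 1 ≤ C1 * r := by nlinarith
    nlinarith
  have hΛ1 : (Λ : ℝ) ≤ 2 * (C1 * r * Real.log x) := by
    have h1 : (Λ : ℝ) ≤ C1 * r * Real.log x + 1 := by
      rw [hΛ]
      exact (Nat.ceil_lt_add_one (by positivity)).le
    linarith
  have hΛ2 : C1 * r * Real.log x ≤ Λ := by
    rw [hΛ]
    exact Nat.le_ceil _
  have hΛ3 : (1 : ℝ) ≤ Λ := by linarith
  have hΛ0 : (0 : ℝ) < Λ := by linarith
  have hΛr : 16 * (Λ : ℝ) ≤ (x : ℝ) ^ θ * r := by
    have h1 := mul_le_mul_of_nonneg_right hxl hr0.le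
    nlinarith
  have hJr : J < r := by
    have h1 : (J : ℝ) < r := by
      have h2 : 2 * Z ^ 4 < Z ^ 45 := by
        have h3 : Z ^ 45 = Z ^ 41 * Z ^ 4 := by ring
        have h4 : Z ≤ Z ^ 41 := by
          calc Z = Z ^ 1 := (pow_one Z).symm
            _ ≤ Z ^ 41 := pow_le_pow_right₀ hZ1 (by norm_num)
        rw [h3]
        have h5 : 0 < Z ^ 4 := by positivity
        nlinarith
      linarith
    exact_mod_cast h1
  -- the conditions of `TYP`
  have hΛA1 : Λ ≤ A1 θ x := by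
    have h1 : 16 * (Λ : ℝ) * (2 * A1 θ x) ≤ (x : ℝ) ^ θ * x := by
      have h2 : (x : ℝ) ^ θ * r * (2 * A1 θ x) ≤ (x : ℝ) ^ θ * x := by
        have h3 : (r : ℝ) * (2 * A1 θ x) ≤ x := by linarith
        have := mul_le_mul_of_nonneg_left h3 hxθ0.le
        linarith
      have h4 := mul_le_mul_of_nonneg_right hΛr (show (0 : ℝ) ≤ 2 * A1 θ x by positivity)
      linarith
    have h2 : (x : ℝ) ^ θ * x ≤ (A1 θ x : ℝ) ^ 2 := by
      have h3 : (x : ℝ) ^ θ * x = (x : ℝ) ^ (θ + 1) := by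
        rw [Real.rpow_add hX0, Real.rpow_one]
      have h4 : ((x : ℝ) ^ (1 / 2 + 4 * θ)) ^ 2 = (x : ℝ) ^ (1 + 8 * θ) := by
        rw [← Real.rpow_natCast, ← Real.rpow_mul hX0.le]
        congr 1
        push_cast
        ring
      have h5 : (x : ℝ) ^ (θ + 1) ≤ (x : ℝ) ^ (1 + 8 * θ) :=
        Real.rpow_le_rpow_of_exponent_le hX1 (by linarith)
      have h6 := pow_le_pow_left₀ (by positivity) hA1' 2
      linarith
    have h3 : (0 : ℝ) < A1 θ x := lt_of_lt_of_le (by positivity) hA1'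
    have h4 : (Λ : ℝ) ≤ A1 θ x := by
      by_contra hcon
      push Not at hcon
      nlinarith
    exact_mod_cast h4
  have hT1 : A1 θ x * r + Λ * r ≤ n := by
    have := Nat.mul_le_mul_right r hΛA1
    nlinarith
  have hT2 : n + Λ * r ≤ A2 θ x * r := by
    have : 0 ≤ A1 θ x * r := Nat.zero_le _
    nlinarith
  obtain ⟨P0, hP0⟩ : ∃ P0, P0 = Pb (pd w) (VV θ x) (fun S => ¬ TY Λ n r S) := ⟨_, rfl⟩
  have hprob : Prob (pd w) := prob_pd hR
  have hP00 : 0 ≤ P0 := by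
    rw [hP0]
    exact Pb_nonneg hprob _ _
  have hPty := hTYP w c κ hR K hK4 (A1 θ x) (A2 θ x) Λ n r hr1 hGK hT1 hT2
  have hP1 : 16 * (Λ : ℝ) * P0 ≤ 1 := by
    have h1 : P0 ≤ 2 * Real.exp (-((r : ℝ) / 2)) := by
      rw [hP0]
      exact hPty
    have h2 : 2 * (r : ℝ) ^ 2 ≤ Real.exp ((r : ℝ) / 2) := HLD_exp r (by linarith)
    have h3 : 16 * (Λ : ℝ) ≤ (r : ℝ) ^ 2 := by
      have h4 : (x : ℝ) ^ θ * r ≤ r * r := mul_le_mul_of_nonneg_right (by linarith) hr0.le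
      nlinarith
    rw [Real.exp_neg] at h1
    have h4 : 0 < Real.exp ((r : ℝ) / 2) := Real.exp_pos _
    have h5 : 16 * (Λ : ℝ) * P0 ≤ (r : ℝ) ^ 2 * (2 * (Real.exp ((r : ℝ) / 2))⁻¹) :=
      mul_le_mul h3 h1 hP00 (by positivity)
    have h6 : (r : ℝ) ^ 2 * (2 * (Real.exp ((r : ℝ) / 2))⁻¹) =
        2 * (r : ℝ) ^ 2 / Real.exp ((r : ℝ) / 2) := by
      rw [div_eq_mul_inv]
      ring
    rw [h6] at h5
    exact h5.trans ((div_le_one h4).2 h2)
  -- many runs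
  have hNN : ∀ S : Finset ℕ, TY Λ n r S → ∀ i < J,
      (L : ℝ) / (2 * Λ) - 1 ≤ (NN S (r + i) n L : ℝ) := by
    intro S hTY i hi
    obtain ⟨hTl, hTr⟩ := hTY
    have hir : i < r := by omega
    have hnum : i * n + r * L < r * ((r + i) * (r - i)) := by
      have hiJ : (i : ℝ) ≤ J := by exact_mod_cast hi.le
      have h1 := HLD_num Z r i n L hZ hrZ (Nat.cast_nonneg _) (hiJ.trans hJ1) (Nat.cast_nonneg _)
        (by
          rw [hZpow]
          have h8 : ((100 : ℕ) : ℝ) / 100 = 1 := by norm_num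
          rw [h8, Real.rpow_one]
          exact hnx') hL1
      have h2 : ((r - i : ℕ) : ℝ) = (r : ℝ) - i := Nat.cast_sub hir.le
      rw [← h2] at h1
      exact_mod_cast h1
    obtain ⟨q0, hq0, hlen0, hsm0, hq01⟩ := HLD_left S Λ n r i L hir hTl hnum
    obtain ⟨q1, hq1, hlen1, hsm1, hq12⟩ := HLD_right S Λ n r i hir hTr
    have hg : q1.2 ≤ q0.1 + 2 * Λ := by
      have h1 : r * q1.2 ≤ r * (q0.1 + 2 * Λ) := by nlinarith
      exact Nat.le_of_mul_le_mul_left h1 (by omega)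
    have h1 := hCRS S (r + i) n L (2 * Λ) q0 q1 hq0 hq1 (by omega) hlen0 hlen1 hsm0 hsm1 hg
    have h2 : (L : ℝ) ≤ ((NN S (r + i) n L : ℝ) + 1) * (2 * Λ) := by exact_mod_cast h1
    rw [sub_le_iff_le_add, div_le_iff₀ (by positivity)]
    exact h2
  obtain ⟨a, ha⟩ : ∃ a : ℝ, a = (1 - P0) * ((L : ℝ) / (2 * Λ) - 1) := ⟨_, rfl⟩
  have hL8 : 8 * (Λ : ℝ) ≤ L := by linarith
  have hLge : 0 ≤ (L : ℝ) / (2 * Λ) - 1 := by
    rw [sub_nonneg, le_div_iff₀ (by positivity)]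
    linarith
  have hA : ∀ i < J, a ≤ ∑ l ∈ Finset.Icc 1 L, hM (pd w) (VV θ x) α β (r + i) (n - l) := by
    intro i hi
    have h1 : ∑ l ∈ Finset.Icc 1 L, hM (pd w) (VV θ x) α β (r + i) (n - l) =
        Ex (pd w) (VV θ x) (fun S => ∑ l ∈ Finset.Icc 1 L,
          (((rr S (r + i) (n - l)).filter (fun q => q.1 ≤ α ∧ β ≤ q.2)).card : ℝ)) := by
      rw [Ex_sum]
      rfl
    have h2 : a = Ex (pd w) (VV θ x) (fun S => (if TY Λ n r S then 1 else 0) *
        ((L : ℝ) / (2 * Λ) - 1)) := by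
      rw [Ex_mul_const, ha]
      congr 1
      have h3 := Pb_compl (p := pd w) (VV θ x) (fun S => TY Λ n r S)
      have h4 : Pb (pd w) (VV θ x) (fun S => TY Λ n r S) =
          Ex (pd w) (VV θ x) (fun S => if TY Λ n r S then 1 else 0) := rfl
      rw [← h4]
      rw [← hP0] at h3
      linarith
    rw [h1, h2]
    refine Ex_mono_pd hR fun S _ hSp => ?_
    by_cases hTY : TY Λ n r S
    · rw [if_pos hTY, one_mul]
      refine (hNN S hTY i hi).trans ?_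
      have h3 := HLD_count S (r + i) n L α β (fun l hl q hq => by
        obtain ⟨h5, h6, -, -⟩ := hcv S hSp hTY i l hi hl q hq
        exact ⟨h5, h6⟩)
      exact_mod_cast h3
    · rw [if_neg hTY, zero_mul]
      positivity
  obtain ⟨H, hH⟩ : ∃ H, H = ∑ i ∈ Finset.range J, hM (pd w) (VV θ x) α β (r + i) n := ⟨_, rfl⟩
  obtain ⟨E, hE⟩ : ∃ E, E = (J : ℝ) * (x : ℝ) ^ (-θ) / r := ⟨_, rfl⟩
  have hHE : (J : ℝ) * a ≤ L * (H + E) := by
    have h1 : ∀ l ∈ Finset.Icc 1 L,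
        ∑ i ∈ Finset.range J, hM (pd w) (VV θ x) α β (r + i) (n - l) ≤ H + E := by
      intro l hl
      obtain ⟨_, hl2⟩ := Finset.mem_Icc.1 hl
      have h2 := hFx r α β hα hβ hαβ hβα hMM hrlow n (n - l) (Nat.sub_le _ _)
        (by
          rw [← hL]
          omega)
      rw [← hH, ← hE] at h2
      have h3 := neg_le_of_abs_le h2
      linarith
    have h2 := Finset.sum_le_sum h1
    rw [Finset.sum_comm, Finset.sum_const, Nat.card_Icc, Nat.add_sub_cancel, nsmul_eq_mul] at h2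
    have h3 : ∑ i ∈ Finset.range J, a ≤ ∑ i ∈ Finset.range J, ∑ l ∈ Finset.Icc 1 L,
        hM (pd w) (VV θ x) α β (r + i) (n - l) :=
      Finset.sum_le_sum fun i hi => hA i (Finset.mem_range.1 hi)
    rw [Finset.sum_const, Finset.card_range, nsmul_eq_mul] at h3
    exact h3.trans h2
  have hE1 : 16 * (Λ : ℝ) * E ≤ J := by
    have h1 : 16 * (Λ : ℝ) * E ≤ (x : ℝ) ^ θ * r * E := by
      refine mul_le_mul_of_nonneg_right hΛr ?_
      rw [hE]
      positivity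
    have h2 : (x : ℝ) ^ θ * r * E = J := by
      have h3 : (x : ℝ) ^ θ * (x : ℝ) ^ (-θ) = 1 := by
        rw [← Real.rpow_add hX0, add_neg_cancel, Real.rpow_zero]
      rw [hE]
      calc (x : ℝ) ^ θ * r * ((J : ℝ) * (x : ℝ) ^ (-θ) / r)
          = ((x : ℝ) ^ θ * (x : ℝ) ^ (-θ)) * J * (r / r) := by ring
        _ = J := by rw [h3, div_self hr0.ne', one_mul, mul_one]
    linarith
  -- good runs
  obtain ⟨G, hG⟩ : ∃ G, G = ∑ i ∈ Finset.range J, Ex (pd w) (VV θ x)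
      (fun S => (((gr (R1 θ x) (G1 θ x) S n).filter (fun q => len S q = r + i)).card : ℝ)) :=
    ⟨_, rfl⟩
  have hHG : H ≤ G + J * P0 := by
    have h1 : ∀ i ∈ Finset.range J, hM (pd w) (VV θ x) α β (r + i) n ≤ Ex (pd w) (VV θ x)
        (fun S => (((gr (R1 θ x) (G1 θ x) S n).filter (fun q => len S q = r + i)).card : ℝ)) +
          P0 := by
      intro i hi
      rw [hP0]
      unfold Pb hM
      rw [← Ex_add]
      refine Ex_mono_pd hR fun S _ hSp => ?_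
      by_cases hTY : TY Λ n r S
      · rw [if_neg (not_not.2 hTY), add_zero]
        refine Nat.cast_le.2 (Finset.card_le_card fun q hq => ?_)
        obtain ⟨hq1, _⟩ := Finset.mem_filter.1 hq
        obtain ⟨g1, g2, g3⟩ := mem_rr.1 hq1
        have hq0 : q ∈ rr S (r + i) (n - 0) := hq1
        obtain ⟨-, -, f3, f4⟩ := hcv S hSp hTY i 0 (Finset.mem_range.1 hi) (Nat.zero_le _) q hq0
        refine Finset.mem_filter.2 ⟨mem_gr.2 ⟨mem_good.2 ⟨g1, ?_, ?_⟩, g3⟩, g2⟩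
        · have h2 : R1 θ x ≤ r := Nat.ceil_le.2 hrlow
          omega
        · have h2 : q.2 ≤ q.1 + 2 * Λ := by
            have h3 : r * q.2 ≤ r * (q.1 + 2 * Λ) := by nlinarith
            exact Nat.le_of_mul_le_mul_left h3 (by omega)
          have h3 : 2 * Λ ≤ G1 θ x * len S q := by
            have h4 : (x : ℝ) ^ θ ≤ G1 θ x := Nat.le_ceil _
            have h5 : 2 * (Λ : ℝ) ≤ G1 θ x * (r + i) := by
              have h6 : (x : ℝ) ^ θ * r ≤ G1 θ x * r := mul_le_mul_of_nonneg_right h4 hr0.le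
              have h7 : (0 : ℝ) ≤ G1 θ x * i := by positivity
              nlinarith
            rw [g2]
            exact_mod_cast h5
          omega
      · rw [if_pos hTY]
        have h2 : (rr S (r + i) n).card ≤ 1 := by
          have h3 := Pool.Agent.Work.MP_7d0410_cr.p_ONE S (r + i) n (by omega)
          have h4 := Finset.single_le_sum (f := fun ℓ => (rr S (r + i) (n + ℓ)).card)
            (fun _ _ => Nat.zero_le _) (Finset.mem_range.2 (show 0 < r + i by omega))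
          simp only [add_zero] at h4
          omega
        have h3 : (((rr S (r + i) n).filter (fun q => q.1 ≤ α ∧ β ≤ q.2)).card : ℝ) ≤ 1 := by
          exact_mod_cast (Finset.card_filter_le _ _).trans h2
        have h4 : (0 : ℝ) ≤
            (((gr (R1 θ x) (G1 θ x) S n).filter (fun q => len S q = r + i)).card : ℝ) :=
          Nat.cast_nonneg _
        linarith
    have h2 := Finset.sum_le_sum h1
    rw [Finset.sum_add_distrib, Finset.sum_const, Finset.card_range, nsmul_eq_mul, ← hH, ← hG] at h2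
    exact h2
  have hfin := HLD_fin J Λ L P0 E H G a (Nat.cast_nonneg _) hΛ0 hL8 hP00 hP1 hΛ3 hE1 ha hHE hHG
  rw [← hG]
  refine le_trans ?_ hfin
  rw [div_mul_eq_mul_div, one_mul, div_div, div_le_div_iff₀ (by positivity) (by positivity)]
  have h1 : 16 * (Λ : ℝ) ≤ 32 * C1 * (r * Real.log x) := by linarith
  exact mul_le_mul_of_nonneg_left h1 (Nat.cast_nonneg _)

end Pool.Agent.Work.MP_7d0410_dl
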