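import Pool.Agent.Work.MP_7d0410_dl.Interface

set_option autoImplicit false

namespace Pool.Agent.Work.MP_7d0410_dl

open Finset Filter MeasureTheory ProbabilityTheory
open Pool.Agent.Work.MP_7d0410_cr (seg sm len runs rr good gr cnt DD meet AB PP CountReg NN a0 UU SS
  AA repCount)
open Pool.Agent.Work.MP_7d0410_sp (Prob wt Ex Pb hh gg HH T1 T2 A1 A2 VV G1 R1 LL pin F0 XX Ex_mono
  Ex_sum cnt_eq_sum_len)
open scoped Classical Topology

/-- the runs of the lengths `r + i`, for fixed `i` -/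
lemma HMD_one {p : ℕ → ℝ} (hP : Prob p) (V : Finset ℕ) (R G n i : ℕ) (I : Finset ℕ) :
    ∑ r ∈ I, Ex p V (fun S => (((gr R G S n).filter (fun q => len S q = r + i)).card : ℝ)) ≤
      HH p V R G n := by
  rw [← Ex_sum]
  unfold HH
  refine Ex_mono hP fun S _ => ?_
  have h1 := cnt_eq_sum_len R G S n (I.map (addRightEmbedding i))
  rw [Finset.sum_map] at h1
  have h2 : ((∑ r ∈ I, ((gr R G S n).filter (fun q => len S q = r + i)).card : ℕ) : ℝ) ≤
      (cnt R G S n : ℝ) := by exact_mod_cast h1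
  push_cast at h2
  exact h2

theorem p_HMD (h1 : Stmt_KGR) (h2 : Stmt_HLD) : Stmt_HMD := by
  intro w c κ hR
  have hκ : 0 < 1 - κ := by
    have := hR.k1
    linarith
  have hP := prob_pd hR
  obtain ⟨K, hKd⟩ : ∃ K : ℕ, K = ⌈4 / (1 - κ)⌉₊ := ⟨_, rfl⟩
  have hK0 : 4 / (1 - κ) ≤ K := by
    rw [hKd]
    exact Nat.le_ceil _
  have hK4 : 4 ≤ (K : ℝ) * (1 - κ) := by
    rwa [div_le_iff₀ hκ] at hK0
  have hK1 : 1 ≤ K := by
    rw [hKd]
    exact Nat.one_le_iff_ne_zero.2 (Nat.ceil_pos.2 (by positivity)).ne'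
  obtain ⟨C1, hC1, hG⟩ := h1 K hK1
  obtain ⟨c7, hc7, hG⟩ := hG (tt c) (tt_pos hR) (tt_le hR)
  obtain ⟨c2, hc2, hH⟩ := h2 w c κ hR K C1 hK1 hK4 hC1
  refine ⟨c2 * c7, by positivity, ?_⟩
  filter_upwards [hG, hH, eventually_ge_atTop 3] with x hGx hHx hx3 n hn1 hn2
  have hX3 : (3 : ℝ) ≤ x := by exact_mod_cast hx3
  have hL0 : 0 < Real.log x := Real.log_pos (by linarith)
  have hJ : (0 : ℝ) < JJ (tt c) x := by
    unfold JJ
    have : 0 < ⌈(x : ℝ) ^ (8 * tt c)⌉₊ := Nat.ceil_pos.2 (by positivity)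
    exact_mod_cast this
  have h3 := hGx n hn1 hn2
  have h4 : ∑ r ∈ RK K C1 (tt c) x n, c2 * JJ (tt c) x / (r * Real.log x) ≤
      JJ (tt c) x * HH (pd w) (VV (tt c) x) (R1 (tt c) x) (G1 (tt c) x) n := by
    refine (Finset.sum_le_sum fun r hr => hHx n r hn1 hn2 hr).trans ?_
    rw [Finset.sum_comm]
    refine (Finset.sum_le_sum fun i _ => HMD_one hP (VV (tt c) x) (R1 (tt c) x) (G1 (tt c) x) n i
      (RK K C1 (tt c) x n)).trans ?_
    rw [Finset.sum_const, Finset.card_range, nsmul_eq_mul]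
  have h5 : ∑ r ∈ RK K C1 (tt c) x n, c2 * JJ (tt c) x / (r * Real.log x) =
      c2 * JJ (tt c) x / Real.log x * ∑ r ∈ RK K C1 (tt c) x n, 1 / (r : ℝ) := by
    rw [Finset.mul_sum]
    refine Finset.sum_congr rfl fun r _ => ?_
    rw [div_mul_div_comm, mul_one, mul_comm (Real.log x)]
  rw [h5] at h4
  have h6 : c2 * JJ (tt c) x / Real.log x * (c7 * Real.log x) ≤
      c2 * JJ (tt c) x / Real.log x * ∑ r ∈ RK K C1 (tt c) x n, 1 / (r : ℝ) :=
    mul_le_mul_of_nonneg_left h3 (by positivity)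
  have h7 : c2 * JJ (tt c) x / Real.log x * (c7 * Real.log x) = JJ (tt c) x * (c2 * c7) := by
    field_simp
  rw [h7] at h6
  exact le_of_mul_le_mul_left (h6.trans h4) hJ

end Pool.Agent.Work.MP_7d0410_dl
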