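import Pool.Agent.Work.MP_7d0410_dl.Interface
import Pool.Agent.Work.MP_7d0410_sp.B_GDA

/-! # Block KGA: a rich cell -/

set_option autoImplicit false

namespace Pool.Agent.Work.MP_7d0410_dl

open Finset Filter MeasureTheory ProbabilityTheory
open Pool.Agent.Work.MP_7d0410_cr (seg sm len runs rr good gr cnt DD meet AB PP CountReg NN a0 UU SS
  AA repCount)
open Pool.Agent.Work.MP_7d0410_sp (Prob wt Ex Pb hh gg HH T1 T2 A1 A2 VV G1 R1 LL pin F0 XX
  GDA_card GDA_split)
open scoped Classical Topology

theorem p_KGA : Stmt_KGA := by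
  intro a lam ρ K hK hm
  have hKρ : ∀ r, r ≤ ρ → K * r ≤ K * ρ := fun r hr => Nat.mul_le_mul_left K hr
  set P : Finset ℕ := (Finset.Ioc a (a + lam)).filter Nat.Prime with hP
  have hm' : 3 * (K * ρ) + 2 ≤ P.card := hm
  obtain ⟨α, hα, hα1⟩ := GDA_split P (K * ρ) (by omega)
  obtain ⟨β, hβ, hβ1⟩ := GDA_split P (2 * (K * ρ) + 1) (by omega)
  have hα2 := GDA_card P hα
  have hβ2 := GDA_card P hβ
  have hab : α < β := by
    by_contra hc
    have : P.filter (fun p => p < β) ⊆ P.filter (fun p => p < α) := by
      intro p hp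
      rw [Finset.mem_filter] at hp ⊢
      exact ⟨hp.1, by omega⟩
    have := Finset.card_le_card this
    omega
  have hα3 := Finset.mem_filter.1 (hP ▸ hα)
  have hβ3 := Finset.mem_filter.1 (hP ▸ hβ)
  have hα4 := Finset.mem_Ioc.1 hα3.1
  have hβ4 := Finset.mem_Ioc.1 hβ3.1
  refine ⟨α, β, hα4.1, hab, hβ4.2, ?_, ?_⟩
  · have h1 : P.filter (fun p => α < p) ⊆
        (Finset.Ioc α (α + (β - α))).filter Nat.Prime ∪ P.filter (fun p => β < p) := by
      intro p hp
      rw [Finset.mem_filter] at hp
      rw [Finset.mem_union, Finset.mem_filter, Finset.mem_filter, Finset.mem_Ioc]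
      rcases le_or_gt p β with h2 | h2
      · left
        have h3 := Finset.mem_filter.1 (hP ▸ hp.1)
        exact ⟨⟨hp.2, by omega⟩, h3.2⟩
      · right
        exact ⟨hp.1, h2⟩
    have h2 := (Finset.card_le_card h1).trans (Finset.card_union_le _ _)
    unfold pin
    omega
  · intro Λ n r hΛ hr hrρ hn1 hn2 hn3
    have hKr := hKρ r hrρ
    refine ⟨?_, ?_⟩
    · have h1 : P.filter (fun p => p < α) ⊆ (Finset.range (n + 1)).filter
          (fun p => p.Prime ∧ r * p < n ∧ n ≤ r * (p + Λ)) := by
        intro p hp
        rw [Finset.mem_filter] at hp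
        have h3 := Finset.mem_filter.1 (hP ▸ hp.1)
        have h4 := Finset.mem_Ioc.1 h3.1
        have h5 : r * p < n := by
          have : r * p ≤ r * α := Nat.mul_le_mul_left r hp.2.le
          rw [mul_comm r α] at this
          omega
        have h6 : p ≤ r * p := Nat.le_mul_of_pos_left p (by omega)
        have h7 : n ≤ r * (p + Λ) := by
          have : r * β ≤ r * (p + Λ) := Nat.mul_le_mul_left r (by omega)
          rw [mul_comm r β] at this
          omega
        rw [Finset.mem_filter, Finset.mem_range]
        exact ⟨by omega, h3.2, h5, h7⟩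
      have h2 := Finset.card_le_card h1
      omega
    · have h1 : P.filter (fun p => β < p) ⊆ (Finset.range (2 * n + 1)).filter
          (fun p => p.Prime ∧ n < r * p ∧ r * p ≤ n + r * Λ) := by
        intro p hp
        rw [Finset.mem_filter] at hp
        have h3 := Finset.mem_filter.1 (hP ▸ hp.1)
        have h4 := Finset.mem_Ioc.1 h3.1
        have h5 : n < r * p := by
          have : r * β ≤ r * p := Nat.mul_le_mul_left r hp.2.le
          rw [mul_comm r β] at this
          omega
        have h7 : r * p ≤ n + r * Λ := by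
          have h8 : r * p ≤ r * (α + Λ) := Nat.mul_le_mul_left r (by omega)
          have h9 : r * (α + Λ) = α * r + r * Λ := by ring
          omega
        rw [Finset.mem_filter, Finset.mem_range]
        exact ⟨by omega, h3.2, h5, h7⟩
      have h2 := Finset.card_le_card h1
      omega

end Pool.Agent.Work.MP_7d0410_dl
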