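import Pool.Agent.Work.MP_7d0410_dl.Interface
import Pool.Agent.Work.MP_7d0410_sp.B_GDR

/-!
# Block KGR: the good lengths (edit of `MP_7d0410_sp/B_GDR.lean`; helper63)
-/

set_option autoImplicit false

namespace Pool.Agent.Work.MP_7d0410_dl

open Finset Filter MeasureTheory ProbabilityTheory
open Pool.Agent.Work.MP_7d0410_cr (seg sm len runs rr good gr cnt DD meet AB PP CountReg NN a0 UU SS
  AA repCount)
open Pool.Agent.Work.MP_7d0410_sp (Prob wt Ex Pb hh gg HH T1 T2 A1 A2 VV G1 R1 LL pin F0 XX)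
open scoped Classical Topology

theorem p_KGR (h : Stmt_KG1) : Stmt_KGR := by
  intro KK hKK
  obtain ⟨C1, c9, hC1, hc9, H⟩ := h KK hKK
  refine ⟨C1, hC1, fun θ h0 h1 => ⟨c9 * θ, mul_pos hc9 h0, ?_⟩⟩
  filter_upwards [H θ h0 h1, Pool.Agent.Work.MP_7d0410_sp.GDR.scales h0] with x H1 H2 n hn1 hn2
  obtain ⟨N, hN, hY⟩ := H2
  set F : ℕ → Finset ℕ := fun i => (Finset.Icc 1 x).filter (fun r =>
    GK KK (LL C1 x r) n r ∧ (2 * A1 θ x * 4 ^ i) * r < n ∧ n ≤ 4 * (2 * A1 θ x * 4 ^ i) * r) with hF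
  have hpow : ∀ i, 1 ≤ 4 ^ i := fun i => Nat.one_le_pow _ _ (by norm_num)
  have hdisj : Set.PairwiseDisjoint (↑(Finset.range N)) F := by
    have key : ∀ i j, i < j → Disjoint (F i) (F j) := by
      intro i j hij
      rw [Finset.disjoint_left]
      intro r hr hr'
      rw [hF, Finset.mem_filter] at hr hr'
      have e1 := hr.2.2.2
      have e2 := hr'.2.2.1
      have hp : 4 ^ (i + 1) ≤ 4 ^ j := Nat.pow_le_pow_right (by norm_num) hij
      have : 4 * (2 * A1 θ x * 4 ^ i) * r ≤ (2 * A1 θ x * 4 ^ j) * r := by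
        refine Nat.mul_le_mul_right _ ?_
        calc 4 * (2 * A1 θ x * 4 ^ i) = 2 * A1 θ x * 4 ^ (i + 1) := by ring
          _ ≤ _ := Nat.mul_le_mul_left _ hp
      omega
    intro i _ j _ hij
    rcases lt_or_gt_of_ne hij with h | h
    · exact key i j h
    · exact (key j i h).symm
  have hsub : (Finset.range N).biUnion F ⊆ RK KK C1 θ x n := by
    intro r hr
    obtain ⟨i, hi, hri⟩ := Finset.mem_biUnion.1 hr
    rw [hF, Finset.mem_filter] at hri
    obtain ⟨m1, m2, m3, m4⟩ := hri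
    have hYi := hY i (Finset.mem_range.1 hi)
    refine Finset.mem_filter.2 ⟨m1, m2, ?_, ?_⟩
    · have : 2 * A1 θ x * r ≤ (2 * A1 θ x * 4 ^ i) * r := by
        refine Nat.mul_le_mul_right _ ?_
        exact Nat.le_mul_of_pos_right _ (hpow i)
      omega
    · calc 2 * n ≤ 2 * (4 * (2 * A1 θ x * 4 ^ i) * r) := Nat.mul_le_mul_left _ m4
        _ = (16 * A1 θ x * 4 ^ i) * r := by ring
        _ ≤ A2 θ x * r := Nat.mul_le_mul_right _ hYi
  have hge : ∀ i ∈ Finset.range N, c9 ≤ ∑ r ∈ F i, 1 / (r : ℝ) := by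
    intro i hi
    have hYi := hY i (Finset.mem_range.1 hi)
    refine H1 n (2 * A1 θ x * 4 ^ i) hn1 hn2 ?_ ?_
    · calc A1 θ x = A1 θ x * 1 := (mul_one _).symm
        _ ≤ A1 θ x * (2 * 4 ^ i) := Nat.mul_le_mul_left _ (by have := hpow i; omega)
        _ = 2 * A1 θ x * 4 ^ i := by ring
    · refine le_trans ?_ hYi
      refine Nat.mul_le_mul_right _ ?_
      omega
  calc c9 * θ * Real.log x = c9 * (θ * Real.log x) := by ring
    _ ≤ c9 * N := mul_le_mul_of_nonneg_left hN hc9.le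
    _ = ∑ i ∈ Finset.range N, c9 := by rw [Finset.sum_const, Finset.card_range, nsmul_eq_mul]; ring
    _ ≤ ∑ i ∈ Finset.range N, ∑ r ∈ F i, 1 / (r : ℝ) := Finset.sum_le_sum hge
    _ = ∑ r ∈ (Finset.range N).biUnion F, 1 / (r : ℝ) := (Finset.sum_biUnion hdisj).symm
    _ ≤ ∑ r ∈ RK KK C1 θ x n, 1 / (r : ℝ) :=
        Finset.sum_le_sum_of_subset_of_nonneg hsub (fun r _ _ => by positivity)

end Pool.Agent.Work.MP_7d0410_dl
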