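import Pool.Agent.Work.MP_7d0410_dl.Interface

set_option autoImplicit false

/-! # Random subsets of the primes, block MOD: the norm of a factor -/

namespace Pool.Agent.Work.MP_7d0410_dl

open Finset Filter MeasureTheory ProbabilityTheory
open scoped Classical Topology

theorem MOD_cos (t : ℝ) : Real.cos (2 * Real.pi * t) ≤ 1 - 8 * dn t ^ 2 := by
  have h1 : Real.cos (2 * Real.pi * t) = Real.cos (2 * Real.pi * (t - round t)) := by
    have h2 : 2 * Real.pi * (t - round t) = 2 * Real.pi * t - (round t : ℤ) * (2 * Real.pi) := by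
      ring
    rw [h2, Real.cos_sub_int_mul_two_pi]
  have h3 : |2 * Real.pi * (t - round t)| ≤ Real.pi := by
    rw [abs_mul, abs_of_pos (by positivity : (0 : ℝ) < 2 * Real.pi)]
    have h4 : |t - round t| ≤ 1 / 2 := abs_sub_round t
    have h5 := Real.pi_pos
    nlinarith
  have h6 := Real.cos_le_one_sub_mul_cos_sq h3
  have h7 : 2 / Real.pi ^ 2 * (2 * Real.pi * (t - round t)) ^ 2 = 8 * dn t ^ 2 := by
    have h8 : dn t ^ 2 = (t - round t) ^ 2 := sq_abs _
    have h9 : Real.pi ≠ 0 := Real.pi_ne_zero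
    rw [h8]
    field_simp
    ring
  rw [h1]
  linarith [h6, h7]

/-- MOD -/
theorem p_MOD : Stmt_MOD := by
  intro p t hp0 hp1
  have h1 : ee t = ((Real.cos (2 * Real.pi * t) : ℝ) : ℂ) +
      ((Real.sin (2 * Real.pi * t) : ℝ) : ℂ) * Complex.I := by
    unfold ee
    have : (2 * Real.pi * t * Complex.I : ℂ) = ((2 * Real.pi * t : ℝ) : ℂ) * Complex.I := by
      push_cast
      ring
    rw [this, Complex.exp_mul_I, Complex.ofReal_cos, Complex.ofReal_sin]
  have h2 : ‖((1 - p : ℝ) : ℂ) + ((p : ℝ) : ℂ) * ee t‖ ^ 2 =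
      1 - 2 * p * (1 - p) * (1 - Real.cos (2 * Real.pi * t)) := by
    have h3 : ((1 - p : ℝ) : ℂ) + ((p : ℝ) : ℂ) * ee t =
        (((1 - p) + p * Real.cos (2 * Real.pi * t) : ℝ) : ℂ) +
          ((p * Real.sin (2 * Real.pi * t) : ℝ) : ℂ) * Complex.I := by
      rw [h1]
      push_cast
      ring
    rw [h3, ← Complex.normSq_eq_norm_sq, Complex.normSq_add_mul_I]
    have h4 := Real.sin_sq_add_cos_sq (2 * Real.pi * t)
    have h5 : Real.sin (2 * Real.pi * t) ^ 2 = 1 - Real.cos (2 * Real.pi * t) ^ 2 := by linarith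
    rw [mul_pow p (Real.sin (2 * Real.pi * t)) 2, h5]
    ring
  have h6 := MOD_cos t
  have h7 : 0 ≤ p * (1 - p) := mul_nonneg hp0 (by linarith)
  have h8 : ‖((1 - p : ℝ) : ℂ) + ((p : ℝ) : ℂ) * ee t‖ ^ 2 ≤
      Real.exp (-(8 * p * (1 - p) * dn t ^ 2)) ^ 2 := by
    rw [h2, ← Real.exp_nat_mul]
    have h9 := Real.add_one_le_exp (((2 : ℕ) : ℝ) * -(8 * p * (1 - p) * dn t ^ 2))
    refine le_trans ?_ h9
    push_cast
    nlinarith [mul_nonneg h7 (sub_nonneg.2 h6)]
  exact (pow_le_pow_iff_left₀ (norm_nonneg _) (Real.exp_pos _).le (by norm_num)).1 h8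

end Pool.Agent.Work.MP_7d0410_dl
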