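import Pool.Agent.Work.MP_7d0410_dl.Interface
import Pool.Agent.Work.MP_7d0410_sp.B_SFT

/-!
# RCT: runs with given approximate length and sum
-/

set_option autoImplicit false

namespace Pool.Agent.Work.MP_7d0410_dl

open Finset Filter MeasureTheory ProbabilityTheory
open Pool.Agent.Work.MP_7d0410_cr (seg sm len runs rr good gr cnt DD meet AB PP CountReg NN a0 UU SS
  AA repCount mem_runs mem_seg)
open Pool.Agent.Work.MP_7d0410_sp (Prob wt Ex Pb hh gg HH T1 T2 A1 A2 VV G1 R1 LL pin F0 XX p_SFT)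
open scoped Classical

/-- elements with values of mutual distance at least `D` in an interval of length `2 t` -/
lemma RCT_spaced {ι : Type} (T : Finset ι) (f : ι → ℝ) (D c t : ℝ) (hD : 0 < D) (ht : 0 ≤ t)
    (hf : ∀ q ∈ T, |f q - c| ≤ t) (hs : ∀ q ∈ T, ∀ q' ∈ T, q ≠ q' → D ≤ |f q - f q'|) :
    (T.card : ℝ) ≤ 2 * t / D + 1 := by
  have h0 : ∀ q ∈ T, 0 ≤ (f q - (c - t)) / D := by
    intro q hq
    have h1 := (abs_le.1 (hf q hq)).1
    exact div_nonneg (by linarith) hD.le
  have h1 : T.card ≤ (Finset.range (⌊2 * t / D⌋₊ + 1)).card := by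
    refine Finset.card_le_card_of_injOn (fun q => ⌊(f q - (c - t)) / D⌋₊) ?_ ?_
    · intro q hq
      rw [Finset.mem_coe] at hq
      simp only [Finset.coe_range, Set.mem_Iio]
      have h2 := (abs_le.1 (hf q hq)).2
      have h3 : (f q - (c - t)) / D ≤ 2 * t / D := by
        gcongr
        linarith
      have := Nat.floor_le_floor h3
      omega
    · intro q hq q' hq' heq
      rw [Finset.mem_coe] at hq hq'
      by_contra hne
      have h2 := hs q hq q' hq' hne
      have h3 : ⌊(f q - (c - t)) / D⌋₊ = ⌊(f q' - (c - t)) / D⌋₊ := heq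
      have a1 := Nat.floor_le (h0 q hq)
      have a2 := Nat.lt_floor_add_one ((f q - (c - t)) / D)
      have b1 := Nat.floor_le (h0 q' hq')
      have b2 := Nat.lt_floor_add_one ((f q' - (c - t)) / D)
      rw [h3] at a1 a2
      have h4 : |(f q - (c - t)) / D - (f q' - (c - t)) / D| < 1 := by
        rw [abs_lt]
        constructor <;> linarith
      have h5 : (f q - (c - t)) / D - (f q' - (c - t)) / D = (f q - f q') / D := by ring
      rw [h5, abs_div, abs_of_pos hD, div_lt_one hD] at h4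
      linarith
  rw [Finset.card_range] at h1
  have h2 : (T.card : ℝ) ≤ (⌊2 * t / D⌋₊ : ℝ) + 1 := by exact_mod_cast h1
  have h3 : (⌊2 * t / D⌋₊ : ℝ) ≤ 2 * t / D := Nat.floor_le (by positivity)
  linarith

/-- the sum of the `z - α` -/
lemma RCT_sum (S : Finset ℕ) (α : ℕ) (q : ℕ × ℕ) :
    ∑ z ∈ seg S q, ((z : ℝ) - α) = (sm S q : ℝ) - α * len S q := by
  unfold sm len
  rw [Finset.sum_sub_distrib, Finset.sum_const, nsmul_eq_mul]
  push_cast
  ring

/-- runs of the same length with the same first element are equal -/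
lemma RCT_first {S : Finset ℕ} {q q' : ℕ × ℕ} (hq : q ∈ runs S) (hq' : q' ∈ runs S)
    (hl : len S q = len S q') (h1 : q.1 = q'.1) : q.2 ≤ q'.2 := by
  by_contra hcon
  push Not at hcon
  obtain ⟨g1, g2, g3⟩ := mem_runs.1 hq
  obtain ⟨f1, f2, f3⟩ := mem_runs.1 hq'
  have hsub : seg S q' ⊂ seg S q := by
    rw [Finset.ssubset_iff_of_subset]
    · refine ⟨q.2, mem_seg.2 ⟨g2, g3, le_rfl⟩, fun h => ?_⟩
      have := (mem_seg.1 h).2.2
      omega
    · intro m hm
      obtain ⟨e1, e2, e3⟩ := mem_seg.1 hm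
      exact mem_seg.2 ⟨e1, by omega, by omega⟩
  have := Finset.card_lt_card hsub
  unfold len at hl
  omega

theorem p_RCT : Stmt_RCT := by
  intro S α β g0 f0 t1 t2 hαβ ht1 ht2
  set R := (runs S).filter (fun q => q.1 ≤ α ∧ β ≤ q.2 ∧ |(len S q : ℝ) - g0| ≤ t1 ∧
    |(∑ z ∈ seg S q, ((z : ℝ) - α)) - f0| ≤ t2) with hR
  have hD : (0 : ℝ) < (β : ℝ) - α := by
    have : (α : ℝ) < β := by exact_mod_cast hαβ
    linarith
  have hfib : ∀ l ∈ R.image (len S), ((R.filter (fun q => len S q = l)).card : ℝ) ≤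
      2 * t2 / ((β : ℝ) - α) + 1 := by
    intro l _
    refine RCT_spaced _ (fun q => ∑ z ∈ seg S q, ((z : ℝ) - α)) _ f0 t2 hD ht2 ?_ ?_
    · intro q hq
      rw [Finset.mem_filter, hR, Finset.mem_filter] at hq
      exact hq.1.2.2.2.2
    · have key : ∀ q ∈ R, ∀ q' ∈ R, len S q = l → len S q' = l → q.1 < q'.1 →
          (β : ℝ) - α ≤ (∑ z ∈ seg S q', ((z : ℝ) - α)) - ∑ z ∈ seg S q, ((z : ℝ) - α) := by
        intro q hq q' hq' hl hl' hlt
        rw [hR, Finset.mem_filter] at hq hq'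
        obtain ⟨-, h2⟩ := p_SFT S q q' hq.1 hq'.1 (hl.trans hl'.symm) hlt
        rw [RCT_sum, RCT_sum, hl, hl']
        have h3 : (sm S q : ℝ) + q'.2 ≤ sm S q' + q.1 := by exact_mod_cast h2
        have h4 : (q.1 : ℝ) ≤ α := by exact_mod_cast hq.2.1
        have h5 : (β : ℝ) ≤ q'.2 := by exact_mod_cast hq'.2.2.1
        linarith
      intro q hq q' hq' hne
      rw [Finset.mem_filter] at hq hq'
      have hqr := (Finset.mem_filter.1 (hR ▸ hq.1)).1
      have hqr' := (Finset.mem_filter.1 (hR ▸ hq'.1)).1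
      rcases lt_trichotomy q.1 q'.1 with h | h | h
      · have h1 := key q hq.1 q' hq'.1 hq.2 hq'.2 h
        rw [abs_sub_comm]
        exact h1.trans (le_abs_self _)
      · exfalso
        have hl : len S q = len S q' := hq.2.trans hq'.2.symm
        exact hne (Prod.ext h (le_antisymm (RCT_first hqr hqr' hl h)
          (RCT_first hqr' hqr hl.symm h.symm)))
      · have h1 := key q' hq'.1 q hq.1 hq'.2 hq.2 h
        exact h1.trans (le_abs_self _)
  have hlen : ((R.image (len S)).card : ℝ) ≤ 2 * t1 + 1 := by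
    have h1 := RCT_spaced (R.image (len S)) (fun l : ℕ => (l : ℝ)) 1 g0 t1 one_pos ht1 ?_ ?_
    · simpa using h1
    · intro l hl
      obtain ⟨q, hq, rfl⟩ := Finset.mem_image.1 hl
      rw [hR, Finset.mem_filter] at hq
      exact hq.2.2.2.1
    · intro l _ l' _ hne
      have h2 : ((l : ℤ) - l') ≠ 0 := sub_ne_zero.2 (by exact_mod_cast hne)
      have h3 : (1 : ℤ) ≤ |(l : ℤ) - l'| := Int.one_le_abs h2
      have h4 : ((1 : ℤ) : ℝ) ≤ ((|(l : ℤ) - l'| : ℤ) : ℝ) := by exact_mod_cast h3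
      push_cast at h4
      exact h4
  have hsum : (R.card : ℝ) = ∑ l ∈ R.image (len S), ((R.filter (fun q => len S q = l)).card : ℝ) := by
    rw [Finset.card_eq_sum_card_image (len S) R]
    push_cast
    rfl
  rw [hsum]
  have hb : 0 ≤ 2 * t2 / ((β : ℝ) - α) + 1 := by positivity
  calc ∑ l ∈ R.image (len S), ((R.filter (fun q => len S q = l)).card : ℝ)
      ≤ ∑ _l ∈ R.image (len S), (2 * t2 / ((β : ℝ) - α) + 1) := Finset.sum_le_sum hfib
    _ = ((R.image (len S)).card : ℝ) * (2 * t2 / ((β : ℝ) - α) + 1) := by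
        rw [Finset.sum_const, nsmul_eq_mul]
    _ ≤ (2 * t1 + 1) * (2 * t2 / ((β : ℝ) - α) + 1) := mul_le_mul_of_nonneg_right hlen hb

end Pool.Agent.Work.MP_7d0410_dl
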