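import Pool.Agent.Work.MP_7d0410_dl.Basic

/-!
# Random subsets of the primes: statements of the blocks

The docstrings are the proofs on paper. `0 ≤ c < 1/2`, `θ = tt c = (1/2 - c)/100 ≤ 1/200`, so
`c = 1/2 - 100 θ` (`c_eq`). `A1 = x^(1/2+4θ)`, `A2 = x^(1/2+8θ)`, `VV = [A1, A2]`, `G1 = x^θ`,
`R1 = x^(1/2-9θ)`, `JJ = x^(8θ)`, `LN = x^(2θ) r`, `LL C x r = C r log x` (all rounded). The deletion
probabilities in `VV` lie between `wlo = x^(-(c(1/2+8θ)+2θ²))` and `whi = x^(-(c(1/2+4θ)-2θ²))`, and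
`whi ≤ x^(2θ) wlo`; `c (1/2+8θ) = 1/4 - 46 θ - 800 θ²`, so `wlo ≥ x^(-1/4+46θ)`.
Blocks of `MP_7d0410_sp` and `MP_7d0410_cr` may be cited: they are proved in the files `B_X.lean`
there (import the file, cite `p_X`); the blocks of `MP_7d0410_sp` named here hold for all `p` with
`Prob p`.
-/

set_option autoImplicit false

namespace Pool.Agent.Work.MP_7d0410_dl

open Finset Filter MeasureTheory ProbabilityTheory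
open Pool.Agent.Work.MP_7d0410_cr (seg sm len runs rr good gr cnt DD meet AB PP CountReg NN a0 UU SS
  AA repCount)
open Pool.Agent.Work.MP_7d0410_sp (Prob wt Ex Pb hh gg HH T1 T2 A1 A2 VV G1 R1 LL pin F0 XX)
open scoped Classical Topology

/-! ## Primes: many lengths are good (edits of `GDA`, `GDC`, `GD1`, `GDR` of `MP_7d0410_sp`) -/

/-- KGA: a rich cell (edit of `MP_7d0410_sp/B_GDA.lean`). The proof of `GDA` for `K ρ` instead of `ρ`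
gives `α`, `β` such that for `α r < n < β r` there are at least `K ρ ≥ K r` primes on both sides of
`n / r` within distance `Λ`. -/
def Stmt_KGA : Prop := ∀ a lam ρ K : ℕ, 1 ≤ K → 3 * (K * ρ) + 2 ≤ pin a lam → ∃ α β : ℕ, a < α ∧
  α < β ∧ β ≤ a + lam ∧ K * ρ + 1 ≤ pin α (β - α) ∧ ∀ Λ n r : ℕ, lam ≤ Λ → 1 ≤ r → r ≤ ρ →
    α * r < n → n < β * r → a + lam ≤ 2 * n → GK K Λ n r

/-- KGC: many cells are rich (edit of `MP_7d0410_sp/B_GDC.lean`; now `C1 = max 1 (120 K/c0)`). The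
cells which are not rich have together at most `(3Kρ+1) N ≤ (4Kn/Y) (3Y · 5Y/(C1 n log x)) =
60 K Y/(C1 log x) ≤ (c0/2) Y/log x` primes; the rest is unchanged, `c10 = c0/(3 C3 C1)`. -/
def Stmt_KGC : Prop := ∀ K : ℕ, 1 ≤ K → ∃ C1 c10 : ℝ, 1 ≤ C1 ∧ 0 < c10 ∧ ∀ θ : ℝ, 0 < θ →
  θ ≤ 1 / 200 → ∀ᶠ x : ℕ in atTop, ∀ n Y lam ρ : ℕ, x ≤ 1000 * n → n ≤ x → A1 θ x ≤ Y →
  Y ≤ A2 θ x → lam = ⌊C1 * n * Real.log x / (4 * Y)⌋₊ → ρ = n / Y + 1 →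
  c10 * Y ≤ (((Finset.range (3 * Y)).filter (fun i => Y + (i + 1) * lam ≤ 4 * Y ∧
    3 * (K * ρ) + 2 ≤ pin (Y + i * lam) lam)).card : ℝ) * (ρ * Real.log x)

/-- KG1: the good lengths which belong to `(Y, 4Y]` (edit of `MP_7d0410_sp/B_GD1.lean`, with `KGC`,
`KGA` instead of `GDC`, `GDA`; `L ≥ pin α L ≥ K ρ + 1 ≥ ρ + 1`). -/
def Stmt_KG1 : Prop := ∀ K : ℕ, 1 ≤ K → ∃ C1 c9 : ℝ, 1 ≤ C1 ∧ 0 < c9 ∧ ∀ θ : ℝ, 0 < θ →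
  θ ≤ 1 / 200 → ∀ᶠ x : ℕ in atTop, ∀ n Y : ℕ, x ≤ 1000 * n → n ≤ x → A1 θ x ≤ Y → Y ≤ A2 θ x →
  c9 ≤ ∑ r ∈ (Finset.Icc 1 x).filter (fun r => GK K (LL C1 x r) n r ∧ Y * r < n ∧ n ≤ 4 * Y * r),
    1 / (r : ℝ)

/-- KGR: the good lengths (edit of `MP_7d0410_sp/B_GDR.lean`). -/
def Stmt_KGR : Prop := ∀ K : ℕ, 1 ≤ K → ∃ C1 : ℝ, 1 ≤ C1 ∧ ∀ θ : ℝ, 0 < θ → θ ≤ 1 / 200 →
  ∃ c7 : ℝ, 0 < c7 ∧ ∀ᶠ x : ℕ in atTop, ∀ n : ℕ, x ≤ 1000 * n → n ≤ x →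
  c7 * Real.log x ≤ ∑ r ∈ RK K C1 θ x n, 1 / (r : ℝ)

/-! ## Fourier analysis -/

/-- FOU: Fourier inversion. Put `Φ(h,k) = Ex p M (ee ((h |T| + k ΣT)/N))`, complex valued,
`= ∏_(z ∈ M) ((1 - p z) + p z ee((h + k z)/N))` (as `Ex_prod` in `MP_7d0410_sp/Basic.lean`:
`Finset.prod_add`). By `∑_(h < N) ee(h m/N) = N` if `N ∣ m` and `0` otherwise (geometric sum),
`N^(-2) ∑_(h,k < N) Φ(h,k) ee(-(h j' + k D)/N)` is the probability of `|T| ≡ j'`, `ΣT ≡ D` mod `N`,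
which is `Pc p M j' D` for `j' = j + i`, `i < J`, as `||T| - j'| ≤ |M| + |j| + J < N` and
`|ΣT - D| ≤ ΣM + |D| < N`. Sum over `i < J`, subtract the formulas for `D` and `D'`, triangle
inequality. -/
def Stmt_FOU : Prop := ∀ p : ℕ → ℝ, Prob p → ∀ (M : Finset ℕ) (J N : ℕ) (j D D' : ℤ), 1 ≤ N →
  (M.card : ℤ) + |j| + J < N → ((∑ z ∈ M, z : ℕ) : ℤ) + |D| < N →
  ((∑ z ∈ M, z : ℕ) : ℤ) + |D'| < N →
  |Bk p M J j D - Bk p M J j D'| ≤ 1 / (N : ℝ) ^ 2 * ∑ h ∈ Finset.range N, ∑ k ∈ Finset.range N,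
    (∏ z ∈ M, ‖((1 - p z : ℝ) : ℂ) + ((p z : ℝ) : ℂ) * ee (((h : ℝ) + k * z) / N)‖) *
      ‖∑ i ∈ Finset.range J, ee (-((h : ℝ) / N * i))‖ *
      ‖ee (-((k : ℝ) / N * D)) - ee (-((k : ℝ) / N * D'))‖

/-- MOD: `‖(1-p) + p ee t‖² = 1 - 2p(1-p)(1 - cos 2πt) = 1 - 4p(1-p) sin²(πt) ≤
exp(-4p(1-p) sin²(πt))`, and `|sin πt| ≥ 2 dn t` (`dn t ≤ 1/2`, concavity: `Real.mul_le_sin`). -/
def Stmt_MOD : Prop := ∀ p t : ℝ, 0 ≤ p → p ≤ 1 →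
  ‖((1 - p : ℝ) : ℂ) + ((p : ℝ) : ℂ) * ee t‖ ≤ Real.exp (-(8 * p * (1 - p) * dn t ^ 2))

/-- GEO: geometric sums. `‖1 - ee t‖ = 2 |sin πt| ≥ 4 dn t`; `‖ee a - ee b‖ = ‖ee (a-b) - 1‖ =
2 |sin π(a-b)| ≤ 2 π dn (a-b)`. -/
def Stmt_GEO : Prop :=
  (∀ (J : ℕ) (t : ℝ), ‖∑ i ∈ Finset.range J, ee (-(t * i))‖ ≤ J) ∧
  (∀ (J : ℕ) (t : ℝ), 0 < dn t → ‖∑ i ∈ Finset.range J, ee (-(t * i))‖ ≤ 1 / (2 * dn t)) ∧
  (∀ a b : ℝ, ‖ee a - ee b‖ ≤ 2) ∧ (∀ a b : ℝ, ‖ee a - ee b‖ ≤ 2 * Real.pi * dn (a - b))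

/-- CNT: for such `k` let `m` be an integer with `|k/N - c - m| ≤ ρ`; the integers `k - m N` lie in
the interval `[Nc - Nρ, Nc + Nρ]` and are different (mod `N`), so there are at most `2ρN + 1`. -/
def Stmt_CNT : Prop := ∀ (N : ℕ) (c ρ : ℝ), 1 ≤ N → 0 ≤ ρ →
  (((Finset.range N).filter (fun k : ℕ => dn ((k : ℝ) / N - c) ≤ ρ)).card : ℝ) ≤ 2 * ρ * N + 1

/-- BO1: two elements of `B` are at distance `d ≤ 2Λ`: otherwise `|B| ≤ Y/(2Λ) + 1 < 3Y/(4Λ)` as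
`Y ≥ 64 Λ²`. So `dn (α d) ≤ 2s` (`dn_sub`), `α d = k + ε`, `|ε| ≤ 2s`, `k` an integer. Put
`β = ε/d`, write `k/d` in lowest terms `k'/q` (`q ∣ d`), `k' = a + q m`, `0 ≤ a < q`:
`α = a/q + β + m`, and `|β| q ≤ |β| d ≤ 2s`. -/
def Stmt_BO1 : Prop := ∀ (B : Finset ℕ) (u Y : ℕ) (Λ s θ α : ℝ),
  (∀ z ∈ B, u < z ∧ z ≤ u + Y ∧ dn (θ + α * z) ≤ s) → 1 ≤ Λ → 3 * (Y : ℝ) ≤ 4 * Λ * B.card →
  64 * Λ ^ 2 ≤ Y → 0 < s → ∃ (q a : ℕ) (β : ℝ) (m : ℤ), 1 ≤ q ∧ (q : ℝ) ≤ 2 * Λ ∧ a < q ∧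
    a.Coprime q ∧ α = (a : ℝ) / q + β + m ∧ |β| * q ≤ 2 * s

/-- BO3: let `z` be counted and `m` an integer with `|θ + β z - m| ≤ s`. The numbers `θ + β z`,
`u < z ≤ u + Y`, lie in an interval of length `|β| Y`, so there are at most
`|β| Y + 2 s + 1 ≤ |β| Y + 2` possibilities for `m`. For given `m`, `z` lies in an interval of length
`2s/|β|` and in a residue class mod `q`: at most `2s/(|β| q) + 1` possibilities. -/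
def Stmt_BO3 : Prop := ∀ (u Y q ρ : ℕ) (θ β s : ℝ), 1 ≤ q → β ≠ 0 → 0 ≤ s → s ≤ 1 / 4 →
  (((Finset.Ioc u (u + Y)).filter (fun z : ℕ => z % q = ρ ∧ dn (θ + β * z) ≤ s)).card : ℝ) ≤
    (|β| * Y + 2) * (2 * s / (|β| * q) + 1)

/-- BO2: suppose `|β| Y > 16 s Λ`, so `β ≠ 0`. If `z ≡ ρ` mod `q` then
`dn (θ + (a/q + β) z) = dn ((θ + a ρ/q) + β z)`. By `BO3`, summed over `ρ < q`,
`|B| ≤ q (|β| Y + 2)(2s/(|β|q) + 1) = 2 s Y + q |β| Y + 4 s/|β| + 2 q ≤ 4 s Y + Y/(4Λ) + 4Λ ≤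
(1/16 + 1/4 + 1/16) Y/Λ < 3Y/(4Λ)`, a contradiction (`Y > 0`). -/
def Stmt_BO2 : Prop := ∀ (B : Finset ℕ) (u Y q a : ℕ) (Λ s θ β : ℝ),
  (∀ z ∈ B, u < z ∧ z ≤ u + Y ∧ dn (θ + ((a : ℝ) / q + β) * z) ≤ s) → 1 ≤ q → (q : ℝ) ≤ 2 * Λ →
  1 ≤ Λ → 3 * (Y : ℝ) ≤ 4 * Λ * B.card → 64 * Λ ^ 2 ≤ Y → 0 < s → 64 * Λ ^ 2 * s ≤ 1 →
  |β| * q ≤ 2 * s → |β| * Y ≤ 16 * s * Λ

/-- BOH: the frequencies where the Fourier transform is not small. `B` = the `z ∈ M` with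
`dn (θ + α z) ≤ s`; `|M \ B| s² ≤ s² |M|/4`, so `|B| ≥ 3|M|/4`, `3 Y ≤ 4 Λ |B|`. `BO1` gives
`q, a, β, m`, and `BO2` `|β| Y ≤ 16 s Λ` (`dn (θ + α z) = dn (θ + (a/q + β) z)`). Let `z0 ∈ B`,
`b = z0 % q`. `z0` is a prime `> 2Λ ≥ q`, so `z0` and hence `b` is coprime to `q`. And
`dn (θ + a b/q + β z0) = dn (θ + α z0) ≤ s`, `|β (z0 - u)| ≤ |β| Y ≤ 16 s Λ`. -/
def Stmt_BOH : Prop := ∀ (M : Finset ℕ) (u Y : ℕ) (Λ s θ α : ℝ),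
  (∀ z ∈ M, z.Prime ∧ u < z ∧ z ≤ u + Y) → 1 ≤ Λ → 2 * Λ < u → (Y : ℝ) ≤ Λ * M.card →
  64 * Λ ^ 2 ≤ Y → 0 < s → 64 * Λ ^ 2 * s ≤ 1 →
  ∑ z ∈ M, dn (θ + α * z) ^ 2 ≤ s ^ 2 * M.card / 4 →
  ∃ (q a b : ℕ) (β : ℝ) (m : ℤ), 1 ≤ q ∧ (q : ℝ) ≤ 2 * Λ ∧ a < q ∧ b < q ∧ a.Coprime q ∧
    b.Coprime q ∧ α = (a : ℝ) / q + β + m ∧ |β| * Y ≤ 16 * s * Λ ∧
    dn (θ + (a : ℝ) * b / q + β * u) ≤ 17 * s * Λ

/-- FLA: flatness of block sums. Take `N` in `FOU` very large (also `N ≥ Y/(sΛ)`). Call `(h,k)`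
small if `∑_(z ∈ M) dn ((h + k z)/N)² ≤ s² |M|/4`.
(1) If `(h,k)` is not small, the product is at most `exp(-8 ω s² |M|/4)` (`MOD`), the other factors
are at most `J` and `2` (`GEO`): the total is at most `2 J exp(-2 ω s² |M|)`.
(2) Small `(h,k)`: `BOH` with `θ = h/N`, `α = k/N` gives `q, a, b, β`. If `q = 1` then
`dn (k/N) ≤ |β| ≤ 16 s Λ/Y` and the last factor is at most
`2π dn (k (D - D')/N) ≤ 2π L · 16 s Λ/Y ≤ 101 L s Λ/Y`, the product of the last two at most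
`101 J L s Λ/Y`. If `q ≥ 2` then `a b` is coprime to `q`, so `dn (a b/q) ≥ 1/q ≥ 1/(2Λ)`, and
`dn (h/N) ≥ 1/(2Λ) - 17 s Λ - |β| u ≥ 1/(2Λ) - 17 s Λ (u+Y)/Y ≥ 1/(4Λ)`
(`256 Λ² s (u+Y) ≤ Y`), so the product of the last two is at most `2 · 1/(2/(4Λ)) = 4Λ`.
(3) Number of small `(h,k)`: for given `q, a, b` there are at most `32 s Λ N/Y + 1 ≤ 33 s Λ N/Y`
values of `k` (`CNT`: `dn (k/N - a/q) ≤ 16 s Λ/Y`); for given `k` too the number `β` is determined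
(`|β| ≤ 16 s Λ/Y < 1/2`, `β = k/N - a/q - m`) and there are at most `34 s Λ N + 1 ≤ 35 s Λ N` values
of `h` (`CNT`); there are at most `(2Λ)³` triples. Total at most
`8Λ³ · 33 · 35 s² Λ² N²/Y ≤ 40000 Λ⁵ s² N²/Y`. -/
def Stmt_FLA : Prop := ∀ p : ℕ → ℝ, Prob p → ∀ (M : Finset ℕ) (u Y J : ℕ) (Λ s ω L : ℝ),
  (∀ z ∈ M, z.Prime ∧ u < z ∧ z ≤ u + Y) → 1 ≤ Λ → 2 * Λ < u → (Y : ℝ) ≤ Λ * M.card →
  64 * Λ ^ 2 ≤ Y → 0 < s → 64 * Λ ^ 2 * s ≤ 1 → 256 * Λ ^ 2 * s * (u + Y) ≤ Y → 0 ≤ ω →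
  (∀ z ∈ M, ω ≤ p z * (1 - p z)) → ∀ j D D' : ℤ, |((D - D' : ℤ) : ℝ)| ≤ L →
  |Bk p M J j D - Bk p M J j D'| ≤ 2 * J * Real.exp (-(2 * ω * s ^ 2 * M.card)) +
    40000 * Λ ^ 5 * s ^ 2 / Y * (101 * J * L * s * Λ / Y + 4 * Λ)

/-! ## Concentration and counting -/

/-- CHW: Chernoff's bound. Put `ξ = ∑_(z ∈ M \ T) v z`, `m = ∑ v z (1 - p z)`, `μ = ∑ (1 - p z)`. For
`|λ| ≤ 1`: `Ex (exp (λ ξ)) = ∏ (1 + (1 - p z)(exp(λ v z) - 1)) ≤ exp (λ m + λ² μ)`, as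
`exp y ≤ 1 + y + y²` for `y ≤ 1` and `v z ≤ 1` (generating function as `Ex_prod` in
`MP_7d0410_sp/Basic.lean`). With `λ = ± t/(2μ)`, `|λ| ≤ 1`, Markov gives
`Pb (±(ξ - m) ≥ t) ≤ exp (λ² μ - |λ| t) = exp (-t²/(4μ))`. (If `μ = 0` then `t = 0` and the right
side is `2`.) -/
def Stmt_CHW : Prop := ∀ p : ℕ → ℝ, Prob p → ∀ (M : Finset ℕ) (v : ℕ → ℝ) (t : ℝ),
  (∀ z ∈ M, 0 ≤ v z ∧ v z ≤ 1) → 0 ≤ t → t ≤ 2 * ∑ z ∈ M, (1 - p z) →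
  Pb p M (fun T => t ≤ |∑ z ∈ M \ T, v z - ∑ z ∈ M, v z * (1 - p z)|) ≤
    2 * Real.exp (-(t ^ 2 / (4 * ∑ z ∈ M, (1 - p z))))

/-- RCT: runs with given approximate length and sum. There are at most `2 t1 + 1` possible lengths.
Let `q, q'` be two of these runs of the same length with `q.1 < q'.1`. By `SFT` of `MP_7d0410_sp`
(`p_SFT`) `sm S q' - sm S q ≥ q'.2 - q.1 ≥ β - α`, and `∑_(z ∈ seg S q) (z - α) = sm S q - α len S q`.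
So for each length the values of this sum have mutual distances at least `β - α` (different runs
have different values), and there are at most `2 t2/(β-α) + 1` of them in an interval of length
`2 t2`. -/
def Stmt_RCT : Prop := ∀ (S : Finset ℕ) (α β : ℕ) (g0 f0 t1 t2 : ℝ), α < β → 0 ≤ t1 → 0 ≤ t2 →
  (((runs S).filter (fun q => q.1 ≤ α ∧ β ≤ q.2 ∧ |(len S q : ℝ) - g0| ≤ t1 ∧
    |(∑ z ∈ seg S q, ((z : ℝ) - α)) - f0| ≤ t2)).card : ℝ) ≤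
    (2 * t1 + 1) * (2 * t2 / ((β : ℝ) - α) + 1)

/-- FLB: flatness for the runs which contain `[α, β]`. `M = MM α β`, `Y = β - α`, `V = Icc A B`. Split
`S = S' ∪ T`, `S' ⊆ V \ M`, `T ⊆ M` (`Ex_split`). The runs `q` of `S` with `q.1 ≤ α`, `β ≤ q.2` are
the runs of `S'` with this property (`q.1, q.2 ∉ M`), `len S q = len S' q + |T|`,
`sm S q = sm S' q + ΣT`. So `∑_(i<J) hM (r+i) n = Ex_(S') ∑_q Bk p M J (r - len S' q) (n - sm S' q)`.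
For given `S'` let `N = |M|`, `μ = ∑_M (1 - p z)`, `μ1 = ∑_M (z - α)(1 - p z)`, `g0 = r + μ - N`,
`f0 = n - α r + μ1 - ∑_M (z - α)`, and call `q` relevant if `|len S' q - g0| ≤ t + J` and
`|∑_(z ∈ seg S' q) (z - α) - f0| ≤ t Y + α J + L`. At most the first product of relevant `q`
(`RCT`), for each of them the difference for `n` and `n'` is at most the bound of `FLA`
(`u = α`). Let `q` be not relevant, `i < J`, `n'' ∈ {n, n'}`, and `T` with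
`|T| = r + i - len S' q`, `ΣT = n'' - sm S' q`. Then `|M \ T| - μ = len S' q - g0 - i` and
`∑_(M \ T) (z - α) - μ1 = ∑_(seg S' q) (z - α) - f0 + α i + (n - n'')`, so one of
`||M \ T| - μ| ≥ t`, `|∑_(M\T) (z-α)/Y - μ1/Y| ≥ t` holds; by `CHW` (with `v = 1` or
`v z = (z - α)/Y`) `Pc ≤ 2 exp(-t²/(4μ))`. There are at most `(B+1)²` pairs `q`, and `2J` terms for
each of them. -/
def Stmt_FLB : Prop := ∀ p : ℕ → ℝ, Prob p → ∀ (A B α β J : ℕ) (Λ s ω t L : ℝ), A ≤ α → β ≤ B →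
  α < β → 1 ≤ Λ → 2 * Λ < α → (β : ℝ) - α ≤ Λ * (MM α β).card → 64 * Λ ^ 2 ≤ (β : ℝ) - α →
  0 < s → 64 * Λ ^ 2 * s ≤ 1 → 256 * Λ ^ 2 * s * β ≤ (β : ℝ) - α → 0 ≤ ω →
  (∀ z ∈ MM α β, ω ≤ p z * (1 - p z)) → 0 ≤ t → t ≤ 2 * ∑ z ∈ MM α β, (1 - p z) → 0 ≤ L →
  ∀ r n n' : ℕ, |(n : ℝ) - n'| ≤ L →
  |∑ i ∈ Finset.range J, hM p (Finset.Icc A B) α β (r + i) n -
    ∑ i ∈ Finset.range J, hM p (Finset.Icc A B) α β (r + i) n'| ≤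
    (2 * (t + J) + 1) * (2 * (t * ((β : ℝ) - α) + α * J + L) / ((β : ℝ) - α) + 1) *
      (2 * J * Real.exp (-(2 * ω * s ^ 2 * (MM α β).card)) +
        40000 * Λ ^ 5 * s ^ 2 / ((β : ℝ) - α) *
          (101 * J * L * s * Λ / ((β : ℝ) - α) + 4 * Λ)) +
      8 * J * ((B : ℝ) + 1) ^ 2 * Real.exp (-(t ^ 2 / (4 * ∑ z ∈ MM α β, (1 - p z))))

/-- WVB: the deletion probabilities in `VV`. Use `Reg.exp` with `e = θ²`, `θ = tt c`: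
`x^(1/2+4θ) ≤ m ≤ x^(1/2+8θ)`. Lower bound: `m^(-(c+θ²)) ≥ x^(-(1/2+8θ)(c+θ²))` and
`(1/2+8θ) θ² ≤ 2θ²`. Upper bound: if `c ≥ θ²`, `m^(-(c-θ²)) ≤ x^(-(1/2+4θ)(c-θ²))`; if `c < θ²`,
`m^(θ²-c) ≤ x^((1/2+8θ)(θ²-c)) ≤ x^(2θ² - (1/2+4θ) c)`. -/
def Stmt_WVB : Prop := ∀ (w : ℕ → ℝ) (c κ : ℝ), Reg w c κ → ∀ᶠ x : ℕ in atTop,
  ∀ m ∈ VV (tt c) x, wlo c x ≤ w m ∧ w m ≤ whi c x

/-- FLN: numerics for `FLB`. `θ = tt c`, `p = pd w`, `N = |MM α β| ≥ c3 r`, `Y = β - α`,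
`N ≤ Y ≤ 2 LL ≤ 3 C1 r log x`. Parameters: `Λ = 3 C1 log x/c3` (max with `1`), `J = JJ ≤ 2 x^(8θ)`,
`L = LN ≤ 2 x^(2θ) r`, `ω = (1-κ) wlo` (`WVB`: `p (1-p) = (1-w) w`), `s = x^(θ/2)/√(ω N)`,
`μ = ∑_M w z` lies between `wlo N` and `whi N`, `t = x^θ √μ`.
`ω N ≥ c' x^(-1/4+46θ) x^(1/2-9θ) ≥ c' x^(1/4+37θ)`, so `s ≤ C x^(-1/8-18θ)`, `t ≥ c' x^(1/8+19θ)`,
and `β/Y ≤ A2/(c3 r) ≤ C x^(17θ)`: the conditions hold for large `x`. `α J/Y ≤ C x^(25θ) ≤ t`,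
`L/Y ≤ C x^(2θ) ≤ t`, `J ≤ t` (`θ ≤ 1/200`), so the first product is at most
`5t · 7t = 35 t² = 35 x^(2θ) μ`. `s² μ = x^θ μ/(ωN) ≤ x^θ (whi/wlo)/(1-κ) ≤ x^(3θ)/(1-κ)`.
`J (L/Y) s ≤ C J x^(2θ-1/8-18θ) ≤ J x^(-1/8)`. So the main term is at most
`C (log x)^7 x^(5θ) (J x^(-1/8) + 1)/Y ≤ C (log x)^7 x^(5θ) J (x^(-1/8) + x^(-8θ))/(c3 r) ≤
J x^(-θ)/(2r)`. The terms with `exp(-2ωs²N) = exp(-2x^θ)` and `exp(-t²/(4μ)) = exp(-x^(2θ)/4)` are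
much smaller (`B = A2 ≤ x`). -/
def Stmt_FLN : Prop := ∀ (w : ℕ → ℝ) (c κ : ℝ), Reg w c κ → ∀ C1 c3 : ℝ, 1 ≤ C1 → 0 < c3 →
  ∀ᶠ x : ℕ in atTop, ∀ r α β : ℕ, A1 (tt c) x ≤ α → β ≤ A2 (tt c) x → α < β →
  β ≤ α + 2 * LL C1 x r → c3 * r ≤ ((MM α β).card : ℝ) → (x : ℝ) ^ (1 / 2 - 9 * tt c) ≤ r →
  ∀ n n' : ℕ, n' ≤ n → n ≤ n' + LN (tt c) x r →
  |∑ i ∈ Finset.range (JJ (tt c) x), hM (pd w) (VV (tt c) x) α β (r + i) n -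
    ∑ i ∈ Finset.range (JJ (tt c) x), hM (pd w) (VV (tt c) x) α β (r + i) n'| ≤
    JJ (tt c) x * (x : ℝ) ^ (-tt c) / r

/-! ## Covering and the lower bound for the mean value -/

/-- CV1: a run of length about `r` with sum about `n` has many elements on both sides of `ν = n/r`.
`Λ = LL C1 x r ≤ 2 C1 r log x`, `r' = r + i`, `n' = n - l`. `2 n ≤ A2 r` gives
`r ≥ x^(1/2-8θ)/500`; `∑_(z ∈ seg) (z - ν) = n' - r' n/r = -(i n/r + l)`, in absolute value at most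
`E = JJ A2/2 + LN ≤ 2 x^(1/2+16θ) + 2 x^(2θ) r`, much smaller than `r²`.
(1) `q.2 ≥ ν`: otherwise `∑ (ν - z) ≥ 0 + 1 + ... + (r'-2) ≥ r²/4 > E`; similarly `q.1 ≤ ν`.
(2) If `r (q.1 + Λ) < n`, the `2r` elements of `TY` (left) are in the run, which has
`r + i < 2r` elements: contradiction (`JJ ≤ r/2`). Similarly on the right.
(3) `C3` = constant of `BTT`, `c4 = 1/(24 C3)`, `h = ⌊c4 r log x⌋ ≥ x^(1/3)`: an interval of `h`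
integers has at most `C3 h/log h ≤ r/8` primes. `c3 = min (1/8) (c4/(100 C1))`. Suppose fewer than
`c3 r + 2` elements of the run are `< ν`. At least `r/2` are `> ν` (at most one is `= ν`), at least
`r/4` of them `≥ ν + h` (primes!), so `0 ≥ ∑ (z - ν) ≥ (r/4) h - (c3 r + 2) Λ > 0` for large `x`.
Suppose fewer than `c3 r + 2` are `> ν`: `-E ≤ ∑ (z - ν) ≤ -(r/4) h + (c3 r + 2) Λ < -E`. -/
def Stmt_CV1 : Prop := ∀ C1 : ℝ, 1 ≤ C1 → ∃ c3 : ℝ, 0 < c3 ∧ c3 ≤ 1 / 8 ∧ ∀ θ : ℝ, 0 < θ →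
  θ ≤ 1 / 200 → ∀ᶠ x : ℕ in atTop, ∀ n r : ℕ, x ≤ 1000 * n → n ≤ x → 1 ≤ r →
  2 * A1 θ x * r ≤ n → 2 * n ≤ A2 θ x * r → ∀ S : Finset ℕ, (∀ z ∈ S, z.Prime) →
  TY (LL C1 x r) n r S → ∀ i l : ℕ, i < JJ θ x → l ≤ LN θ x r → ∀ q ∈ rr S (r + i) (n - l),
  n ≤ r * (q.1 + LL C1 x r) ∧ r * q.2 ≤ n + r * LL C1 x r ∧
  c3 * r + 2 ≤ (((seg S q).filter (fun z => r * z < n)).card : ℝ) ∧
  c3 * r + 2 ≤ (((seg S q).filter (fun z => n < r * z)).card : ℝ)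

/-- COV: covering. `c3` from `CV1`, `m = ⌈c3 r⌉ + 1 ≤ r`. By `GK` there are at least `r ≥ m` primes `z`
with `r z < n ≤ r (z + Λ)`; let `α` be the `m`-th largest prime with `r α < n`: it is one of them.
Similarly `β` is the `m`-th smallest prime with `n < r β`, `r β ≤ n + r Λ`. So `α < n/r < β`,
`β ≤ α + 2Λ`, and `MM α β` has at least `2 (m-1) ≥ c3 r` elements. `α ≥ n/r - Λ ≥ 2 A1 - Λ ≥ A1`
(`Λ ≤ 2 C1 r log x ≤ x^(1/2) ≤ A1` as `r ≤ n/(2 A1)`), `β ≤ A2/2 + Λ ≤ A2`. By `CV1` the run has at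
least `c3 r + 2 ≥ m` elements (primes) `z ≥ q.1` with `r z < n`, so `q.1 ≤ α`; similarly
`β ≤ q.2`. -/
def Stmt_COV : Prop := ∀ (K : ℕ) (C1 : ℝ), 1 ≤ K → 1 ≤ C1 → ∃ c3 : ℝ, 0 < c3 ∧ ∀ θ : ℝ, 0 < θ →
  θ ≤ 1 / 200 → ∀ᶠ x : ℕ in atTop, ∀ n r : ℕ, x ≤ 1000 * n → n ≤ x → r ∈ RK K C1 θ x n →
  ∃ α β : ℕ, A1 θ x ≤ α ∧ β ≤ A2 θ x ∧ α < β ∧ β ≤ α + 2 * LL C1 x r ∧
    c3 * r ≤ ((MM α β).card : ℝ) ∧ ∀ S : Finset ℕ, (∀ z ∈ S, z.Prime) → TY (LL C1 x r) n r S →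
    ∀ i l : ℕ, i < JJ θ x → l ≤ LN θ x r → ∀ q ∈ rr S (r + i) (n - l),
    q.1 ≤ α ∧ β ≤ q.2 ∧ n ≤ r * (q.1 + LL C1 x r) ∧ r * q.2 ≤ n + r * LL C1 x r

/-- CRS: crossing an interval. Let `q` run through the runs of length `r` with
`q0.1 ≤ q.1 ≤ q1.1` (`q0.1 ≤ q1.1` as `sm S q0 < sm S q1`, `SFT`). If `q ≠ q1` is one of them, let
`q'` be the next one (all elements raised by one place): `sm S q' = sm S q + q'.2 - q.1`,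
`q'.2 - q.1 ≤ q1.2 - q0.1 ≤ g`. For every `y ∈ [n - L, n)` let `q` be the last of these runs with
`sm S q ≤ y`; then `y < sm S q + g`. So `[n - L, n)` is covered by the intervals
`[sm S q, sm S q + g)` with `n - L ≤ sm S q < n` and by the one for the last `q` with
`sm S q < n - L`: `L ≤ (NN S r n L + 1) g`. -/
def Stmt_CRS : Prop := ∀ (S : Finset ℕ) (r n L g : ℕ) (q0 q1 : ℕ × ℕ), q0 ∈ runs S → q1 ∈ runs S →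
  1 ≤ r → len S q0 = r → len S q1 = r → sm S q0 + L < n → n ≤ sm S q1 → q1.2 ≤ q0.1 + g →
  L ≤ (NN S r n L + 1) * g

/-- TYP: `TY` is very probable. Let `I` be the set of the (at least `K r`) primes `z` with
`r z < n ≤ r (z + Λ)`; `I ⊆ Icc A B` and `∑_I (1 - w z) ≥ (1-κ) K r ≥ 4 r`; by `CHL` of
`MP_7d0410_sp` with `δ = 1` and `2r` instead of `r`, `|S ∩ I| < 2r` has probability at most
`exp (-r/2)`. Similarly on the right. -/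
def Stmt_TYP : Prop := ∀ (w : ℕ → ℝ) (c κ : ℝ), Reg w c κ → ∀ K : ℕ, 4 ≤ (K : ℝ) * (1 - κ) →
  ∀ A B Λ n r : ℕ, 1 ≤ r → GK K Λ n r → A * r + Λ * r ≤ n → n + Λ * r ≤ B * r →
  Pb (pd w) (Finset.Icc A B) (fun S => ¬ TY Λ n r S) ≤ 2 * Real.exp (-((r : ℝ) / 2))

/-- HLD: lower bound for the expected number of good runs with the sum `n` and length in
`[r, r + JJ)`. `θ = tt c`, `J = JJ`, `L = LN`, `Λ = LL C1 x r`, `P0 = Pb (¬ TY)` (`TYP`; the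
conditions: `n ≥ 2 A1 r ≥ A1 r + Λ r`, `n + Λ r ≤ A2 r/2 + Λ r ≤ A2 r`), `c3, α, β` from `COV`.
`r ≥ 2n/A2 ≥ x^(1/2-8θ)/500 ≥ x^(1/2-9θ)`. (1) By `FLN`, for `1 ≤ l ≤ L`:
`∑_i hM (r+i) n ≥ ∑_i hM (r+i) (n-l) - J x^(-θ)/r`. Average over `l`. (2) If `S` consists of primes
(`Ex_mono_pd`) and `TY` holds, all runs in `rr S (r+i) (n-l)` contain `[α, β]`, so
`∑_l hM (r+i) (n-l) ≥ Ex (1[TY] NN S (r+i) n L)`. (3) `CRS` with `g = 2Λ`: `q0` = the first `r + i`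
elements of `S` among the `2r` elements `z` with `r z < n ≤ r(z+Λ)` (each of them is at distance at
least `r - i - 1 ≥ r/2` from `n/r`, so `sm S q0 ≤ (r+i)(n/r - r/2) < n - L` as
`J n/r ≤ 2 x^(1/2+16θ)` and `L ≤ 2 x^(2θ) r` are much smaller than `r²`), `q1` = the first `r + i`
elements `z` of `S` with `n < r z ≤ n + rΛ` (`sm S q1 ≥ (r+i) n/r ≥ n`). So
`NN S (r+i) n L ≥ L/(2Λ) - 1`. (4) Hence
`∑_i hM (r+i) n ≥ J (1 - P0) (1/(2Λ) - 1/L) - J x^(-θ)/r ≥ J/(8Λ)`. (5) If `TY` holds, every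
`q ∈ rr S (r+i) n` is good: `q.2 - q.1 ≤ 2Λ ≤ G1 r`, `len ≥ r ≥ R1`; `#rr ≤ 1` (`p_ONE` of
`MP_7d0410_cr`), so `∑_i Ex #{..} ≥ ∑_i hM (r+i) n - J P0 ≥ J/(16Λ)`, `Λ ≤ 2 C1 r log x`:
`c2 = 1/(32 C1)`. -/
def Stmt_HLD : Prop := ∀ (w : ℕ → ℝ) (c κ : ℝ), Reg w c κ → ∀ (K : ℕ) (C1 : ℝ), 1 ≤ K →
  4 ≤ (K : ℝ) * (1 - κ) → 1 ≤ C1 → ∃ c2 : ℝ, 0 < c2 ∧ ∀ᶠ x : ℕ in atTop, ∀ n r : ℕ,
  x ≤ 1000 * n → n ≤ x → r ∈ RK K C1 (tt c) x n →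
  c2 * JJ (tt c) x / (r * Real.log x) ≤ ∑ i ∈ Finset.range (JJ (tt c) x),
    Ex (pd w) (VV (tt c) x) (fun S => (((gr (R1 (tt c) x) (G1 (tt c) x) S n).filter
      (fun q => len S q = r + i)).card : ℝ))

/-- HMD: the mean value is bounded below for every `n`. `K = ⌈4/(1-κ)⌉`, `C1`, `c7` from `KGR`, `c2`
from `HLD`. `∑_(r ∈ RK) ∑_(i<J) Ex #{q ∈ gr | len = r + i} ≤ J · HH n` (each length occurs at most
`J` times; `cnt_eq_sum_len` of `MP_7d0410_sp`). So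
`HH n ≥ ∑_(r ∈ RK) c2/(r log x) ≥ c2 c7`. -/
def Stmt_HMD : Prop := ∀ (w : ℕ → ℝ) (c κ : ℝ), Reg w c κ → ∃ c1 : ℝ, 0 < c1 ∧
  ∀ᶠ x : ℕ in atTop, ∀ n : ℕ, x ≤ 1000 * n → n ≤ x →
  c1 ≤ HH (pd w) (VV (tt c) x) (R1 (tt c) x) (G1 (tt c) x) n

/-! ## The crude bound -/

/-- DCK: the deletion formula. For `S ⊆ Icc a b`, `q ∈ rr S r n` the primes `z` counted by `KD S q` lie
in `Icc a b`. Exchange the sums. For fixed `z` use `Ex_delete` (`0 < 1 - w z < 1`): the runs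
`q ∈ rr (S.erase z) r n` with `q.1 < z < q.2`, `z ∈ S`, are exactly the runs counted by
`FD S r n z`. -/
def Stmt_DCK : Prop := ∀ (w : ℕ → ℝ) (c κ : ℝ), Reg w c κ → ∀ a b r n : ℕ,
  Ex (pd w) (Finset.Icc a b) (fun S => ∑ q ∈ rr S r n, (KD S q : ℝ)) =
    ∑ z ∈ (Finset.Icc a b).filter Nat.Prime, w z / (1 - w z) *
      Ex (pd w) (Finset.Icc a b) (fun S => if z ∈ S then (FD S r n z : ℝ) else 0)

/-- DCU: upper bound. In `DCK` `w z/(1 - w z) ≤ W/(1-κ)`, and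
`∑_z (if z ∈ S then FD S r n z else 0)` is at most the number of runs `q` with `len S q = r + 1` and
`q.1 < sm S q - n < q.2` (`z = sm S q - n`). There is at most one such run: for two of them with
`q.1 < q'.1`, `SFT` gives `n + z + q'.2 ≤ n + z' + q.1`, so `z' ≥ z + q'.2 - q.1 > q'.2`. -/
def Stmt_DCU : Prop := ∀ (w : ℕ → ℝ) (c κ : ℝ), Reg w c κ → ∀ (a b r n : ℕ) (W : ℝ),
  0 ≤ W → (∀ z ∈ Finset.Icc a b, w z ≤ W) →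
  Ex (pd w) (Finset.Icc a b) (fun S => ∑ q ∈ rr S r n, (KD S q : ℝ)) ≤ W / (1 - κ)

/-- DRB: the crude bound (compare `MP_7d0410_sp/B_CRB.lean`). Large `x`. If `l > x` then `hh = 0`. Let
`LD ≤ l ≤ x`. For `u, v ∈ VV` with `|MM u v| ≥ l - 2 ≥ l/2` let `μ = ∑_(MM u v) w z ≥ wlo l/2 ≥
x^(2θ)/2` (`WVB`); by `CHW` (`v = 1`, `t = μ/2`) the probability that fewer than `μ/2` elements of
`MM u v` are missing in `S` is at most `2 exp(-μ/16)` (`Pb_inter`). So outside an event of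
probability at most `2 x² exp (-x^(2θ)/32) ≤ 1/(2x)` every `q ∈ rr S l m` (`S` a set of primes,
`|MM q.1 q.2| ≥ l - 2`) has `KD S q ≥ wlo l/4`. As `#rr S l m ≤ 1` (`p_ONE` of `MP_7d0410_cr`),
`#rr ≤ (4/(wlo l)) ∑ KD + 1[bad]`, and by `DCU` (`W = whi`)
`hh ≤ 4 (whi/wlo)/((1-κ) l) + 1/(2x) ≤ x^(3θ)/l`. -/
def Stmt_DRB : Prop := ∀ (w : ℕ → ℝ) (c κ : ℝ), Reg w c κ → ∀ᶠ x : ℕ in atTop, ∀ l m : ℕ,
  LD c x ≤ l → hh (pd w) (VV (tt c) x) l m ≤ (x : ℝ) ^ (3 * tt c) / l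

/-! ## Collisions, mean value, distribution (edits of blocks of `MP_7d0410_sp`) -/

/-- DC1: `C1S` of `MP_7d0410_sp` (`p_C1S`) with `L = LD`, `B = x^(3θ)` (`DRB`), `G = G1 ≤ 2 x^θ`.
`LD ≤ 2 x^(2θ + c(1/2+8θ) + 2θ²)`, so the first term is at most
`16 x^(1/2 + θ + c + 16θc + 4θ²) ≤ 16 x^(1-91θ)` (`c = 1/2 - 100θ`), the second at most
`8 x^(3θ + θ + 2 - 1 - 8θ) = 8 x^(1-4θ)` (edit of `B_C1B.lean`). -/
def Stmt_DC1 : Prop := ∀ (w : ℕ → ℝ) (c κ : ℝ), Reg w c κ → ∀ᶠ x : ℕ in atTop,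
  Ex (pd w) (VV (tt c) x) (fun S => ((AB S (G1 (tt c) x) x).card : ℝ)) ≤ (x : ℝ) ^ (1 - tt c)

/-- DCO: collisions are rare (edit of `B_CO.lean`; `LD ≤ R1` as `LD ≤ 2 x^(1/4)`). -/
def Stmt_DCO : Prop := ∀ (w : ℕ → ℝ) (c κ : ℝ), Reg w c κ → ∀ η : ℝ, 0 < η → ∀ᶠ x : ℕ in atTop,
  ∑ n ∈ Finset.Icc 1 x, (T1 (pd w) (VV (tt c) x) (R1 (tt c) x) (G1 (tt c) x) n +
    T2 (pd w) (VV (tt c) x) (R1 (tt c) x) (G1 (tt c) x) n) ≤ η * x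

/-- DEA: the number of runs on average (edit of `B_EAV.lean`, without the non-primes). For `b ∈ S` the
runs with the first element `b` and sum at most `x` have different lengths `l` with `l b ≤ x`. So
the expectation is at most the sum of `x/b` over the primes `b` with `a ≤ b ≤ x`, at most `0.97 x`
by `MRT`. -/
def Stmt_DEA : Prop := ∀ (w : ℕ → ℝ) (c κ : ℝ), Reg w c κ → ∀ᶠ x : ℕ in atTop, ∀ a d : ℕ,
  x ≤ a ^ 2 → Ex (pd w) (Finset.Icc a d)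
    (fun S => (((runs S).filter (fun q => sm S q ≤ x)).card : ℝ)) ≤ 98 / 100 * x

/-- DED: the probability of `k` good runs is bounded below for most `n` (edit of `B_EDA.lean`, with
`HMD` instead of `HMO`). -/
def Stmt_DED : Prop := ∀ (w : ℕ → ℝ) (c κ : ℝ), Reg w c κ → ∀ k : ℕ, ∃ ρ : ℝ, 0 < ρ ∧
  ∀ᶠ x : ℕ in atTop, (((Finset.Icc 1 x).filter (fun n => x ≤ 1000 * n ∧
    Pb (pd w) (VV (tt c) x) (fun S => cnt (R1 (tt c) x) (G1 (tt c) x) S n = k) < ρ)).card : ℝ) ≤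
      x / 200

/-- DEK: the expected density (edit of `B_EDK.lean`; `SPL` and `XXB` of `MP_7d0410_sp`). -/
def Stmt_DEK : Prop := ∀ (w : ℕ → ℝ) (c κ : ℝ), Reg w c κ → ∀ k : ℕ, ∃ ρ : ℝ, 0 < ρ ∧ ∀ ε : ℝ,
  0 < ε → ε < 4 * tt c → ∀ᶠ x : ℕ in atTop,
  ρ * x ≤ Ex (pd w) (UU ε x) (fun S => (DD 0 (2 * x) S x k : ℝ))

/-! ## Almost sure statements -/

/-- DLW: the law of `primesMinus E ω` in `U` (edit of `MP_7d0410_sp/B_LAW.lean`): the events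
`E' m = (E m)ᶜ` for primes, `E' m = ∅` for the other `m`, are independent, `μ (E' m) = pd w m`, and
`m ∈ primesMinus E ω ↔ ω ∈ E' m`. -/
def Stmt_DLW.{u} : Prop := ∀ {Ω : Type u} [MeasurableSpace Ω] (μ : Measure Ω)
  [IsProbabilityMeasure μ] (E : ℕ → Set Ω) (w : ℕ → ℝ) (c κ : ℝ), Reg w c κ → Del μ E w →
  ∀ (U : Finset ℕ) (A : Finset ℕ → Prop),
  MeasurableSet {ω | A (U.filter (fun m => m ∈ primesMinus E ω))} ∧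
    μ.real {ω | A (U.filter (fun m => m ∈ primesMinus E ω))} = Pb (pd w) U A

/-- DBC: concentration along the subsequence `j ^ AA ε` (edit of `MP_7d0410_sp/B_BCL.lean`; `VAR` of
`MP_7d0410_sp` holds for all `p`: `p_VAR p_TEN p_INF`). -/
def Stmt_DBC.{u} : Prop := ∀ {Ω : Type u} [MeasurableSpace Ω] (μ : Measure Ω)
  [IsProbabilityMeasure μ] (E : ℕ → Set Ω) (w : ℕ → ℝ) (c κ : ℝ), Reg w c κ → Del μ E w →
  ∀ ε : ℝ, 0 < ε → ε < 1 / 4 → ∀ k : ℕ,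
  ∀ᵐ ω ∂μ, Tendsto (fun j : ℕ => ((DD 0 (2 * j ^ AA ε) (SS ε (j ^ AA ε) (primesMinus E ω))
      (j ^ AA ε) k : ℝ) -
    Ex (pd w) (UU ε (j ^ AA ε)) (fun S => (DD 0 (2 * j ^ AA ε) S (j ^ AA ε) k : ℝ))) /
    ((j ^ AA ε : ℕ) : ℝ)) atTop (𝓝 0)

/-- DCR: the counting function of a set of primes: the number of primes `≤ y` is at most `3 y/log y`
for large `y` (see `MP_7d0410_sp/B_CRG.lean`). -/
def Stmt_DCR : Prop := ∀ P : Set ℕ, (∀ m ∈ P, m.Prime) → CountReg P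

/-- DFN: the first part of the theorem (edit of `MP_7d0410_sp/B_FIN.lean`; `ρ_k` from `DEK`,
`ε_k = min θ (ρ_k/1000)`, with `DBC`, `DCR` and `BDQ` of `MP_7d0410_sp`, `BD3` of
`MP_7d0410_cr`). -/
def Stmt_DFN.{u} : Prop := ∀ {Ω : Type u} [MeasurableSpace Ω] (μ : Measure Ω)
  [IsProbabilityMeasure μ] (E : ℕ → Set Ω) (w : ℕ → ℝ) (c κ : ℝ), Reg w c κ → Del μ E w →
  ∀ᵐ ω ∂μ, ∀ k : ℕ, ∃ δ : ℝ, 0 < δ ∧ ∀ᶠ x : ℕ in atTop,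
    δ * x ≤ (((Finset.Icc 1 x).filter (fun n => repCount (primesMinus E ω) n = k)).card : ℝ)

/-- DIN: independent events with given probabilities: the product of the measures
`w m δ_1 + (1 - w m) δ_0` on `ℕ → Bool` (`Measure.infinitePi`, `iIndepFun_infinitePi`), or the
coordinates of a product of uniform distributions on `[0, 1]`. -/
def Stmt_DIN : Prop := ∀ w : ℕ → ℝ, (∀ m, 0 ≤ w m ∧ w m ≤ 1) →
  ∃ (Ω : Type) (_ : MeasurableSpace Ω) (μ : Measure Ω) (_ : IsProbabilityMeasure μ)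
    (E : ℕ → Set Ω), Del μ E w

/-- DRG: the powers satisfy `Reg`: `(m+1)^(-c)/2 ≥ (2m)^(-c)/2 ≥ m^(-c)/4 ≥ m^(-(c+e))` and
`(m+1)^(-c)/2 ≤ m^(-c) ≤ m^(-(c-e))` for large `m`. -/
def Stmt_DRG : Prop := ∀ c : ℝ, 0 ≤ c → c < 1 / 2 →
  Reg (fun m : ℕ => 1 / 2 * ((m : ℝ) + 1) ^ (-c)) c (1 / 2)

/-- DCT: the number of deleted primes. `N_x = #{p ≤ x prime, ω ∈ E p}` is a sum of independent
indicators with expectation at most `∑_(m ≤ x) m^(-c) ≤ 4 x^(1-c)`; as in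
`MP_7d0410_sp/B_CRG.lean` (or by Markov for `2^(N_x)` and the law of `(E p)` on `Icc 1 x`)
`μ (N_x ≥ x^(1-c+e)) ≤ exp (8 x^(1-c) - x^(1-c+e))`, which is summable; Borel and Cantelli. (The law:
`DLW` with `DRG` and `U = M = (Icc 1 x).filter Prime`, since the deleted primes are the primes not in
`primesMinus E ω`; the tail: `Ex (2^|M \ T|) = ∏_(z ∈ M) (1 + w z) ≤ exp (∑ w z)` (as `Ex_prod` in
`MP_7d0410_sp/Basic.lean`) and Markov.) -/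
def Stmt_DCT : Prop := ∀ (Ω : Type) [MeasurableSpace Ω] (μ : Measure Ω) [IsProbabilityMeasure μ]
  (E : ℕ → Set Ω) (c : ℝ), 0 ≤ c → c < 1 / 2 → Del μ E (fun m => 1 / 2 * ((m : ℝ) + 1) ^ (-c)) →
  ∀ e : ℝ, 0 < e → ∀ᵐ ω ∂μ, ∀ᶠ x : ℕ in atTop,
    (((Finset.Icc 1 x).filter (fun p => p.Prime ∧ ω ∈ E p)).card : ℝ) ≤ (x : ℝ) ^ (1 - c + e)

/-- DET: the second part of the theorem. `c = max 0 (1/2 - η/2)`, `w m = (m+1)^(-c)/2` (`DRG`), `Ω, μ, E` from `DIN`. Almost all `ω` satisfy `DFN` and `DCT` with `e = η/2`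
(`1 - c + η/2 ≤ 1/2 + η` as `1 - c ≤ 1/2 + η/2`). `D` = the primes with `ω ∈ E p` for one such
`ω`; `primesMinus E ω = {p | p.Prime ∧ p ∉ D}`. -/
def Stmt_DET : Prop := ∀ η : ℝ, 0 < η → ∃ D : Set ℕ, (∀ p ∈ D, p.Prime) ∧
  (∀ᶠ x : ℕ in atTop, (((Finset.Icc 1 x).filter (fun p => p ∈ D)).card : ℝ) ≤
    (x : ℝ) ^ (1 / 2 + η)) ∧
  ∀ k : ℕ, ∃ δ : ℝ, 0 < δ ∧ ∀ᶠ x : ℕ in atTop,
    δ * x ≤ (((Finset.Icc 1 x).filter (fun n => repCount {p | p.Prime ∧ p ∉ D} n = k)).card : ℝ)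

end Pool.Agent.Work.MP_7d0410_dl
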