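import Pool.Agent.Work.MP_7d0410_dl.Basic
import Pool.Agent.Work.MP_7d0410_dl.Interface
import Pool.Agent.Work.MP_7d0410_sp.B_CHE

/-! # MP_7d0410, random subsets of the primes: block TYP -/

set_option autoImplicit false

namespace Pool.Agent.Work.MP_7d0410_dl

open Finset Filter MeasureTheory ProbabilityTheory
open Pool.Agent.Work.MP_7d0410_cr (seg sm len runs rr good gr cnt DD meet AB PP CountReg NN a0 UU SS
  AA repCount)
open Pool.Agent.Work.MP_7d0410_sp (Prob wt Ex Pb hh gg HH T1 T2 A1 A2 VV G1 R1 LL pin F0 XX)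
open scoped Classical

/-- one side -/
lemma TYP_side {w : ℕ → ℝ} {c κ : ℝ} (hw : Reg w c κ) (K : ℕ) (hK : 4 ≤ (K : ℝ) * (1 - κ))
    (U I : Finset ℕ) (r : ℕ) (P : ℕ → Prop) [DecidablePred P] (hIU : I ⊆ U) (hI : ∀ z ∈ I, z.Prime ∧ P z)
    (hc : K * r ≤ I.card) :
    Pb (pd w) U (fun S => (S.filter P).card < 2 * r) ≤ Real.exp (-((r : ℝ) / 2)) := by
  have hp := prob_pd hw
  have h1 : Pb (pd w) U (fun S => (S.filter P).card < 2 * r) ≤
      Pb (pd w) U (fun S => (S ∩ I).card < 2 * r) := by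
    apply Pool.Agent.Work.MP_7d0410_sp.Pb_mono hp
    intro S _ hS
    refine lt_of_le_of_lt (Finset.card_le_card ?_) hS
    intro z hz
    rw [Finset.mem_inter] at hz
    exact Finset.mem_filter.2 ⟨hz.1, (hI z hz.2).2⟩
  refine h1.trans ?_
  have h2 : (1 + (1 : ℝ)) * ((2 * r : ℕ) : ℝ) ≤ ∑ m ∈ I, pd w m := by
    have h3 : ∑ m ∈ I, pd w m = ∑ m ∈ I, (1 - w m) :=
      Finset.sum_congr rfl fun m hm => pd_prime (hI m hm).1
    have h4 : (I.card : ℝ) * (1 - κ) ≤ ∑ m ∈ I, (1 - w m) := by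
      rw [← nsmul_eq_mul]
      apply Finset.card_nsmul_le_sum
      intro m _
      linarith [hw.le m]
    have h5 : ((K * r : ℕ) : ℝ) ≤ I.card := by exact_mod_cast hc
    have h6 : 0 < 1 - κ := by linarith [hw.k1]
    have h7 : ((K * r : ℕ) : ℝ) * (1 - κ) ≤ (I.card : ℝ) * (1 - κ) :=
      mul_le_mul_of_nonneg_right h5 h6.le
    have h8 : 4 * (r : ℝ) ≤ ((K * r : ℕ) : ℝ) * (1 - κ) := by
      push_cast
      have h9 : (4 : ℝ) * r ≤ (K * (1 - κ)) * r :=
        mul_le_mul_of_nonneg_right hK (Nat.cast_nonneg r)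
      linarith
    rw [h3]
    push_cast
    linarith
  have h3 := Pool.Agent.Work.MP_7d0410_sp.p_CHL (pd w) hp U I (2 * r) 1 hIU one_pos le_rfl h2
  refine h3.trans (Real.exp_le_exp.2 ?_)
  push_cast
  linarith

/-- the union bound for two events -/
lemma TYP_or {p : ℕ → ℝ} (hp : Prob p) (U : Finset ℕ) (A B : Finset ℕ → Prop) :
    Pb p U (fun S => A S ∨ B S) ≤ Pb p U A + Pb p U B := by
  unfold Pb
  rw [← Pool.Agent.Work.MP_7d0410_sp.Ex_add]
  refine Pool.Agent.Work.MP_7d0410_sp.Ex_mono hp fun S _ => ?_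
  by_cases hA : A S
  · by_cases hB : B S
    · simp [hA, hB]
    · simp [hA, hB]
  · by_cases hB : B S
    · simp [hA, hB]
    · simp [hA, hB]

theorem p_TYP : Stmt_TYP := by
  intro w c κ hw K hK A B Λ n r hr hG hA hB
  have hp := prob_pd hw
  have h1 : Pb (pd w) (Finset.Icc A B)
      (fun S => (S.filter (fun z => r * z < n ∧ n ≤ r * (z + Λ))).card < 2 * r) ≤
      Real.exp (-((r : ℝ) / 2)) := by
    refine TYP_side hw K hK _ ((Finset.range (n + 1)).filter
      (fun p => p.Prime ∧ r * p < n ∧ n ≤ r * (p + Λ))) r _ ?_ ?_ hG.1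
    · intro z hz
      obtain ⟨-, -, h2, h3⟩ := Finset.mem_filter.1 hz
      rw [Finset.mem_Icc]
      constructor
      · by_contra h4
        have h5 : r * (z + 1) ≤ r * A := Nat.mul_le_mul_left r (by omega)
        nlinarith
      · by_contra h4
        have h5 : r * (B + 1) ≤ r * z := Nat.mul_le_mul_left r (by omega)
        nlinarith [Nat.zero_le (Λ * r)]
    · intro z hz
      obtain ⟨-, h1, h2, h3⟩ := Finset.mem_filter.1 hz
      exact ⟨h1, h2, h3⟩
  have h2 : Pb (pd w) (Finset.Icc A B)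
      (fun S => (S.filter (fun z => n < r * z ∧ r * z ≤ n + r * Λ)).card < 2 * r) ≤
      Real.exp (-((r : ℝ) / 2)) := by
    refine TYP_side hw K hK _ ((Finset.range (2 * n + 1)).filter
      (fun p => p.Prime ∧ n < r * p ∧ r * p ≤ n + r * Λ)) r _ ?_ ?_ hG.2
    · intro z hz
      obtain ⟨-, -, h2, h3⟩ := Finset.mem_filter.1 hz
      rw [Finset.mem_Icc]
      constructor
      · by_contra h4
        have h5 : r * (z + 1) ≤ r * A := Nat.mul_le_mul_left r (by omega)
        nlinarith [Nat.zero_le (Λ * r)]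
      · by_contra h4
        have h5 : r * (B + 1) ≤ r * z := Nat.mul_le_mul_left r (by omega)
        nlinarith
    · intro z hz
      obtain ⟨-, h1, h2, h3⟩ := Finset.mem_filter.1 hz
      exact ⟨h1, h2, h3⟩
  have h3 : Pb (pd w) (Finset.Icc A B) (fun S => ¬ TY Λ n r S) ≤
      Pb (pd w) (Finset.Icc A B) (fun S =>
        (S.filter (fun z => r * z < n ∧ n ≤ r * (z + Λ))).card < 2 * r ∨
        (S.filter (fun z => n < r * z ∧ r * z ≤ n + r * Λ)).card < 2 * r) := by
    apply Pool.Agent.Work.MP_7d0410_sp.Pb_mono hp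
    intro S _ hS
    unfold TY at hS
    rw [not_and_or, not_le, not_le] at hS
    exact hS
  refine h3.trans ((TYP_or hp _ _ _).trans ?_)
  linarith

end Pool.Agent.Work.MP_7d0410_dl
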