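import Pool.Agent.Work.MP_7d0410_dl.Interface

/-!
# Block WVB: the deletion probabilities in `VV`
-/

set_option autoImplicit false

namespace Pool.Agent.Work.MP_7d0410_dl

open Finset Filter MeasureTheory ProbabilityTheory
open Pool.Agent.Work.MP_7d0410_sp (A1 A2 VV)

theorem p_WVB : Stmt_WVB := by
  intro w c κ hR
  have hθ := tt_pos hR
  have hθ2 := tt_le hR
  have hc := hR.c0
  have hs : 0 < tt c ^ 2 := by positivity
  obtain ⟨M0, hM0⟩ := Filter.eventually_atTop.1 (hR.exp (tt c ^ 2) hs)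
  have h2 : Filter.Tendsto (fun x : ℕ => (x : ℝ) ^ (1 / 2 + 4 * tt c)) Filter.atTop
      Filter.atTop :=
    (tendsto_rpow_atTop (by linarith)).comp tendsto_natCast_atTop_atTop
  filter_upwards [h2.eventually_ge_atTop (M0 : ℝ), Filter.eventually_ge_atTop 1] with x hx hx1
  intro m hm
  unfold VV at hm
  rw [Finset.mem_Icc] at hm
  have hxr : (1 : ℝ) ≤ x := by exact_mod_cast hx1
  have hx0 : (0 : ℝ) < x := by linarith
  have hm1 : (x : ℝ) ^ (1 / 2 + 4 * tt c) ≤ m :=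
    (Nat.le_ceil _).trans (by exact_mod_cast hm.1)
  have hm2 : (m : ℝ) ≤ (x : ℝ) ^ (1 / 2 + 8 * tt c) :=
    le_trans (by exact_mod_cast hm.2) (Nat.floor_le (by positivity))
  have hmM : M0 ≤ m := by exact_mod_cast hx.trans hm1
  have hmr : (0 : ℝ) < m := lt_of_lt_of_le (Real.rpow_pos_of_pos hx0 _) hm1
  obtain ⟨hl, hu⟩ := hM0 m hmM
  have hct : 0 ≤ c * tt c := by positivity
  have ht3 : tt c * tt c ^ 2 ≤ 1 / 200 * tt c ^ 2 := mul_le_mul_of_nonneg_right hθ2 hs.le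
  have ht3' : 0 ≤ tt c * tt c ^ 2 := by positivity
  constructor
  · refine le_trans ?_ hl
    unfold wlo
    have h3 : ((x : ℝ) ^ (1 / 2 + 8 * tt c)) ^ (-(c + tt c ^ 2)) ≤ (m : ℝ) ^ (-(c + tt c ^ 2)) :=
      Real.rpow_le_rpow_of_nonpos hmr hm2 (by linarith)
    refine le_trans ?_ h3
    rw [← Real.rpow_mul hx0.le]
    refine Real.rpow_le_rpow_of_exponent_le hxr ?_
    nlinarith
  · refine le_trans hu ?_
    unfold whi
    by_cases hcc : tt c ^ 2 ≤ c
    · have h3 : (m : ℝ) ^ (-(c - tt c ^ 2)) ≤ ((x : ℝ) ^ (1 / 2 + 4 * tt c)) ^ (-(c - tt c ^ 2)) :=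
        Real.rpow_le_rpow_of_nonpos (Real.rpow_pos_of_pos hx0 _) hm1 (by linarith)
      refine le_trans h3 ?_
      rw [← Real.rpow_mul hx0.le]
      refine Real.rpow_le_rpow_of_exponent_le hxr ?_
      nlinarith
    · push Not at hcc
      have h3 : (m : ℝ) ^ (-(c - tt c ^ 2)) ≤ ((x : ℝ) ^ (1 / 2 + 8 * tt c)) ^ (-(c - tt c ^ 2)) :=
        Real.rpow_le_rpow hmr.le hm2 (by linarith)
      refine le_trans h3 ?_
      rw [← Real.rpow_mul hx0.le]
      refine Real.rpow_le_rpow_of_exponent_le hxr ?_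
      nlinarith

end Pool.Agent.Work.MP_7d0410_dl
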