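import Pool.Agent.Work.MP_7d0410_dl.Defs

/-!
# Random subsets of the primes: basic facts
-/

set_option autoImplicit false

namespace Pool.Agent.Work.MP_7d0410_dl

open Finset Filter MeasureTheory ProbabilityTheory
open Pool.Agent.Work.MP_7d0410_cr (seg sm len runs rr good gr cnt DD meet AB PP CountReg NN a0 UU SS
  AA repCount)
open Pool.Agent.Work.MP_7d0410_sp (Prob wt Ex Pb hh gg HH T1 T2 A1 A2 VV G1 R1 LL pin F0 XX)
open scoped Classical

lemma pd_prime {w : ℕ → ℝ} {m : ℕ} (h : m.Prime) : pd w m = 1 - w m := by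
  unfold pd
  rw [if_pos h]

lemma pd_not_prime {w : ℕ → ℝ} {m : ℕ} (h : ¬ m.Prime) : pd w m = 0 := by
  unfold pd
  rw [if_neg h]

lemma prob_pd {w : ℕ → ℝ} {c κ : ℝ} (h : Reg w c κ) : Prob (pd w) := by
  intro m
  have h1 := h.pos m
  have h2 := h.le m
  have h3 := h.k1
  unfold pd
  split_ifs
  · constructor <;> linarith
  · constructor <;> norm_num

/-- sets with an element which is not a prime have weight `0` -/
lemma wt_pd_eq_zero {w : ℕ → ℝ} {U S : Finset ℕ} {z : ℕ} (hz : ¬ z.Prime) (hS : z ∈ S) :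
    wt (pd w) U S = 0 := by
  unfold wt
  rw [Finset.prod_eq_zero hS (pd_not_prime hz), zero_mul]

/-- expectations only depend on the sets of primes -/
lemma Ex_mono_pd {w : ℕ → ℝ} {c κ : ℝ} (h : Reg w c κ) {U : Finset ℕ} {F K : Finset ℕ → ℝ}
    (hF : ∀ S ⊆ U, (∀ z ∈ S, z.Prime) → F S ≤ K S) : Ex (pd w) U F ≤ Ex (pd w) U K := by
  unfold Ex
  refine Finset.sum_le_sum fun S hS => ?_
  by_cases hq : ∀ z ∈ S, z.Prime
  · exact mul_le_mul_of_nonneg_left (hF S (Finset.mem_powerset.1 hS) hq)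
      (Pool.Agent.Work.MP_7d0410_sp.wt_nonneg (prob_pd h) U S)
  · push Not at hq
    obtain ⟨z, h1, h2⟩ := hq
    rw [wt_pd_eq_zero h2 h1, zero_mul, zero_mul]

/-- deletion formula: `z` is put back into `S` -/
lemma Ex_delete {p : ℕ → ℝ} (U : Finset ℕ) (z : ℕ) (hz : z ∈ U) (h0 : 0 < p z) (h1 : p z < 1)
    (F : Finset ℕ → ℝ) :
    Ex p U (fun S => (if z ∈ S then 0 else 1) * F S) =
      (1 - p z) / p z * Ex p U (fun S => (if z ∈ S then 1 else 0) * F (S.erase z)) := by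
  rw [Pool.Agent.Work.MP_7d0410_sp.Ex_insert U z hz h1 F]
  have h2 : 1 - p z ≠ 0 := by linarith
  have h3 : p z ≠ 0 := by linarith
  field_simp

lemma tt_pos {w : ℕ → ℝ} {c κ : ℝ} (h : Reg w c κ) : 0 < tt c := by
  have := h.c1
  unfold tt
  linarith

lemma tt_le {w : ℕ → ℝ} {c κ : ℝ} (h : Reg w c κ) : tt c ≤ 1 / 200 := by
  have := h.c0
  unfold tt
  linarith

lemma c_eq (c : ℝ) : c = 1 / 2 - 100 * tt c := by
  unfold tt
  ring

lemma wlo_pos (c : ℝ) {x : ℕ} (hx : 1 ≤ x) : 0 < wlo c x :=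
  Real.rpow_pos_of_pos (by exact_mod_cast hx) _

lemma whi_pos (c : ℝ) {x : ℕ} (hx : 1 ≤ x) : 0 < whi c x :=
  Real.rpow_pos_of_pos (by exact_mod_cast hx) _

lemma whi_le {w : ℕ → ℝ} {c κ : ℝ} (h : Reg w c κ) {x : ℕ} (hx : 1 ≤ x) :
    whi c x ≤ (x : ℝ) ^ (2 * tt c) * wlo c x := by
  have h1 : (0 : ℝ) < x := by exact_mod_cast hx
  have h2 : (1 : ℝ) ≤ x := by exact_mod_cast hx
  have h3 := tt_pos h
  have h4 := c_eq c
  unfold whi wlo
  rw [← Real.rpow_add h1]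
  refine Real.rpow_le_rpow_of_exponent_le h2 ?_
  have h5 : c * tt c = tt c / 2 - 100 * tt c ^ 2 := by
    nth_rewrite 1 [h4]
    ring
  nlinarith [sq_nonneg (tt c)]

lemma wlo_ge {w : ℕ → ℝ} {c κ : ℝ} (_h : Reg w c κ) {x : ℕ} (hx : 1 ≤ x) :
    (x : ℝ) ^ (-(1 / 4) + 46 * tt c) ≤ wlo c x := by
  have h2 : (1 : ℝ) ≤ x := by exact_mod_cast hx
  have h4 := c_eq c
  unfold wlo
  refine Real.rpow_le_rpow_of_exponent_le h2 ?_
  have h5 : c * tt c = tt c / 2 - 100 * tt c ^ 2 := by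
    nth_rewrite 1 [h4]
    ring
  nlinarith [sq_nonneg (tt c)]

lemma LD_le {w : ℕ → ℝ} {c κ : ℝ} (h : Reg w c κ) {x : ℕ} (hx : 1 ≤ x) :
    (LD c x : ℝ) ≤ 2 * (x : ℝ) ^ (2 * tt c + c * (1 / 2 + 8 * tt c) + 2 * tt c ^ 2) := by
  have h1 : (0 : ℝ) < x := by exact_mod_cast hx
  have h2 : (1 : ℝ) ≤ x := by exact_mod_cast hx
  have h3 := tt_pos h
  have h6 := h.c0
  have h4 : (x : ℝ) ^ (2 * tt c) / wlo c x =
      (x : ℝ) ^ (2 * tt c + c * (1 / 2 + 8 * tt c) + 2 * tt c ^ 2) := by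
    unfold wlo
    rw [← Real.rpow_sub h1]
    congr 1
    ring
  have h5 : (1 : ℝ) ≤ (x : ℝ) ^ (2 * tt c + c * (1 / 2 + 8 * tt c) + 2 * tt c ^ 2) :=
    Real.one_le_rpow h2 (by positivity)
  unfold LD
  rw [h4]
  have := (Nat.ceil_lt_add_one (a := (x : ℝ) ^ (2 * tt c + c * (1 / 2 + 8 * tt c) + 2 * tt c ^ 2))
    (by linarith)).le
  linarith

lemma LD_le_quarter {w : ℕ → ℝ} {c κ : ℝ} (h : Reg w c κ) {x : ℕ} (hx : 1 ≤ x) :
    (LD c x : ℝ) ≤ 2 * (x : ℝ) ^ ((1 : ℝ) / 4) := by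
  have h2 : (1 : ℝ) ≤ x := by exact_mod_cast hx
  refine (LD_le h hx).trans ?_
  refine mul_le_mul_of_nonneg_left ?_ (by norm_num)
  refine Real.rpow_le_rpow_of_exponent_le h2 ?_
  have h3 := tt_pos h
  have h4 := c_eq c
  have h5 : c * tt c = tt c / 2 - 100 * tt c ^ 2 := by
    nth_rewrite 1 [h4]
    ring
  nlinarith [sq_nonneg (tt c)]

lemma dn_nonneg (t : ℝ) : 0 ≤ dn t := abs_nonneg _

lemma dn_le_half (t : ℝ) : dn t ≤ 1 / 2 := abs_sub_round t

/-- the distance to the nearest integer is at most the distance to any integer -/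
lemma dn_le (t : ℝ) (m : ℤ) : dn t ≤ |t - m| := round_le t m

lemma dn_zero : dn 0 = 0 := by
  unfold dn
  simp

/-- some integer has the distance `dn t` -/
lemma dn_eq (t : ℝ) : ∃ m : ℤ, dn t = |t - m| := ⟨round t, rfl⟩

lemma dn_add_int (t : ℝ) (m : ℤ) : dn (t + m) = dn t := by
  unfold dn
  rw [round_add_intCast]
  push_cast
  congr 1
  ring

lemma dn_neg (t : ℝ) : dn (-t) = dn t := by
  refine le_antisymm ?_ ?_
  · obtain ⟨m, hm⟩ := dn_eq t
    rw [hm]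
    refine (dn_le (-t) (-m)).trans (le_of_eq ?_)
    push_cast
    rw [← abs_neg]
    congr 1
    ring
  · obtain ⟨m, hm⟩ := dn_eq (-t)
    rw [hm]
    refine (dn_le t (-m)).trans (le_of_eq ?_)
    push_cast
    rw [← abs_neg]
    congr 1
    ring

lemma dn_add (a b : ℝ) : dn (a + b) ≤ dn a + dn b := by
  obtain ⟨m, hm⟩ := dn_eq a
  obtain ⟨k, hk⟩ := dn_eq b
  rw [hm, hk]
  refine (dn_le (a + b) (m + k)).trans ?_
  push_cast
  have : a + b - ((m : ℝ) + k) = (a - m) + (b - k) := by ring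
  rw [this]
  exact abs_add_le _ _

lemma dn_sub (a b : ℝ) : dn (a - b) ≤ dn a + dn b := by
  rw [sub_eq_add_neg]
  refine (dn_add a (-b)).trans ?_
  rw [dn_neg]

lemma dn_le_abs (t : ℝ) : dn t ≤ |t| := by
  have := dn_le t 0
  simpa using this

lemma ee_add (a b : ℝ) : ee (a + b) = ee a * ee b := by
  unfold ee
  rw [← Complex.exp_add]
  congr 1
  push_cast
  ring

lemma ee_zero : ee 0 = 1 := by
  unfold ee
  simp

lemma norm_ee (t : ℝ) : ‖ee t‖ = 1 := by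
  unfold ee
  have : (2 * Real.pi * t * Complex.I : ℂ) = ((2 * Real.pi * t : ℝ) : ℂ) * Complex.I := by
    push_cast
    ring
  rw [this, Complex.norm_exp_ofReal_mul_I]

lemma ee_int (m : ℤ) : ee m = 1 := by
  unfold ee
  rw [Complex.exp_eq_one_iff]
  exact ⟨m, by push_cast; ring⟩

lemma ee_add_int (t : ℝ) (m : ℤ) : ee (t + m) = ee t := by
  rw [ee_add, ee_int, mul_one]

end Pool.Agent.Work.MP_7d0410_dl
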