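import Pool.Agent.Work.MP_7d0410_dl.Moser3
import Pool.Agent.Work.MP_7d0410_sp.Interface

/-!
# Random subsets of the primes: definitions for the proof

The notions of runs (`seg`, `sm`, `len`, `runs`, `rr`, `good`, `gr`, `cnt`, `DD`, `meet`, `AB`, `PP`,
`CountReg`, `NN`) and the parameters `a0`, `UU`, `SS`, `AA` are those of
`Pool.Agent.Work.MP_7d0410_cr`; the expectations `Prob`, `wt`, `Ex`, `Pb`, `hh`, `gg`, `HH`, `T1`, `T2`
(for arbitrary probabilities `p m`) and the parameters `A1`, `A2`, `VV`, `G1`, `R1`, `LL`, `pin` are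
those of `Pool.Agent.Work.MP_7d0410_sp`. Both are open here except for the names of
`MP_7d0410_cr` which are declared again in `MP_7d0410_sp`.
-/

set_option autoImplicit false

namespace Pool.Agent.Work.MP_7d0410_dl

open Finset Filter MeasureTheory ProbabilityTheory
open Pool.Agent.Work.MP_7d0410_cr (seg sm len runs rr good gr cnt DD meet AB PP CountReg NN a0 UU SS
  AA repCount)
open Pool.Agent.Work.MP_7d0410_sp (Prob wt Ex Pb hh gg HH T1 T2 A1 A2 VV G1 R1 LL pin F0 XX)
open scoped Classical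

/-! ## The model -/

/-- The probabilities: a prime `m` is an element with probability `1 - w m`, the other numbers are
not elements. -/
noncomputable def pd (w : ℕ → ℝ) (m : ℕ) : ℝ := if m.Prime then 1 - w m else 0

/-- The deletion probabilities: positive, at most `κ < 1`, and `w m = m ^ (-c + o(1))`. -/
structure Reg (w : ℕ → ℝ) (c κ : ℝ) : Prop where
  pos : ∀ m : ℕ, 0 < w m
  le : ∀ m : ℕ, w m ≤ κ
  k1 : κ < 1
  c0 : 0 ≤ c
  c1 : c < 1 / 2
  exp : ∀ e : ℝ, 0 < e → ∀ᶠ m : ℕ in atTop, (m : ℝ) ^ (-(c + e)) ≤ w m ∧ w m ≤ (m : ℝ) ^ (-(c - e))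

/-- The parameter `θ`. -/
noncomputable def tt (c : ℝ) : ℝ := (1 / 2 - c) / 100

/-- The deletion probabilities in `VV` are at least this. -/
noncomputable def wlo (c : ℝ) (x : ℕ) : ℝ := (x : ℝ) ^ (-(c * (1 / 2 + 8 * tt c) + 2 * tt c ^ 2))

/-- The deletion probabilities in `VV` are at most this. -/
noncomputable def whi (c : ℝ) (x : ℕ) : ℝ := (x : ℝ) ^ (-(c * (1 / 2 + 4 * tt c) - 2 * tt c ^ 2))

/-- Runs of at least this length have many deleted primes between their ends. -/
noncomputable def LD (c : ℝ) (x : ℕ) : ℕ := ⌈(x : ℝ) ^ (2 * tt c) / wlo c x⌉₊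

/-- The number of lengths in a block. -/
noncomputable def JJ (θ : ℝ) (x : ℕ) : ℕ := ⌈(x : ℝ) ^ (8 * θ)⌉₊

/-- The length of the interval of sums which is used for the length `r`. -/
noncomputable def LN (θ : ℝ) (x r : ℕ) : ℕ := ⌈(x : ℝ) ^ (2 * θ)⌉₊ * r

/-! ## Good lengths, covering -/

/-- There are `K r` primes on both sides of `n / r` within distance `Λ`. -/
def GK (K Λ n r : ℕ) : Prop :=
  K * r ≤ ((Finset.range (n + 1)).filter (fun p => p.Prime ∧ r * p < n ∧ n ≤ r * (p + Λ))).card ∧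
  K * r ≤ ((Finset.range (2 * n + 1)).filter (fun p => p.Prime ∧ n < r * p ∧ r * p ≤ n + r * Λ)).card

/-- The lengths which are good for `n`. -/
noncomputable def RK (K : ℕ) (C θ : ℝ) (x n : ℕ) : Finset ℕ :=
  (Finset.Icc 1 x).filter (fun r => GK K (LL C x r) n r ∧ 2 * A1 θ x * r ≤ n ∧ 2 * n ≤ A2 θ x * r)

/-- `S` has `2 r` elements on both sides of `n / r` within distance `Λ`. -/
def TY (Λ n r : ℕ) (S : Finset ℕ) : Prop :=
  2 * r ≤ (S.filter (fun z => r * z < n ∧ n ≤ r * (z + Λ))).card ∧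
  2 * r ≤ (S.filter (fun z => n < r * z ∧ r * z ≤ n + r * Λ)).card

/-- The primes strictly between `α` and `β`. -/
def MM (α β : ℕ) : Finset ℕ := (Finset.Ioo α β).filter Nat.Prime

/-- The expected number of `r`-runs with the sum `n` which contain `[α, β]`. -/
noncomputable def hM (p : ℕ → ℝ) (V : Finset ℕ) (α β r n : ℕ) : ℝ :=
  Ex p V (fun S => (((rr S r n).filter (fun q => q.1 ≤ α ∧ β ≤ q.2)).card : ℝ))

/-! ## Fourier analysis -/

/-- The distance to the nearest integer. -/
noncomputable def dn (t : ℝ) : ℝ := |t - round t|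

/-- `e(t) = exp(2 π i t)`. -/
noncomputable def ee (t : ℝ) : ℂ := Complex.exp (2 * Real.pi * t * Complex.I)

/-- The probability that the random subset of `M` has `j` elements and the sum `D`. -/
noncomputable def Pc (p : ℕ → ℝ) (M : Finset ℕ) (j D : ℤ) : ℝ :=
  Pb p M (fun T => (T.card : ℤ) = j ∧ ((∑ z ∈ T, z : ℕ) : ℤ) = D)

/-- The probability that the sum is `D` and the number of elements lies in `[j, j + J)`. -/
noncomputable def Bk (p : ℕ → ℝ) (M : Finset ℕ) (J : ℕ) (j D : ℤ) : ℝ :=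
  ∑ i ∈ Finset.range J, Pc p M (j + i) D

/-! ## Deletion -/

/-- The number of the primes between the ends of `q` which are not in `S`. -/
def KD (S : Finset ℕ) (q : ℕ × ℕ) : ℕ := ((Finset.Ioo q.1 q.2).filter (fun z => z.Prime ∧ z ∉ S)).card

/-- The number of the runs of `S` of length `r + 1` which become runs with the sum `n` when `z` is
removed. -/
def FD (S : Finset ℕ) (r n z : ℕ) : ℕ :=
  ((runs S).filter (fun q => q.1 < z ∧ z < q.2 ∧ len S q = r + 1 ∧ sm S q = n + z)).card

/-- The hypotheses on the events. -/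
structure Del {Ω : Type*} [MeasurableSpace Ω] (μ : Measure Ω) (E : ℕ → Set Ω) (w : ℕ → ℝ) : Prop where
  meas : ∀ m, MeasurableSet (E m)
  indep : iIndepSet E μ
  prob : ∀ p : ℕ, p.Prime → μ (E p) = ENNReal.ofReal (w p)

end Pool.Agent.Work.MP_7d0410_dl
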