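import Pool.Agent.Work.MP_7d0410_dl.B_KGA
import Pool.Agent.Work.MP_7d0410_dl.B_KGC
import Pool.Agent.Work.MP_7d0410_dl.B_KG1
import Pool.Agent.Work.MP_7d0410_dl.B_KGR
import Pool.Agent.Work.MP_7d0410_dl.B_FOU
import Pool.Agent.Work.MP_7d0410_dl.B_MOD
import Pool.Agent.Work.MP_7d0410_dl.B_GEO
import Pool.Agent.Work.MP_7d0410_dl.B_CNT
import Pool.Agent.Work.MP_7d0410_dl.B_BO1
import Pool.Agent.Work.MP_7d0410_dl.B_BO2
import Pool.Agent.Work.MP_7d0410_dl.B_BO3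
import Pool.Agent.Work.MP_7d0410_dl.B_BOH
import Pool.Agent.Work.MP_7d0410_dl.B_FLA
import Pool.Agent.Work.MP_7d0410_dl.B_CHW
import Pool.Agent.Work.MP_7d0410_dl.B_RCT
import Pool.Agent.Work.MP_7d0410_dl.B_FLB
import Pool.Agent.Work.MP_7d0410_dl.B_WVB
import Pool.Agent.Work.MP_7d0410_dl.B_FLN
import Pool.Agent.Work.MP_7d0410_dl.B_CV1
import Pool.Agent.Work.MP_7d0410_dl.B_COV
import Pool.Agent.Work.MP_7d0410_dl.B_CRS
import Pool.Agent.Work.MP_7d0410_dl.B_TYP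
import Pool.Agent.Work.MP_7d0410_dl.B_HLD
import Pool.Agent.Work.MP_7d0410_dl.B_HMD
import Pool.Agent.Work.MP_7d0410_dl.B_DCK
import Pool.Agent.Work.MP_7d0410_dl.B_DCU
import Pool.Agent.Work.MP_7d0410_dl.B_DRB
import Pool.Agent.Work.MP_7d0410_dl.B_DC1
import Pool.Agent.Work.MP_7d0410_dl.B_DCO
import Pool.Agent.Work.MP_7d0410_dl.B_DEA
import Pool.Agent.Work.MP_7d0410_dl.B_DED
import Pool.Agent.Work.MP_7d0410_dl.B_DEK
import Pool.Agent.Work.MP_7d0410_dl.B_DLW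
import Pool.Agent.Work.MP_7d0410_dl.B_DBC
import Pool.Agent.Work.MP_7d0410_dl.B_DCR
import Pool.Agent.Work.MP_7d0410_dl.B_DFN
import Pool.Agent.Work.MP_7d0410_dl.B_DIN
import Pool.Agent.Work.MP_7d0410_dl.B_DRG
import Pool.Agent.Work.MP_7d0410_dl.B_DCT
import Pool.Agent.Work.MP_7d0410_dl.B_DCG
import Pool.Agent.Work.MP_7d0410_dl.B_DET

/-!
# Random subsets of the primes: the theorem
-/

set_option autoImplicit false

namespace Pool.Agent.Work.MP_7d0410_dl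

open Finset Filter MeasureTheory ProbabilityTheory
open Pool.Agent.Work.MP_7d0410_cr (repCount)
open scoped Classical Topology

theorem f_KGR : Stmt_KGR := p_KGR (p_KG1 p_KGC p_KGA)

theorem f_BO2 : Stmt_BO2 := p_BO2 p_BO3

theorem f_FLA : Stmt_FLA := p_FLA p_FOU p_MOD p_GEO p_CNT (p_BOH p_BO1 f_BO2)

theorem f_FLN : Stmt_FLN := p_FLN (p_FLB f_FLA p_CHW p_RCT) p_WVB

theorem f_COV : Stmt_COV := p_COV p_CV1

theorem f_HMD : Stmt_HMD := p_HMD f_KGR (p_HLD f_FLN f_COV p_CRS p_TYP)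

theorem f_DRB : Stmt_DRB := p_DRB p_WVB p_CHW (p_DCU p_DCK)

theorem f_DCO : Stmt_DCO := p_DCO (p_DC1 f_DRB) f_DRB

theorem f_DED : Stmt_DED := p_DED f_HMD f_DCO p_DEA

theorem f_DEK : Stmt_DEK := p_DEK f_DED p_DEA

theorem f_DFN.{u} : Stmt_DFN.{u} := p_DFN (p_DBC p_DLW) f_DEK p_DCR

theorem f_DET : Stmt_DET := p_DET f_DFN p_DIN (p_DCT p_DLW p_DRG) p_DRG

/-- `w` only matters at the primes -/
lemma reg_of_primes {w : ℕ → ℝ} {c κ : ℝ} (hc0 : 0 ≤ c) (hc1 : c < 1 / 2) (hκ : κ < 1)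
    (hw : ∀ p : ℕ, p.Prime → 0 < w p ∧ w p ≤ κ)
    (he : ∀ e : ℝ, 0 < e → ∀ᶠ p : ℕ in atTop, p.Prime →
      (p : ℝ) ^ (-(c + e)) ≤ w p ∧ w p ≤ (p : ℝ) ^ (-(c - e))) :
    Reg (fun m => if m.Prime then w m else min κ (1 / 2 * ((m : ℝ) + 1) ^ (-c))) c κ := by
  have hκ0 : 0 < κ := (hw 2 Nat.prime_two).1.trans_le (hw 2 Nat.prime_two).2
  have hD := p_DRG c hc0 hc1
  refine ⟨fun m => ?_, fun m => ?_, hκ, hc0, hc1, fun e h0 => ?_⟩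
  · show 0 < if m.Prime then w m else min κ (1 / 2 * ((m : ℝ) + 1) ^ (-c))
    split_ifs with hm
    · exact (hw m hm).1
    · exact lt_min hκ0 (hD.pos m)
  · show (if m.Prime then w m else min κ (1 / 2 * ((m : ℝ) + 1) ^ (-c))) ≤ κ
    split_ifs with hm
    · exact (hw m hm).2
    · exact min_le_left _ _
  · have h1 : ∀ᶠ m : ℕ in atTop, (m : ℝ) ^ (-(c + e)) ≤ κ :=
      ((tendsto_rpow_neg_atTop (by linarith)).comp
        tendsto_natCast_atTop_atTop).eventually_le_const hκ0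
    filter_upwards [he e h0, hD.exp e h0, h1] with m h2 h3 h4
    show (m : ℝ) ^ (-(c + e)) ≤ (if m.Prime then w m else min κ (1 / 2 * ((m : ℝ) + 1) ^ (-c))) ∧
      (if m.Prime then w m else min κ (1 / 2 * ((m : ℝ) + 1) ^ (-c))) ≤ (m : ℝ) ^ (-(c - e))
    split_ifs with hm
    · exact h2 hm
    · exact ⟨le_min h4 h3.1, (min_le_right _ _).trans h3.2⟩

/-- the theorem -/
theorem final.{u} {Ω : Type u} [MeasurableSpace Ω] (μ : Measure Ω) [IsProbabilityMeasure μ]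
    (E : ℕ → Set Ω) (w : ℕ → ℝ) (c κ : ℝ) (hc0 : 0 ≤ c) (hc1 : c < 1 / 2) (hκ : κ < 1)
    (hw : ∀ p : ℕ, p.Prime → 0 < w p ∧ w p ≤ κ)
    (he : ∀ e : ℝ, 0 < e → ∀ᶠ p : ℕ in atTop, p.Prime →
      (p : ℝ) ^ (-(c + e)) ≤ w p ∧ w p ≤ (p : ℝ) ^ (-(c - e)))
    (hmeas : ∀ m, MeasurableSet (E m)) (hind : iIndepSet E μ)
    (hprob : ∀ p : ℕ, p.Prime → μ (E p) = ENNReal.ofReal (w p)) :
    ∀ᵐ ω ∂μ, (∀ e : ℝ, 0 < e → ∀ᶠ x : ℕ in atTop,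
      (((Finset.Icc 1 x).filter (fun p => p.Prime ∧ ω ∈ E p)).card : ℝ) ≤ (x : ℝ) ^ (1 - c + e)) ∧
      ∀ k : ℕ, ∃ δ : ℝ, 0 < δ ∧ ∀ᶠ x : ℕ in atTop,
      δ * x ≤ (((Finset.Icc 1 x).filter
        (fun n => repCount {p | p.Prime ∧ ω ∉ E p} n = k)).card : ℝ) := by
  have hR := reg_of_primes hc0 hc1 hκ hw he
  have hD : Del μ E (fun m => if m.Prime then w m else min κ (1 / 2 * ((m : ℝ) + 1) ^ (-c))) := by
    refine ⟨hmeas, hind, fun p hp => ?_⟩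
    rw [hprob p hp, if_pos hp]
  filter_upwards [f_DFN μ E _ c κ hR hD, p_DCG p_DLW μ E _ c κ hR hD] with ω h1 h2
  exact ⟨h2, h1⟩

end Pool.Agent.Work.MP_7d0410_dl
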