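import Pool.Agent.Work.MP_7d0410_cr.Moser

/-!
# Moser's problem for random subsets of the primes: the definition used in the theorem

`repCount P n`, the number of representations of `n` as a sum of one or more consecutive elements
of `P`, is defined in `Pool.Agent.Work.MP_7d0410_cr.Moser`.
-/

set_option autoImplicit false

namespace Pool.Agent.Work.MP_7d0410_dl

/-- The primes `p` for which `E p` does not occur. -/
def primesMinus {Ω : Type*} (E : ℕ → Set Ω) (ω : Ω) : Set ℕ := {p | p.Prime ∧ ω ∉ E p}

end Pool.Agent.Work.MP_7d0410_dl
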